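import Pool.Agent.Lib.MP_488b8a_co.Defs

/-! Project CAPS (MP_488b8a_co), module Conv. -/

namespace Pool.Agent.CAPS

open Complex MeasureTheory

private noncomputable def Conv_ind (C : ℝ) (y : ℂ) : ℝ := (Metric.ball (0 : ℂ) (1 / 4)).indicator (fun _ => C) y

private theorem Conv_ind_int (C : ℝ) : Integrable (Conv_ind C) := by
  have h : IntegrableOn (fun _ : ℂ => C) (Metric.ball (0 : ℂ) (1 / 4)) :=
    integrableOn_const (by exact measure_ball_lt_top.ne)
  exact h.integrable_indicator Metric.isOpen_ball.measurableSet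

private theorem Conv_h_le {h : ℂ → ℂ} (hh : Hh h) {C a : ℝ} (ha : 0 ≤ a) (haC : a ≤ C) (y : ℂ) :
    a * ‖h y‖ ≤ Conv_ind C y := by
  unfold Conv_ind
  by_cases hy : y ∈ Metric.ball (0 : ℂ) (1 / 4)
  · rw [Set.indicator_of_mem hy]
    calc a * ‖h y‖ ≤ a * 1 := mul_le_mul_of_nonneg_left (hh.2.1 y) ha
      _ ≤ C := by rw [mul_one]; exact haC
  · rw [Set.indicator_of_notMem hy]
    have h1 : 1 / 4 ≤ ‖y‖ := by
      rw [Metric.mem_ball, dist_zero_right, not_lt] at hy
      exact hy
    rw [hh.2.2 y h1, norm_zero, mul_zero]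

private theorem Conv_meas {G : ℂ → ℝ} (hG : Continuous G) {h : ℂ → ℂ} (hh : Hh h) (x : ℂ) :
    AEStronglyMeasurable (fun y => (G (x - y) : ℂ) * h y) volume := by
  have h1 : Continuous fun y => (G (x - y) : ℂ) := by fun_prop
  exact h1.aestronglyMeasurable.mul hh.1.aestronglyMeasurable

theorem cv_C1 {G : ℂ → ℝ} (hG : ContDiff ℝ 1 G)
    (hb : ∃ C : ℝ, ∀ x, |G x| ≤ C ∧ ‖fderiv ℝ G x‖ ≤ C) {h : ℂ → ℂ} (hh : Hh h) :
    ContDiff ℝ 1 (cv G h) ∧ ∀ x e, fderiv ℝ (cv G h) x e = cv (fun y => fderiv ℝ G y e) h x := by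
  obtain ⟨C, hC⟩ := hb
  have hcd : Continuous (fderiv ℝ G) := hG.continuous_fderiv (by norm_num)
  have hmeas' : ∀ x, AEStronglyMeasurable (fun y => (fderiv ℝ G (x - y)).smulRight (h y))
      volume := by
    intro x
    have h1 : AEStronglyMeasurable (fun y => fderiv ℝ G (x - y)) volume :=
      (hcd.comp (continuous_const.sub continuous_id)).aestronglyMeasurable
    have h2 : AEStronglyMeasurable h volume := hh.1.aestronglyMeasurable
    have h3 : Continuous fun p : (ℂ →L[ℝ] ℝ) × ℂ => p.1.smulRight p.2 := by fun_prop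
    exact h3.comp_aestronglyMeasurable (h1.prodMk h2)
  have hbd' : ∀ x y, ‖(fderiv ℝ G (x - y)).smulRight (h y)‖ ≤ Conv_ind C y := by
    intro x y
    rw [ContinuousLinearMap.norm_smulRight_apply]
    exact Conv_h_le hh (norm_nonneg _) (hC (x - y)).2 y
  have hd : ∀ x, HasFDerivAt (cv G h) (∫ y, (fderiv ℝ G (x - y)).smulRight (h y)) x := by
    intro x
    have key := hasFDerivAt_integral_of_dominated_of_fderiv_le (𝕜 := ℝ) (μ := volume)
      (F := fun (x : ℂ) (y : ℂ) => (G (x - y) : ℂ) * h y)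
      (F' := fun (x : ℂ) (y : ℂ) => (fderiv ℝ G (x - y)).smulRight (h y))
      (x₀ := x) (bound := Conv_ind C) (s := Set.univ) Filter.univ_mem
      (Filter.Eventually.of_forall fun x => Conv_meas hG.continuous hh x)
      ?_ (hmeas' x) (Filter.Eventually.of_forall fun y x _ => hbd' x y) (Conv_ind_int C) ?_
    · exact key
    · refine (Conv_ind_int C).mono' (Conv_meas hG.continuous hh x)
        (Filter.Eventually.of_forall fun y => ?_)
      rw [norm_mul, Complex.norm_real, Real.norm_eq_abs]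
      exact Conv_h_le hh (abs_nonneg _) (hC (x - y)).1 y
    · refine Filter.Eventually.of_forall fun y x _ => ?_
      have h1 : HasFDerivAt (fun x : ℂ => G (x - y)) (fderiv ℝ G (x - y)) x := by
        have h2 : HasFDerivAt G (fderiv ℝ G (x - y)) (x - y) :=
          (hG.differentiable (by norm_num) (x - y)).hasFDerivAt
        have h3 := h2.comp x ((hasFDerivAt_id (𝕜 := ℝ) x).sub_const y)
        rw [ContinuousLinearMap.comp_id] at h3
        exact h3
      have h4 : HasFDerivAt (fun x : ℂ => G (x - y) • h y) ((fderiv ℝ G (x - y)).smulRight (h y))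
          x := h1.smul_const (h y)
      simpa only [Complex.real_smul] using h4
  have hfd : ∀ x, fderiv ℝ (cv G h) x = ∫ y, (fderiv ℝ G (x - y)).smulRight (h y) :=
    fun x => (hd x).fderiv
  refine ⟨?_, ?_⟩
  · rw [contDiff_one_iff_fderiv]
    refine ⟨fun x => (hd x).differentiableAt, ?_⟩
    have h5 : fderiv ℝ (cv G h) = fun x => ∫ y, (fderiv ℝ G (x - y)).smulRight (h y) :=
      funext hfd
    rw [h5]
    refine continuous_of_dominated (bound := Conv_ind C) (fun x => hmeas' x)
      (fun x => Filter.Eventually.of_forall fun y => hbd' x y) (Conv_ind_int C)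
      (Filter.Eventually.of_forall fun y => ?_)
    have h6 : Continuous fun x => fderiv ℝ G (x - y) :=
      hcd.comp (continuous_id.sub continuous_const)
    fun_prop
  · intro x e
    rw [hfd x, ContinuousLinearMap.integral_apply]
    · rfl
    · exact (Conv_ind_int C).mono' (hmeas' x) (Filter.Eventually.of_forall fun y => hbd' x y)

theorem cv_bound {G : ℂ → ℝ} (hG : Continuous G) {h : ℂ → ℂ} (hh : Hh h) {g : ℂ → ℝ}
    (hg : IntegrableOn g (Metric.ball 0 1)) (hGg : ∀ x, x ≠ 0 → |G x| ≤ g x) {x : ℂ}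
    (hx : ‖x‖ ≤ 3 / 4) : ‖cv G h x‖ ≤ ∫ y in Metric.ball (0 : ℂ) 1, g y := by
  have habs : Continuous fun u => |G u| := hG.abs
  have hmem : ∀ u, x - u ∈ Metric.ball (0 : ℂ) (1 / 4) → u ∈ Metric.ball (0 : ℂ) 1 := by
    intro u hu
    rw [Metric.mem_ball, dist_zero_right] at hu ⊢
    calc ‖u‖ = ‖x - (x - u)‖ := by congr 1; ring
      _ ≤ ‖x‖ + ‖x - u‖ := norm_sub_le _ _
      _ < 1 := by linarith
  have hint1 : IntegrableOn (fun u => |G u|) (Metric.ball (0 : ℂ) 1) :=
    (habs.continuousOn.integrableOn_compact (isCompact_closedBall (0 : ℂ) 1)).mono_set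
      Metric.ball_subset_closedBall
  have hind : Integrable ((Metric.ball (0 : ℂ) 1).indicator fun u => |G u|) :=
    hint1.integrable_indicator Metric.isOpen_ball.measurableSet
  have h1 : ‖cv G h x‖ ≤ ∫ y, (Metric.ball (0 : ℂ) 1).indicator (fun u => |G u|) (x - y) := by
    refine norm_integral_le_of_norm_le (hind.comp_sub_left x)
      (Filter.Eventually.of_forall fun y => ?_)
    rw [norm_mul, Complex.norm_real, Real.norm_eq_abs]
    by_cases hy : y ∈ Metric.ball (0 : ℂ) (1 / 4)
    · have h2 : x - y ∈ Metric.ball (0 : ℂ) 1 := hmem _ (by rwa [sub_sub_cancel])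
      rw [Set.indicator_of_mem h2]
      calc |G (x - y)| * ‖h y‖ ≤ |G (x - y)| * 1 :=
            mul_le_mul_of_nonneg_left (hh.2.1 y) (abs_nonneg _)
        _ = |G (x - y)| := mul_one _
    · have h3 : 1 / 4 ≤ ‖y‖ := by
        rw [Metric.mem_ball, dist_zero_right, not_lt] at hy
        exact hy
      rw [hh.2.2 y h3, norm_zero, mul_zero]
      exact Set.indicator_nonneg (fun _ _ => abs_nonneg _) _
  rw [integral_sub_left_eq_self (fun u => (Metric.ball (0 : ℂ) 1).indicator (fun u => |G u|) u)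
    volume x, integral_indicator Metric.isOpen_ball.measurableSet] at h1
  refine h1.trans (setIntegral_mono_ae_restrict hint1 hg ?_)
  have h4 : ∀ᵐ y : ℂ ∂(volume.restrict (Metric.ball (0 : ℂ) 1)), y ≠ 0 := by
    refine ae_restrict_of_ae ?_
    exact Measure.ae_ne volume 0
  filter_upwards [h4] with y hy using hGg y hy

theorem cv_bound' {G : ℂ → ℝ} (hG : Continuous G) {h : ℂ → ℂ} (hh : Hh h) {C : ℝ}
    (hC : ∀ x, |G x| ≤ C) (x : ℂ) : ‖cv G h x‖ ≤ C := by
  have hC0 : 0 ≤ C := (abs_nonneg _).trans (hC 0)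
  have h1 : ‖cv G h x‖ ≤ ∫ y, Conv_ind C y := by
    refine norm_integral_le_of_norm_le (Conv_ind_int C)
      (Filter.Eventually.of_forall fun y => ?_)
    rw [norm_mul, Complex.norm_real, Real.norm_eq_abs]
    exact Conv_h_le hh (abs_nonneg _) (hC (x - y)) y
  refine h1.trans ?_
  unfold Conv_ind
  rw [integral_indicator Metric.isOpen_ball.measurableSet, setIntegral_const, smul_eq_mul]
  have h2 : volume.real (Metric.ball (0 : ℂ) (1 / 4)) ≤ 1 := by
    rw [Measure.real, Complex.volume_ball]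
    have h3 : ENNReal.ofReal (1 / 4) ^ 2 * (NNReal.pi : ENNReal) =
        ENNReal.ofReal ((1 / 4) ^ 2 * Real.pi) := by
      rw [ENNReal.ofReal_mul (by positivity), ENNReal.ofReal_pow (by norm_num)]
      congr 1
      rw [← NNReal.coe_real_pi, ENNReal.ofReal_coe_nnreal]
    rw [h3, ENNReal.toReal_ofReal (by positivity)]
    nlinarith [Real.pi_lt_four]
  calc volume.real (Metric.ball (0 : ℂ) (1 / 4)) * C ≤ 1 * C :=
        mul_le_mul_of_nonneg_right h2 hC0
    _ = C := one_mul _

end Pool.Agent.CAPS
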