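import Pool.Agent.Lib.MP_488b8a_co.RhoInt
import Pool.Agent.Lib.MP_488b8a_co.Conv

/-! Project CAPS (MP_488b8a_co), module LimS. -/

namespace Pool.Agent.CAPS

open Complex MeasureTheory

private theorem LimS_rho_scale {s : ℝ} (hs : 0 < s) (u : ℂ) :
    s * rho s (Real.sqrt s • u) = rho 1 u := by
  unfold rho
  rw [norm_smul, Real.norm_eq_abs, abs_of_nonneg (Real.sqrt_nonneg s), mul_pow, Real.sq_sqrt hs.le]
  have h1 : s * ‖u‖ ^ 2 + s = s * (‖u‖ ^ 2 + 1) := by ring
  rw [h1]
  have h2 : (‖u‖ ^ 2 + 1) ≠ 0 := by positivity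
  have h3 := Real.pi_ne_zero
  have h4 := hs.ne'
  field_simp

private theorem LimS_cv_eq {s : ℝ} (hs : 0 < s) (h : ℂ → ℂ) (x : ℂ) :
    cv (rho s) h x = ∫ u, (rho 1 u : ℂ) * h (x - Real.sqrt s • u) := by
  unfold cv
  have h1 : ∫ y, (rho s (x - y) : ℂ) * h y = ∫ v, (rho s v : ℂ) * h (x - v) := by
    rw [← integral_sub_left_eq_self (fun y => (rho s (x - y) : ℂ) * h y) volume x]
    simp
  rw [h1]
  have h2 := Measure.integral_comp_smul volume (fun v => (rho s v : ℂ) * h (x - v)) (Real.sqrt s)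
  rw [Complex.finrank_real_complex, Real.sq_sqrt hs.le, abs_of_pos (inv_pos.mpr hs)] at h2
  have h3 : ∫ v, (rho s v : ℂ) * h (x - v) =
      s • ∫ u, (rho s (Real.sqrt s • u) : ℂ) * h (x - Real.sqrt s • u) := by
    rw [h2, smul_smul, mul_inv_cancel₀ hs.ne', one_smul]
  rw [h3, ← integral_smul]
  refine integral_congr_ae (Filter.Eventually.of_forall fun u => ?_)
  show s • ((rho s (Real.sqrt s • u) : ℂ) * h (x - Real.sqrt s • u)) =
    (rho 1 u : ℂ) * h (x - Real.sqrt s • u)
  rw [← LimS_rho_scale hs u, Complex.real_smul]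
  push_cast
  ring

private theorem LimS_rho_nonneg {s : ℝ} (hs : 0 < s) (x : ℂ) : 0 ≤ rho s x := by
  unfold rho
  have := Real.pi_pos
  positivity

private theorem LimS_rho_meas (s : ℝ) : Measurable (rho s) := by
  unfold rho
  fun_prop

private theorem LimS_cv_bound {s : ℝ} (hs : 0 < s) {h : ℂ → ℂ} (hh : Hh h) (x : ℂ) :
    ‖cv (rho s) h x‖ ≤ 1 := by
  rw [LimS_cv_eq hs]
  have h1 : ‖∫ u, (rho 1 u : ℂ) * h (x - Real.sqrt s • u)‖ ≤ ∫ u, rho 1 u := by
    refine norm_integral_le_of_norm_le int_rho.1 (Filter.Eventually.of_forall fun u => ?_)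
    rw [norm_mul, Complex.norm_real, Real.norm_eq_abs, abs_of_nonneg (LimS_rho_nonneg one_pos u)]
    have := hh.2.1 (x - Real.sqrt s • u)
    have h0 := LimS_rho_nonneg one_pos u
    nlinarith
  rw [int_rho.2] at h1
  exact h1

open Filter Topology in
private theorem LimS_cv_lim {h : ℂ → ℂ} (hh : Hh h) {x : ℂ} (hx : ContinuousAt h x) :
    Tendsto (fun s => cv (rho s) h x) (𝓝[>] 0) (𝓝 (h x)) := by
  have h1 : Tendsto (fun s : ℝ => ∫ u, (rho 1 u : ℂ) * h (x - Real.sqrt s • u)) (𝓝[>] 0)
      (𝓝 (∫ u, (rho 1 u : ℂ) * h x)) := by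
    refine tendsto_integral_filter_of_dominated_convergence (fun u => rho 1 u) ?_ ?_ int_rho.1 ?_
    · refine Eventually.of_forall fun s => ?_
      have hm : Measurable (fun u : ℂ => (rho 1 u : ℂ) * h (x - Real.sqrt s • u)) := by
        refine (Complex.measurable_ofReal.comp (LimS_rho_meas 1)).mul (hh.1.comp ?_)
        fun_prop
      exact hm.aestronglyMeasurable
    · refine Eventually.of_forall fun s => Eventually.of_forall fun u => ?_
      rw [norm_mul, Complex.norm_real, Real.norm_eq_abs, abs_of_nonneg (LimS_rho_nonneg one_pos u)]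
      have := hh.2.1 (x - Real.sqrt s • u)
      have h0 := LimS_rho_nonneg one_pos u
      nlinarith
    · refine Eventually.of_forall fun u => ?_
      refine Tendsto.const_mul _ ?_
      have h2 : Tendsto (fun s : ℝ => x - Real.sqrt s • u) (𝓝[>] 0) (𝓝 x) := by
        have h3 : Continuous (fun s : ℝ => x - Real.sqrt s • u) := by
          exact continuous_const.sub (Real.continuous_sqrt.smul continuous_const)
        have h4 := h3.tendsto 0
        simp only [Real.sqrt_zero, zero_smul, sub_zero] at h4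
        exact h4.mono_left nhdsWithin_le_nhds
      exact hx.tendsto.comp h2
  have h5 : ∫ u, (rho 1 u : ℂ) * h x = h x := by
    have h6 : ∫ u, (rho 1 u : ℂ) = ((∫ u, rho 1 u : ℝ) : ℂ) := integral_ofReal
    rw [integral_mul_const, h6, int_rho.2]
    simp
  rw [h5] at h1
  refine h1.congr' ?_
  filter_upwards [self_mem_nhdsWithin] with s hs
  exact (LimS_cv_eq hs h x).symm

private theorem LimS_cv_meas (s : ℝ) {h : ℂ → ℂ} (hh : Hh h) : StronglyMeasurable (cv (rho s) h) := by
  have hm : Measurable (fun p : ℂ × ℂ => (rho s (p.1 - p.2) : ℂ) * h p.2) := by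
    refine (Complex.measurable_ofReal.comp ((LimS_rho_meas s).comp ?_)).mul (hh.1.comp measurable_snd)
    exact measurable_fst.sub measurable_snd
  exact hm.stronglyMeasurable.integral_prod_right'

open Filter Topology in
theorem lim_s {ψ h : ℂ → ℂ} (hψ : Nice ψ) (hh : Hh h) (hc : ∀ᵐ x : ℂ, ContinuousAt h x) :
    Tendsto (fun s => GG ψ h s) (𝓝[>] 0) (𝓝 (∫ x, ψ x * (cut2 x : ℂ) * h x)) := by
  unfold GG
  have hcut : Continuous cut2 := bump2.continuous
  have hint : Integrable (fun x : ℂ => cut2 x) := bump2.integrable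
  have hnn : ∀ x, 0 ≤ cut2 x := fun x => bump2.nonneg
  refine tendsto_integral_filter_of_dominated_convergence (fun x => cut2 x) ?_ ?_ hint ?_
  · refine Eventually.of_forall fun s => ?_
    have h1 : Measurable (fun x : ℂ => ψ x * (cut2 x : ℂ)) :=
      hψ.1.mul (Complex.measurable_ofReal.comp hcut.measurable)
    exact h1.aestronglyMeasurable.mul (LimS_cv_meas s hh).aestronglyMeasurable
  · filter_upwards [self_mem_nhdsWithin] with s hs
    refine Eventually.of_forall fun x => ?_
    rw [norm_mul, norm_mul, Complex.norm_real, Real.norm_eq_abs, abs_of_nonneg (hnn x)]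
    have h1 := hψ.2.1 x
    have h2 := LimS_cv_bound hs hh x
    have h3 := hnn x
    have h4 : ‖ψ x‖ * cut2 x ≤ cut2 x := by nlinarith
    have h5 : 0 ≤ ‖ψ x‖ * cut2 x := by positivity
    nlinarith [norm_nonneg (cv (rho s) h x)]
  · filter_upwards [hc] with x hx
    exact (LimS_cv_lim hh hx).const_mul _

end Pool.Agent.CAPS
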