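import Pool.Agent.Lib.MP_488b8a_co.WF

/-! Project CAPS (MP_488b8a_co), module Step2. -/

namespace Pool.Agent.CAPS

open Complex MeasureTheory

namespace Step2

private theorem cut2_smooth : ContDiff ℝ 1 cut2 := bump2.contDiff

private theorem cut2_nonneg (x : ℂ) : 0 ≤ cut2 x := bump2.nonneg

private theorem cut2_le_one (x : ℂ) : cut2 x ≤ 1 := bump2.le_one

private theorem cut2_compact : HasCompactSupport cut2 := bump2.hasCompactSupport

private theorem cut2_zero {x : ℂ} (hx : 3 / 8 ≤ ‖x‖) : cut2 x = 0 := by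
  refine bump2.zero_of_le_dist ?_
  rw [dist_zero_right]
  exact hx

private theorem fderiv_cut2_cont : Continuous (fderiv ℝ cut2) :=
  cut2_smooth.continuous_fderiv one_ne_zero

private theorem fderiv_cut2_compact : HasCompactSupport (fderiv ℝ cut2) :=
  cut2_compact.fderiv ℝ

private theorem fderiv_cut2_bdd : ∃ C : ℝ, 0 ≤ C ∧ ∀ x, ‖fderiv ℝ cut2 x‖ ≤ C := by
  obtain ⟨C, hC⟩ := fderiv_cut2_compact.exists_bound_of_continuous fderiv_cut2_cont
  exact ⟨C, le_trans (norm_nonneg _) (hC 0), hC⟩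

/-- measurable bounded times continuous with compact support -/
private theorem int_psi {ψ k : ℂ → ℂ} (hψ : Nice ψ) (hk : Continuous k)
    (hc : HasCompactSupport k) : Integrable (fun x => ψ x * k x) := by
  refine Integrable.mono (hk.integrable_of_hasCompactSupport hc)
    (hψ.1.aestronglyMeasurable.mul hk.aestronglyMeasurable) (Filter.Eventually.of_forall ?_)
  intro x
  rw [norm_mul]
  exact mul_le_of_le_one_left (norm_nonneg _) (hψ.2.1 x)

private theorem int_psi_le {ψ k : ℂ → ℂ} (hψ : Nice ψ) {g : ℂ → ℝ}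
    (hg : Integrable g) (h : ∀ x, ‖k x‖ ≤ g x) : ‖∫ x, ψ x * k x‖ ≤ ∫ x, g x := by
  refine norm_integral_le_of_norm_le hg (Filter.Eventually.of_forall ?_)
  intro x
  rw [norm_mul]
  exact le_trans (mul_le_of_le_one_left (norm_nonneg _) (hψ.2.1 x)) (h x)

/-- the derivative of the product with the cutoff function -/
private theorem hasFDerivAt_f {g : ℂ → ℂ} (hg : ContDiff ℝ 1 g) (x : ℂ) :
    HasFDerivAt (fun y => (cut2 y : ℂ) * g y)
      ((cut2 x : ℂ) • fderiv ℝ g x + g x • (Complex.ofRealCLM.comp (fderiv ℝ cut2 x))) x := by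
  have h1 : HasFDerivAt (fun y => (cut2 y : ℂ)) (Complex.ofRealCLM.comp (fderiv ℝ cut2 x)) x :=
    Complex.ofRealCLM.hasFDerivAt.comp x
      ((cut2_smooth.differentiable one_ne_zero) x).hasFDerivAt
  exact h1.mul ((hg.differentiable one_ne_zero) x).hasFDerivAt

private theorem contDiff_f {g : ℂ → ℂ} (hg : ContDiff ℝ 1 g) :
    ContDiff ℝ 1 (fun y => (cut2 y : ℂ) * g y) :=
  (Complex.ofRealCLM.contDiff.comp cut2_smooth).mul hg

private theorem f_compact (g : ℂ → ℂ) : HasCompactSupport (fun y => (cut2 y : ℂ) * g y) := by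
  have h1 : HasCompactSupport (fun y => (cut2 y : ℂ)) :=
    cut2_compact.comp_left Complex.ofReal_zero
  exact h1.mul_right

private theorem f_tsupport (g : ℂ → ℂ) :
    tsupport (fun y => (cut2 y : ℂ) * g y) ⊆ Metric.ball 0 (1 / 2) := by
  have h1 : tsupport (fun y => (cut2 y : ℂ) * g y) ⊆ Metric.closedBall 0 (3 / 8) := by
    refine closure_minimal ?_ Metric.isClosed_closedBall
    intro x hx
    rw [Function.mem_support] at hx
    rw [mem_closedBall_zero_iff]
    by_contra hc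
    apply hx
    rw [cut2_zero (by linarith), Complex.ofReal_zero, zero_mul]
  refine h1.trans (Metric.closedBall_subset_ball (by norm_num))

/-- the estimate for one direction -/
private theorem dir {ψ : ℂ → ℂ} (hψ : Nice ψ) {η₁ η₂ : ℝ} (h1 : 0 ≤ η₁) (h2 : 0 ≤ η₂)
    (hH : H2 ψ η₁ η₂) {e : ℂ} (he : e = 1 ∨ e = I) {g : ℂ → ℂ} (hg : ContDiff ℝ 1 g) {b b' Cc : ℝ}
    (hb : ∀ x, ‖x‖ ≤ 1 / 2 → ‖g x‖ ≤ b) (hb' : ∀ x, ‖x‖ ≤ 1 / 2 → ‖fderiv ℝ g x‖ ≤ b')
    (hCc : ∀ x, ‖fderiv ℝ cut2 x‖ ≤ Cc) (hb0 : 0 ≤ b) (hb0' : 0 ≤ b') :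
    ‖∫ x, ψ x * ((cut2 x : ℂ) * fderiv ℝ g x e)‖ ≤
      η₁ * b + η₂ * (b' + b * Cc) + b * (6 * ∫ x, cut2 x) + b * ∫ x, ‖fderiv ℝ cut2 x‖ := by
  have hen : ‖e‖ ≤ 1 := by
    rcases he with rfl | rfl <;> simp
  have hCc0 : 0 ≤ Cc := le_trans (norm_nonneg _) (hCc 0)
  have hAA : ∀ x, |AA e x| ≤ 1 := by
    intro x
    unfold AA
    rw [abs_div, abs_of_pos (by positivity : (0 : ℝ) < 1 + ‖x‖ ^ 2), div_le_one (by positivity)]
    have h3 : |crs x e| ≤ ‖x‖ * ‖e‖ := by
      have h4 : crs x e = ((starRingEnd ℂ) x * e).im := by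
        simp [crs, Complex.mul_im]
        ring
      rw [h4]
      calc |((starRingEnd ℂ) x * e).im| ≤ ‖(starRingEnd ℂ) x * e‖ := Complex.abs_im_le_norm _
        _ = ‖x‖ * ‖e‖ := by rw [norm_mul, Complex.norm_conj]
    have h5 : ‖x‖ * ‖e‖ ≤ ‖x‖ := mul_le_of_le_one_right (norm_nonneg _) hen
    rw [abs_mul, abs_of_pos (two_pos : (0 : ℝ) < 2)]
    nlinarith [sq_nonneg (‖x‖ - 1)]
  have hAAc : Continuous (fun x => AA e x) := by
    unfold AA crs
    refine Continuous.div (by fun_prop) (by fun_prop) (fun x => by positivity)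
  set f : ℂ → ℂ := fun y => (cut2 y : ℂ) * g y with hf
  have hfd : ∀ x v, fderiv ℝ f x v = (cut2 x : ℂ) * fderiv ℝ g x v +
      (fderiv ℝ cut2 x v : ℂ) * g x := by
    intro x v
    rw [(hasFDerivAt_f hg x).fderiv]
    simp [smul_eq_mul]
    ring
  have hfn : ∀ x, ‖f x‖ ≤ b := by
    intro x
    by_cases hx : ‖x‖ ≤ 1 / 2
    · rw [hf]
      beta_reduce
      rw [norm_mul, Complex.norm_real, Real.norm_of_nonneg (cut2_nonneg x)]
      exact le_trans (mul_le_of_le_one_left (norm_nonneg _) (cut2_le_one x)) (hb x hx)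
    · rw [hf]
      beta_reduce
      rw [cut2_zero (by linarith), Complex.ofReal_zero, zero_mul, norm_zero]
      exact hb0
  have hfn2 : ∀ x, ‖f x‖ ≤ b * cut2 x := by
    intro x
    by_cases hx : ‖x‖ ≤ 1 / 2
    · rw [hf]
      beta_reduce
      rw [norm_mul, Complex.norm_real, Real.norm_of_nonneg (cut2_nonneg x), mul_comm]
      exact mul_le_mul_of_nonneg_right (hb x hx) (cut2_nonneg x)
    · rw [hf]
      beta_reduce
      rw [cut2_zero (by linarith), Complex.ofReal_zero, zero_mul, norm_zero, mul_zero]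
  have hfdn : ∀ x, ‖fderiv ℝ f x‖ ≤ b' + b * Cc := by
    intro x
    by_cases hx : ‖x‖ ≤ 1 / 2
    · rw [(hasFDerivAt_f hg x).fderiv]
      refine le_trans (norm_add_le _ _) (add_le_add ?_ ?_)
      · rw [norm_smul, Complex.norm_real, Real.norm_of_nonneg (cut2_nonneg x)]
        exact le_trans (mul_le_of_le_one_left (norm_nonneg _) (cut2_le_one x)) (hb' x hx)
      · rw [norm_smul]
        refine mul_le_mul (hb x hx) ?_ (norm_nonneg _) hb0
        refine le_trans (ContinuousLinearMap.opNorm_comp_le _ _) ?_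
        rw [Complex.ofRealCLM_norm, one_mul]
        exact hCc x
    · have h3 : x ∉ tsupport f := by
        intro h4
        have h5 := f_tsupport g h4
        rw [mem_ball_zero_iff] at h5
        linarith
      have h6 : fderiv ℝ f x = 0 := by
        by_contra h7
        exact h3 (support_fderiv_subset ℝ h7)
      rw [h6, norm_zero]
      positivity
  have hmain := hH e he f (contDiff_f hg) (f_tsupport g) b (b' + b * Cc) hfn hfdn
  have hfdc : Continuous (fun x => fderiv ℝ f x e) :=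
    ((contDiff_f hg).continuous_fderiv one_ne_zero).clm_apply continuous_const
  have hfdcs : HasCompactSupport (fun x => fderiv ℝ f x e) :=
    (f_compact g).fderiv_apply ℝ e
  have hI0 : Integrable cut2 := cut2_smooth.continuous.integrable_of_hasCompactSupport cut2_compact
  have hI1 : Integrable (fun x => ‖fderiv ℝ cut2 x‖) :=
    (fderiv_cut2_cont.integrable_of_hasCompactSupport fderiv_cut2_compact).norm
  -- the three pieces
  have c1 : Continuous (fun x => fderiv ℝ f x e + 6 * I * (AA e x : ℂ) * f x) := by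
    refine hfdc.add ((continuous_const.mul (Complex.continuous_ofReal.comp hAAc)).mul
      (contDiff_f hg).continuous)
  have s1 : HasCompactSupport (fun x => fderiv ℝ f x e + 6 * I * (AA e x : ℂ) * f x) :=
    hfdcs.add ((f_compact g).mul_left)
  have c2 : Continuous (fun x => 6 * I * (AA e x : ℂ) * f x) :=
    (continuous_const.mul (Complex.continuous_ofReal.comp hAAc)).mul (contDiff_f hg).continuous
  have s2 : HasCompactSupport (fun x => 6 * I * (AA e x : ℂ) * f x) := (f_compact g).mul_left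
  have hdc : Continuous (fun x => (fderiv ℝ cut2 x e : ℂ)) :=
    Complex.continuous_ofReal.comp (fderiv_cut2_cont.clm_apply continuous_const)
  have c3 : Continuous (fun x => (fderiv ℝ cut2 x e : ℂ) * g x) := hdc.mul hg.continuous
  have s3 : HasCompactSupport (fun x => (fderiv ℝ cut2 x e : ℂ) * g x) := by
    have h3 : HasCompactSupport (fun x => (fderiv ℝ cut2 x e : ℂ)) :=
      (cut2_compact.fderiv_apply ℝ e).comp_left Complex.ofReal_zero
    exact h3.mul_right
  have hsplit : ∫ x, ψ x * ((cut2 x : ℂ) * fderiv ℝ g x e) =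
      (∫ x, ψ x * (fderiv ℝ f x e + 6 * I * (AA e x : ℂ) * f x)) -
      (∫ x, ψ x * (6 * I * (AA e x : ℂ) * f x)) -
      ∫ x, ψ x * ((fderiv ℝ cut2 x e : ℂ) * g x) := by
    have i12 : Integrable (fun x => ψ x * (fderiv ℝ f x e + 6 * I * (AA e x : ℂ) * f x) -
        ψ x * (6 * I * (AA e x : ℂ) * f x)) := (int_psi hψ c1 s1).sub (int_psi hψ c2 s2)
    rw [← integral_sub (int_psi hψ c1 s1) (int_psi hψ c2 s2),
      ← integral_sub i12 (int_psi hψ c3 s3)]
    refine integral_congr_ae (Filter.Eventually.of_forall (fun x => ?_))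
    beta_reduce
    rw [hfd x e]
    ring
  have b2 : ‖∫ x, ψ x * (6 * I * (AA e x : ℂ) * f x)‖ ≤ b * (6 * ∫ x, cut2 x) := by
    have h3 := int_psi_le (k := fun x => 6 * I * (AA e x : ℂ) * f x)
      (g := fun x => (b * 6) * cut2 x) hψ (hI0.const_mul _) (by
      intro x
      rw [norm_mul, norm_mul, norm_mul, Complex.norm_I, Complex.norm_real, Real.norm_eq_abs]
      have h4 := hfn2 x
      have h5 : ‖(6 : ℂ)‖ = 6 := by norm_num
      rw [h5, mul_one]
      calc 6 * |AA e x| * ‖f x‖ ≤ 6 * 1 * (b * cut2 x) := by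
            refine mul_le_mul (mul_le_mul_of_nonneg_left (hAA x) (by norm_num)) h4
              (norm_nonneg _) (by norm_num)
        _ = _ := by ring)
    rw [integral_const_mul] at h3
    calc _ ≤ _ := h3
      _ = _ := by ring
  have b3 : ‖∫ x, ψ x * ((fderiv ℝ cut2 x e : ℂ) * g x)‖ ≤ b * ∫ x, ‖fderiv ℝ cut2 x‖ := by
    have h3 := int_psi_le (k := fun x => (fderiv ℝ cut2 x e : ℂ) * g x)
      (g := fun x => b * ‖fderiv ℝ cut2 x‖) hψ (hI1.const_mul _) (by
      intro x
      rw [norm_mul, Complex.norm_real]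
      have h4 : ‖fderiv ℝ cut2 x e‖ ≤ ‖fderiv ℝ cut2 x‖ :=
        le_trans ((fderiv ℝ cut2 x).le_opNorm e) (mul_le_of_le_one_right (norm_nonneg _) hen)
      by_cases hx : ‖x‖ ≤ 1 / 2
      · rw [mul_comm]
        exact mul_le_mul (hb x hx) h4 (norm_nonneg _) hb0
      · have h5 : x ∉ tsupport cut2 := by
          rw [show tsupport cut2 = Metric.closedBall 0 (3 / 8) from bump2.tsupport_eq,
            mem_closedBall_zero_iff]
          linarith
        have h6 : fderiv ℝ cut2 x = 0 := by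
          by_contra h7
          exact h5 (support_fderiv_subset ℝ h7)
        rw [h6]
        simp)
    rw [integral_const_mul] at h3
    exact h3
  rw [hsplit]
  refine le_trans (norm_sub_le _ _) (add_le_add (le_trans (norm_sub_le _ _) ?_) b3)
  exact add_le_add hmain b2

end Step2

theorem step2 : ∃ C : ℝ, 0 < C ∧ ∀ (ψ h : ℂ → ℂ) (η₁ η₂ s T : ℝ), Nice ψ → Hh h → 0 ≤ η₁ →
    0 ≤ η₂ → H2 ψ η₁ η₂ → 0 < s → s ≤ T → T ≤ 1 →
    ‖GG ψ h s - GG ψ h T‖ ≤
      C * ((1 + η₁) * Real.sqrt T + η₂ * (1 + Real.log (1 / s))) := by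
  obtain ⟨C0, hC0, hW⟩ := W_facts
  obtain ⟨Cc, hCc0, hCc⟩ := Step2.fderiv_cut2_bdd
  set V0 := ∫ x, cut2 x with hV0
  set V1 := ∫ x, ‖fderiv ℝ cut2 x‖ with hV1
  have hV0n : 0 ≤ V0 := integral_nonneg Step2.cut2_nonneg
  have hV1n : 0 ≤ V1 := integral_nonneg (fun x => norm_nonneg _)
  refine ⟨2 * C0 * (1 + Cc + 6 * V0 + V1), by positivity, ?_⟩
  intro ψ h η₁ η₂ s T hψ hh h1 h2 hH hs hsT hT1
  obtain ⟨hreg, hbd, hlap⟩ := hW s T h hs hsT hT1 hh
  have hT : 0 < T := lt_of_lt_of_le hs hsT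
  have hs1 : s ≤ 1 := le_trans hsT hT1
  have hlog : 0 ≤ Real.log (1 / s) := Real.log_nonneg (by rw [le_div_iff₀ hs]; linarith)
  have hsq1 : Real.sqrt T ≤ 1 := Real.sqrt_le_one.mpr hT1
  have hsq0 : 0 ≤ Real.sqrt T := Real.sqrt_nonneg _
  -- continuity of the convolutions
  have hcr : ∀ {a : ℝ}, 0 < a → Continuous (cv (rho a) h) := by
    intro a ha
    obtain ⟨B, hB⟩ := rho_bdd ha
    exact (cv_C1 ((rho_smooth ha).of_le (by norm_num)) ⟨B, fun x => ⟨(hB x).1, (hB x).2.1⟩⟩
      hh).1.continuous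
  have hcc : Continuous (fun x => (cut2 x : ℂ)) :=
    Complex.continuous_ofReal.comp Step2.cut2_smooth.continuous
  have hIG : ∀ {a : ℝ}, 0 < a → Integrable (fun x => ψ x * ((cut2 x : ℂ) * cv (rho a) h x)) := by
    intro a ha
    exact Step2.int_psi hψ (hcc.mul (hcr ha)) (Step2.f_compact _)
  have hGG : ∀ a : ℝ, GG ψ h a = ∫ x, ψ x * ((cut2 x : ℂ) * cv (rho a) h x) := by
    intro a
    unfold GG
    refine integral_congr_ae (Filter.Eventually.of_forall (fun x => ?_))
    simp only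
    ring
  set W := cv (KK s T) h with hWdef
  have hID : ∀ e : ℂ, Integrable (fun x => ψ x * ((cut2 x : ℂ) *
      fderiv ℝ (fun y => fderiv ℝ W y e) x e)) := by
    intro e
    refine Step2.int_psi hψ (hcc.mul ?_) (Step2.f_compact _)
    exact ((hreg e).continuous_fderiv one_ne_zero).clm_apply continuous_const
  have hkey : GG ψ h s - GG ψ h T =
      -((∫ x, ψ x * ((cut2 x : ℂ) * fderiv ℝ (fun y => fderiv ℝ W y 1) x 1)) +
        ∫ x, ψ x * ((cut2 x : ℂ) * fderiv ℝ (fun y => fderiv ℝ W y I) x I)) := by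
    rw [hGG, hGG, ← integral_sub (hIG hs) (hIG hT), ← integral_add (hID 1) (hID I),
      ← integral_neg]
    refine integral_congr_ae (Filter.Eventually.of_forall (fun x => ?_))
    have h3 := hlap x
    simp only
    have h4 : cv (rho s) h x = cv (rho T) h x -
        (fderiv ℝ (fun y => fderiv ℝ W y 1) x 1 + fderiv ℝ (fun y => fderiv ℝ W y I) x I) := by
      rw [h3]
      ring
    rw [h4]
    ring
  have hdir : ∀ e : ℂ, (e = 1 ∨ e = I) →
      ‖∫ x, ψ x * ((cut2 x : ℂ) * fderiv ℝ (fun y => fderiv ℝ W y e) x e)‖ ≤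
        C0 * (1 + Cc + 6 * V0 + V1) *
          ((1 + η₁) * Real.sqrt T + η₂ * (1 + Real.log (1 / s))) := by
    intro e he
    have hen : ‖e‖ ≤ 1 := by
      rcases he with rfl | rfl <;> simp
    have h3 := Step2.dir hψ h1 h2 hH he (hreg e) (b := C0 * Real.sqrt T)
      (b' := C0 * (1 + Real.log (1 / s))) (Cc := Cc)
      (fun x hx => (hbd x e hx hen).1) (fun x hx => (hbd x e hx hen).2) hCc (by positivity)
      (by positivity)
    refine le_trans h3 ?_
    rw [← hV0, ← hV1]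
    have h4 : C0 * Real.sqrt T * Cc ≤ C0 * (1 + Real.log (1 / s)) * Cc := by
      refine mul_le_mul_of_nonneg_right (mul_le_mul_of_nonneg_left ?_ hC0.le) hCc0
      linarith
    have h5 : η₂ * (C0 * (1 + Real.log (1 / s)) + C0 * Real.sqrt T * Cc) ≤
        η₂ * (C0 * (1 + Real.log (1 / s)) * (1 + Cc)) := by
      refine mul_le_mul_of_nonneg_left ?_ h2
      linarith
    have h6 : C0 * (1 + Cc + 6 * V0 + V1) *
          ((1 + η₁) * Real.sqrt T + η₂ * (1 + Real.log (1 / s))) =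
        η₁ * (C0 * Real.sqrt T) + η₂ * (C0 * (1 + Real.log (1 / s)) * (1 + Cc)) +
          C0 * Real.sqrt T * (6 * V0) + C0 * Real.sqrt T * V1 +
        (C0 * Real.sqrt T + C0 * Real.sqrt T * Cc + C0 * Real.sqrt T * η₁ * (Cc + 6 * V0 + V1) +
          C0 * (η₂ * (1 + Real.log (1 / s))) * (6 * V0 + V1)) := by ring
    rw [h6]
    have h7 : 0 ≤ C0 * Real.sqrt T + C0 * Real.sqrt T * Cc +
        C0 * Real.sqrt T * η₁ * (Cc + 6 * V0 + V1) +
          C0 * (η₂ * (1 + Real.log (1 / s))) * (6 * V0 + V1) := by positivity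
    linarith
  rw [hkey, norm_neg]
  refine le_trans (norm_add_le _ _) (le_trans (add_le_add (hdir 1 (Or.inl rfl))
    (hdir I (Or.inr rfl))) (le_of_eq ?_))
  ring

end Pool.Agent.CAPS
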