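import Pool.Agent.Lib.MP_488b8a_co.RF

/-! Project CAPS (MP_488b8a_co), module Weak. -/

namespace Pool.Agent.CAPS

open Complex MeasureTheory

/-- bounds of a `C¹` function with compact support -/
theorem wk_bdd {p : ℂ → ℂ} (hp : ContDiff ℝ 1 p) (hc : HasCompactSupport p) :
    ∃ P : ℝ, 0 ≤ P ∧ (∀ x, ‖p x‖ ≤ P) ∧ ∀ x, ‖fderiv ℝ p x‖ ≤ P := by
  obtain ⟨P1, h1⟩ := hp.continuous.bounded_above_of_compact_support hc
  obtain ⟨P2, h2⟩ := (hp.continuous_fderiv one_ne_zero).bounded_above_of_compact_support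
    (hc.fderiv ℝ)
  exact ⟨max P1 P2, le_trans (norm_nonneg _) (le_trans (h1 0) (le_max_left _ _)),
    fun x => (h1 x).trans (le_max_left _ _), fun x => (h2 x).trans (le_max_right _ _)⟩

/-- bounds of a product -/
theorem wk_prod {p R : ℂ → ℂ} (hp : ContDiff ℝ 1 p) (hR : ContDiff ℝ 1 R) {P C : ℝ}
    (hP : 0 ≤ P) (hC : 0 ≤ C)
    (h1 : ∀ x, ‖p x‖ ≤ P) (h2 : ∀ x, ‖fderiv ℝ p x‖ ≤ P) (h3 : ∀ x, ‖R x‖ ≤ C)
    (h4 : ∀ x, ‖fderiv ℝ R x‖ ≤ C) :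
    ContDiff ℝ 1 (fun x => p x * R x) ∧ (∀ x, ‖p x * R x‖ ≤ P * C) ∧
      ∀ x, ‖fderiv ℝ (fun x => p x * R x) x‖ ≤ 2 * (P * C) := by
  refine ⟨hp.mul hR, fun x => ?_, fun x => ?_⟩
  · rw [norm_mul]
    exact mul_le_mul (h1 x) (h3 x) (norm_nonneg _) hP
  · rw [fderiv_fun_mul (hp.differentiable one_ne_zero x) (hR.differentiable one_ne_zero x)]
    refine (norm_add_le _ _).trans ?_
    rw [norm_smul, norm_smul]
    have := mul_le_mul (h1 x) (h4 x) (norm_nonneg _) hP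
    have := mul_le_mul (h3 x) (h2 x) (norm_nonneg _) hC
    linarith

/-- the combination `p R + k S` -/
theorem wk_comb {p k R S : ℂ → ℂ} (hp : ContDiff ℝ 1 p) (hk : ContDiff ℝ 1 k)
    (hR : ContDiff ℝ 1 R) (hS : ContDiff ℝ 1 S) {P K C : ℝ}
    (hP : 0 ≤ P) (hK : 0 ≤ K) (hC : 0 ≤ C)
    (h1 : ∀ x, ‖p x‖ ≤ P) (h2 : ∀ x, ‖fderiv ℝ p x‖ ≤ P)
    (k1 : ∀ x, ‖k x‖ ≤ K) (k2 : ∀ x, ‖fderiv ℝ k x‖ ≤ K)
    (h3 : ∀ x, ‖R x‖ ≤ C) (h4 : ∀ x, ‖fderiv ℝ R x‖ ≤ C)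
    (s3 : ∀ x, ‖S x‖ ≤ C) (s4 : ∀ x, ‖fderiv ℝ S x‖ ≤ C) :
    ContDiff ℝ 1 (fun x => p x * R x + k x * S x) ∧
      (∀ x, ‖p x * R x + k x * S x‖ ≤ 2 * ((P + K) * C)) ∧
      ∀ x, ‖fderiv ℝ (fun x => p x * R x + k x * S x) x‖ ≤ 2 * ((P + K) * C) := by
  obtain ⟨a1, a2, a3⟩ := wk_prod hp hR hP hC h1 h2 h3 h4
  obtain ⟨b1, b2, b3⟩ := wk_prod hk hS hK hC k1 k2 s3 s4
  refine ⟨a1.add b1, fun x => ?_, fun x => ?_⟩
  · refine (norm_add_le _ _).trans ?_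
    have := a2 x
    have := b2 x
    have : 0 ≤ P * C := mul_nonneg hP hC
    have : 0 ≤ K * C := mul_nonneg hK hC
    nlinarith
  · rw [fderiv_fun_add (a1.differentiable one_ne_zero x) (b1.differentiable one_ne_zero x)]
    refine (norm_add_le _ _).trans ?_
    have := a3 x
    have := b3 x
    nlinarith

theorem wk_nsq (x : ℂ) : ‖x‖ ^ 2 = x.re ^ 2 + x.im ^ 2 := by
  rw [Complex.sq_norm, Complex.normSq_apply]; ring

theorem wk_pos (x : ℂ) : 0 < 1 + ‖x‖ ^ 2 := by positivity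

theorem wk_nsm : ContDiff ℝ 2 (fun x : ℂ => 1 + ‖x‖ ^ 2) := contDiff_const.add (contDiff_norm_sq ℝ)

theorem wk_AAsm (e : ℂ) : ContDiff ℝ 2 (AA e) := by
  unfold AA crs
  refine ContDiff.div ?_ wk_nsm (fun x => (wk_pos x).ne')
  refine contDiff_const.mul ?_
  exact (reCLM.contDiff.mul contDiff_const).sub (imCLM.contDiff.mul contDiff_const)

theorem wk_dir {f : ℂ → ℝ} {x : ℂ} (hf : DifferentiableAt ℝ f x) (e : ℂ) :
    HasDerivAt (fun t : ℝ => f (x + t • e)) (fderiv ℝ f x e) 0 := by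
  have h1 : HasDerivAt (fun t : ℝ => x + t • e) e 0 := by
    simpa using ((hasDerivAt_id (0 : ℝ)).smul_const e).const_add x
  have h2 : HasFDerivAt f (fderiv ℝ f x) ((fun t : ℝ => x + t • e) 0) := by
    simpa using hf.hasFDerivAt
  exact h2.comp_hasDerivAt (0 : ℝ) h1

theorem wk_curl (x : ℂ) :
    fderiv ℝ (AA I) x 1 - fderiv ℝ (AA 1) x I = 4 / (1 + ‖x‖ ^ 2) ^ 2 := by
  have hx : (1 : ℝ) + (x.re ^ 2 + x.im ^ 2) ≠ 0 := by positivity
  have e1 : fderiv ℝ (AA I) x 1 =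
      (2 * (1 + (x.re ^ 2 + x.im ^ 2)) - 2 * x.re * (2 * x.re)) /
        (1 + (x.re ^ 2 + x.im ^ 2)) ^ 2 := by
    have h1 := wk_dir ((wk_AAsm I).differentiable two_ne_zero x) 1
    have h2 : HasDerivAt (fun t : ℝ => 2 * (x.re + t) / (1 + ((x.re + t) ^ 2 + x.im ^ 2)))
        ((2 * (1 + (x.re ^ 2 + x.im ^ 2)) - 2 * x.re * (2 * x.re)) /
        (1 + (x.re ^ 2 + x.im ^ 2)) ^ 2) 0 := by
      have hid : HasDerivAt (fun t : ℝ => x.re + t) 1 0 := (hasDerivAt_id (0 : ℝ)).const_add x.re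
      have ha : HasDerivAt (fun t : ℝ => 2 * (x.re + t)) (2 * 1) 0 := hid.const_mul 2
      have hb : HasDerivAt (fun t : ℝ => 1 + ((x.re + t) ^ 2 + x.im ^ 2))
          (((2 : ℕ) : ℝ) * (x.re + 0) ^ (2 - 1) * 1) 0 := ((hid.pow 2).add_const _).const_add _
      have hc := ha.div hb (by simpa using hx)
      refine hc.congr_deriv ?_
      simp
    refine h1.unique (h2.congr_of_eventuallyEq (Filter.Eventually.of_forall fun t => ?_))
    simp [AA, crs, wk_nsq]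
  have e2 : fderiv ℝ (AA 1) x I =
      -((2 * (1 + (x.re ^ 2 + x.im ^ 2)) - 2 * x.im * (2 * x.im)) /
        (1 + (x.re ^ 2 + x.im ^ 2)) ^ 2) := by
    have h1 := wk_dir ((wk_AAsm 1).differentiable two_ne_zero x) I
    have h2 : HasDerivAt (fun t : ℝ => -(2 * (x.im + t) / (1 + (x.re ^ 2 + (x.im + t) ^ 2))))
        (-((2 * (1 + (x.re ^ 2 + x.im ^ 2)) - 2 * x.im * (2 * x.im)) /
        (1 + (x.re ^ 2 + x.im ^ 2)) ^ 2)) 0 := by
      have hid : HasDerivAt (fun t : ℝ => x.im + t) 1 0 := (hasDerivAt_id (0 : ℝ)).const_add x.im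
      have ha : HasDerivAt (fun t : ℝ => 2 * (x.im + t)) (2 * 1) 0 := hid.const_mul 2
      have hb : HasDerivAt (fun t : ℝ => 1 + (x.re ^ 2 + (x.im + t) ^ 2))
          (((2 : ℕ) : ℝ) * (x.im + 0) ^ (2 - 1) * 1) 0 := ((hid.pow 2).const_add _).const_add _
      have hc := (ha.div hb (by simpa using hx)).neg
      refine hc.congr_deriv ?_
      simp
    refine h1.unique (h2.congr_of_eventuallyEq (Filter.Eventually.of_forall fun t => ?_))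
    simp [AA, crs, wk_nsq]
    ring
  rw [e1, e2, wk_nsq]
  field_simp
  ring

theorem wk_sym {Z : ℂ → ℂ} (hZ : ContDiff ℝ 2 Z) (x v w : ℂ) :
    fderiv ℝ (fun y => fderiv ℝ Z y v) x w = fderiv ℝ (fun y => fderiv ℝ Z y w) x v := by
  have hd : DifferentiableAt ℝ (fderiv ℝ Z) x :=
    (hZ.fderiv_right (m := 1) le_rfl).differentiable one_ne_zero x
  have hs : IsSymmSndFDerivAt ℝ Z x :=
    (hZ.contDiffAt (x := x)).isSymmSndFDerivAt (by simp)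
  have h1 : ∀ u : ℂ, fderiv ℝ (fun y => fderiv ℝ Z y u) x = (fderiv ℝ (fderiv ℝ Z) x).flip u := by
    intro u
    rw [fderiv_clm_apply hd (differentiableAt_const u)]
    simp
  rw [h1, h1]
  exact hs w v

theorem wk_fd {Z : ℂ → ℂ} (hZ : ContDiff ℝ 2 Z) (v : ℂ) :
    ContDiff ℝ 1 (fun y => fderiv ℝ Z y v) :=
  (hZ.fderiv_right (m := 1) le_rfl).clm_apply contDiff_const

theorem wk_AAc (e x v : ℂ) :
    fderiv ℝ (fun y => (AA e y : ℂ)) x v = ((fderiv ℝ (AA e) x v : ℝ) : ℂ) := by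
  have h1 : HasFDerivAt (fun y => (AA e y : ℂ)) (ofRealCLM.comp (fderiv ℝ (AA e) x)) x :=
    ofRealCLM.hasFDerivAt.comp x ((wk_AAsm e).differentiable two_ne_zero x).hasFDerivAt
  rw [h1.fderiv]
  rfl

theorem wk_one {Z : ℂ → ℂ} (hZ : ContDiff ℝ 2 Z) (e v x w : ℂ) :
    fderiv ℝ (fun y => fderiv ℝ Z y v + 6 * I * (AA e y : ℂ) * Z y) x w =
      fderiv ℝ (fun y => fderiv ℝ Z y v) x w +
        6 * I * (((fderiv ℝ (AA e) x w : ℝ) : ℂ) * Z x + (AA e x : ℂ) * fderiv ℝ Z x w) := by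
  have hA : ContDiff ℝ 2 (fun y => (AA e y : ℂ)) := ofRealCLM.contDiff.comp (wk_AAsm e)
  have d1 : DifferentiableAt ℝ (fun y => fderiv ℝ Z y v) x :=
    (wk_fd hZ v).differentiable one_ne_zero x
  have d2 : DifferentiableAt ℝ (fun y => (AA e y : ℂ)) x := hA.differentiable two_ne_zero x
  have d3 : DifferentiableAt ℝ Z x := hZ.differentiable two_ne_zero x
  have d4 : DifferentiableAt ℝ (fun y => 6 * I * (AA e y : ℂ)) x := d2.const_mul _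
  have d5 : DifferentiableAt ℝ (fun y => 6 * I * (AA e y : ℂ) * Z y) x := d4.mul d3
  rw [fderiv_fun_add d1 d5, fderiv_fun_mul d4 d3, fderiv_const_mul d2]
  simp only [add_apply, smul_apply, smul_eq_mul, wk_AAc]
  ring

theorem wk_comm {Z : ℂ → ℂ} (hZ : ContDiff ℝ 2 Z) (x : ℂ) :
    (fderiv ℝ (fun y => fderiv ℝ Z y I + 6 * I * (AA I y : ℂ) * Z y) x 1 +
        6 * I * (AA 1 x : ℂ) * (fderiv ℝ Z x I + 6 * I * (AA I x : ℂ) * Z x)) -
      (fderiv ℝ (fun y => fderiv ℝ Z y 1 + 6 * I * (AA 1 y : ℂ) * Z y) x I +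
        6 * I * (AA I x : ℂ) * (fderiv ℝ Z x 1 + 6 * I * (AA 1 x : ℂ) * Z x)) =
      6 * I * ((4 / (1 + ‖x‖ ^ 2) ^ 2 : ℝ) : ℂ) * Z x := by
  rw [wk_one hZ, wk_one hZ, wk_sym hZ x I 1, ← wk_curl x]
  push_cast
  ring


/-- the fixed cutoff -/
noncomputable def wkk (x : ℂ) : ℂ := ((cut2 x * ((1 + ‖x‖ ^ 2) ^ 2 / 4) : ℝ) : ℂ)

theorem wkk_smooth : ContDiff ℝ 2 wkk := by
  unfold wkk cut2
  refine ofRealCLM.contDiff.comp ?_
  have h1 : ContDiff ℝ 2 (fun x : ℂ => 1 + ‖x‖ ^ 2) := contDiff_const.add (contDiff_norm_sq ℝ)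
  exact bump2.contDiff.mul ((h1.pow 2).div_const 4)

theorem wk_cut2_zero {x : ℂ} (hx : x ∉ Metric.closedBall (0 : ℂ) (3 / 8)) : cut2 x = 0 := by
  unfold cut2
  have h := bump2.tsupport_eq
  by_contra hne
  apply hx
  have h2 : x ∈ tsupport bump2 := subset_tsupport _ hne
  rw [h] at h2
  exact h2

theorem wkk_zero {x : ℂ} (hx : x ∉ Metric.closedBall (0 : ℂ) (3 / 8)) : wkk x = 0 := by
  unfold wkk
  rw [wk_cut2_zero hx]
  simp

theorem wk_tsup_of_zero {f : ℂ → ℂ} (hf : ∀ x, x ∉ Metric.closedBall (0 : ℂ) (3 / 8) → f x = 0) :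
    tsupport f ⊆ Metric.closedBall (0 : ℂ) (3 / 8) := by
  refine closure_minimal (fun x hx => ?_) Metric.isClosed_closedBall
  by_contra h
  exact hx (hf x h)

theorem wk_tsup_half {f : ℂ → ℂ} (hf : tsupport f ⊆ Metric.closedBall (0 : ℂ) (3 / 8)) :
    tsupport f ⊆ Metric.ball (0 : ℂ) (1 / 2) :=
  hf.trans (Metric.closedBall_subset_ball (by norm_num))

theorem wk_tsup_cpt {f : ℂ → ℂ} (hf : tsupport f ⊆ Metric.closedBall (0 : ℂ) (3 / 8)) :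
    HasCompactSupport f :=
  (isCompact_closedBall (0 : ℂ) (3 / 8)).of_isClosed_subset (isClosed_tsupport f) hf

theorem wkk_fd {x : ℂ} (hx : x ∉ Metric.closedBall (0 : ℂ) (3 / 8)) : fderiv ℝ wkk x = 0 := by
  refine fderiv_of_notMem_tsupport ℝ (fun h => hx (wk_tsup_of_zero (fun y hy => wkk_zero hy) h))

/-- the fixed coefficient -/
noncomputable def wkp (e v : ℂ) (x : ℂ) : ℂ := fderiv ℝ wkk x v + 6 * I * (AA e x : ℂ) * wkk x

theorem wkp_smooth (e v : ℂ) : ContDiff ℝ 1 (wkp e v) := by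
  unfold wkp
  have hA : ContDiff ℝ 1 (fun y => (AA e y : ℂ)) :=
    ofRealCLM.contDiff.comp ((wk_AAsm e).of_le one_le_two)
  exact (wk_fd wkk_smooth v).add ((contDiff_const.mul hA).mul (wkk_smooth.of_le one_le_two))

theorem wkp_zero (e v : ℂ) {x : ℂ} (hx : x ∉ Metric.closedBall (0 : ℂ) (3 / 8)) :
    wkp e v x = 0 := by
  unfold wkp
  rw [wkk_zero hx, wkk_fd hx]
  simp


theorem wk_int {ψ g : ℂ → ℂ} (hψ : Nice ψ) (hg : Continuous g) (hc : HasCompactSupport g) :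
    Integrable (fun x => ψ x * g x) :=
  (hg.integrable_of_hasCompactSupport hc).bdd_mul hψ.1.aestronglyMeasurable
    (Filter.Eventually.of_forall hψ.2.1)

theorem weakT (T : ℝ) (hT : 0 < T) : ∃ C : ℝ, 0 < C ∧ ∀ (ψ h : ℂ → ℂ) (η₁ η₂ : ℝ), Nice ψ → Hh h →
    0 ≤ η₁ → 0 ≤ η₂ → H2 ψ η₁ η₂ → ‖GG ψ h T‖ ≤ C * (η₁ + η₂) := by
  obtain ⟨C0, hC0, hR⟩ := R_facts T hT
  obtain ⟨K, hK, k1, k2⟩ := wk_bdd (wkk_smooth.of_le one_le_two)
    (wk_tsup_cpt (wk_tsup_of_zero fun x hx => wkk_zero hx))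
  obtain ⟨P, hP, p1, p2⟩ := wk_bdd (wkp_smooth I I)
    (wk_tsup_cpt (wk_tsup_of_zero fun x hx => wkp_zero I I hx))
  obtain ⟨Q, hQ, q1, q2⟩ := wk_bdd (wkp_smooth 1 1)
    (wk_tsup_cpt (wk_tsup_of_zero fun x hx => wkp_zero 1 1 hx))
  refine ⟨2 * ((P + K) * C0) + 2 * ((Q + K) * C0) + 1, by positivity, ?_⟩
  intro ψ h η₁ η₂ hψ hh h1 h2 hH
  obtain ⟨hR2, hRb⟩ := hR h hh
  obtain ⟨R, hRdef⟩ : ∃ R, R = cv (rho T) h := ⟨_, rfl⟩
  rw [← hRdef] at hR2 hRb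
  have hR1 : ContDiff ℝ 1 R := hR2.of_le one_le_two
  -- the two test functions
  obtain ⟨F, hF⟩ : ∃ F : ℂ → ℂ, F = fun x => wkp I I x * R x + wkk x * fderiv ℝ R x I := ⟨_, rfl⟩
  obtain ⟨G, hG⟩ : ∃ G : ℂ → ℂ, G = fun x => wkp 1 1 x * R x + wkk x * fderiv ℝ R x 1 := ⟨_, rfl⟩
  have e1 : ∀ e : ℂ, ‖e‖ ≤ 1 → ∀ x, ‖fderiv ℝ R x e‖ ≤ C0 := fun e he x => by
    refine ((fderiv ℝ R x).le_opNorm e).trans ?_
    have := (hRb x).2.1
    calc ‖fderiv ℝ R x‖ * ‖e‖ ≤ C0 * 1 := mul_le_mul this he (norm_nonneg _) hC0.le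
      _ = C0 := mul_one _
  obtain ⟨F1, F2, F3⟩ := wk_comb (wkp_smooth I I) (wkk_smooth.of_le one_le_two) hR1 (wk_fd hR2 I)
    hP hK hC0.le p1 p2 k1 k2 (fun x => (hRb x).1) (fun x => (hRb x).2.1)
    (e1 I (by simp)) (fun x => (hRb x).2.2 I (by simp))
  obtain ⟨G1, G2, G3⟩ := wk_comb (wkp_smooth 1 1) (wkk_smooth.of_le one_le_two) hR1 (wk_fd hR2 1)
    hQ hK hC0.le q1 q2 k1 k2 (fun x => (hRb x).1) (fun x => (hRb x).2.1)
    (e1 1 (by simp)) (fun x => (hRb x).2.2 1 (by simp))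
  rw [← hF] at F1 F3
  rw [← hG] at G1 G3
  replace F2 : ∀ x, ‖F x‖ ≤ 2 * ((P + K) * C0) := fun x => by rw [hF]; exact F2 x
  replace G2 : ∀ x, ‖G x‖ ≤ 2 * ((Q + K) * C0) := fun x => by rw [hG]; exact G2 x
  have Fz : ∀ x, x ∉ Metric.closedBall (0 : ℂ) (3 / 8) → F x = 0 := fun x hx => by
    rw [hF]; simp only; rw [wkp_zero I I hx, wkk_zero hx]; simp
  have Gz : ∀ x, x ∉ Metric.closedBall (0 : ℂ) (3 / 8) → G x = 0 := fun x hx => by
    rw [hG]; simp only; rw [wkp_zero 1 1 hx, wkk_zero hx]; simp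
  have b1 := hH 1 (Or.inl rfl) F F1 (wk_tsup_half (wk_tsup_of_zero Fz)) _ _ F2 F3
  have b2 := hH I (Or.inr rfl) G G1 (wk_tsup_half (wk_tsup_of_zero Gz)) _ _ G2 G3
  -- the identity
  obtain ⟨Z, hZd⟩ : ∃ Z : ℂ → ℂ, Z = fun x => wkk x * R x := ⟨_, rfl⟩
  have hZ : ContDiff ℝ 2 Z := by rw [hZd]; exact wkk_smooth.mul hR2
  have hZf : ∀ x v, fderiv ℝ Z x v = wkk x * fderiv ℝ R x v + R x * fderiv ℝ wkk x v := by
    intro x v
    rw [hZd, fderiv_fun_mul (wkk_smooth.differentiable two_ne_zero x)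
      (hR2.differentiable two_ne_zero x)]
    simp only [add_apply, smul_apply, smul_eq_mul]
  have hFZ : F = fun x => fderiv ℝ Z x I + 6 * I * (AA I x : ℂ) * Z x := by
    rw [hF]; funext x; rw [hZf, hZd]; unfold wkp; ring
  have hGZ : G = fun x => fderiv ℝ Z x 1 + 6 * I * (AA 1 x : ℂ) * Z x := by
    rw [hG]; funext x; rw [hZf, hZd]; unfold wkp; ring
  have key : ∀ x, (fderiv ℝ F x 1 + 6 * I * (AA 1 x : ℂ) * F x) -
      (fderiv ℝ G x I + 6 * I * (AA I x : ℂ) * G x) = 6 * I * ((cut2 x : ℂ) * R x) := by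
    intro x
    have := wk_comm hZ x
    rw [← hFZ, ← hGZ] at this
    have hFx : F x = fderiv ℝ Z x I + 6 * I * (AA I x : ℂ) * Z x := congrFun hFZ x
    have hGx : G x = fderiv ℝ Z x 1 + 6 * I * (AA 1 x : ℂ) * Z x := congrFun hGZ x
    rw [hFx, hGx, this, hZd]
    simp only
    unfold wkk
    have hp : ((1 + ‖x‖ ^ 2 : ℝ) : ℂ) ≠ 0 := by
      exact_mod_cast (wk_pos x).ne'
    push_cast at hp ⊢
    field_simp
  have iF : Integrable (fun x => ψ x * (fderiv ℝ F x 1 + 6 * I * (AA 1 x : ℂ) * F x)) := by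
    have hA : Continuous (fun y => (AA 1 y : ℂ)) := continuous_ofReal.comp (wk_AAsm 1).continuous
    have hFc := wk_tsup_cpt (wk_tsup_of_zero Fz)
    refine wk_int hψ ?_ ?_
    · exact ((F1.continuous_fderiv one_ne_zero).clm_apply continuous_const).add
        ((continuous_const.mul hA).mul F1.continuous)
    · exact (hFc.fderiv_apply ℝ 1).add hFc.mul_left
  have iG : Integrable (fun x => ψ x * (fderiv ℝ G x I + 6 * I * (AA I x : ℂ) * G x)) := by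
    have hA : Continuous (fun y => (AA I y : ℂ)) := continuous_ofReal.comp (wk_AAsm I).continuous
    have hGc := wk_tsup_cpt (wk_tsup_of_zero Gz)
    refine wk_int hψ ?_ ?_
    · exact ((G1.continuous_fderiv one_ne_zero).clm_apply continuous_const).add
        ((continuous_const.mul hA).mul G1.continuous)
    · exact (hGc.fderiv_apply ℝ I).add hGc.mul_left
  have hsub := integral_sub iF iG
  have hGG : (∫ x, (ψ x * (fderiv ℝ F x 1 + 6 * I * (AA 1 x : ℂ) * F x) -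
      ψ x * (fderiv ℝ G x I + 6 * I * (AA I x : ℂ) * G x))) = 6 * I * GG ψ h T := by
    unfold GG
    rw [← integral_const_mul]
    refine integral_congr_ae (Filter.Eventually.of_forall fun x => ?_)
    simp only
    rw [← mul_sub, key x, ← hRdef]
    ring
  rw [hGG] at hsub
  have hn : ‖6 * I * GG ψ h T‖ = 6 * ‖GG ψ h T‖ := by
    rw [norm_mul, norm_mul, norm_I]
    simp
  have : 6 * ‖GG ψ h T‖ ≤ (η₁ * (2 * ((P + K) * C0)) + η₂ * (2 * ((P + K) * C0))) +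
      (η₁ * (2 * ((Q + K) * C0)) + η₂ * (2 * ((Q + K) * C0))) := by
    rw [← hn, hsub]
    exact (norm_sub_le _ _).trans (add_le_add b1 b2)
  have h0 := norm_nonneg (GG ψ h T)
  nlinarith [mul_nonneg h1 (mul_nonneg (add_nonneg hP hK) hC0.le)]

end Pool.Agent.CAPS
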