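import Pool.Agent.Lib.MP_488b8a_co.Step1
import Pool.Agent.Lib.MP_488b8a_co.Step2
import Pool.Agent.Lib.MP_488b8a_co.Weak
import Pool.Agent.Lib.MP_488b8a_co.LimS

/-! Project CAPS (MP_488b8a_co), module AN. -/

namespace Pool.Agent.CAPS

open Complex MeasureTheory

private lemma cut1_nonneg (x : ℂ) : 0 ≤ cut1 x := bump1.nonneg

private lemma cut1_le (x : ℂ) : cut1 x ≤ 1 := bump1.le_one

private lemma cut2_nonneg (x : ℂ) : 0 ≤ cut2 x := bump2.nonneg

private lemma cut2_le (x : ℂ) : cut2 x ≤ 1 := bump2.le_one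

private lemma cut1_cont : Continuous cut1 := bump1.continuous

private lemma cut2_cont : Continuous cut2 := bump2.continuous

private lemma cut1_zero {x : ℂ} (hx : 1 / 4 ≤ ‖x‖) : cut1 x = 0 := by
  apply bump1.zero_of_le_dist
  simpa [bump1] using hx

private lemma cut1_one {x : ℂ} (hx : ‖x‖ ≤ 1 / 8) : cut1 x = 1 := by
  apply bump1.one_of_mem_closedBall
  simpa [bump1] using hx

private lemma cut2_one {x : ℂ} (hx : ‖x‖ ≤ 1 / 4) : cut2 x = 1 := by
  apply bump2.one_of_mem_closedBall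
  simpa [bump2] using hx

/-- the test function -/
private noncomputable def hh (ψ : ℂ → ℂ) (x : ℂ) : ℂ := (cut1 x : ℂ) * (starRingEnd ℂ) (ψ x)

private lemma hh_Hh {ψ : ℂ → ℂ} (hψ : Nice ψ) : Hh (hh ψ) := by
  obtain ⟨hm, hb, -, -⟩ := hψ
  refine ⟨?_, ?_, ?_⟩
  · unfold hh
    exact (Complex.measurable_ofReal.comp cut1_cont.measurable).mul
      (Complex.continuous_conj.measurable.comp hm)
  · intro x
    unfold hh
    rw [norm_mul, RCLike.norm_conj, Complex.norm_real, Real.norm_eq_abs,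
      abs_of_nonneg (cut1_nonneg x)]
    calc cut1 x * ‖ψ x‖ ≤ 1 * 1 :=
          mul_le_mul (cut1_le x) (hb x) (norm_nonneg _) zero_le_one
      _ = 1 := one_mul 1
  · intro x hx
    unfold hh
    rw [cut1_zero hx]; simp

private lemma hh_cont {ψ : ℂ → ℂ} (hψ : Nice ψ) : ∀ᵐ x : ℂ, ContinuousAt (hh ψ) x := by
  obtain ⟨-, -, -, hc⟩ := hψ
  filter_upwards [hc] with x hx
  unfold hh
  exact (Complex.continuous_ofReal.comp cut1_cont).continuousAt.mul
    (Complex.continuous_conj.continuousAt.comp hx)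

private lemma lower {ψ : ℂ → ℂ} (hψ : Nice ψ) :
    3 / 64 ≤ ‖∫ x, ψ x * (cut2 x : ℂ) * hh ψ x‖ := by
  obtain ⟨hm, hb, hu, hc⟩ := hψ
  have e1 : (∫ x, ψ x * (cut2 x : ℂ) * hh ψ x) =
      ((∫ x, cut2 x * cut1 x * ‖ψ x‖ ^ 2 : ℝ) : ℂ) := by
    rw [← integral_complex_ofReal]
    refine integral_congr_ae (Filter.Eventually.of_forall fun x => ?_)
    simp only [hh]
    push_cast
    rw [← Complex.mul_conj']
    ring
  rw [e1, Complex.norm_real, Real.norm_eq_abs]
  refine le_trans ?_ (le_abs_self _)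
  have hint : Integrable (fun x : ℂ => cut2 x * cut1 x * ‖ψ x‖ ^ 2) := by
    have hi1 : Integrable cut1 := by
      have := bump1.integrable (μ := (volume : Measure ℂ))
      exact this
    refine hi1.mono' ?_ (Filter.Eventually.of_forall fun x => ?_)
    · exact (((cut2_cont.mul cut1_cont).measurable).mul (hm.norm.pow_const 2)).aestronglyMeasurable
    · rw [Real.norm_eq_abs, abs_of_nonneg (mul_nonneg (mul_nonneg (cut2_nonneg x) (cut1_nonneg x))
        (by positivity))]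
      have h1 : ‖ψ x‖ ^ 2 ≤ 1 := by
        have := hb x
        have h0 := norm_nonneg (ψ x)
        nlinarith
      calc cut2 x * cut1 x * ‖ψ x‖ ^ 2 ≤ cut2 x * cut1 x * 1 :=
            mul_le_mul_of_nonneg_left h1 (mul_nonneg (cut2_nonneg x) (cut1_nonneg x))
        _ ≤ 1 * cut1 x * 1 := by
            have := mul_le_mul_of_nonneg_right (cut2_le x) (cut1_nonneg x)
            linarith
        _ = cut1 x := by ring
  have h2 : ∫ x in Metric.ball (0 : ℂ) (1 / 8), cut2 x * cut1 x * ‖ψ x‖ ^ 2 ≤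
      ∫ x, cut2 x * cut1 x * ‖ψ x‖ ^ 2 := by
    refine setIntegral_le_integral hint (Filter.Eventually.of_forall fun x => ?_)
    exact mul_nonneg (mul_nonneg (cut2_nonneg x) (cut1_nonneg x)) (by positivity)
  have h3 : ∫ x in Metric.ball (0 : ℂ) (1 / 8), cut2 x * cut1 x * ‖ψ x‖ ^ 2 =
      ∫ x in Metric.ball (0 : ℂ) (1 / 8), (1 : ℝ) := by
    refine setIntegral_congr_ae Metric.isOpen_ball.measurableSet ?_
    filter_upwards [hu] with x hx hxb
    rw [Metric.mem_ball, dist_zero_right] at hxb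
    rw [cut2_one (by linarith), cut1_one (by linarith), hx (by linarith)]
    norm_num
  have h4 : ∫ x in Metric.ball (0 : ℂ) (1 / 8), (1 : ℝ) = Real.pi / 64 := by
    rw [setIntegral_const]
    simp only [smul_eq_mul, mul_one, Measure.real, Complex.volume_ball]
    rw [ENNReal.toReal_mul, ENNReal.toReal_pow, ENNReal.toReal_ofReal (by norm_num)]
    simp
    ring
  rw [← h3] at h4
  have := Real.pi_gt_three
  linarith

theorem an : ∃ η : ℝ, 0 < η ∧ ∀ (ψ : ℂ → ℂ) (M η₁ η₂ : ℝ), Nice ψ → 1 / η ≤ M → 0 ≤ η₁ → η₁ ≤ η →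
    0 ≤ η₂ → η₂ * (1 + Real.log M) ≤ η → H1 ψ M → ¬ H2 ψ η₁ η₂ := by
  obtain ⟨C1, hC1, st1⟩ := step1
  obtain ⟨C2, hC2, st2⟩ := step2
  obtain ⟨T, hT, hT1, hTs⟩ : ∃ T : ℝ, 0 < T ∧ T ≤ 1 ∧ C2 * 2 * Real.sqrt T ≤ 1 / 100 := by
    refine ⟨min 1 ((1 / (200 * C2)) ^ 2), ?_, min_le_left _ _, ?_⟩
    · exact lt_min one_pos (by positivity)
    · have h1 : Real.sqrt (min 1 ((1 / (200 * C2)) ^ 2)) ≤ 1 / (200 * C2) := by
        rw [Real.sqrt_le_left (by positivity)]
        exact min_le_right _ _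
      calc C2 * 2 * Real.sqrt (min 1 ((1 / (200 * C2)) ^ 2)) ≤ C2 * 2 * (1 / (200 * C2)) :=
            mul_le_mul_of_nonneg_left h1 (by positivity)
        _ = 1 / 100 := by field_simp; norm_num
  obtain ⟨C3, hC3, wk⟩ := weakT T hT
  obtain ⟨η, hη, hη1, hηC1, hηT, hηC2, hηC3⟩ : ∃ η : ℝ, 0 < η ∧ η ≤ 1 ∧ η * (100 * C1) ≤ 1 ∧
      η ≤ T ∧ 5 * C2 * η ≤ 1 / 100 ∧ 2 * C3 * η ≤ 1 / 100 := by
    refine ⟨min (min 1 (1 / (100 * C1))) (min T (min (1 / (500 * C2)) (1 / (200 * C3)))), ?_,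
      ?_, ?_, ?_, ?_, ?_⟩
    · exact lt_min (lt_min one_pos (by positivity)) (lt_min hT (lt_min (by positivity)
        (by positivity)))
    · exact (min_le_left _ _).trans (min_le_left _ _)
    · calc _ ≤ 1 / (100 * C1) * (100 * C1) :=
            mul_le_mul_of_nonneg_right ((min_le_left _ _).trans (min_le_right _ _)) (by positivity)
        _ = 1 := by field_simp
    · exact (min_le_right _ _).trans (min_le_left _ _)
    · calc _ ≤ 5 * C2 * (1 / (500 * C2)) :=
            mul_le_mul_of_nonneg_left ((min_le_right _ _).trans ((min_le_right _ _).trans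
              (min_le_left _ _))) (by positivity)
        _ = 1 / 100 := by field_simp; norm_num
    · calc _ ≤ 2 * C3 * (1 / (200 * C3)) :=
            mul_le_mul_of_nonneg_left ((min_le_right _ _).trans ((min_le_right _ _).trans
              (min_le_right _ _))) (by positivity)
        _ = 1 / 100 := by field_simp; norm_num
  refine ⟨η, hη, ?_⟩
  intro ψ M η₁ η₂ hψ hM h1 h1' h2 h2' hH1 hH2
  have hM1 : 1 ≤ M := le_trans (by rw [le_div_iff₀ hη]; linarith) hM
  have hlog : 0 ≤ Real.log M := Real.log_nonneg hM1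
  have hη2 : η₂ ≤ η := by nlinarith
  set s : ℝ := 1 / (M + 1) ^ 4 with hs
  have hM0 : 0 < M + 1 := by linarith
  have hs0 : 0 < s := by positivity
  have hpow : M + 1 ≤ (M + 1) ^ 4 := by
    calc M + 1 = (M + 1) ^ 1 := (pow_one _).symm
      _ ≤ (M + 1) ^ 4 := pow_le_pow_right₀ (by linarith) (by norm_num)
  have hs1 : s ≤ 1 := by
    rw [hs, div_le_one (by positivity)]
    linarith
  have hsT : s ≤ T := by
    have hMT : 1 ≤ T * M := by
      have : 1 ≤ η * M := by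
        have := (div_le_iff₀ hη).1 hM
        linarith
      nlinarith
    rw [hs, div_le_iff₀ (by positivity)]
    nlinarith
  have hsq : Real.sqrt s = 1 / (M + 1) ^ 2 := by
    rw [hs, Real.sqrt_div zero_le_one, Real.sqrt_one]
    congr 1
    rw [show (M + 1) ^ 4 = ((M + 1) ^ 2) ^ 2 by ring, Real.sqrt_sq (by positivity)]
  have hH := hh_Hh hψ
  -- first error
  have e1 : ‖(∫ x, ψ x * (cut2 x : ℂ) * hh ψ x) - GG ψ (hh ψ) s‖ ≤ 1 / 100 := by
    have ht := lim_s hψ hH (hh_cont hψ)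
    have ht' := (ht.sub_const (GG ψ (hh ψ) s)).norm
    refine le_of_tendsto ht' ?_
    have hmem : Set.Ioc (0 : ℝ) s ∈ nhdsWithin (0 : ℝ) (Set.Ioi 0) :=
      Ioc_mem_nhdsGT hs0
    filter_upwards [hmem] with s' hs'
    refine (st1 ψ (hh ψ) M s' s hψ hH (by linarith) hH1 hs'.1 hs'.2 hs1).trans ?_
    rw [hsq]
    have : C1 * (M + 1) * (1 / (M + 1) ^ 2) = C1 / (M + 1) := by field_simp
    rw [this, div_le_iff₀ hM0]
    have h3 : 100 * C1 ≤ M := by
      have : 100 * C1 ≤ 1 / η := by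
        rw [le_div_iff₀ hη]; linarith
      linarith
    linarith
  have e2 : ‖GG ψ (hh ψ) s - GG ψ (hh ψ) T‖ ≤ 2 / 100 := by
    refine (st2 ψ (hh ψ) η₁ η₂ s T hψ hH h1 h2 hH2 hs0 hsT hT1).trans ?_
    have hl : Real.log (1 / s) ≤ 4 * (1 + Real.log M) := by
      rw [hs, one_div_one_div, Real.log_pow]
      have : Real.log (M + 1) ≤ 1 + Real.log M := by
        have h5 : Real.log (M + 1) ≤ Real.log (2 * M) :=
          Real.log_le_log hM0 (by linarith)
        rw [Real.log_mul (by norm_num) (by linarith)] at h5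
        have := Real.log_two_lt_d9
        linarith
      push_cast
      linarith
    have h6 : η₂ * (1 + Real.log (1 / s)) ≤ 5 * η := by
      calc η₂ * (1 + Real.log (1 / s)) ≤ η₂ * (1 + 4 * (1 + Real.log M)) :=
            mul_le_mul_of_nonneg_left (by linarith) h2
        _ ≤ 5 * (η₂ * (1 + Real.log M)) := by nlinarith
        _ ≤ 5 * η := by linarith
    have h7 : (1 + η₁) * Real.sqrt T ≤ 2 * Real.sqrt T :=
      mul_le_mul_of_nonneg_right (by linarith) (Real.sqrt_nonneg _)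
    calc C2 * ((1 + η₁) * Real.sqrt T + η₂ * (1 + Real.log (1 / s)))
        ≤ C2 * (2 * Real.sqrt T + 5 * η) := mul_le_mul_of_nonneg_left (by linarith) hC2.le
      _ = C2 * 2 * Real.sqrt T + 5 * C2 * η := by ring
      _ ≤ 2 / 100 := by linarith
  have e3 : ‖GG ψ (hh ψ) T‖ ≤ 1 / 100 := by
    refine (wk ψ (hh ψ) η₁ η₂ hψ hH h1 h2 hH2).trans ?_
    have : C3 * (η₁ + η₂) ≤ C3 * (2 * η) := mul_le_mul_of_nonneg_left (by linarith) hC3.le
    linarith
  have hL := lower hψ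
  have htri : ‖∫ x, ψ x * (cut2 x : ℂ) * hh ψ x‖ ≤
      ‖(∫ x, ψ x * (cut2 x : ℂ) * hh ψ x) - GG ψ (hh ψ) s‖ + ‖GG ψ (hh ψ) s - GG ψ (hh ψ) T‖ +
        ‖GG ψ (hh ψ) T‖ := by
    have : (∫ x, ψ x * (cut2 x : ℂ) * hh ψ x) =
        ((∫ x, ψ x * (cut2 x : ℂ) * hh ψ x) - GG ψ (hh ψ) s) + (GG ψ (hh ψ) s - GG ψ (hh ψ) T) +
          GG ψ (hh ψ) T := by ring
    conv_lhs => rw [this]
    exact norm_add₃_le
  linarith

end Pool.Agent.CAPS
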