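import Pool.Agent.Lib.MP_488b8a_co.Defs

/-! Project CAPS (MP_488b8a_co), module Simp3. -/

namespace Pool.Agent.CAPS

open Complex MeasureTheory

private lemma simp3_int (n : ℕ) (t : ℝ) (ht : 0 ≤ t) :
    ∫⁻ s in Set.Icc 0 t, ENNReal.ofReal ((t - s) ^ n / n.factorial) =
      ENNReal.ofReal (t ^ (n + 1) / (n + 1).factorial) := by
  have hint : IntegrableOn (fun s : ℝ => (t - s) ^ n / n.factorial) (Set.Icc 0 t) := by
    apply Continuous.integrableOn_Icc
    fun_prop
  rw [← ofReal_integral_eq_lintegral_ofReal hint]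
  · congr 1
    rw [integral_Icc_eq_integral_Ioc, ← intervalIntegral.integral_of_le ht,
      intervalIntegral.integral_div,
      intervalIntegral.integral_comp_sub_left (fun x : ℝ => x ^ n) t, integral_pow]
    rw [Nat.factorial_succ]
    push_cast
    rw [sub_self, sub_zero, zero_pow (Nat.succ_ne_zero n), sub_zero, div_div]
  · refine (ae_restrict_mem measurableSet_Icc).mono ?_
    intro s hs
    have : 0 ≤ t - s := sub_nonneg.2 hs.2
    positivity

private lemma simp3_pi (n : ℕ) : ∀ t : ℝ, 0 ≤ t →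
    volume {x : Fin n → ℝ | (∀ i, 0 ≤ x i) ∧ ∑ i, x i ≤ t} ≤
      ENNReal.ofReal (t ^ n / n.factorial) := by
  induction n with
  | zero =>
    intro t ht
    refine (measure_mono (Set.subset_univ _)).trans ?_
    rw [Measure.volume_pi_eq_dirac (0 : Fin 0 → ℝ)]
    simp
  | succ n ih =>
    intro t ht
    set T : Set (ℝ × (Fin n → ℝ)) :=
      {p | 0 ≤ p.1 ∧ (∀ i, 0 ≤ p.2 i) ∧ p.1 + ∑ i, p.2 i ≤ t} with hT
    have hmT : MeasurableSet T := by
      have h1 : T = {p | 0 ≤ p.1} ∩ ((⋂ i, {p : ℝ × (Fin n → ℝ) | 0 ≤ p.2 i}) ∩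
          {p | p.1 + ∑ i, p.2 i ≤ t}) := by
        ext p
        simp [hT]
      rw [h1]
      refine (measurableSet_le measurable_const measurable_fst).inter
        ((MeasurableSet.iInter fun i => measurableSet_le measurable_const ?_).inter
        (measurableSet_le ?_ measurable_const))
      · fun_prop
      · fun_prop
    have hpre : {x : Fin (n + 1) → ℝ | (∀ i, 0 ≤ x i) ∧ ∑ i, x i ≤ t} =
        MeasurableEquiv.piFinSuccAbove (fun _ => ℝ) 0 ⁻¹' T := by
      ext x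
      simp only [Set.mem_ofPred_eq, Set.mem_preimage, hT, MeasurableEquiv.piFinSuccAbove_apply,
        Fin.insertNthEquiv_symm_apply, Fin.forall_fin_succ, Fin.sum_univ_succ]
      simp only [Fin.removeNth, Fin.zero_succAbove]
      tauto
    rw [hpre, (volume_preserving_piFinSuccAbove (fun _ => ℝ) 0).measure_preimage
      hmT.nullMeasurableSet]
    change (Measure.prod volume volume) T ≤ _
    rw [Measure.prod_apply hmT, ← simp3_int n t ht, ← lintegral_indicator measurableSet_Icc]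
    refine lintegral_mono fun s => ?_
    by_cases hs : s ∈ Set.Icc 0 t
    · rw [Set.indicator_of_mem hs]
      refine le_trans (measure_mono ?_) (ih (t - s) (sub_nonneg.2 hs.2))
      intro y hy
      have hy' : 0 ≤ s ∧ (∀ i, 0 ≤ y i) ∧ s + ∑ i, y i ≤ t := hy
      exact ⟨hy'.2.1, by linarith [hy'.2.2]⟩
    · rw [Set.indicator_of_notMem hs]
      refine le_of_eq ?_
      have h0 : Prod.mk s ⁻¹' T = ∅ := by
        apply Set.eq_empty_of_forall_notMem
        intro y hy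
        have hy' : 0 ≤ s ∧ (∀ i, 0 ≤ y i) ∧ s + ∑ i, y i ≤ t := hy
        have h1 : 0 ≤ ∑ i, y i := Finset.sum_nonneg fun i _ => hy'.2.1 i
        exact hs ⟨hy'.1, by linarith [hy'.2.2]⟩
      rw [h0, measure_empty]

theorem simp3 : volume {x : EuclideanSpace ℝ (Fin 3) | 0 ≤ x 0 ∧ 0 ≤ x 1 ∧ 0 ≤ x 2 ∧
    x 0 + x 1 + x 2 ≤ 1} ≤ ENNReal.ofReal (1 / 6) := by
  have h1 := simp3_pi 3 1 zero_le_one
  have hm : MeasurableSet {x : Fin 3 → ℝ | (∀ i, 0 ≤ x i) ∧ ∑ i, x i ≤ 1} := by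
    have h2 : {x : Fin 3 → ℝ | (∀ i, 0 ≤ x i) ∧ ∑ i, x i ≤ 1} =
        (⋂ i, {x : Fin 3 → ℝ | 0 ≤ x i}) ∩ {x | ∑ i, x i ≤ 1} := by
      ext x
      simp
    rw [h2]
    refine (MeasurableSet.iInter fun i => measurableSet_le measurable_const ?_).inter
      (measurableSet_le ?_ measurable_const)
    · fun_prop
    · fun_prop
  have h3 := (PiLp.volume_preserving_ofLp (Fin 3)).measure_preimage hm.nullMeasurableSet
  have h4 : {x : EuclideanSpace ℝ (Fin 3) | 0 ≤ x 0 ∧ 0 ≤ x 1 ∧ 0 ≤ x 2 ∧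
      x 0 + x 1 + x 2 ≤ 1} =
      (WithLp.ofLp : EuclideanSpace ℝ (Fin 3) → (Fin 3 → ℝ)) ⁻¹'
        {x : Fin 3 → ℝ | (∀ i, 0 ≤ x i) ∧ ∑ i, x i ≤ 1} := by
    ext x
    simp only [Set.mem_ofPred_eq, Set.mem_preimage, Fin.sum_univ_three]
    constructor
    · rintro ⟨h0, h1, h2, h3⟩
      refine ⟨?_, h3⟩
      intro i
      fin_cases i
      · exact h0
      · exact h1
      · exact h2
    · rintro ⟨h, h3⟩
      exact ⟨h 0, h 1, h 2, h3⟩
  rw [h4]
  refine le_trans (le_of_eq h3) (h1.trans (le_of_eq ?_))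
  norm_num [Nat.factorial]

end Pool.Agent.CAPS
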