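import Pool.Agent.Lib.MP_488b8a_co.Sph
import Pool.Agent.Lib.MP_488b8a_co.Simp3

/-! Project CAPS (MP_488b8a_co), module Pyr. -/

namespace Pool.Agent.CAPS

open Complex MeasureTheory

private theorem Pyr_nsq (x : EuclideanSpace ℝ (Fin 3)) : ‖x‖ ^ 2 = x 0 ^ 2 + x 1 ^ 2 + x 2 ^ 2 := by
  rw [EuclideanSpace.norm_eq, Real.sq_sqrt (by positivity), Fin.sum_univ_three]
  simp only [Real.norm_eq_abs, sq_abs]

private theorem Pyr_lin (p q s : EuclideanSpace ℝ (Fin 3)) :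
    ∃ P : EuclideanSpace ℝ (Fin 3) →ₗ[ℝ] EuclideanSpace ℝ (Fin 3),
      (∀ x : EuclideanSpace ℝ (Fin 3), P x = x 0 • p + x 1 • q + x 2 • s) ∧
      LinearMap.det P = p 0 * (q 1 * s 2 - q 2 * s 1) - p 1 * (q 0 * s 2 - q 2 * s 0) +
        p 2 * (q 0 * s 1 - q 1 * s 0) := by
  set b := (EuclideanSpace.basisFun (Fin 3) ℝ).toBasis with hb
  let M : Matrix (Fin 3) (Fin 3) ℝ := Matrix.of fun i j => (![p, q, s] j) i
  refine ⟨Matrix.toLin b b M, ?_, ?_⟩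
  · intro x
    have h0 : ∀ j, (b.repr x) j = x j := fun j => by simp [hb]
    have h1 : ∀ j i : Fin 3, b j i = if i = j then 1 else 0 := fun j i => by
      simp [hb, EuclideanSpace.basisFun_apply]
    have h2 : ∀ i, (Matrix.toLin b b M x) i = ∑ j, M i j * x j := by
      intro i
      have h3 : (b.repr (Matrix.toLin b b M x)) i = (Matrix.toLin b b M x) i := by simp [hb]
      rw [← h3, Matrix.toLin_apply]
      simp [Finsupp.single_apply, Matrix.mulVec, dotProduct, h0]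
    ext i
    rw [h2, Fin.sum_univ_three]
    change p i * x 0 + q i * x 1 + s i * x 2 = x 0 * p i + x 1 * q i + x 2 * s i
    ring
  · rw [LinearMap.det_toLin, Matrix.det_fin_three]
    change p 0 * q 1 * s 2 - p 0 * s 1 * q 2 - q 0 * p 1 * s 2 + q 0 * s 1 * p 2 +
      s 0 * p 1 * q 2 - s 0 * q 1 * p 2 = _
    ring

private theorem Pyr_alg (p0 p1 p2 q0 q1 q2 s0 s1 s2 X Y W : ℝ)
    (hp : p0 ^ 2 + p1 ^ 2 + p2 ^ 2 = 1)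
    (hX : (p0 - q0) ^ 2 + (p1 - q1) ^ 2 + (p2 - q2) ^ 2 = X)
    (hY : (q0 - s0) ^ 2 + (q1 - s1) ^ 2 + (q2 - s2) ^ 2 = Y)
    (hW : (s0 - p0) ^ 2 + (s1 - p1) ^ 2 + (s2 - p2) ^ 2 = W) :
    |p0 * (q1 * s2 - q2 * s1) - p1 * (q0 * s2 - q2 * s0) + p2 * (q0 * s1 - q1 * s0)| ≤
      2 * heron X Y W := by
  set n0 := (q1 - p1) * (s2 - p2) - (q2 - p2) * (s1 - p1) with hn0
  set n1 := (q2 - p2) * (s0 - p0) - (q0 - p0) * (s2 - p2) with hn1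
  set n2 := (q0 - p0) * (s1 - p1) - (q1 - p1) * (s0 - p0) with hn2
  have hD : p0 * (q1 * s2 - q2 * s1) - p1 * (q0 * s2 - q2 * s0) + p2 * (q0 * s1 - q1 * s0) =
      p0 * n0 + p1 * n1 + p2 * n2 := by
    rw [hn0, hn1, hn2]
    ring
  have hR : 2 * (X * Y + Y * W + W * X) - (X ^ 2 + Y ^ 2 + W ^ 2) =
      4 * (n0 ^ 2 + n1 ^ 2 + n2 ^ 2) := by
    rw [hn0, hn1, hn2, ← hX, ← hY, ← hW]
    ring
  rw [hD, heron, hR]
  have h1 : (p0 * n0 + p1 * n1 + p2 * n2) ^ 2 ≤ n0 ^ 2 + n1 ^ 2 + n2 ^ 2 := by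
    have h2 : (p0 * n0 + p1 * n1 + p2 * n2) ^ 2 ≤
        (p0 ^ 2 + p1 ^ 2 + p2 ^ 2) * (n0 ^ 2 + n1 ^ 2 + n2 ^ 2) := by
      have e : (p0 ^ 2 + p1 ^ 2 + p2 ^ 2) * (n0 ^ 2 + n1 ^ 2 + n2 ^ 2) -
          (p0 * n0 + p1 * n1 + p2 * n2) ^ 2 =
          (p0 * n1 - p1 * n0) ^ 2 + (p0 * n2 - p2 * n0) ^ 2 + (p1 * n2 - p2 * n1) ^ 2 := by
        clear_value n0 n1 n2
        ring
      have e' : 0 ≤ (p0 * n1 - p1 * n0) ^ 2 + (p0 * n2 - p2 * n0) ^ 2 +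
          (p1 * n2 - p2 * n1) ^ 2 := by positivity
      rw [← sub_nonneg, e]
      exact e'
    rwa [hp, one_mul] at h2
  have h3 : Real.sqrt (4 * (n0 ^ 2 + n1 ^ 2 + n2 ^ 2)) =
      2 * Real.sqrt (n0 ^ 2 + n1 ^ 2 + n2 ^ 2) := by
    rw [Real.sqrt_mul (by norm_num), show (4 : ℝ) = 2 ^ 2 by norm_num,
      Real.sqrt_sq (by norm_num)]
  rw [h3]
  have h4 := Real.abs_le_sqrt h1
  linarith

theorem pyr_vol (u v w : ℂ) :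
    volume {x : EuclideanSpace ℝ (Fin 3) | ∃ α β γ : ℝ, 0 ≤ α ∧ 0 ≤ β ∧ 0 ≤ γ ∧ α + β + γ ≤ 1 ∧
      x = α • sph u + β • sph v + γ • sph w} ≤
      ENNReal.ofReal (heron (xx u v) (xx v w) (xx w u) / 3) := by
  obtain ⟨P, hP, hdet⟩ := Pyr_lin (sph u) (sph v) (sph w)
  have hset : {x : EuclideanSpace ℝ (Fin 3) | ∃ α β γ : ℝ, 0 ≤ α ∧ 0 ≤ β ∧ 0 ≤ γ ∧
      α + β + γ ≤ 1 ∧ x = α • sph u + β • sph v + γ • sph w} =
      P '' {x : EuclideanSpace ℝ (Fin 3) | 0 ≤ x 0 ∧ 0 ≤ x 1 ∧ 0 ≤ x 2 ∧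
        x 0 + x 1 + x 2 ≤ 1} := by
    ext x
    constructor
    · rintro ⟨α, β, γ, h1, h2, h3, h4, rfl⟩
      refine ⟨!₂[α, β, γ], ⟨h1, h2, h3, h4⟩, ?_⟩
      rw [hP]
      rfl
    · rintro ⟨y, ⟨h1, h2, h3, h4⟩, rfl⟩
      exact ⟨y 0, y 1, y 2, h1, h2, h3, h4, hP y⟩
  rw [hset, Measure.addHaar_image_linearMap]
  refine (mul_le_mul' le_rfl simp3).trans ?_
  rw [← ENNReal.ofReal_mul (abs_nonneg _)]
  apply ENNReal.ofReal_le_ofReal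
  have hx : ∀ a b : ℂ, (sph a 0 - sph b 0) ^ 2 + (sph a 1 - sph b 1) ^ 2 +
      (sph a 2 - sph b 2) ^ 2 = xx a b := by
    intro a b
    rw [← sph_dist, Pyr_nsq]
    rfl
  have hn : sph u 0 ^ 2 + sph u 1 ^ 2 + sph u 2 ^ 2 = 1 := by
    rw [← Pyr_nsq, sph_norm, one_pow]
  have h5 := Pyr_alg _ _ _ _ _ _ _ _ _ _ _ _ hn (hx u v) (hx v w) (hx w u)
  rw [hdet]
  linarith

end Pool.Agent.CAPS
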