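import Pool.Agent.Lib.MP_488b8a_co.Defs

/-! Project CAPS (MP_488b8a_co), module Rot. -/

namespace Pool.Agent.CAPS

open Complex MeasureTheory

variable {n : ℕ} {z : Fin n → ℂ}

theorem rot_rot_rot (h : HE n) : rot (rot (rot h)) = h := by
  rfl

theorem mem_Dset {h : HE n} : h ∈ Dset z ↔ Del z h := by
  classical
  simp [Dset]

theorem crs_rot (p q w : ℂ) : crs (w - q) (p - q) = crs (q - p) (w - p) := by
  simp only [crs, sub_re, sub_im]
  ring

private theorem Rot_Del_imp {h : HE n} (hD : Del z h) : Del z (rot h) := by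
  obtain ⟨h1, c, q, ha, hb, hc, hl⟩ := hD
  refine ⟨?_, c, q, hb, hc, ha, fun l l1 l2 l3 => hl l l3 l1 l2⟩
  have := crs_rot (z h.1) (z h.2.1) (z h.2.2)
  simp only [rot]
  rw [this]
  exact h1

theorem Del_rot {h : HE n} : Del z (rot h) ↔ Del z h := by
  constructor
  · intro hD
    have := Rot_Del_imp (Rot_Del_imp hD)
    rwa [rot_rot_rot] at this
  · exact Rot_Del_imp

theorem tri_rot (h : HE n) : tri z (rot h) = tri z h := by
  ext x
  simp only [tri, triS, rot, Set.mem_setOf_eq]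
  tauto

theorem ph_rot (h : HE n) : ph z (rot h) = ph z h := by
  have : dsc z (rot h) = dsc z h := by
    simp only [dsc, rot]
    ring
  simp only [ph, this]

theorem xx_comm (u v : ℂ) : xx u v = xx v u := by
  simp only [xx]
  rw [norm_sub_rev, mul_comm (1 + ‖u‖ ^ 2)]

theorem arT_rot (h : HE n) : arT z (rot h) = arT z h := by
  simp only [arT, rot, heron]
  congr 2
  ring

theorem dfc_rot (r : ℝ) (h : HE n) : dfc r z (rot h) = dfc r z h := by
  simp only [dfc, arT_rot]

theorem eps_rot (r : ℝ) (h : HE n) : eps r z (rot h) = eps r z h := by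
  simp only [eps, dfc_rot]

theorem Good_rot {r : ℝ} {h : HE n} : Good r z (rot h) ↔ Good r z h := by
  simp only [Good, Del_rot, dfc_rot]
  simp only [rot]
  tauto

theorem Near_rot {h : HE n} : Near z (rot h) ↔ Near z h := by
  simp only [Near, Del_rot]
  simp only [rot]
  tauto

theorem sum_rot {M : Type*} [AddCommMonoid M] (Φ : HE n → M) :
    ∑ h ∈ Dset z, Φ (rot h) = ∑ h ∈ Dset z, Φ h := by
  refine Finset.sum_nbij' rot (fun h => rot (rot h)) ?_ ?_ ?_ ?_ ?_
  · intro h hh
    rw [mem_Dset] at hh ⊢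
    exact Del_rot.2 hh
  · intro h hh
    rw [mem_Dset] at hh ⊢
    exact Del_rot.2 (Del_rot.2 hh)
  · intro h _
    exact rot_rot_rot h
  · intro h _
    exact rot_rot_rot h
  · intro h _
    rfl

/-- the three vertices of a Delaunay triangle are distinct -/
theorem Del_ne {h : HE n} (hD : Del z h) :
    z h.1 ≠ z h.2.1 ∧ z h.2.1 ≠ z h.2.2 ∧ z h.2.2 ≠ z h.1 := by
  have h1 := hD.1
  refine ⟨fun e => ?_, fun e => ?_, fun e => ?_⟩
  · rw [e] at h1
    simp [crs] at h1
  · rw [e] at h1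
    simp only [crs] at h1
    linarith
  · rw [e] at h1
    simp [crs] at h1

theorem ph_norm {h : HE n} (hD : Del z h) : ‖ph z h‖ = 1 := by
  obtain ⟨h1, h2, h3⟩ := Del_ne hD
  have h0 : dsc z h ≠ 0 := by
    simp only [dsc]
    exact pow_ne_zero _ (mul_ne_zero (mul_ne_zero (sub_ne_zero.2 h1) (sub_ne_zero.2 h2))
      (sub_ne_zero.2 h3))
  have h4 : ‖dsc z h‖ ≠ 0 := norm_ne_zero_iff.2 h0
  simp only [ph]
  rw [norm_div, Complex.norm_real, norm_norm]
  exact div_self h4

end Pool.Agent.CAPS
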