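import Pool.Agent.Lib.MP_488b8a_co.Defs

/-! Project CAPS (MP_488b8a_co), module Vol3. -/

namespace Pool.Agent.CAPS

open Complex MeasureTheory

/-- the box -/
private def Vol3_box (r : ℝ) : Set (Fin 3 → ℝ) :=
  Set.Icc ![-(4 * r), -(4 * r), -1] ![4 * r, 4 * r, 1]

private theorem Vol3_box_vol {r : ℝ} (hr : 0 < r) :
    volume (Vol3_box r) = ENNReal.ofReal (128 * r ^ 2) := by
  unfold Vol3_box
  rw [Real.volume_Icc_pi, Fin.prod_univ_three]
  simp only [Matrix.cons_val_zero, Matrix.cons_val_one, Matrix.cons_val]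
  rw [← ENNReal.ofReal_mul (by linarith),
    ← ENNReal.ofReal_mul (mul_nonneg (by linarith) (by linarith))]
  congr 1
  ring

private theorem Vol3_box_vol' {r : ℝ} (hr : 0 < r) :
    volume ((fun x : EuclideanSpace ℝ (Fin 3) => (x.ofLp : Fin 3 → ℝ)) ⁻¹' Vol3_box r) =
      ENNReal.ofReal (128 * r ^ 2) := by
  have h := (PiLp.volume_preserving_ofLp (Fin 3)).measure_preimage
    (s := Vol3_box r) measurableSet_Icc.nullMeasurableSet
  rw [Vol3_box_vol hr] at h
  exact h

theorem vol3 {ρ r : ℝ} (hρ : 0 < ρ) (hρ1 : ρ ≤ 1) (hr : 0 < r) :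
    ENNReal.ofReal (4 / 3 * Real.pi * ρ ^ 3 - 128 * r ^ 2) ≤
      volume {x : EuclideanSpace ℝ (Fin 3) | ‖x‖ ≤ ρ ∧ (4 * r < |x 0| ∨ 4 * r < |x 1|)} := by
  set T := {x : EuclideanSpace ℝ (Fin 3) | ‖x‖ ≤ ρ ∧ (4 * r < |x 0| ∨ 4 * r < |x 1|)} with hT
  set Q := (fun x : EuclideanSpace ℝ (Fin 3) => (x.ofLp : Fin 3 → ℝ)) ⁻¹' Vol3_box r with hQ
  have hsub : Metric.closedBall (0 : EuclideanSpace ℝ (Fin 3)) ρ ⊆ T ∪ Q := by
    intro x hx
    have hx1 : ‖x‖ ≤ ρ := by simpa using hx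
    by_cases h : 4 * r < |x 0| ∨ 4 * r < |x 1|
    · exact Or.inl ⟨hx1, h⟩
    · right
      push Not at h
      have h2 : |x 2| ≤ 1 := by
        have h3 := PiLp.norm_apply_le x 2
        rw [Real.norm_eq_abs] at h3
        linarith
      rw [hQ, Set.mem_preimage, Vol3_box, Set.mem_Icc]
      constructor
      · intro i
        fin_cases i
        · simpa using (abs_le.mp h.1).1
        · simpa using (abs_le.mp h.2).1
        · simpa using (abs_le.mp h2).1
      · intro i
        fin_cases i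
        · simpa using (abs_le.mp h.1).2
        · simpa using (abs_le.mp h.2).2
        · simpa using (abs_le.mp h2).2
  have hball : volume (Metric.closedBall (0 : EuclideanSpace ℝ (Fin 3)) ρ) =
      ENNReal.ofReal (4 / 3 * Real.pi * ρ ^ 3) := by
    rw [EuclideanSpace.volume_closedBall_fin_three, ← ENNReal.ofReal_pow hρ.le,
      ← ENNReal.ofReal_mul (by positivity)]
    congr 1
    ring
  have h1 : ENNReal.ofReal (4 / 3 * Real.pi * ρ ^ 3) ≤
      volume T + ENNReal.ofReal (128 * r ^ 2) := by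
    rw [← hball, ← Vol3_box_vol' hr]
    exact (measure_mono hsub).trans (measure_union_le T Q)
  rw [ENNReal.ofReal_sub _ (by positivity), tsub_le_iff_right]
  exact h1

end Pool.Agent.CAPS
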