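import Pool.Agent.Lib.MP_488b8a_co.Facet3
import Pool.Agent.Lib.MP_488b8a_co.Pyr
import Pool.Agent.Lib.MP_488b8a_co.Rot
import Pool.Agent.Lib.MP_488b8a_co.Vol3

/-! Project CAPS (MP_488b8a_co), module AreaSum. -/

namespace Pool.Agent.CAPS

open Complex MeasureTheory

private def areaSum_pyr {n : ℕ} (z : Fin n → ℂ) (h : HE n) : Set (EuclideanSpace ℝ (Fin 3)) :=
  {x | ∃ α β γ : ℝ, 0 ≤ α ∧ 0 ≤ β ∧ 0 ≤ γ ∧ α + β + γ ≤ 1 ∧
      x = α • sph (z h.1) + β • sph (z h.2.1) + γ • sph (z h.2.2)}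

private lemma areaSum_rot {n : ℕ} (z : Fin n → ℂ) (h : HE n) {x : EuclideanSpace ℝ (Fin 3)}
    (hx : x ∈ areaSum_pyr z h) : x ∈ areaSum_pyr z (rot h) := by
  obtain ⟨α, β, γ, h1, h2, h3, h4, h5⟩ := hx
  refine ⟨β, γ, α, h2, h3, h1, by linarith, ?_⟩
  rw [h5]
  simp only [rot]
  abel

theorem area_sum {n : ℕ} {z : Fin n → ℂ} {r : ℝ} (hG : GP z) (hC : Cov z r) (hr : 0 < r)
    (hr1 : r ≤ 1 / 100) (S : Finset (HE n))
    (hS : ∀ h, Del z h → h ∈ S ∨ rot h ∈ S ∨ rot (rot h) ∈ S) :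
    4 * Real.pi * Real.cos r ^ 3 - 384 * r ^ 2 ≤ ∑ h ∈ S, arT z h := by
  have hcos : 0 < Real.cos r := by
    apply Real.cos_pos_of_mem_Ioo
    constructor
    · have := Real.pi_pos; linarith
    · have := Real.pi_gt_three; linarith
  have hcos1 : Real.cos r ≤ 1 := Real.cos_le_one r
  have hvol := vol3 hcos hcos1 hr
  have harT : ∀ h : HE n, 0 ≤ arT z h := by
    intro h
    unfold arT heron
    positivity
  have hsub : volume {x : EuclideanSpace ℝ (Fin 3) | ‖x‖ ≤ Real.cos r ∧ (4 * r < |x 0| ∨ 4 * r < |x 1|)}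
      ≤ volume (⋃ h ∈ S, areaSum_pyr z h) := by
    apply measure_mono_ae
    filter_upwards [facet3 hG hC hr hr1] with x hx
    intro hxT
    have hxT' : ‖x‖ ≤ Real.cos r ∧ (4 * r < |x 0| ∨ 4 * r < |x 1|) := hxT
    obtain ⟨h, hD, α, β, γ, h1, h2, h3, h4, h5⟩ := hx hxT'.1 hxT'.2
    have hmem : x ∈ areaSum_pyr z h := ⟨α, β, γ, h1, h2, h3, h4, h5⟩
    show x ∈ ⋃ h ∈ S, areaSum_pyr z h
    rw [Set.mem_iUnion₂]
    rcases hS h hD with h' | h' | h'
    · exact ⟨h, h', hmem⟩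
    · exact ⟨rot h, h', areaSum_rot z h hmem⟩
    · exact ⟨rot (rot h), h', areaSum_rot z _ (areaSum_rot z h hmem)⟩
  have hle : volume (⋃ h ∈ S, areaSum_pyr z h) ≤ ∑ h ∈ S, volume (areaSum_pyr z h) :=
    measure_biUnion_finset_le S _
  have hle2 : ∑ h ∈ S, volume (areaSum_pyr z h) ≤ ∑ h ∈ S, ENNReal.ofReal (arT z h / 3) := by
    apply Finset.sum_le_sum
    intro h _
    exact pyr_vol (z h.1) (z h.2.1) (z h.2.2)
  have hle3 : ∑ h ∈ S, ENNReal.ofReal (arT z h / 3) = ENNReal.ofReal (∑ h ∈ S, arT z h / 3) := by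
    rw [ENNReal.ofReal_sum_of_nonneg]
    intro h _
    have := harT h
    positivity
  have hfin := (hvol.trans hsub).trans (hle.trans (hle2.trans hle3.le))
  have hsum : 0 ≤ ∑ h ∈ S, arT z h / 3 := by
    apply Finset.sum_nonneg
    intro h _
    have := harT h
    positivity
  rw [ENNReal.ofReal_le_ofReal_iff hsum] at hfin
  rw [← Finset.sum_div] at hfin
  linarith

end Pool.Agent.CAPS
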