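import Pool.Agent.Lib.MP_488b8a_co.Sph

/-! Project CAPS (MP_488b8a_co), module Cap. -/

namespace Pool.Agent.CAPS

open Complex MeasureTheory

variable {n : ℕ} {z : Fin n → ℂ} {r : ℝ}

private lemma cap_id (c u : ℂ) (q : ℝ) :
    inner ℝ (!₂[2 * c.re, 2 * c.im, 1 - (‖c‖ ^ 2 - q)] : EuclideanSpace ℝ (Fin 3)) (sph u) =
      (1 + ‖c‖ ^ 2 - q) - (‖u - c‖ ^ 2 - q) * (2 / (1 + ‖u‖ ^ 2)) := by
  have h1 : (1 : ℝ) + ‖u‖ ^ 2 ≠ 0 := by positivity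
  have h2 : ‖u - c‖ ^ 2 = ‖u‖ ^ 2 - 2 * (u.re * c.re + u.im * c.im) + ‖c‖ ^ 2 := by
    rw [Complex.sq_norm, Complex.sq_norm, Complex.sq_norm, Complex.normSq_apply,
      Complex.normSq_apply, Complex.normSq_apply, Complex.sub_re, Complex.sub_im]
    ring
  rw [h2]
  simp only [sph, PiLp.inner_apply, Fin.sum_univ_three, Matrix.cons_val_zero,
    Matrix.cons_val_one, Matrix.cons_val, RCLike.inner_apply, conj_trivial]
  field_simp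
  ring

private lemma cap_nm (c : ℂ) (q : ℝ) :
    ‖(!₂[2 * c.re, 2 * c.im, 1 - (‖c‖ ^ 2 - q)] : EuclideanSpace ℝ (Fin 3))‖ ^ 2 =
      (1 + ‖c‖ ^ 2 - q) ^ 2 + 4 * q := by
  rw [EuclideanSpace.norm_sq_eq, Fin.sum_univ_three]
  simp only [Matrix.cons_val_zero, Matrix.cons_val_one,
    Matrix.cons_val, Real.norm_eq_abs, sq_abs]
  have h : ‖c‖ ^ 2 = c.re ^ 2 + c.im ^ 2 := by
    rw [Complex.sq_norm, Complex.normSq_apply]; ring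
  rw [h]
  ring

private lemma cap_basic (hC : Cov z r) {c : ℂ} {q : ℝ} (hq : 0 ≤ q)
    (he : ∀ l, q ≤ ‖z l - c‖ ^ 2) :
    ∃ m : EuclideanSpace ℝ (Fin 3), 0 < ‖m‖ ∧ ‖m‖ ^ 2 = (1 + ‖c‖ ^ 2 - q) ^ 2 + 4 * q ∧
      ‖m‖ * Real.cos r ≤ 1 + ‖c‖ ^ 2 - q ∧
      ∀ u : ℂ, ‖u - c‖ ^ 2 ≤ q → 1 + ‖c‖ ^ 2 - q ≤ inner ℝ m (sph u) := by
  have h0 := cap_nm c q
  have h1 := fun u => cap_id c u q
  generalize (!₂[2 * c.re, 2 * c.im, 1 - (‖c‖ ^ 2 - q)] : EuclideanSpace ℝ (Fin 3)) = m at h0 h1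
  have hm : 0 < ‖m‖ := by
    rcases (norm_nonneg m).lt_or_eq with h | h
    · exact h
    · exfalso
      rw [← h] at h0
      have h2 : q = 0 := by nlinarith [sq_nonneg (1 + ‖c‖ ^ 2 - q)]
      subst h2
      have h3 : (0 : ℝ) < 1 + ‖c‖ ^ 2 - 0 := by linarith [sq_nonneg ‖c‖]
      nlinarith
  refine ⟨m, hm, h0, ?_, ?_⟩
  · obtain ⟨l, hl⟩ := hC ((1 / ‖m‖) • m) (by
      rw [norm_smul, norm_div, norm_norm, norm_one, one_div, inv_mul_cancel₀ hm.ne'])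
    rw [real_inner_smul_left, h1 (z l), one_div, inv_mul_eq_div, le_div_iff₀ hm] at hl
    have h2 : 0 ≤ (‖z l - c‖ ^ 2 - q) * (2 / (1 + ‖z l‖ ^ 2)) :=
      mul_nonneg (by linarith [he l]) (by positivity)
    linarith
  · intro u hu
    rw [h1 u]
    have h2 : 0 ≤ (q - ‖u - c‖ ^ 2) * (2 / (1 + ‖u‖ ^ 2)) :=
      mul_nonneg (by linarith) (by positivity)
    linarith

private lemma cap_cos (hr : 0 < r) (hr1 : r ≤ 1) : 0 < Real.cos r :=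
  Real.cos_pos_of_mem_Ioo ⟨by linarith [Real.pi_gt_three], by linarith [Real.pi_gt_three]⟩

/-- an empty disc corresponds to a cap of radius at most `r` -/
theorem cap_bound (hC : Cov z r) (hr : 0 < r) (hr1 : r ≤ 1) {c : ℂ} {q : ℝ} (hq : 0 ≤ q)
    (he : ∀ l, q ≤ ‖z l - c‖ ^ 2) :
    0 < 1 + ‖c‖ ^ 2 - q ∧
      4 * q * Real.cos r ^ 2 ≤ Real.sin r ^ 2 * (1 + ‖c‖ ^ 2 - q) ^ 2 := by
  obtain ⟨m, hm, hm2, hc, -⟩ := cap_basic hC hq he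
  have hcos := cap_cos hr hr1
  have h1 : 0 < ‖m‖ * Real.cos r := mul_pos hm hcos
  refine ⟨by linarith, ?_⟩
  have h2 : (‖m‖ * Real.cos r) ^ 2 ≤ (1 + ‖c‖ ^ 2 - q) ^ 2 :=
    pow_le_pow_left₀ h1.le hc 2
  rw [mul_pow, hm2] at h2
  have h3 := Real.sin_sq_add_cos_sq r
  have h4 : Real.sin r ^ 2 = 1 - Real.cos r ^ 2 := by linarith
  rw [h4]
  nlinarith

theorem cap_two (hC : Cov z r) (hr : 0 < r) (hr1 : r ≤ 1) {c : ℂ} {q : ℝ} (hq : 0 ≤ q)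
    (he : ∀ l, q ≤ ‖z l - c‖ ^ 2) {x w : ℂ} (hx : ‖x - c‖ ^ 2 ≤ q) (hw : ‖w - c‖ ^ 2 ≤ q) :
    xx x w ≤ 4 * Real.sin r ^ 2 := by
  obtain ⟨m, hm, hm2, hc, hu⟩ := cap_basic hC hq he
  have hcos := cap_cos hr hr1
  have h1 := hu x hx
  have h2 := hu w hw
  have h3 := real_inner_le_norm m (sph x + sph w)
  rw [inner_add_right] at h3
  have h4 : 2 * Real.cos r ≤ ‖sph x + sph w‖ := by
    by_contra hcon
    push Not at hcon
    nlinarith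
  have h5 := parallelogram_law_with_norm ℝ (sph x) (sph w)
  rw [sph_norm, sph_norm] at h5
  rw [← sph_dist]
  have h6 : (2 * Real.cos r) ^ 2 ≤ ‖sph x + sph w‖ ^ 2 :=
    pow_le_pow_left₀ (by linarith) h4 2
  have h7 := Real.sin_sq_add_cos_sq r
  nlinarith

theorem cap_three (hC : Cov z r) (hr : 0 < r) (hr1 : r ≤ 1) {c : ℂ} {q : ℝ} (hq : 0 ≤ q)
    (he : ∀ l, q ≤ ‖z l - c‖ ^ 2) {u v w : ℂ} (hu : ‖u - c‖ ^ 2 = q) (hv : ‖v - c‖ ^ 2 = q)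
    (hw : ‖w - c‖ ^ 2 = q) : xx u v + xx v w + xx w u ≤ 9 * Real.sin r ^ 2 := by
  obtain ⟨m, hm, hm2, hc, hm3⟩ := cap_basic hC hq he
  have hcos := cap_cos hr hr1
  have h1 := hm3 u hu.le
  have h2 := hm3 v hv.le
  have h2' := hm3 w hw.le
  have h3 := real_inner_le_norm m (sph u + sph v + sph w)
  rw [inner_add_right, inner_add_right] at h3
  have h4 : 3 * Real.cos r ≤ ‖sph u + sph v + sph w‖ := by
    by_contra hcon
    push Not at hcon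
    nlinarith
  have h5 : ‖sph u - sph v‖ ^ 2 + ‖sph v - sph w‖ ^ 2 + ‖sph w - sph u‖ ^ 2 =
      9 - ‖sph u + sph v + sph w‖ ^ 2 := by
    rw [norm_sub_sq_real, norm_sub_sq_real, norm_sub_sq_real, norm_add_sq_real, norm_add_sq_real,
      inner_add_left, sph_norm, sph_norm, sph_norm, real_inner_comm (sph u) (sph w)]
    ring
  have h6 : (3 * Real.cos r) ^ 2 ≤ ‖sph u + sph v + sph w‖ ^ 2 :=
    pow_le_pow_left₀ (by linarith) h4 2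
  have h7 := Real.sin_sq_add_cos_sq r
  rw [← sph_dist, ← sph_dist, ← sph_dist]
  nlinarith

end Pool.Agent.CAPS
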