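import Pool.Agent.Lib.MP_488b8a_co.Defs

/-! Project CAPS (MP_488b8a_co), module Cone. -/

namespace Pool.Agent.CAPS

open Complex MeasureTheory

/-- the height in the direction `v` -/
noncomputable def ht (v w : ℂ) : ℝ := v.re * w.re + v.im * w.im

theorem gen_dir {n : ℕ} (z : Fin n → ℂ) (hz : Function.Injective z) :
    ∃ v : ℂ, v ≠ 0 ∧ ∀ i j, i ≠ j → ht v (z i) ≠ ht v (z j) := by
  classical
  let bad : Finset ℝ := (Finset.univ : Finset (Fin n × Fin n)).image
    (fun p => -((z p.1).re - (z p.2).re) / ((z p.1).im - (z p.2).im))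
  obtain ⟨t, ht0⟩ := Infinite.exists_notMem_finset bad
  refine ⟨⟨1, t⟩, ?_, ?_⟩
  · intro h
    have := congrArg Complex.re h
    simp at this
  · intro i j hij h
    have h1 : (z i).re - (z j).re + t * ((z i).im - (z j).im) = 0 := by
      have h2 : 1 * (z i).re + t * (z i).im = 1 * (z j).re + t * (z j).im := h
      linarith
    by_cases h0 : (z i).im - (z j).im = 0
    · rw [h0, mul_zero, add_zero] at h1
      exact hij (hz (Complex.ext (by linarith) (by linarith)))
    · apply ht0
      refine Finset.mem_image.2 ⟨(i, j), Finset.mem_univ _, ?_⟩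
      show -((z i).re - (z j).re) / ((z i).im - (z j).im) = t
      rw [div_eq_iff h0]
      linarith

/-- the common computation -/
private lemma cone_aux {p q w u : ℂ} (ho : 0 < crs (q - p) (w - p)) (h1 : 0 < crs (q - p) u)
    (h2 : 0 < crs (w - q) u) :
    ∃ t₀ : ℝ, 0 < t₀ ∧ ∀ t : ℝ, 0 < t → t < t₀ → q + (t : ℂ) * u ∈ triS p q w := by
  have hD : crs (p - w) (q - w) = crs (q - p) (w - p) := by
    simp only [crs, Complex.sub_re, Complex.sub_im]
    ring
  refine ⟨crs (q - p) (w - p) / (|crs (p - w) u| + 1), by positivity, ?_⟩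
  intro t ht0 ht1
  have e1 : crs (q - p) (q + (t : ℂ) * u - p) = t * crs (q - p) u := by
    simp only [crs, Complex.sub_re, Complex.sub_im, Complex.add_re, Complex.add_im,
      Complex.mul_re, Complex.mul_im, Complex.ofReal_re, Complex.ofReal_im]
    ring
  have e2 : crs (w - q) (q + (t : ℂ) * u - q) = t * crs (w - q) u := by
    simp only [crs, Complex.sub_re, Complex.sub_im, Complex.add_re, Complex.add_im,
      Complex.mul_re, Complex.mul_im, Complex.ofReal_re, Complex.ofReal_im]
    ring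
  have e3 : crs (p - w) (q + (t : ℂ) * u - w) = crs (q - p) (w - p) + t * crs (p - w) u := by
    rw [← hD]
    simp only [crs, Complex.sub_re, Complex.sub_im, Complex.add_re, Complex.add_im,
      Complex.mul_re, Complex.mul_im, Complex.ofReal_re, Complex.ofReal_im]
    ring
  refine ⟨?_, ?_, ?_⟩
  · rw [e1]; exact mul_pos ht0 h1
  · rw [e2]; exact mul_pos ht0 h2
  · rw [e3]
    have hpos : (0 : ℝ) < |crs (p - w) u| + 1 := by positivity
    have h3 : t * (|crs (p - w) u| + 1) < crs (q - p) (w - p) := (lt_div_iff₀ hpos).1 ht1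
    have h4 : -(t * |crs (p - w) u|) ≤ t * crs (p - w) u := by
      rw [← mul_neg]
      exact mul_le_mul_of_nonneg_left (neg_abs_le _) ht0.le
    nlinarith

/-- the middle vertex sees the horizontal direction inside the triangle -/
theorem cone_up {p q w v : ℂ} (ho : 0 < crs (q - p) (w - p)) (h1 : ht v p < ht v q)
    (h2 : ht v q < ht v w) :
    ∃ t₀ : ℝ, 0 < t₀ ∧ ∀ t : ℝ, 0 < t → t < t₀ → q + (t : ℂ) * (I * v) ∈ triS p q w := by
  have e : ∀ a b : ℂ, crs (b - a) (I * v) = ht v b - ht v a := by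
    intro a b
    simp only [crs, ht, Complex.sub_re, Complex.sub_im, Complex.mul_re, Complex.mul_im,
      Complex.I_re, Complex.I_im]
    ring
  refine cone_aux ho ?_ ?_
  · rw [e]; linarith
  · rw [e]; linarith

theorem cone_down {p q w v : ℂ} (ho : 0 < crs (q - p) (w - p)) (h1 : ht v w < ht v q)
    (h2 : ht v q < ht v p) :
    ∃ t₀ : ℝ, 0 < t₀ ∧ ∀ t : ℝ, 0 < t → t < t₀ → q - (t : ℂ) * (I * v) ∈ triS p q w := by
  have e : ∀ a b : ℂ, crs (b - a) (-(I * v)) = ht v a - ht v b := by
    intro a b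
    simp only [crs, ht, Complex.sub_re, Complex.sub_im, Complex.mul_re, Complex.mul_im,
      Complex.I_re, Complex.I_im, Complex.neg_re, Complex.neg_im]
    ring
  obtain ⟨t₀, h3, h4⟩ := cone_aux (u := -(I * v)) ho (by rw [e]; linarith) (by rw [e]; linarith)
  refine ⟨t₀, h3, fun t h5 h6 => ?_⟩
  have := h4 t h5 h6
  rwa [mul_neg, ← sub_eq_add_neg] at this

end Pool.Agent.CAPS
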