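import Pool.Agent.Lib.MP_488b8a_co.NonOv
import Pool.Agent.Lib.MP_488b8a_co.Cone

/-! Project CAPS (MP_488b8a_co), module Count. -/

namespace Pool.Agent.CAPS

open Complex MeasureTheory

private theorem count_del_rot {n : ℕ} {z : Fin n → ℂ} {h : HE n} (hD : Del z h) :
    Del z (rot h) := by
  obtain ⟨hp, c, q, h1, h2, h3, h4⟩ := hD
  refine ⟨?_, c, q, h2, h3, h1, fun l e1 e2 e3 => h4 l e3 e1 e2⟩
  have e : crs (z h.2.2 - z h.2.1) (z h.1 - z h.2.1) =
      crs (z h.2.1 - z h.1) (z h.2.2 - z h.1) := by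
    simp only [crs, Complex.sub_re, Complex.sub_im]
    ring
  show 0 < crs (z h.2.2 - z h.2.1) (z h.1 - z h.2.1)
  rw [e]
  exact hp

private theorem count_ne {n : ℕ} {z : Fin n → ℂ} {h : HE n} (hD : Del z h) :
    h.1 ≠ h.2.1 ∧ h.2.1 ≠ h.2.2 ∧ h.1 ≠ h.2.2 := by
  obtain ⟨hp, -⟩ := hD
  refine ⟨fun e => ?_, fun e => ?_, fun e => ?_⟩
  · rw [e] at hp
    simp only [crs, Complex.sub_re, Complex.sub_im] at hp
    linarith [hp, show ((z h.2.1).re - (z h.2.1).re) * ((z h.2.2).im - (z h.2.1).im) -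
      ((z h.2.1).im - (z h.2.1).im) * ((z h.2.2).re - (z h.2.1).re) = 0 by ring]
  · rw [e] at hp
    simp only [crs, Complex.sub_re, Complex.sub_im] at hp
    linarith [hp, show ((z h.2.2).re - (z h.1).re) * ((z h.2.2).im - (z h.1).im) -
      ((z h.2.2).im - (z h.1).im) * ((z h.2.2).re - (z h.1).re) = 0 by ring]
  · rw [← e] at hp
    simp only [crs, Complex.sub_re, Complex.sub_im] at hp
    linarith [hp, show ((z h.2.1).re - (z h.1).re) * ((z h.1).im - (z h.1).im) -
      ((z h.2.1).im - (z h.1).im) * ((z h.1).re - (z h.1).re) = 0 by ring]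

theorem count {n : ℕ} (z : Fin n → ℂ) (hz : Function.Injective z) :
    ∃ S : Finset (HE n), (∀ h ∈ S, Del z h) ∧ S.card ≤ 2 * n ∧
      ∀ h, Del z h → h ∈ S ∨ rot h ∈ S ∨ rot (rot h) ∈ S := by
  classical
  obtain ⟨v, -, hgen⟩ := gen_dir z hz
  set H : Fin n → ℝ := fun i => ht v (z i) with hH
  have hne : ∀ i j, i ≠ j → H i ≠ H j := hgen
  let S : Finset (HE n) := Finset.univ.filter (fun h => Del z h ∧
    ((H h.1 < H h.2.1 ∧ H h.2.1 < H h.2.2) ∨ (H h.2.2 < H h.2.1 ∧ H h.2.1 < H h.1)))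
  have hS : ∀ h, h ∈ S ↔ Del z h ∧
      ((H h.1 < H h.2.1 ∧ H h.2.1 < H h.2.2) ∨ (H h.2.2 < H h.2.1 ∧ H h.2.1 < H h.1)) := by
    intro h
    simp only [S, Finset.mem_filter, Finset.mem_univ, true_and]
  refine ⟨S, fun h hh => ((hS h).1 hh).1, ?_, ?_⟩
  · have hcard : S.card ≤ (Finset.univ : Finset (Fin n × Bool)).card := by
      refine Finset.card_le_card_of_injOn (fun h => (h.2.1, decide (H h.1 < H h.2.1)))
        (fun h _ => Finset.mem_coe.2 (Finset.mem_univ _)) ?_
      intro h hh h' hh' heq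
      obtain ⟨hD, ho⟩ := (hS h).1 (Finset.mem_coe.1 hh)
      obtain ⟨hD', ho'⟩ := (hS h').1 (Finset.mem_coe.1 hh')
      have heq2 : ((h.2.1, decide (H h.1 < H h.2.1)) : Fin n × Bool) =
        (h'.2.1, decide (H h'.1 < H h'.2.1)) := heq
      obtain ⟨h1, h2⟩ := Prod.mk.inj heq2
      have h3 : H h.1 < H h.2.1 ↔ H h'.1 < H h'.2.1 := decide_eq_decide.1 h2
      have key : ∀ x, x ∈ tri z h → x ∈ tri z h' → h = h' := by
        intro x hx hx'
        rcases nonov hz hD hD' hx hx' with e | e | e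
        · exact e.symm
        · exfalso
          have e1 : h'.2.1 = h.2.2 := by rw [e]; rfl
          exact (count_ne hD).2.1 (h1.trans e1)
        · exfalso
          have e1 : h'.2.1 = h.1 := by rw [e]; rfl
          exact (count_ne hD).1 (h1.trans e1).symm
      by_cases hup : H h.1 < H h.2.1
      · have hup' := h3.1 hup
        have g : H h.2.1 < H h.2.2 := by
          rcases ho with ho | ho
          · exact ho.2
          · exact absurd ho.2 (not_lt.2 hup.le)
        have g' : H h'.2.1 < H h'.2.2 := by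
          rcases ho' with ho' | ho'
          · exact ho'.2
          · exact absurd ho'.2 (not_lt.2 hup'.le)
        obtain ⟨t, ht0, ht1⟩ := cone_up (v := v) hD.1 hup g
        obtain ⟨t', ht0', ht1'⟩ := cone_up (v := v) hD'.1 hup' g'
        have m0 : 0 < min t t' / 2 := by positivity
        have m1 : min t t' / 2 < t := by
          have := min_le_left t t'
          linarith
        have m2 : min t t' / 2 < t' := by
          have := min_le_right t t'
          linarith
        refine key _ (ht1 _ m0 m1) ?_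
        have := ht1' _ m0 m2
        rw [← h1] at this
        rw [tri, ← h1]
        exact this
      · have hup' : ¬ H h'.1 < H h'.2.1 := fun h => hup (h3.2 h)
        have g : H h.2.2 < H h.2.1 ∧ H h.2.1 < H h.1 := by
          rcases ho with ho | ho
          · exact absurd ho.1 hup
          · exact ho
        have g' : H h'.2.2 < H h'.2.1 ∧ H h'.2.1 < H h'.1 := by
          rcases ho' with ho' | ho'
          · exact absurd ho'.1 hup'
          · exact ho'
        obtain ⟨t, ht0, ht1⟩ := cone_down (v := v) hD.1 g.1 g.2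
        obtain ⟨t', ht0', ht1'⟩ := cone_down (v := v) hD'.1 g'.1 g'.2
        have m0 : 0 < min t t' / 2 := by positivity
        have m1 : min t t' / 2 < t := by
          have := min_le_left t t'
          linarith
        have m2 : min t t' / 2 < t' := by
          have := min_le_right t t'
          linarith
        refine key _ (ht1 _ m0 m1) ?_
        have := ht1' _ m0 m2
        rw [← h1] at this
        rw [tri, ← h1]
        exact this
    have hc : (Finset.univ : Finset (Fin n × Bool)).card = 2 * n := by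
      rw [Finset.card_univ, Fintype.card_prod, Fintype.card_fin, Fintype.card_bool]
      ring
    omega
  · intro h hD
    obtain ⟨n1, n2, n3⟩ := count_ne hD
    have g1 := hne _ _ n1
    have g2 := hne _ _ n2
    have g3 := hne _ _ n3
    have hD1 := count_del_rot hD
    have hD2 := count_del_rot hD1
    rw [hS, hS, hS]
    have e1 : (rot h).1 = h.2.1 := rfl
    have e2 : (rot h).2.1 = h.2.2 := rfl
    have e3 : (rot h).2.2 = h.1 := rfl
    have e4 : (rot (rot h)).1 = h.2.2 := rfl
    have e5 : (rot (rot h)).2.1 = h.1 := rfl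
    have e6 : (rot (rot h)).2.2 = h.2.1 := rfl
    rw [e1, e2, e3, e4, e5, e6]
    rcases lt_or_gt_of_ne g1 with a | a <;> rcases lt_or_gt_of_ne g2 with b | b <;>
      rcases lt_or_gt_of_ne g3 with c | c
    · exact Or.inl ⟨hD, Or.inl ⟨a, b⟩⟩
    · exact Or.inl ⟨hD, Or.inl ⟨a, b⟩⟩
    · exact Or.inr (Or.inl ⟨hD1, Or.inr ⟨c, b⟩⟩)
    · exact Or.inr (Or.inr ⟨hD2, Or.inl ⟨c, a⟩⟩)
    · exact Or.inr (Or.inr ⟨hD2, Or.inr ⟨a, c⟩⟩)
    · exact Or.inr (Or.inl ⟨hD1, Or.inl ⟨b, c⟩⟩)
    · exact Or.inl ⟨hD, Or.inr ⟨b, a⟩⟩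
    · exact Or.inl ⟨hD, Or.inr ⟨b, a⟩⟩

end Pool.Agent.CAPS
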