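import Pool.Agent.Lib.MP_488b8a_co.Init

/-! Project CAPS (MP_488b8a_co), module CoverP. -/

namespace Pool.Agent.CAPS

open Complex MeasureTheory

private lemma coverP_sq (a : ℂ) : ‖a‖ ^ 2 = a.re ^ 2 + a.im ^ 2 := by
  rw [Complex.sq_norm, Complex.normSq_apply]; ring

/-- interpolation of the squared norm at `x` -/
private noncomputable def coverP_V (p q w x : ℂ) : ℝ :=
  (crs (w - q) (x - q) * ‖p‖ ^ 2 + crs (p - w) (x - w) * ‖q‖ ^ 2 + crs (q - p) (x - p) * ‖w‖ ^ 2)
    / crs (q - p) (w - p)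

private lemma coverP_rotD (p q w : ℂ) : crs (w - q) (p - q) = crs (q - p) (w - p) := by
  simp only [crs, Complex.sub_re, Complex.sub_im]; ring

private lemma coverP_rotV (p q w x : ℂ) : coverP_V q w p x = coverP_V p q w x := by
  unfold coverP_V
  have e : crs (w - q) (p - q) = crs (q - p) (w - p) := coverP_rotD p q w
  rw [e]
  congr 1
  ring

private lemma coverP_rotT {p q w x : ℂ} (h : x ∈ triS p q w) : x ∈ triS q w p :=
  ⟨h.2.1, h.2.2, h.1⟩

private lemma coverP_choose {a b c u v s : ℝ} (ha : 0 < a) (hb : 0 < b) (hc : 0 < c)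
    (hs : 0 < u + v + s) :
    (0 < u ∧ a * v ≤ b * u ∧ a * s ≤ c * u) ∨ (0 < v ∧ b * s ≤ c * v ∧ b * u ≤ a * v) ∨
      (0 < s ∧ c * u ≤ a * s ∧ c * v ≤ b * s) := by
  have e1 : a * (u / a) = u := by field_simp
  have e2 : b * (v / b) = v := by field_simp
  have e3 : c * (s / c) = s := by field_simp
  set r1 := u / a
  set r2 := v / b
  set r3 := s / c
  have hab : 0 < a * b := by positivity
  have hbc : 0 < b * c := by positivity
  have hac : 0 < a * c := by positivity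
  rw [← e1, ← e2, ← e3] at hs ⊢
  rcases le_total r1 r2 with h12 | h12
  · rcases le_total r2 r3 with h23 | h23
    · right; right
      have h13 := h12.trans h23
      refine ⟨?_, ?_, ?_⟩
      · by_contra hh
        have k3 : r3 ≤ 0 := by
          by_contra h; push Not at h; exact hh (by positivity)
        have k1 : a * r1 ≤ 0 := mul_nonpos_of_nonneg_of_nonpos ha.le (h13.trans k3)
        have k2 : b * r2 ≤ 0 := mul_nonpos_of_nonneg_of_nonpos hb.le (h23.trans k3)
        have k4 : c * r3 ≤ 0 := mul_nonpos_of_nonneg_of_nonpos hc.le k3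
        linarith
      · nlinarith [mul_le_mul_of_nonneg_left h13 hac.le]
      · nlinarith [mul_le_mul_of_nonneg_left h23 hbc.le]
    · right; left
      refine ⟨?_, ?_, ?_⟩
      · by_contra hh
        have k3 : r2 ≤ 0 := by
          by_contra h; push Not at h; exact hh (by positivity)
        have k1 : a * r1 ≤ 0 := mul_nonpos_of_nonneg_of_nonpos ha.le (h12.trans k3)
        have k2 : b * r2 ≤ 0 := mul_nonpos_of_nonneg_of_nonpos hb.le k3
        have k4 : c * r3 ≤ 0 := mul_nonpos_of_nonneg_of_nonpos hc.le (h23.trans k3)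
        linarith
      · nlinarith [mul_le_mul_of_nonneg_left h23 hbc.le]
      · nlinarith [mul_le_mul_of_nonneg_left h12 hab.le]
  · rcases le_total r1 r3 with h13 | h13
    · right; right
      have h23 := h12.trans h13
      refine ⟨?_, ?_, ?_⟩
      · by_contra hh
        have k3 : r3 ≤ 0 := by
          by_contra h; push Not at h; exact hh (by positivity)
        have k1 : a * r1 ≤ 0 := mul_nonpos_of_nonneg_of_nonpos ha.le (h13.trans k3)
        have k2 : b * r2 ≤ 0 := mul_nonpos_of_nonneg_of_nonpos hb.le (h23.trans k3)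
        have k4 : c * r3 ≤ 0 := mul_nonpos_of_nonneg_of_nonpos hc.le k3
        linarith
      · nlinarith [mul_le_mul_of_nonneg_left h13 hac.le]
      · nlinarith [mul_le_mul_of_nonneg_left h23 hbc.le]
    · left
      refine ⟨?_, ?_, ?_⟩
      · by_contra hh
        have k3 : r1 ≤ 0 := by
          by_contra h; push Not at h; exact hh (by positivity)
        have k1 : a * r1 ≤ 0 := mul_nonpos_of_nonneg_of_nonpos ha.le k3
        have k2 : b * r2 ≤ 0 := mul_nonpos_of_nonneg_of_nonpos hb.le (h12.trans k3)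
        have k4 : c * r3 ≤ 0 := mul_nonpos_of_nonneg_of_nonpos hc.le (h13.trans k3)
        linarith
      · nlinarith [mul_le_mul_of_nonneg_left h12 hab.le]
      · nlinarith [mul_le_mul_of_nonneg_left h13 hac.le]

/-- the flip: replace the vertex `p` by `m` -/
private lemma coverP_step {p q w m x : ℂ} (hD : 0 < crs (q - p) (w - p)) (hx : x ∈ triS p q w)
    (hu : 0 < crs (w - q) (m - q))
    (h2 : crs (w - q) (x - q) * crs (p - w) (m - w) ≤ crs (p - w) (x - w) * crs (w - q) (m - q))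
    (h3 : crs (w - q) (x - q) * crs (q - p) (m - p) ≤ crs (q - p) (x - p) * crs (w - q) (m - q))
    (hm : crs (q - p) (w - p) * ‖m‖ ^ 2 < crs (w - q) (m - q) * ‖p‖ ^ 2
      + crs (p - w) (m - w) * ‖q‖ ^ 2 + crs (q - p) (m - p) * ‖w‖ ^ 2)
    (g1 : crs (q - m) (x - m) ≠ 0) (g2 : crs (m - w) (x - w) ≠ 0) :
    0 < crs (q - m) (w - m) ∧ x ∈ triS m q w ∧ coverP_V m q w x < coverP_V p q w x := by
  have eD : crs (q - m) (w - m) = crs (w - q) (m - q) := by
    simp only [crs, Complex.sub_re, Complex.sub_im]; ring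
  have e1 : crs (q - p) (w - p) * crs (q - m) (x - m)
      = crs (q - p) (x - p) * crs (w - q) (m - q) - crs (w - q) (x - q) * crs (q - p) (m - p) := by
    simp only [crs, Complex.sub_re, Complex.sub_im]; ring
  have e2 : crs (q - p) (w - p) * crs (m - w) (x - w)
      = crs (p - w) (x - w) * crs (w - q) (m - q) - crs (w - q) (x - q) * crs (p - w) (m - w) := by
    simp only [crs, Complex.sub_re, Complex.sub_im]; ring
  have f1 : 0 < crs (q - m) (x - m) := by
    rcases lt_or_gt_of_ne g1 with h | h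
    · exfalso
      have := mul_neg_of_pos_of_neg hD h
      rw [e1] at this
      linarith
    · exact h
  have f2 : 0 < crs (m - w) (x - w) := by
    rcases lt_or_gt_of_ne g2 with h | h
    · exfalso
      have := mul_neg_of_pos_of_neg hD h
      rw [e2] at this
      linarith
    · exact h
  have hl : 0 < crs (w - q) (x - q) := hx.2.1
  refine ⟨by rw [eD]; exact hu, ⟨f1, hl, f2⟩, ?_⟩
  unfold coverP_V
  rw [eD, div_lt_div_iff₀ hu hD]
  set D := crs (q - p) (w - p)
  set l1 := crs (w - q) (x - q)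
  set l2 := crs (p - w) (x - w)
  set l3 := crs (q - p) (x - p)
  set u1 := crs (w - q) (m - q)
  set u2 := crs (p - w) (m - w)
  set u3 := crs (q - p) (m - p)
  have e1' : crs (q - m) (x - m) * D = l3 * u1 - l1 * u3 := by rw [mul_comm]; exact e1
  have e2' : crs (m - w) (x - w) * D = l2 * u1 - l1 * u2 := by rw [mul_comm]; exact e2
  have key : (l1 * ‖m‖ ^ 2 + crs (m - w) (x - w) * ‖q‖ ^ 2 + crs (q - m) (x - m) * ‖w‖ ^ 2) * D
      = l1 * (D * ‖m‖ ^ 2) + (l2 * u1 - l1 * u2) * ‖q‖ ^ 2 + (l3 * u1 - l1 * u3) * ‖w‖ ^ 2 := by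
    rw [← e1', ← e2']; ring
  rw [key]
  have := mul_lt_mul_of_pos_left hm hl
  nlinarith [this]

/-- centre of the circle through three points -/
private lemma coverP_circ {p q w : ℂ} (hD : 0 < crs (q - p) (w - p)) :
    ∃ (c : ℂ) (Q : ℝ), ‖p - c‖ ^ 2 = Q ∧ ‖q - c‖ ^ 2 = Q ∧ ‖w - c‖ ^ 2 = Q := by
  set D := crs (q - p) (w - p) with hDd
  have hD0 : (2 * D) ≠ 0 := by positivity
  set c : ℂ := ⟨((‖q‖ ^ 2 - ‖p‖ ^ 2) * (w - p).im - (‖w‖ ^ 2 - ‖p‖ ^ 2) * (q - p).im) / (2 * D),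
    ((q - p).re * (‖w‖ ^ 2 - ‖p‖ ^ 2) - (w - p).re * (‖q‖ ^ 2 - ‖p‖ ^ 2)) / (2 * D)⟩ with hc
  have c1 : c.re * (2 * D) = (‖q‖ ^ 2 - ‖p‖ ^ 2) * (w - p).im - (‖w‖ ^ 2 - ‖p‖ ^ 2) * (q - p).im := by
    rw [hc]; field_simp
  have c2 : c.im * (2 * D) = (q - p).re * (‖w‖ ^ 2 - ‖p‖ ^ 2) - (w - p).re * (‖q‖ ^ 2 - ‖p‖ ^ 2) := by
    rw [hc]; field_simp
  have a1 : 2 * ((q - p).re * c.re + (q - p).im * c.im) = ‖q‖ ^ 2 - ‖p‖ ^ 2 := by
    apply mul_right_cancel₀ hD0
    have : 2 * ((q - p).re * c.re + (q - p).im * c.im) * (2 * D)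
        = 2 * ((q - p).re * (c.re * (2 * D)) + (q - p).im * (c.im * (2 * D))) := by ring
    rw [this, c1, c2, hDd]
    simp only [crs, Complex.sub_re, Complex.sub_im]
    ring
  have a2 : 2 * ((w - p).re * c.re + (w - p).im * c.im) = ‖w‖ ^ 2 - ‖p‖ ^ 2 := by
    apply mul_right_cancel₀ hD0
    have : 2 * ((w - p).re * c.re + (w - p).im * c.im) * (2 * D)
        = 2 * ((w - p).re * (c.re * (2 * D)) + (w - p).im * (c.im * (2 * D))) := by ring
    rw [this, c1, c2, hDd]
    simp only [crs, Complex.sub_re, Complex.sub_im]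
    ring
  refine ⟨c, ‖p - c‖ ^ 2, rfl, ?_, ?_⟩
  · rw [coverP_sq, coverP_sq (p - c)]
    rw [coverP_sq q, coverP_sq p] at a1
    simp only [Complex.sub_re, Complex.sub_im] at a1 ⊢
    nlinarith [a1]
  · rw [coverP_sq, coverP_sq (p - c)]
    rw [coverP_sq w, coverP_sq p] at a2
    simp only [Complex.sub_re, Complex.sub_im] at a2 ⊢
    nlinarith [a2]

private lemma coverP_interp {p q w c m : ℂ} {Q : ℝ} (h1 : ‖p - c‖ ^ 2 = Q) (h2 : ‖q - c‖ ^ 2 = Q)
    (h3 : ‖w - c‖ ^ 2 = Q) :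
    crs (q - p) (w - p) * (‖m - c‖ ^ 2 - Q) = crs (q - p) (w - p) * ‖m‖ ^ 2
      - (crs (w - q) (m - q) * ‖p‖ ^ 2 + crs (p - w) (m - w) * ‖q‖ ^ 2
        + crs (q - p) (m - p) * ‖w‖ ^ 2) := by
  have s : crs (q - p) (w - p) = crs (w - q) (m - q) + crs (p - w) (m - w) + crs (q - p) (m - p) := by
    simp only [crs, Complex.sub_re, Complex.sub_im]; ring
  have e : crs (w - q) (m - q) * ‖p - c‖ ^ 2 + crs (p - w) (m - w) * ‖q - c‖ ^ 2
      + crs (q - p) (m - p) * ‖w - c‖ ^ 2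
      = crs (w - q) (m - q) * ‖p‖ ^ 2 + crs (p - w) (m - w) * ‖q‖ ^ 2
        + crs (q - p) (m - p) * ‖w‖ ^ 2
        + crs (q - p) (w - p) * (‖m - c‖ ^ 2 - ‖m‖ ^ 2) := by
    simp only [coverP_sq, crs, Complex.sub_re, Complex.sub_im]; ring
  rw [h1, h2, h3] at e
  have e' : crs (w - q) (m - q) * Q + crs (p - w) (m - w) * Q + crs (q - p) (m - p) * Q
      = crs (q - p) (w - p) * Q := by rw [s]; ring
  rw [e'] at e
  linarith

theorem coverP {n : ℕ} {z : Fin n → ℂ} (hG : GP z)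
    (hH : ∀ y : ℂ, ‖y‖ = 2 → ∃ l, ‖z l - y‖ ≤ 1 / 10) {x : ℂ} (hx : ‖x‖ ≤ 5 / 8)
    (hgen : ∀ i j, i ≠ j → crs (z j - z i) (x - z i) ≠ 0) :
    ∃ h, Del z h ∧ x ∈ tri z h := by
  classical
  set T : Finset (HE n) := Finset.univ.filter
    (fun h => 0 < crs (z h.2.1 - z h.1) (z h.2.2 - z h.1) ∧ x ∈ tri z h) with hT
  have hne : T.Nonempty := by
    obtain ⟨h, h1, h2⟩ := init_tri hH hx
    exact ⟨h, by rw [hT, Finset.mem_filter]; exact ⟨Finset.mem_univ _, h1, h2⟩⟩
  obtain ⟨h, hmem, hmin⟩ := Finset.exists_min_image T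
    (fun h => coverP_V (z h.1) (z h.2.1) (z h.2.2) x) hne
  rw [hT, Finset.mem_filter] at hmem
  obtain ⟨-, hD, hxt⟩ := hmem
  refine ⟨h, ?_, hxt⟩
  obtain ⟨i, j, k⟩ := h
  simp only at hD hxt hmin
  have hxt' : x ∈ triS (z i) (z j) (z k) := hxt
  obtain ⟨c, Q, c1, c2, c3⟩ := coverP_circ hD
  refine ⟨hD, c, Q, c1, c2, c3, ?_⟩
  intro l hli hlj hlk
  simp only at hli hlj hlk
  by_contra hcon
  push Not at hcon
  -- distinct indices
  have hij : i ≠ j := by
    rintro rfl
    simp [crs] at hD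
  have hik : i ≠ k := by
    rintro rfl
    simp [crs] at hD
  have hjk : j ≠ k := by
    rintro rfl
    simp only [crs] at hD
    have : (z j - z i).re * (z j - z i).im - (z j - z i).im * (z j - z i).re = 0 := by ring
    linarith
  have hlt : ‖z l - c‖ ^ 2 < Q := by
    rcases lt_or_eq_of_le hcon with h | h
    · exact h
    · exfalso
      have ex : ∀ y : ℂ, ‖y - c‖ ^ 2 = Q →
          (1 : ℝ) * ‖y‖ ^ 2 + ((-2 * c : ℂ).re * y.re + (-2 * c : ℂ).im * y.im) + (‖c‖ ^ 2 - Q) = 0 := by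
        intro y hy
        rw [← hy, coverP_sq (y - c), coverP_sq y, coverP_sq c]
        have r1 : (-2 * c : ℂ).re = -2 * c.re := by simp
        have r2 : (-2 * c : ℂ).im = -2 * c.im := by simp
        rw [r1, r2]
        simp only [Complex.sub_re, Complex.sub_im]
        ring
      have := hG.2 i j k l hij hik (Ne.symm hli) hjk (Ne.symm hlj) (Ne.symm hlk) 1 (‖c‖ ^ 2 - Q)
        (-2 * c) (ex _ c1) (ex _ c2) (ex _ c3) (ex _ h)
      exact one_ne_zero this.1
  have hkey := coverP_interp (m := z l) c1 c2 c3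
  have hneg : crs (z j - z i) (z k - z i) * (‖z l - c‖ ^ 2 - Q) < 0 :=
    mul_neg_of_pos_of_neg hD (by linarith)
  rw [hkey] at hneg
  have hlow : crs (z j - z i) (z k - z i) * ‖z l‖ ^ 2 < crs (z k - z j) (z l - z j) * ‖z i‖ ^ 2
      + crs (z i - z k) (z l - z k) * ‖z j‖ ^ 2 + crs (z j - z i) (z l - z i) * ‖z k‖ ^ 2 := by
    linarith
  have hsum : crs (z j - z i) (z k - z i) = crs (z k - z j) (z l - z j)
      + crs (z i - z k) (z l - z k) + crs (z j - z i) (z l - z i) := by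
    simp only [crs, Complex.sub_re, Complex.sub_im]; ring
  have fin : ∀ (a b e : Fin n), coverP_V (z a) (z b) (z e) x < coverP_V (z i) (z j) (z k) x →
      0 < crs (z b - z a) (z e - z a) → x ∈ triS (z a) (z b) (z e) → False := by
    intro a b e h1 h2 h3
    have hm : ((a, b, e) : HE n) ∈ T := by
      rw [hT, Finset.mem_filter]
      exact ⟨Finset.mem_univ _, h2, h3⟩
    have := hmin _ hm
    simp only at this
    linarith
  rcases coverP_choose hxt'.2.1 hxt'.2.2 hxt'.1 (by rw [← hsum]; exact hD) with hc | hc | hc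
  · obtain ⟨s1, s2, s3⟩ := coverP_step hD hxt' hc.1 hc.2.1 hc.2.2 hlow (hgen l j hlj)
      (hgen k l (Ne.symm hlk))
    exact fin l j k s3 s1 s2
  · -- vertices (j, k, i)
    have hD' : 0 < crs (z k - z j) (z i - z j) := by rw [coverP_rotD]; exact hD
    obtain ⟨s1, s2, s3⟩ := coverP_step hD' (coverP_rotT hxt') hc.1 hc.2.1 hc.2.2
      (by rw [coverP_rotD]; linarith) (hgen l k hlk) (hgen i l (Ne.symm hli))
    rw [coverP_rotV (z i) (z j) (z k) x] at s3
    exact fin l k i s3 s1 s2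
  · -- vertices (k, i, j)
    have hD' : 0 < crs (z i - z k) (z j - z k) := by
      rw [coverP_rotD, coverP_rotD]; exact hD
    obtain ⟨s1, s2, s3⟩ := coverP_step hD' (coverP_rotT (coverP_rotT hxt')) hc.1 hc.2.1 hc.2.2
      (by rw [coverP_rotD, coverP_rotD]; linarith) (hgen l i hli) (hgen j l (Ne.symm hlj))
    rw [coverP_rotV (z j) (z k) (z i) x, coverP_rotV (z i) (z j) (z k) x] at s3
    exact fin l i j s3 s1 s2

end Pool.Agent.CAPS
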