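import Mathlib

/-! Project CAPS (MP_488b8a_co): definitions.

`n` points `z l` of the plane are the images of `n` points of the unit sphere under the stereographic
projection from the south pole; `sph` is the inverse map. `Del z h` says that the ordered triple `h`
is a counterclockwise Delaunay triangle; ordered triples are used as half-edges: `h = (i, j, k)` is
the directed edge `z i → z j` with the triangle on its left. -/

namespace Pool.Agent.CAPS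

open Complex MeasureTheory

noncomputable section

/-- inverse stereographic projection -/
def sph (z : ℂ) : EuclideanSpace ℝ (Fin 3) :=
  !₂[2 * z.re / (1 + ‖z‖ ^ 2), 2 * z.im / (1 + ‖z‖ ^ 2), (1 - ‖z‖ ^ 2) / (1 + ‖z‖ ^ 2)]

/-- squared chord length between `sph z` and `sph w` -/
def xx (z w : ℂ) : ℝ := 4 * ‖z - w‖ ^ 2 / ((1 + ‖z‖ ^ 2) * (1 + ‖w‖ ^ 2))

/-- planar cross product -/
def crs (a b : ℂ) : ℝ := a.re * b.im - a.im * b.re

/-- ordered triples of indices -/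
abbrev HE (n : ℕ) := Fin n × Fin n × Fin n

def rot {n : ℕ} (h : HE n) : HE n := (h.2.1, h.2.2, h.1)

/-- counterclockwise Delaunay triangle (strict empty circle condition) -/
def Del {n : ℕ} (z : Fin n → ℂ) (h : HE n) : Prop :=
  0 < crs (z h.2.1 - z h.1) (z h.2.2 - z h.1) ∧
  ∃ (c : ℂ) (q : ℝ), ‖z h.1 - c‖ ^ 2 = q ∧ ‖z h.2.1 - c‖ ^ 2 = q ∧ ‖z h.2.2 - c‖ ^ 2 = q ∧
    ∀ l, l ≠ h.1 → l ≠ h.2.1 → l ≠ h.2.2 → q < ‖z l - c‖ ^ 2

/-- general position: distinct points, no four on a circle or a line -/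
def GP {n : ℕ} (z : Fin n → ℂ) : Prop :=
  Function.Injective z ∧
  ∀ i j k l : Fin n, i ≠ j → i ≠ k → i ≠ l → j ≠ k → j ≠ l → k ≠ l →
    ∀ (a d : ℝ) (b : ℂ), a * ‖z i‖ ^ 2 + (b.re * (z i).re + b.im * (z i).im) + d = 0 →
      a * ‖z j‖ ^ 2 + (b.re * (z j).re + b.im * (z j).im) + d = 0 →
      a * ‖z k‖ ^ 2 + (b.re * (z k).re + b.im * (z k).im) + d = 0 →
      a * ‖z l‖ ^ 2 + (b.re * (z l).re + b.im * (z l).im) + d = 0 → a = 0 ∧ b = 0 ∧ d = 0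

/-- the caps of radius `r` about the points `sph (z l)` cover the sphere -/
def Cov {n : ℕ} (z : Fin n → ℂ) (r : ℝ) : Prop :=
  ∀ x : EuclideanSpace ℝ (Fin 3), ‖x‖ = 1 → ∃ l, Real.cos r ≤ inner ℝ x (sph (z l))

/-- the finite set of Delaunay half-edges -/
def Dset {n : ℕ} (z : Fin n → ℂ) : Finset (HE n) := by
  classical exact Finset.univ.filter (fun h => Del z h)

/-- open triangle (counterclockwise vertices `p`, `q`, `w`) -/
def triS (p q w : ℂ) : Set ℂ :=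
  {x | 0 < crs (q - p) (x - p) ∧ 0 < crs (w - q) (x - q) ∧ 0 < crs (p - w) (x - w)}

def tri {n : ℕ} (z : Fin n → ℂ) (h : HE n) : Set ℂ := triS (z h.1) (z h.2.1) (z h.2.2)

/-- area of a triangle from the squared side lengths -/
def heron (x y w : ℝ) : ℝ := (1 / 4) * Real.sqrt (2 * (x * y + y * w + w * x) - (x ^ 2 + y ^ 2 + w ^ 2))

/-- area of the flat triangle inscribed in the sphere -/
def arT {n : ℕ} (z : Fin n → ℂ) (h : HE n) : ℝ :=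
  heron (xx (z h.1) (z h.2.1)) (xx (z h.2.1) (z h.2.2)) (xx (z h.2.2) (z h.1))

/-- relative area deficit with respect to the largest possible triangle -/
def dfc {n : ℕ} (r : ℝ) (z : Fin n → ℂ) (h : HE n) : ℝ :=
  1 - arT z h / (3 * Real.sqrt 3 / 4 * Real.sin r ^ 2)

/-- sum of all deficits -/
def EE {n : ℕ} (r : ℝ) (z : Fin n → ℂ) : ℝ := ∑ h ∈ Dset z, dfc r z h

/-- six times the lattice direction, as a unimodular number -/
def dsc {n : ℕ} (z : Fin n → ℂ) (h : HE n) : ℂ :=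
  ((z h.1 - z h.2.1) * (z h.2.1 - z h.2.2) * (z h.2.2 - z h.1)) ^ 2

def ph {n : ℕ} (z : Fin n → ℂ) (h : HE n) : ℂ := dsc z h / (‖dsc z h‖ : ℂ)

/-- the field of lattice directions -/
def psi {n : ℕ} (z : Fin n → ℂ) (x : ℂ) : ℂ :=
  (1 / 3) * ∑ h ∈ Dset z, (tri z h).indicator (fun _ => ph z h) x

/-- flux of `f e` through the segment from `p` to `q` (to the right) -/
def flx (f : ℂ → ℂ) (e p q : ℂ) : ℂ :=
  (∫ t in (0 : ℝ)..1, f (p + (t : ℂ) * (q - p))) * (crs e (q - p) : ℂ)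

/-- the connection form `A = (∂₂ λ, - ∂₁ λ)`, `λ = log (2 / (1 + |x|²))`, in the direction `e` -/
def AA (e x : ℂ) : ℝ := 2 * crs x e / (1 + ‖x‖ ^ 2)

/-- logarithmic strain of a side -/
def uu (r : ℝ) (z w : ℂ) : ℝ := (1 / 2) * Real.log (xx z w / (3 * Real.sin r ^ 2))

/-- log-ratio of the two other sides of the triangle of a half-edge -/
def gg {n : ℕ} (z : Fin n → ℂ) (h : HE n) : ℝ :=
  Real.log ‖z h.1 - z h.2.2‖ - Real.log ‖z h.2.1 - z h.2.2‖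

def lg (z : ℂ) : ℝ := Real.log (1 + ‖z‖ ^ 2)

/-- size of the distortion -/
def eps {n : ℕ} (r : ℝ) (z : Fin n → ℂ) (h : HE n) : ℝ := Real.sqrt (dfc r z h) + r

def zet : ℂ := ⟨1 / 2, Real.sqrt 3 / 2⟩

/-- shape parameter of a half-edge -/
def tau {n : ℕ} (z : Fin n → ℂ) (h : HE n) : ℂ := (z h.2.2 - z h.1) / (z h.2.1 - z h.1)

def eta (τ : ℂ) : ℂ := τ * (1 - τ) / (starRingEnd ℂ) (τ * (1 - τ))

/-- good triangles: near the centre and almost regular -/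
def Good {n : ℕ} (r : ℝ) (z : Fin n → ℂ) (h : HE n) : Prop :=
  Del z h ∧ ‖z h.1‖ ≤ 3 / 4 ∧ ‖z h.2.1‖ ≤ 3 / 4 ∧ ‖z h.2.2‖ ≤ 3 / 4 ∧
    dfc r z h ≤ 1 / 10 ^ 6

/-- near triangles -/
def Near {n : ℕ} (z : Fin n → ℂ) (h : HE n) : Prop :=
  Del z h ∧ ‖z h.1‖ ≤ 3 / 4 ∧ ‖z h.2.1‖ ≤ 3 / 4 ∧ ‖z h.2.2‖ ≤ 3 / 4

/-- first weak condition: bounded variation -/
def H1 (ψ : ℂ → ℂ) (M : ℝ) : Prop :=
  ∀ e : ℂ, (e = 1 ∨ e = I) → ∀ f : ℂ → ℂ, ContDiff ℝ 1 f → tsupport f ⊆ Metric.ball 0 (1 / 2) →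
    ∀ B : ℝ, (∀ x, ‖f x‖ ≤ B) → ‖∫ x, ψ x * fderiv ℝ f x e‖ ≤ M * B

/-- second weak condition: `ψ` is almost covariantly constant -/
def H2 (ψ : ℂ → ℂ) (η₁ η₂ : ℝ) : Prop :=
  ∀ e : ℂ, (e = 1 ∨ e = I) → ∀ f : ℂ → ℂ, ContDiff ℝ 1 f → tsupport f ⊆ Metric.ball 0 (1 / 2) →
    ∀ B B' : ℝ, (∀ x, ‖f x‖ ≤ B) → (∀ x, ‖fderiv ℝ f x‖ ≤ B') →
      ‖∫ x, ψ x * (fderiv ℝ f x e + 6 * I * (AA e x : ℂ) * f x)‖ ≤ η₁ * B + η₂ * B'

/-- measurable, bounded by one, unimodular almost everywhere near the origin, continuous a.e. -/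
def Nice (ψ : ℂ → ℂ) : Prop :=
  Measurable ψ ∧ (∀ x, ‖ψ x‖ ≤ 1) ∧ (∀ᵐ x : ℂ, ‖x‖ < 1 / 2 → ‖ψ x‖ = 1) ∧
    ∀ᵐ x : ℂ, ContinuousAt ψ x

/-- the kernels -/
def KK (s T : ℝ) (x : ℂ) : ℝ := 1 / (4 * Real.pi) * Real.log ((‖x‖ ^ 2 + T) / (‖x‖ ^ 2 + s))

def rho (s : ℝ) (x : ℂ) : ℝ := s / (Real.pi * (‖x‖ ^ 2 + s) ^ 2)

/-- convolution of a real kernel with a complex function -/
def cv (G : ℂ → ℝ) (h : ℂ → ℂ) (x : ℂ) : ℂ := ∫ y, (G (x - y) : ℂ) * h y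

/-- bounded measurable functions supported in the ball of radius `1 / 4` -/
def Hh (h : ℂ → ℂ) : Prop := Measurable h ∧ (∀ x, ‖h x‖ ≤ 1) ∧ ∀ x, 1 / 4 ≤ ‖x‖ → h x = 0

/-- cutoff functions: `cut1 = 1` on the ball of radius `1/8`, `0` outside the ball of radius `1/4`;
`cut2 = 1` on the ball of radius `1/4`, `0` outside the ball of radius `3/8` -/
def bump1 : ContDiffBump (0 : ℂ) := ⟨1 / 8, 1 / 4, by norm_num, by norm_num⟩

def bump2 : ContDiffBump (0 : ℂ) := ⟨1 / 4, 3 / 8, by norm_num, by norm_num⟩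

def cut1 (x : ℂ) : ℝ := bump1 x

def cut2 (x : ℂ) : ℝ := bump2 x

/-- the smeared quadratic functional -/
def GG (ψ h : ℂ → ℂ) (s : ℝ) : ℂ := ∫ x, ψ x * (cut2 x : ℂ) * cv (rho s) h x

end

end Pool.Agent.CAPS
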