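import Pool.Agent.Lib.MP_488b8a_co.Defs

/-! Project CAPS (MP_488b8a_co), module EtaLoc. -/

namespace Pool.Agent.CAPS

open Complex MeasureTheory

private theorem etaLoc_zet_add : zet + (starRingEnd ℂ) zet = 1 := by
  apply Complex.ext <;> simp [zet] <;> norm_num

private theorem etaLoc_zet_mul : zet * (starRingEnd ℂ) zet = 1 := by
  rw [Complex.mul_conj]
  have h : Complex.normSq zet = 1 := by
    rw [Complex.normSq_apply]
    have h3 : Real.sqrt 3 * Real.sqrt 3 = 3 := Real.mul_self_sqrt (by norm_num)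
    simp only [zet]
    nlinarith
  rw [h]
  norm_num

private theorem etaLoc_zet_sub :
    (starRingEnd ℂ) zet - zet = -(Real.sqrt 3 : ℂ) * I := by
  apply Complex.ext
  · simp [zet]
  · simp [zet]
    ring

private theorem etaLoc_norm_zet : ‖zet‖ = 1 := by
  have h := etaLoc_zet_mul
  rw [Complex.mul_conj] at h
  have h2 : Complex.normSq zet = 1 := by exact_mod_cast h
  rw [Complex.normSq_eq_norm_sq] at h2
  nlinarith [norm_nonneg zet]

private theorem etaLoc_norm_conj : ‖(starRingEnd ℂ) zet‖ = 1 := by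
  rw [Complex.norm_conj, etaLoc_norm_zet]

private theorem etaLoc_log (w : ℂ) (hw : ‖w‖ ≤ 1 / 10) :
    |Real.log ‖1 + w‖ - w.re| ≤ ‖w‖ ^ 2 := by
  have h1 : ‖w‖ < 1 := by linarith
  have h2 := Complex.norm_log_one_add_sub_self_le h1
  have h3 : Real.log ‖1 + w‖ = (Complex.log (1 + w)).re := by
    rw [Complex.log_re]
  have h4 : |(Complex.log (1 + w) - w).re| ≤ ‖Complex.log (1 + w) - w‖ :=
    Complex.abs_re_le_norm _
  rw [Complex.sub_re, ← h3] at h4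
  refine h4.trans (h2.trans ?_)
  have h5 : (1 - ‖w‖)⁻¹ ≤ 2 := by
    rw [inv_le_comm₀ (by linarith) (by norm_num)]
    linarith
  have h6 : ‖w‖ ^ 2 * (1 - ‖w‖)⁻¹ ≤ ‖w‖ ^ 2 * 2 :=
    mul_le_mul_of_nonneg_left h5 (by positivity)
  linarith

private theorem etaLoc_L (δ : ℂ) (hδ : ‖δ‖ ≤ 1 / 10) :
    |(Real.log ‖zet + δ‖ - Real.log ‖1 - (zet + δ)‖) - δ.re| ≤ 2 * ‖δ‖ ^ 2 := by
  have e1 : ‖zet + δ‖ = ‖1 + δ * (starRingEnd ℂ) zet‖ := by
    have h : 1 + δ * (starRingEnd ℂ) zet = (zet + δ) * (starRingEnd ℂ) zet := by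
      rw [add_mul, etaLoc_zet_mul]
    rw [h, norm_mul, etaLoc_norm_conj, mul_one]
  have e2 : ‖1 - (zet + δ)‖ = ‖1 + (-(δ * zet))‖ := by
    have h : 1 + (-(δ * zet)) = (1 - (zet + δ)) * zet := by
      have h1 : 1 - (zet + δ) = (starRingEnd ℂ) zet - δ := by
        rw [← etaLoc_zet_add]; ring
      rw [h1, sub_mul, mul_comm ((starRingEnd ℂ) zet) zet, etaLoc_zet_mul]
      ring
    rw [h, norm_mul, etaLoc_norm_zet, mul_one]
  have n1 : ‖δ * (starRingEnd ℂ) zet‖ = ‖δ‖ := by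
    rw [norm_mul, etaLoc_norm_conj, mul_one]
  have n2 : ‖-(δ * zet)‖ = ‖δ‖ := by
    rw [norm_neg, norm_mul, etaLoc_norm_zet, mul_one]
  have l1 := etaLoc_log (δ * (starRingEnd ℂ) zet) (by rw [n1]; exact hδ)
  have l2 := etaLoc_log (-(δ * zet)) (by rw [n2]; exact hδ)
  rw [n1] at l1
  rw [n2] at l2
  rw [e1, e2]
  have h3 : (δ * (starRingEnd ℂ) zet).re - (-(δ * zet)).re = δ.re := by
    rw [← Complex.sub_re]
    congr 1
    have : δ * (starRingEnd ℂ) zet - -(δ * zet) = δ * (zet + (starRingEnd ℂ) zet) := by ring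
    rw [this, etaLoc_zet_add, mul_one]
  rw [abs_le] at l1 l2 ⊢
  constructor
  · linarith [l1.1, l1.2, l2.1, l2.2]
  · linarith [l1.1, l1.2, l2.1, l2.2]

theorem eta_est : ∃ C : ℝ, 0 < C ∧ ∀ τ : ℂ, ‖τ - zet‖ ≤ 1 / 10 →
    ‖eta τ - (1 - 2 * Real.sqrt 3 * I * ((Real.log ‖τ‖ - Real.log ‖1 - τ‖ : ℝ) : ℂ))‖ ≤
      C * ‖τ - zet‖ ^ 2 ∧
    |Real.log ‖τ‖ - Real.log ‖1 - τ‖| ≤ C * ‖τ - zet‖ := by
  refine ⟨30, by norm_num, fun τ hτ => ?_⟩
  obtain ⟨δ, hδ⟩ : ∃ δ, δ = τ - zet := ⟨_, rfl⟩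
  have hτ' : τ = zet + δ := by rw [hδ]; ring
  rw [← hδ] at hτ ⊢
  rw [hτ']
  have hL := etaLoc_L δ hτ
  obtain ⟨L, hLd⟩ : ∃ L, L = Real.log ‖zet + δ‖ - Real.log ‖1 - (zet + δ)‖ := ⟨_, rfl⟩
  rw [← hLd] at hL ⊢
  have hd0 : 0 ≤ ‖δ‖ := norm_nonneg δ
  have hre : |δ.re| ≤ ‖δ‖ := Complex.abs_re_le_norm δ
  have hs3 : Real.sqrt 3 ≤ 9 / 5 := by
    rw [Real.sqrt_le_left (by norm_num)]; norm_num
  have hs0 : 0 ≤ Real.sqrt 3 := Real.sqrt_nonneg 3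
  refine ⟨?_, ?_⟩
  swap
  · have h1 : |L| ≤ |δ.re| + 2 * ‖δ‖ ^ 2 := by
      have : L = δ.re + (L - δ.re) := by ring
      calc |L| = |δ.re + (L - δ.re)| := by rw [← this]
        _ ≤ |δ.re| + |L - δ.re| := abs_add_le _ _
        _ ≤ _ := by linarith
    nlinarith
  obtain ⟨f, hf⟩ : ∃ f, f = (zet + δ) * (1 - (zet + δ)) := ⟨_, rfl⟩
  have hf1 : f = 1 - (Real.sqrt 3 : ℂ) * I * δ - δ ^ 2 := by
    have h1 : 1 - (zet + δ) = (starRingEnd ℂ) zet - δ := by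
      rw [← etaLoc_zet_add]; ring
    rw [hf, h1]
    have h2 : (zet + δ) * ((starRingEnd ℂ) zet - δ) =
        zet * (starRingEnd ℂ) zet + δ * ((starRingEnd ℂ) zet - zet) - δ ^ 2 := by ring
    rw [h2, etaLoc_zet_mul, etaLoc_zet_sub]
    ring
  have hns : ‖(Real.sqrt 3 : ℂ)‖ = Real.sqrt 3 := by
    rw [Complex.norm_real, Real.norm_of_nonneg hs0]
  have hf2 : ‖f - 1‖ ≤ 2 * ‖δ‖ := by
    have : f - 1 = -((Real.sqrt 3 : ℂ) * I * δ) + -(δ ^ 2) := by rw [hf1]; ring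
    rw [this]
    refine (norm_add_le _ _).trans ?_
    rw [norm_neg, norm_neg, norm_mul, norm_mul, Complex.norm_I, norm_pow, hns]
    nlinarith
  have hf3 : 4 / 5 ≤ ‖f‖ := by
    have h1 : ‖(1 : ℂ)‖ ≤ ‖f‖ + ‖f - 1‖ := by
      have : (1 : ℂ) = f - (f - 1) := by ring
      calc ‖(1 : ℂ)‖ = ‖f - (f - 1)‖ := by rw [← this]
        _ ≤ ‖f‖ + ‖f - 1‖ := norm_sub_le _ _
    rw [norm_one] at h1
    linarith
  have hf0 : f ≠ 0 := by
    intro h; rw [h, norm_zero] at hf3; linarith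
  have hcf0 : (starRingEnd ℂ) f ≠ 0 := by
    rwa [Ne, map_eq_zero]
  have heta : eta (zet + δ) = f / (starRingEnd ℂ) f := by
    rw [eta, ← hf]
  have hsub : f - (starRingEnd ℂ) f = 2 * I * (f.im : ℂ) := by
    apply Complex.ext <;> simp
    ring
  have him : f.im = -Real.sqrt 3 * δ.re - (δ ^ 2).im := by
    rw [hf1]
    simp [Complex.sub_im, Complex.mul_im, Complex.mul_re]
  have him2 : |f.im| ≤ ‖f - 1‖ := by
    have : f.im = (f - 1).im := by simp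
    rw [this]
    exact Complex.abs_im_le_norm _
  have hA : eta (zet + δ) - (1 + 2 * I * (f.im : ℂ)) =
      (2 * I * (f.im : ℂ)) * ((1 - (starRingEnd ℂ) f) / (starRingEnd ℂ) f) := by
    rw [heta]
    have h1 : f / (starRingEnd ℂ) f = 1 + (2 * I * (f.im : ℂ)) / (starRingEnd ℂ) f := by
      rw [← hsub]; field_simp; ring
    rw [h1]
    field_simp
    ring
  have hB : ‖eta (zet + δ) - (1 + 2 * I * (f.im : ℂ))‖ ≤ 10 * ‖δ‖ ^ 2 := by
    rw [hA, norm_mul, norm_div, Complex.norm_conj]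
    have h1 : ‖(2 * I * (f.im : ℂ))‖ ≤ 2 * ‖f - 1‖ := by
      rw [norm_mul, norm_mul, Complex.norm_I, Complex.norm_real, Real.norm_eq_abs]
      have : ‖(2 : ℂ)‖ = 2 := by norm_num
      rw [this]; linarith
    have h2 : ‖1 - (starRingEnd ℂ) f‖ = ‖f - 1‖ := by
      have : 1 - (starRingEnd ℂ) f = (starRingEnd ℂ) (1 - f) := by simp
      rw [this, Complex.norm_conj, norm_sub_rev]
    rw [h2]
    have h3 : ‖f - 1‖ / ‖f‖ ≤ 5 / 4 * ‖f - 1‖ := by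
      rw [div_le_iff₀ (by linarith)]
      nlinarith [norm_nonneg (f - 1)]
    calc ‖(2 * I * (f.im : ℂ))‖ * (‖f - 1‖ / ‖f‖)
        ≤ (2 * ‖f - 1‖) * (5 / 4 * ‖f - 1‖) :=
          mul_le_mul h1 h3 (by positivity) (by positivity)
      _ ≤ (2 * (2 * ‖δ‖)) * (5 / 4 * (2 * ‖δ‖)) := by
          apply mul_le_mul <;> first | positivity | linarith
      _ = 10 * ‖δ‖ ^ 2 := by ring
  have hC : (1 + 2 * I * (f.im : ℂ)) - (1 - 2 * Real.sqrt 3 * I * (L : ℂ)) =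
      2 * I * ((f.im + Real.sqrt 3 * δ.re : ℝ) : ℂ) +
        2 * I * ((Real.sqrt 3 * (L - δ.re) : ℝ) : ℂ) := by
    push_cast
    ring
  have hD : ‖(1 + 2 * I * (f.im : ℂ)) - (1 - 2 * Real.sqrt 3 * I * (L : ℂ))‖ ≤
      10 * ‖δ‖ ^ 2 := by
    rw [hC]
    refine (norm_add_le _ _).trans ?_
    rw [norm_mul, norm_mul, norm_mul, norm_mul, Complex.norm_I, Complex.norm_real,
      Complex.norm_real, Real.norm_eq_abs, Real.norm_eq_abs]
    have h2 : ‖(2 : ℂ)‖ = 2 := by norm_num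
    rw [h2]
    have h3 : |f.im + Real.sqrt 3 * δ.re| ≤ ‖δ‖ ^ 2 := by
      have : f.im + Real.sqrt 3 * δ.re = -(δ ^ 2).im := by rw [him]; ring
      rw [this, abs_neg, ← norm_pow]
      exact Complex.abs_im_le_norm _
    have h4 : |Real.sqrt 3 * (L - δ.re)| ≤ 9 / 5 * (2 * ‖δ‖ ^ 2) := by
      rw [abs_mul, abs_of_nonneg hs0]
      exact mul_le_mul hs3 hL (abs_nonneg _) (by norm_num)
    nlinarith [sq_nonneg ‖δ‖]
  have hE : eta (zet + δ) - (1 - 2 * Real.sqrt 3 * I * (L : ℂ)) =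
      (eta (zet + δ) - (1 + 2 * I * (f.im : ℂ))) +
        ((1 + 2 * I * (f.im : ℂ)) - (1 - 2 * Real.sqrt 3 * I * (L : ℂ))) := by ring
  rw [hE]
  refine (norm_add_le _ _).trans ?_
  nlinarith [sq_nonneg ‖δ‖]

end Pool.Agent.CAPS
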