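import Pool.Agent.Lib.MP_488b8a_co.Sph

/-! Project CAPS (MP_488b8a_co), module FacetA. -/

namespace Pool.Agent.CAPS

open Complex MeasureTheory

private theorem FacetA_norm (u : ℂ) : ‖u‖ ^ 2 = u.re ^ 2 + u.im ^ 2 := by
  rw [Complex.sq_norm, Complex.normSq_apply]
  ring

private theorem FacetA_key (N : EuclideanSpace ℝ (Fin 3)) (u : ℂ) :
    (1 + ‖u‖ ^ 2) * (1 - inner ℝ N (sph u)) =
      (1 + N 2) * ‖u‖ ^ 2 - 2 * N 0 * u.re - 2 * N 1 * u.im + (1 - N 2) := by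
  have h1 : inner ℝ N (sph u) = N 0 * (2 * u.re / (1 + ‖u‖ ^ 2)) +
      N 1 * (2 * u.im / (1 + ‖u‖ ^ 2)) + N 2 * ((1 - ‖u‖ ^ 2) / (1 + ‖u‖ ^ 2)) := by
    rw [PiLp.inner_apply, Fin.sum_univ_three]
    simp only [sph, RCLike.inner_apply, conj_trivial]
    simp
    ring
  have h2 : (1 : ℝ) + ‖u‖ ^ 2 ≠ 0 := by positivity
  rw [h1]
  field_simp
  ring

private theorem FacetA_real (a1 a2 b1 b2 p1 p2 : ℝ)
    (ha : a1 ^ 2 + a2 ^ 2 + 2 * (a1 * p1 + a2 * p2) = 0)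
    (hb : b1 ^ 2 + b2 ^ 2 + 2 * (b1 * p1 + b2 * p2) = 0) (hc : a1 * b2 - a2 * b1 = 0)
    (ha0 : a1 ^ 2 + a2 ^ 2 ≠ 0) (hb0 : b1 ^ 2 + b2 ^ 2 ≠ 0) : a1 = b1 ∧ a2 = b2 := by
  have h1 : (a1 ^ 2 + a2 ^ 2) * (b1 ^ 2 + b2 ^ 2 - (a1 * b1 + a2 * b2)) = 0 := by
    linear_combination (a1 ^ 2 + a2 ^ 2) * hb - (a1 * b1 + a2 * b2) * ha -
      2 * (a1 * p2 - a2 * p1) * hc
  have h2 : (b1 ^ 2 + b2 ^ 2) * (a1 ^ 2 + a2 ^ 2 - (a1 * b1 + a2 * b2)) = 0 := by
    linear_combination (b1 ^ 2 + b2 ^ 2) * ha - (a1 * b1 + a2 * b2) * hb +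
      2 * (b1 * p2 - b2 * p1) * hc
  have h3 := (mul_eq_zero.1 h1).resolve_left ha0
  have h4 := (mul_eq_zero.1 h2).resolve_left hb0
  constructor
  · nlinarith [sq_nonneg (a1 - b1), sq_nonneg (a2 - b2)]
  · nlinarith [sq_nonneg (a1 - b1), sq_nonneg (a2 - b2)]

/-- a supporting plane of the hull of the points gives an empty circle -/
theorem del_of_plane {n : ℕ} {z : Fin n → ℂ} (hz : Function.Injective z)
    {N : EuclideanSpace ℝ (Fin 3)} (hN : -1 < N 2) {i j k : Fin n} (hij : i ≠ j) (hjk : j ≠ k)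
    (hik : i ≠ k) (h1 : inner ℝ N (sph (z i)) = 1) (h2 : inner ℝ N (sph (z j)) = 1)
    (h3 : inner ℝ N (sph (z k)) = 1)
    (h4 : ∀ l, l ≠ i → l ≠ j → l ≠ k → inner ℝ N (sph (z l)) < 1) :
    Del z (i, j, k) ∨ Del z (i, k, j) := by
  obtain ⟨s, hs⟩ : ∃ s : ℝ, s = 1 + N 2 := ⟨_, rfl⟩
  have hs0 : 0 < s := by rw [hs]; linarith
  obtain ⟨c, hc⟩ : ∃ c : ℂ, c = ⟨N 0 / s, N 1 / s⟩ := ⟨_, rfl⟩
  obtain ⟨q, hq⟩ : ∃ q : ℝ, q = (N 0 ^ 2 + N 1 ^ 2 + N 2 ^ 2 - 1) / s ^ 2 := ⟨_, rfl⟩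
  have key : ∀ u : ℂ, ‖u - c‖ ^ 2 - q = (1 + ‖u‖ ^ 2) * (1 - inner ℝ N (sph u)) / s := by
    intro u
    rw [FacetA_key, FacetA_norm, FacetA_norm, hq, hc, Complex.sub_re, Complex.sub_im]
    have : N 2 = s - 1 := by rw [hs]; ring
    rw [this]
    field_simp
    ring
  have e1 : ‖z i - c‖ ^ 2 = q := by
    have := key (z i)
    rw [h1, sub_self, mul_zero, zero_div] at this
    linarith
  have e2 : ‖z j - c‖ ^ 2 = q := by
    have := key (z j)
    rw [h2, sub_self, mul_zero, zero_div] at this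
    linarith
  have e3 : ‖z k - c‖ ^ 2 = q := by
    have := key (z k)
    rw [h3, sub_self, mul_zero, zero_div] at this
    linarith
  have e4 : ∀ l, l ≠ i → l ≠ j → l ≠ k → q < ‖z l - c‖ ^ 2 := by
    intro l hi hj hk
    have h5 := key (z l)
    have h6 := h4 l hi hj hk
    have h7 : 0 < (1 + ‖z l‖ ^ 2) * (1 - inner ℝ N (sph (z l))) / s :=
      div_pos (mul_pos (by positivity) (by linarith)) hs0
    linarith
  have hne : crs (z j - z i) (z k - z i) ≠ 0 := by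
    intro h0
    have g1 : (z j - z i).re ^ 2 + (z j - z i).im ^ 2 +
        2 * ((z j - z i).re * (z i - c).re + (z j - z i).im * (z i - c).im) = 0 := by
      rw [FacetA_norm] at e1 e2
      simp only [Complex.sub_re, Complex.sub_im] at e1 e2 ⊢
      linarith
    have g2 : (z k - z i).re ^ 2 + (z k - z i).im ^ 2 +
        2 * ((z k - z i).re * (z i - c).re + (z k - z i).im * (z i - c).im) = 0 := by
      rw [FacetA_norm] at e1 e3
      simp only [Complex.sub_re, Complex.sub_im] at e1 e3 ⊢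
      linarith
    have g3 : (z j - z i).re * (z k - z i).im - (z j - z i).im * (z k - z i).re = 0 := h0
    have g4 : (z j - z i).re ^ 2 + (z j - z i).im ^ 2 ≠ 0 := by
      rw [← FacetA_norm]
      have : z j - z i ≠ 0 := sub_ne_zero.2 (fun h => hij (hz h).symm)
      have := norm_pos_iff.2 this
      positivity
    have g5 : (z k - z i).re ^ 2 + (z k - z i).im ^ 2 ≠ 0 := by
      rw [← FacetA_norm]
      have : z k - z i ≠ 0 := sub_ne_zero.2 (fun h => hik (hz h).symm)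
      have := norm_pos_iff.2 this
      positivity
    obtain ⟨g6, g7⟩ := FacetA_real _ _ _ _ _ _ g1 g2 g3 g4 g5
    have g8 : z j - z i = z k - z i := Complex.ext g6 g7
    exact hjk (hz (sub_left_injective g8))
  rcases lt_or_gt_of_ne hne with h | h
  · right
    refine ⟨?_, c, q, e1, e3, e2, fun l h5 h6 h7 => e4 l h5 h7 h6⟩
    show 0 < crs (z k - z i) (z j - z i)
    have : crs (z k - z i) (z j - z i) = -crs (z j - z i) (z k - z i) := by
      unfold crs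
      ring
    rw [this]
    linarith
  · left
    exact ⟨h, c, q, e1, e2, e3, e4⟩

/-- four distinct points in general position do not lie in a plane -/
theorem gp_plane {n : ℕ} {z : Fin n → ℂ} (hG : GP z) (N : EuclideanSpace ℝ (Fin 3))
    (i j k l : Fin n) (hij : i ≠ j) (hik : i ≠ k) (hil : i ≠ l) (hjk : j ≠ k) (hjl : j ≠ l)
    (hkl : k ≠ l) : ¬ (inner ℝ N (sph (z i)) = 1 ∧ inner ℝ N (sph (z j)) = 1 ∧
      inner ℝ N (sph (z k)) = 1 ∧ inner ℝ N (sph (z l)) = 1) := by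
  rintro ⟨h1, h2, h3, h4⟩
  have key : ∀ u : ℂ, inner ℝ N (sph u) = 1 →
      (1 + N 2) * ‖u‖ ^ 2 + ((⟨-2 * N 0, -2 * N 1⟩ : ℂ).re * u.re +
        (⟨-2 * N 0, -2 * N 1⟩ : ℂ).im * u.im) + (1 - N 2) = 0 := by
    intro u hu
    have := FacetA_key N u
    rw [hu, sub_self, mul_zero] at this
    show (1 + N 2) * ‖u‖ ^ 2 + (-2 * N 0 * u.re + -2 * N 1 * u.im) + (1 - N 2) = 0
    linarith
  obtain ⟨ha, -, hd⟩ := hG.2 i j k l hij hik hil hjk hjl hkl (1 + N 2) (1 - N 2)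
    ⟨-2 * N 0, -2 * N 1⟩ (key _ h1) (key _ h2) (key _ h3) (key _ h4)
  linarith

end Pool.Agent.CAPS
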