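import Pool.Agent.Lib.MP_488b8a_co.LP3
import Pool.Agent.Lib.MP_488b8a_co.FacetA

/-! Project CAPS (MP_488b8a_co), module Facet3. -/

namespace Pool.Agent.CAPS

open Complex MeasureTheory

private theorem facet3_span {n : ℕ} (p : Fin n → EuclideanSpace ℝ (Fin 3)) :
    ∀ᵐ x : EuclideanSpace ℝ (Fin 3), ∀ i j, x ∉ Submodule.span ℝ {p i, p j} := by
  rw [ae_all_iff]
  intro i
  rw [ae_all_iff]
  intro j
  have h : Submodule.span ℝ {p i, p j} ≠ ⊤ := by
    intro htop
    have h1 : Module.finrank ℝ (Submodule.span ℝ ({p i, p j} : Set (EuclideanSpace ℝ (Fin 3)))) ≤ 2 := by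
      classical
      have := finrank_span_finset_le_card (R := ℝ) (({p i, p j} : Finset (EuclideanSpace ℝ (Fin 3))))
      simp only [Finset.coe_insert, Finset.coe_singleton] at this
      refine this.trans ?_
      exact Finset.card_le_two
    rw [htop, finrank_top, finrank_euclideanSpace_fin] at h1
    omega
  exact measure_eq_zero_iff_ae_notMem.mp (Measure.addHaar_submodule volume _ h)

private theorem facet3_inner (a b : EuclideanSpace ℝ (Fin 3)) :
    inner ℝ a b = a 0 * b 0 + a 1 * b 1 + a 2 * b 2 := by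
  simp only [PiLp.inner_apply, Fin.sum_univ_three, RCLike.inner_apply, conj_trivial]
  ring

private theorem facet3_small {N y : EuclideanSpace ℝ (Fin 3)} {r : ℝ} (hr : 0 < r)
    (hcr : 0 < Real.cos r) (hN : ‖N‖ * Real.cos r ≤ 1) (hN2 : N 2 ≤ -1) (hy : ‖y‖ = 1)
    (h1 : inner ℝ N y = 1) : |y 0| ≤ 2 * r ∧ |y 1| ≤ 2 * r := by
  -- the point opposite
  set S : EuclideanSpace ℝ (Fin 3) := !₂[0, 0, -1] with hS
  have hNS : inner ℝ N S = - N 2 := by
    rw [facet3_inner]; simp [hS]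
  have hyS : inner ℝ y S = - y 2 := by
    rw [facet3_inner]; simp [hS]
  have hSS : inner ℝ S S = (1 : ℝ) := by
    rw [facet3_inner]; simp [hS]
  have hyy : inner ℝ y y = (1 : ℝ) := by
    rw [real_inner_self_eq_norm_sq, hy]; norm_num
  have hyy' : y 0 ^ 2 + y 1 ^ 2 + y 2 ^ 2 = 1 := by
    rw [facet3_inner] at hyy; nlinarith [hyy]
  have h2 : 2 ≤ ‖N‖ * ‖y + S‖ := by
    have := real_inner_le_norm N (y + S)
    rw [inner_add_right, h1, hNS] at this
    linarith
  have h3 : 2 * Real.cos r ≤ ‖y + S‖ := by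
    have h4 : 2 * Real.cos r ≤ (‖N‖ * Real.cos r) * ‖y + S‖ := by
      nlinarith [mul_le_mul_of_nonneg_right h2 hcr.le]
    refine h4.trans ?_
    have := mul_le_mul_of_nonneg_right hN (norm_nonneg (y + S))
    linarith
  have h5 : ‖y + S‖ ^ 2 = 2 - 2 * y 2 := by
    rw [← real_inner_self_eq_norm_sq, inner_add_left, inner_add_right, inner_add_right,
      real_inner_comm y S, hyS, hyy, hSS]
    ring
  have h6 : 4 * Real.cos r ^ 2 ≤ 2 - 2 * y 2 := by
    rw [← h5]
    nlinarith [h3, hcr]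
  have h7 := Real.sin_sq_add_cos_sq r
  have hsr : Real.sin r ≤ r := Real.sin_le hr.le
  have hs2 : Real.sin r ^ 2 ≤ r ^ 2 := Real.sin_sq_le_sq
  have hy2 : y 2 ^ 2 ≤ 1 := by nlinarith [sq_nonneg (y 0), sq_nonneg (y 1)]
  have hy2' : -1 ≤ y 2 ∧ y 2 ≤ 1 := abs_le.mp (by
    have := (sq_le_one_iff_abs_le_one (y 2)).mp hy2
    exact this)
  have h10 : (1 - y 2) * (1 + y 2) ≤ 4 * r ^ 2 := by
    have h11 : (1 - y 2) * (1 + y 2) ≤ 2 * (1 + y 2) := by nlinarith
    have h12 : 1 + y 2 ≤ 2 * Real.sin r ^ 2 := by nlinarith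
    nlinarith
  constructor
  · apply abs_le_of_sq_le_sq _ (by linarith)
    nlinarith [sq_nonneg (y 1)]
  · apply abs_le_of_sq_le_sq _ (by linarith)
    nlinarith [sq_nonneg (y 0)]

private theorem facet3_comb {a b c α β γ t : ℝ} (ha : 0 ≤ α) (hb : 0 ≤ β) (hc : 0 ≤ γ)
    (hs : α + β + γ ≤ 1) (h1 : |a| ≤ t) (h2 : |b| ≤ t) (h3 : |c| ≤ t) (ht : 0 ≤ t) :
    |α * a + β * b + γ * c| ≤ t := by
  have h4 : |α * a + β * b + γ * c| ≤ |α * a| + |β * b| + |γ * c| := abs_add_three _ _ _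
  rw [abs_mul, abs_mul, abs_mul, abs_of_nonneg ha, abs_of_nonneg hb, abs_of_nonneg hc] at h4
  nlinarith [mul_le_mul_of_nonneg_left h1 ha, mul_le_mul_of_nonneg_left h2 hb,
    mul_le_mul_of_nonneg_left h3 hc]

/-- almost every direction away from the poles lies in the cone of a Delaunay triangle -/
theorem facet3 {n : ℕ} {z : Fin n → ℂ} {r : ℝ} (hG : GP z) (hC : Cov z r) (hr : 0 < r)
    (hr1 : r ≤ 1 / 100) :
    ∀ᵐ x : EuclideanSpace ℝ (Fin 3), ‖x‖ ≤ Real.cos r → (4 * r < |x 0| ∨ 4 * r < |x 1|) →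
      ∃ h, Del z h ∧ ∃ α β γ : ℝ, 0 ≤ α ∧ 0 ≤ β ∧ 0 ≤ γ ∧ α + β + γ ≤ 1 ∧
        x = α • sph (z h.1) + β • sph (z h.2.1) + γ • sph (z h.2.2) := by
  filter_upwards [facet3_span (fun l => sph (z l))] with x hx hxn hx4
  have hcr : 0 < Real.cos r := Real.cos_pos_of_mem_Ioo
    ⟨by linarith [Real.pi_pos], by linarith [Real.pi_gt_three]⟩
  obtain ⟨N, i, j, k, α, β, γ, hle, hli, hi, hj, hk, hlt, hα, hβ, hγ, hxe⟩ :=
    lp3 (fun l => sph (z l)) hcr hC (fun N i j k l h1 h2 h3 h4 h5 h6 =>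
      gp_plane hG N i j k l h1 h2 h3 h4 h5 h6) hx
  have hij : i ≠ j := by
    rintro rfl
    have := hli.injective (a₁ := 0) (a₂ := 1) rfl
    exact absurd this (by decide)
  have hjk : j ≠ k := by
    rintro rfl
    have := hli.injective (a₁ := 1) (a₂ := 2) rfl
    exact absurd this (by decide)
  have hik : i ≠ k := by
    rintro rfl
    have := hli.injective (a₁ := 0) (a₂ := 2) rfl
    exact absurd this (by decide)
  have hN0 : N ≠ 0 := by
    rintro rfl
    simp at hi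
  have hNpos : 0 < ‖N‖ := norm_pos_iff.mpr hN0
  have hNc : ‖N‖ * Real.cos r ≤ 1 := by
    obtain ⟨l, hl⟩ := hC (‖N‖⁻¹ • N) (by rw [norm_smul, norm_inv, norm_norm, inv_mul_cancel₀ hNpos.ne'])
    rw [real_inner_smul_left] at hl
    have h1 := hle l
    calc ‖N‖ * Real.cos r ≤ ‖N‖ * (‖N‖⁻¹ * inner ℝ N (sph (z l))) :=
          mul_le_mul_of_nonneg_left hl hNpos.le
      _ = inner ℝ N (sph (z l)) := by rw [← mul_assoc, mul_inv_cancel₀ hNpos.ne', one_mul]
      _ ≤ 1 := h1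
  have hsum : α + β + γ ≤ 1 := by
    have h1 : inner ℝ N x = α + β + γ := by
      rw [hxe, inner_add_right, inner_add_right, real_inner_smul_right, real_inner_smul_right,
        real_inner_smul_right, hi, hj, hk]
      ring
    rw [← h1]
    refine (real_inner_le_norm N x).trans ?_
    exact (mul_le_mul_of_nonneg_left hxn hNpos.le).trans hNc
  have hN2 : -1 < N 2 := by
    by_contra hcon
    have hcon' : N 2 ≤ -1 := not_lt.mp hcon
    obtain ⟨a0, a1⟩ := facet3_small hr hcr hNc hcon' (sph_norm (z i)) hi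
    obtain ⟨b0, b1⟩ := facet3_small hr hcr hNc hcon' (sph_norm (z j)) hj
    obtain ⟨c0, c1⟩ := facet3_small hr hcr hNc hcon' (sph_norm (z k)) hk
    have e0 : x 0 = α * (sph (z i)) 0 + β * (sph (z j)) 0 + γ * (sph (z k)) 0 := by
      rw [hxe]; simp
    have e1 : x 1 = α * (sph (z i)) 1 + β * (sph (z j)) 1 + γ * (sph (z k)) 1 := by
      rw [hxe]; simp
    rcases hx4 with h | h
    · have := facet3_comb hα hβ hγ hsum a0 b0 c0 (by linarith)
      rw [← e0] at this
      linarith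
    · have := facet3_comb hα hβ hγ hsum a1 b1 c1 (by linarith)
      rw [← e1] at this
      linarith
  rcases del_of_plane hG.1 hN2 hij hjk hik hi hj hk hlt with h | h
  · exact ⟨(i, j, k), h, α, β, γ, hα, hβ, hγ, hsum, hxe⟩
  · refine ⟨(i, k, j), h, α, γ, β, hα, hγ, hβ, by linarith, ?_⟩
    rw [hxe]
    simp only
    abel

end Pool.Agent.CAPS
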