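import Pool.Agent.Lib.MP_488b8a_co.Cap

/-! Project CAPS (MP_488b8a_co), module Tlen. -/

namespace Pool.Agent.CAPS

open Complex MeasureTheory

theorem heron_le {x y w R : ℝ} (hx : 0 ≤ x) (hy : 0 ≤ y) (hw : 0 ≤ w)
    (hs : x + y + w ≤ 9 * R ^ 2) : heron x y w ≤ 3 * Real.sqrt 3 / 4 * R ^ 2 := by
  unfold heron
  have h1 : 2 * (x * y + y * w + w * x) - (x ^ 2 + y ^ 2 + w ^ 2) ≤ 27 * R ^ 4 := by
    have h2 : (x + y + w) ^ 2 ≤ (9 * R ^ 2) ^ 2 := pow_le_pow_left₀ (by positivity) hs 2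
    nlinarith [sq_nonneg (x - y), sq_nonneg (y - w), sq_nonneg (w - x)]
  have h3 : Real.sqrt (27 * R ^ 4) = 3 * Real.sqrt 3 * R ^ 2 := by
    rw [show (27 : ℝ) * R ^ 4 = (3 * Real.sqrt 3 * R ^ 2) ^ 2 by
      have : Real.sqrt 3 ^ 2 = 3 := Real.sq_sqrt (by norm_num)
      calc 27 * R ^ 4 = 9 * 3 * R ^ 4 := by ring
        _ = 9 * Real.sqrt 3 ^ 2 * R ^ 4 := by rw [this]
        _ = _ := by ring]
    exact Real.sqrt_sq (by positivity)
  have h4 := Real.sqrt_le_sqrt h1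
  rw [h3] at h4
  linarith

variable {n : ℕ} {z : Fin n → ℂ} {r : ℝ}

private lemma sum_xx (hC : Cov z r) (hr : 0 < r) (hr1 : r ≤ 1) {h : HE n} (hD : Del z h) :
    xx (z h.1) (z h.2.1) + xx (z h.2.1) (z h.2.2) + xx (z h.2.2) (z h.1) ≤ 9 * Real.sin r ^ 2 := by
  obtain ⟨_, c, q, h1, h2, h3, h4⟩ := hD
  have hq : 0 ≤ q := by rw [← h1]; positivity
  refine cap_three hC hr hr1 hq ?_ h1 h2 h3
  intro l
  by_cases e1 : l = h.1
  · rw [e1, h1]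
  by_cases e2 : l = h.2.1
  · rw [e2, h2]
  by_cases e3 : l = h.2.2
  · rw [e3, h3]
  exact (h4 l e1 e2 e3).le

theorem dfc_nonneg (hC : Cov z r) (hr : 0 < r) (hr1 : r ≤ 1) {h : HE n} (hD : Del z h) :
    0 ≤ dfc r z h := by
  have hs := sum_xx hC hr hr1 hD
  have hsin : 0 < Real.sin r := Real.sin_pos_of_pos_of_lt_pi hr (by
    have := Real.pi_gt_three; linarith)
  have h1 := heron_le (xx_nonneg _ _) (xx_nonneg _ _) (xx_nonneg _ _) hs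
  have hA : (0 : ℝ) < 3 * Real.sqrt 3 / 4 * Real.sin r ^ 2 := by positivity
  unfold dfc arT
  rw [sub_nonneg, div_le_one hA]
  exact h1

theorem dfc_le_one (hr : 0 < r) (hr1 : r ≤ 1) (h : HE n) : dfc r z h ≤ 1 := by
  unfold dfc arT heron
  have : 0 ≤ 1 / 4 * Real.sqrt (2 * (xx (z h.1) (z h.2.1) * xx (z h.2.1) (z h.2.2) +
      xx (z h.2.1) (z h.2.2) * xx (z h.2.2) (z h.1) + xx (z h.2.2) (z h.1) * xx (z h.1) (z h.2.1)) -
      (xx (z h.1) (z h.2.1) ^ 2 + xx (z h.2.1) (z h.2.2) ^ 2 + xx (z h.2.2) (z h.1) ^ 2)) /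
      (3 * Real.sqrt 3 / 4 * Real.sin r ^ 2) := by positivity
  linarith

private lemma core {x y w R δ : ℝ} (hx : 0 ≤ x) (hy : 0 ≤ y) (hw : 0 ≤ w) (hR : 0 < R)
    (hδ0 : 0 ≤ δ) (hδ1 : δ < 1) (hs : x + y + w ≤ 9 * R ^ 2)
    (hA : heron x y w = 3 * Real.sqrt 3 / 4 * R ^ 2 * (1 - δ)) :
    |x - 3 * R ^ 2| ≤ 9 * R ^ 2 * Real.sqrt δ := by
  have hs3 : Real.sqrt 3 ^ 2 = 3 := Real.sq_sqrt (by norm_num)
  have hs3p : 0 < Real.sqrt 3 := Real.sqrt_pos.2 (by norm_num)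
  set Q := 2 * (x * y + y * w + w * x) - (x ^ 2 + y ^ 2 + w ^ 2) with hQ
  have hpos : 0 < heron x y w := by
    rw [hA]; have : 0 < 1 - δ := by linarith
    positivity
  have hsq : Real.sqrt Q = 3 * Real.sqrt 3 * R ^ 2 * (1 - δ) := by
    unfold heron at hA
    linarith
  have hQpos : 0 < Q := by
    by_contra hn
    rw [Real.sqrt_eq_zero_of_nonpos (not_lt.1 hn)] at hsq
    have : 0 < 1 - δ := by linarith
    have : 0 < 3 * Real.sqrt 3 * R ^ 2 * (1 - δ) := by positivity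
    linarith
  have hQv : Q = 27 * R ^ 4 * (1 - δ) ^ 2 := by
    rw [← Real.sq_sqrt hQpos.le, hsq]
    calc (3 * Real.sqrt 3 * R ^ 2 * (1 - δ)) ^ 2 = 9 * Real.sqrt 3 ^ 2 * R ^ 4 * (1 - δ) ^ 2 := by
          ring
      _ = _ := by rw [hs3]; ring
  have hid : (x + y + w) ^ 2 = 3 * Q + 2 * ((x - y) ^ 2 + (y - w) ^ 2 + (w - x) ^ 2) := by
    rw [hQ]; ring
  have hs0 : 0 ≤ x + y + w := by positivity
  have hs2 : (x + y + w) ^ 2 ≤ 81 * R ^ 4 := by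
    calc (x + y + w) ^ 2 ≤ (9 * R ^ 2) ^ 2 := pow_le_pow_left₀ hs0 hs 2
      _ = 81 * R ^ 4 := by ring
  have hR4 : 0 < R ^ 4 := by positivity
  have hR2 : 0 < R ^ 2 := by positivity
  set D := (x - y) ^ 2 + (y - w) ^ 2 + (w - x) ^ 2 with hD
  have hDle : D ≤ 81 * R ^ 4 * δ := by
    have : 2 * D ≤ 81 * R ^ 4 * (2 * δ - δ ^ 2) := by
      have h1 : 3 * Q = 81 * R ^ 4 * (1 - δ) ^ 2 := by rw [hQv]; ring
      nlinarith
    have h2 : 81 * R ^ 4 * (2 * δ - δ ^ 2) ≤ 81 * R ^ 4 * (2 * δ) := by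
      apply mul_le_mul_of_nonneg_left _ (by positivity)
      nlinarith [sq_nonneg δ]
    linarith
  have hslow : 9 * R ^ 2 * (1 - δ) ≤ x + y + w := by
    apply le_of_sq_le_sq _ hs0
    rw [hid, hQv]
    have : 0 ≤ D := by positivity
    nlinarith
  -- the square root
  have hsδ := Real.sqrt_nonneg δ
  have hsδ2 : Real.sqrt δ ^ 2 = δ := Real.sq_sqrt hδ0
  have hδs : δ ≤ Real.sqrt δ := by
    have : Real.sqrt δ ≤ 1 := Real.sqrt_le_one.2 hδ1.le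
    nlinarith
  have h1 : (x - (x + y + w) / 3) ^ 2 ≤ (5 * R ^ 2 * Real.sqrt δ) ^ 2 := by
    have e1 : (x - (x + y + w) / 3) ^ 2 = ((x - y) + (x - w)) ^ 2 / 9 := by ring
    have e2 : (5 * R ^ 2 * Real.sqrt δ) ^ 2 = 25 * R ^ 4 * δ := by
      rw [mul_pow, hsδ2]; ring
    rw [e1, e2]
    have e3 : ((x - y) + (x - w)) ^ 2 ≤ 2 * D := by
      rw [hD]
      nlinarith [sq_nonneg ((x - y) - (x - w)), sq_nonneg (y - w)]
    have e4 : 0 ≤ R ^ 4 * δ := by positivity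
    linarith
  have h2 : |x - (x + y + w) / 3| ≤ 5 * R ^ 2 * Real.sqrt δ := abs_le_of_sq_le_sq h1 (by positivity)
  have h3 : |(x + y + w) / 3 - 3 * R ^ 2| ≤ 3 * R ^ 2 * Real.sqrt δ := by
    rw [abs_le]
    constructor
    · have : R ^ 2 * δ ≤ R ^ 2 * Real.sqrt δ := mul_le_mul_of_nonneg_left hδs hR2.le
      linarith
    · have : 0 ≤ R ^ 2 * Real.sqrt δ := by positivity
      linarith
  calc |x - 3 * R ^ 2| = |(x - (x + y + w) / 3) + ((x + y + w) / 3 - 3 * R ^ 2)| := by ring_nf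
    _ ≤ |x - (x + y + w) / 3| + |(x + y + w) / 3 - 3 * R ^ 2| := abs_add_le _ _
    _ ≤ 5 * R ^ 2 * Real.sqrt δ + 3 * R ^ 2 * Real.sqrt δ := add_le_add h2 h3
    _ ≤ 9 * R ^ 2 * Real.sqrt δ := by
        have : 0 ≤ R ^ 2 * Real.sqrt δ := by positivity
        linarith

private lemma heron_rot (x y w : ℝ) : heron y w x = heron x y w := by
  unfold heron
  congr 2
  ring

theorem tlen (hC : Cov z r) (hr : 0 < r) (hr1 : r ≤ 1) {h : HE n} (hD : Del z h)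
    (hd : dfc r z h < 1) :
    |xx (z h.1) (z h.2.1) - 3 * Real.sin r ^ 2| ≤ 9 * Real.sin r ^ 2 * Real.sqrt (dfc r z h) ∧
    |xx (z h.2.1) (z h.2.2) - 3 * Real.sin r ^ 2| ≤ 9 * Real.sin r ^ 2 * Real.sqrt (dfc r z h) ∧
    |xx (z h.2.2) (z h.1) - 3 * Real.sin r ^ 2| ≤ 9 * Real.sin r ^ 2 * Real.sqrt (dfc r z h) := by
  have hs := sum_xx hC hr hr1 hD
  have hsin : 0 < Real.sin r := Real.sin_pos_of_pos_of_lt_pi hr (by
    have := Real.pi_gt_three; linarith)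
  have hd0 := dfc_nonneg hC hr hr1 hD
  have hA : heron (xx (z h.1) (z h.2.1)) (xx (z h.2.1) (z h.2.2)) (xx (z h.2.2) (z h.1)) =
      3 * Real.sqrt 3 / 4 * Real.sin r ^ 2 * (1 - dfc r z h) := by
    have hpos : (0 : ℝ) < 3 * Real.sqrt 3 / 4 * Real.sin r ^ 2 := by positivity
    unfold dfc arT
    field_simp
    ring
  have n1 := xx_nonneg (z h.1) (z h.2.1)
  have n2 := xx_nonneg (z h.2.1) (z h.2.2)
  have n3 := xx_nonneg (z h.2.2) (z h.1)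
  refine ⟨core n1 n2 n3 hsin hd0 hd hs hA, core n2 n3 n1 hsin hd0 hd (by linarith) ?_,
    core n3 n1 n2 hsin hd0 hd (by linarith) ?_⟩
  · rw [heron_rot]; exact hA
  · rw [← heron_rot, ← hA]

end Pool.Agent.CAPS
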