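import Pool.Agent.Lib.MP_488b8a_co.Rigid
import Pool.Agent.Lib.MP_488b8a_co.AreaSum
import Pool.Agent.Lib.MP_488b8a_co.Count
import Pool.Agent.Lib.MP_488b8a_co.Tlen

/-! Project CAPS (MP_488b8a_co), module FinA. -/

namespace Pool.Agent.CAPS

open Complex MeasureTheory

private lemma EE_le {n : ℕ} {z : Fin n → ℂ} {r : ℝ} (hC : Cov z r) (hr : 0 < r) (hr1 : r ≤ 1)
    (S : Finset (HE n)) (hS0 : ∀ h ∈ S, Del z h)
    (hS : ∀ h, Del z h → h ∈ S ∨ rot h ∈ S ∨ rot (rot h) ∈ S) :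
    EE r z ≤ 3 * ∑ h ∈ S, dfc r z h := by
  classical
  have hsub : Dset z ⊆ S ∪ (S.image rot ∪ S.image (fun h => rot (rot h))) := by
    intro h hh
    rw [mem_Dset] at hh
    simp only [Finset.mem_union, Finset.mem_image]
    rcases hS h hh with h1 | h1 | h1
    · exact Or.inl h1
    · exact Or.inr (Or.inr ⟨rot h, h1, rot_rot_rot h⟩)
    · exact Or.inr (Or.inl ⟨rot (rot h), h1, rot_rot_rot h⟩)
  have hD1 : ∀ h ∈ S.image (rot : HE n → HE n), Del z h := by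
    intro h hh
    obtain ⟨g, hg, rfl⟩ := Finset.mem_image.1 hh
    exact Del_rot.2 (hS0 g hg)
  have hD2 : ∀ h ∈ S.image (fun h : HE n => rot (rot h)), Del z h := by
    intro h hh
    obtain ⟨g, hg, rfl⟩ := Finset.mem_image.1 hh
    exact Del_rot.2 (Del_rot.2 (hS0 g hg))
  have hnn : ∀ h, Del z h → 0 ≤ dfc r z h := fun h hh => dfc_nonneg hC hr hr1 hh
  have hinj1 : Set.InjOn (rot : HE n → HE n) S := by
    intro a _ b _ hab
    rw [← rot_rot_rot a, ← rot_rot_rot b, hab]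
  have hinj2 : Set.InjOn (fun h : HE n => rot (rot h)) S := by
    intro a _ b _ hab
    simp only at hab
    rw [← rot_rot_rot a, ← rot_rot_rot b, hab]
  have e1 : ∑ h ∈ S.image rot, dfc r z h = ∑ h ∈ S, dfc r z h := by
    rw [Finset.sum_image hinj1]
    exact Finset.sum_congr rfl fun h _ => dfc_rot r h
  have e2 : ∑ h ∈ S.image (fun h => rot (rot h)), dfc r z h = ∑ h ∈ S, dfc r z h := by
    rw [Finset.sum_image hinj2]
    exact Finset.sum_congr rfl fun h _ => by rw [dfc_rot, dfc_rot]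
  have key : ∀ A B : Finset (HE n), (∀ h ∈ A, Del z h) → (∀ h ∈ B, Del z h) →
      ∑ h ∈ A ∪ B, dfc r z h ≤ ∑ h ∈ A, dfc r z h + ∑ h ∈ B, dfc r z h := by
    intro A B hA hB
    rw [← Finset.sum_union_inter]
    have : 0 ≤ ∑ h ∈ A ∩ B, dfc r z h :=
      Finset.sum_nonneg fun h hh => hnn h (hA h (Finset.mem_inter.1 hh).1)
    linarith
  calc EE r z = ∑ h ∈ Dset z, dfc r z h := rfl
    _ ≤ ∑ h ∈ S ∪ (S.image rot ∪ S.image (fun h => rot (rot h))), dfc r z h := by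
        refine Finset.sum_le_sum_of_subset_of_nonneg hsub fun h hh _ => hnn h ?_
        rcases Finset.mem_union.1 hh with h1 | h1
        · exact hS0 h h1
        · rcases Finset.mem_union.1 h1 with h1 | h1
          · exact hD1 h h1
          · exact hD2 h h1
    _ ≤ ∑ h ∈ S, dfc r z h + ∑ h ∈ S.image rot ∪ S.image (fun h => rot (rot h)), dfc r z h := by
        refine key _ _ hS0 fun h hh => ?_
        rcases Finset.mem_union.1 hh with h1 | h1
        · exact hD1 h h1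
        · exact hD2 h h1
    _ ≤ ∑ h ∈ S, dfc r z h + (∑ h ∈ S, dfc r z h + ∑ h ∈ S, dfc r z h) := by
        have := key _ _ hD1 hD2
        rw [e1, e2] at this
        linarith
    _ = 3 * ∑ h ∈ S, dfc r z h := by ring

theorem fin_ineq : ∃ c r₀ : ℝ, 0 < c ∧ 0 < r₀ ∧ ∀ (n : ℕ) (z : Fin n → ℂ) (r : ℝ), GP z →
    Cov z r → 0 < r → r ≤ r₀ → (n : ℝ) * r ^ 2 ≤ 10 →
    8 * Real.pi / (3 * Real.sqrt 3) * (1 + c * r) ≤ n * r ^ 2 := by
  obtain ⟨κ, r₂, hκ, hr₂, hrig⟩ := rigid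
  have hs3 : (0 : ℝ) < Real.sqrt 3 := Real.sqrt_pos.2 (by norm_num)
  have hs3sq : Real.sqrt 3 ^ 2 = 3 := Real.sq_sqrt (by norm_num)
  have hs3lo : (1.7 : ℝ) < Real.sqrt 3 := Real.lt_sqrt_of_sq_lt (by norm_num)
  have hpi := Real.pi_gt_three
  have hpi' := Real.pi_lt_d2
  refine ⟨κ / 200, min (min r₂ (1 / 100)) (κ / 20000), by positivity,
    lt_min (lt_min hr₂ (by norm_num)) (by positivity), ?_⟩
  intro n z r hG hC hr hr0 hn
  have hrr : r ≤ r₂ := hr0.trans ((min_le_left _ _).trans (min_le_left _ _))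
  have hr100 : r ≤ 1 / 100 := hr0.trans ((min_le_left _ _).trans (min_le_right _ _))
  have hrκ : r ≤ κ / 20000 := hr0.trans (min_le_right _ _)
  have hE := hrig n z r hG hC hr hrr hn
  obtain ⟨S, hS0, hScard, hS⟩ := count z hG.1
  have hA := area_sum hG hC hr hr100 S hS
  have hEle := EE_le hC hr (by linarith) S hS0 hS
  set A : ℝ := 3 * Real.sqrt 3 / 4 * Real.sin r ^ 2 with hAdef
  have hsin : 0 < Real.sin r := Real.sin_pos_of_pos_of_lt_pi hr (by linarith)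
  have hApos : 0 < A := by positivity
  have har : ∀ h, arT z h = A * (1 - dfc r z h) := by
    intro h
    have : dfc r z h = 1 - arT z h / A := rfl
    rw [this]
    field_simp
    ring
  have hsum : ∑ h ∈ S, arT z h = A * ((S.card : ℝ) - ∑ h ∈ S, dfc r z h) := by
    rw [Finset.sum_congr rfl fun h _ => har h, ← Finset.mul_sum, Finset.sum_sub_distrib]
    simp
  rw [hsum] at hA
  have hcard : (S.card : ℝ) ≤ 2 * n := by exact_mod_cast hScard
  have h1 : 4 * Real.pi * Real.cos r ^ 3 - 384 * r ^ 2 ≤ A * (2 * n - κ / (3 * r)) := by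
    refine hA.trans (mul_le_mul_of_nonneg_left ?_ hApos.le)
    have : κ / (3 * r) = κ / r / 3 := by field_simp
    rw [this]
    linarith
  -- trigonometric bounds
  have hcos : 1 - 3 / 2 * r ^ 2 ≤ Real.cos r ^ 3 := by
    have hc := Real.one_sub_sq_div_two_le_cos (x := r)
    have hx : 0 ≤ 1 - r ^ 2 / 2 := by nlinarith
    calc 1 - 3 / 2 * r ^ 2 ≤ (1 - r ^ 2 / 2) ^ 3 := by nlinarith [sq_nonneg r, sq_nonneg (r ^ 2)]
      _ ≤ Real.cos r ^ 3 := pow_le_pow_left₀ hx hc 3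
  have hsin1 : Real.sin r ^ 2 ≤ r ^ 2 := pow_le_pow_left₀ hsin.le (Real.sin_le hr.le) 2
  have hsin2 : r ^ 2 / 3 ≤ Real.sin r ^ 2 := by
    have h2 := Real.mul_le_sin hr.le (by linarith)
    have h3 : 0 ≤ 2 / Real.pi * r := by positivity
    have h4 := pow_le_pow_left₀ h3 h2 2
    refine le_trans ?_ h4
    rw [mul_pow, div_pow]
    have : (1 : ℝ) / 3 ≤ 2 ^ 2 / Real.pi ^ 2 := by
      rw [div_le_div_iff₀ (by norm_num) (by positivity)]
      nlinarith
    nlinarith [sq_nonneg r]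
  have hn0 : (0 : ℝ) ≤ n := Nat.cast_nonneg n
  have h2 : A * (2 * n - κ / (3 * r)) ≤ 3 * Real.sqrt 3 / 2 * (n * r ^ 2) -
      Real.sqrt 3 / 12 * κ * r := by
    have e1 : A * (2 * n - κ / (3 * r)) = 3 * Real.sqrt 3 / 2 * (n * Real.sin r ^ 2) -
        Real.sqrt 3 / 4 * κ * (Real.sin r ^ 2 / r) := by
      rw [hAdef]; field_simp; ring
    rw [e1]
    have e2 : r / 3 ≤ Real.sin r ^ 2 / r := by
      rw [le_div_iff₀ hr]; nlinarith
    have e3 : Real.sqrt 3 / 4 * κ * (r / 3) ≤ Real.sqrt 3 / 4 * κ * (Real.sin r ^ 2 / r) :=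
      mul_le_mul_of_nonneg_left e2 (by positivity)
    have e4 : 3 * Real.sqrt 3 / 2 * (n * Real.sin r ^ 2) ≤ 3 * Real.sqrt 3 / 2 * (n * r ^ 2) :=
      mul_le_mul_of_nonneg_left (mul_le_mul_of_nonneg_left hsin1 hn0) (by positivity)
    have e5 : Real.sqrt 3 / 4 * κ * (r / 3) = Real.sqrt 3 / 12 * κ * r := by ring
    linarith
  have h3 : 4 * Real.pi * (1 - 3 / 2 * r ^ 2) ≤ 4 * Real.pi * Real.cos r ^ 3 :=
    mul_le_mul_of_nonneg_left hcos (by positivity)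
  have h4 : 4 * Real.pi + Real.sqrt 3 / 24 * κ * r ≤ 3 * Real.sqrt 3 / 2 * (n * r ^ 2) := by
    have e1 : 403 * r ^ 2 ≤ Real.sqrt 3 / 24 * κ * r := by
      have e0 : 1.7 / 24 * κ ≤ Real.sqrt 3 / 24 * κ :=
        mul_le_mul_of_nonneg_right (by linarith) hκ.le
      have : 403 * r ≤ Real.sqrt 3 / 24 * κ := by linarith
      calc 403 * r ^ 2 = 403 * r * r := by ring
        _ ≤ Real.sqrt 3 / 24 * κ * r := mul_le_mul_of_nonneg_right this hr.le
    have e2 : 4 * Real.pi * (3 / 2 * r ^ 2) ≤ 19 * r ^ 2 := by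
      calc 4 * Real.pi * (3 / 2 * r ^ 2) = (6 * Real.pi) * r ^ 2 := by ring
        _ ≤ 19 * r ^ 2 := mul_le_mul_of_nonneg_right (by linarith) (sq_nonneg r)
    have e3 : 4 * Real.pi * (1 - 3 / 2 * r ^ 2) = 4 * Real.pi - 4 * Real.pi * (3 / 2 * r ^ 2) := by
      ring
    rw [e3] at h3
    have e4 : Real.sqrt 3 / 12 * κ * r = 2 * (Real.sqrt 3 / 24 * κ * r) := by ring
    rw [e4] at h2
    linarith
  rw [div_mul_eq_mul_div, div_le_iff₀ (by positivity)]
  have h5 : 8 * Real.pi * (κ / 200 * r) ≤ 2 * (Real.sqrt 3 / 24 * κ * r) := by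
    have hkr : 0 ≤ κ * r := by positivity
    have h6 : 8 * Real.pi / 200 ≤ Real.sqrt 3 / 12 := by linarith
    calc 8 * Real.pi * (κ / 200 * r) = 8 * Real.pi / 200 * (κ * r) := by ring
      _ ≤ Real.sqrt 3 / 12 * (κ * r) := mul_le_mul_of_nonneg_right h6 hkr
      _ = 2 * (Real.sqrt 3 / 24 * κ * r) := by ring
  have h7 : (n : ℝ) * r ^ 2 * (3 * Real.sqrt 3) = 2 * (3 * Real.sqrt 3 / 2 * (n * r ^ 2)) := by ring
  have h8 : 8 * Real.pi * (1 + κ / 200 * r) = 8 * Real.pi + 8 * Real.pi * (κ / 200 * r) := by ring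
  rw [h7, h8]
  linarith

end Pool.Agent.CAPS
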