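import Pool.Agent.Lib.MP_488b8a_co.Defs

/-! Project CAPS (MP_488b8a_co), module GpDense. -/

namespace Pool.Agent.CAPS

open Complex MeasureTheory

/-- the matrix of the four point condition -/
private def gpM {R : Type} [CommRing R] (f : Fin 4 → R × R) : Matrix (Fin 4) (Fin 4) R :=
  Matrix.of fun a => ![(f a).1 ^ 2 + (f a).2 ^ 2, (f a).1, (f a).2, 1]

private lemma gpM_map {R S : Type} [CommRing R] [CommRing S] (φ : R →+* S) (f : Fin 4 → R × R) :
    φ (gpM f).det = (gpM fun a => (φ (f a).1, φ (f a).2)).det := by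
  rw [RingHom.map_det]
  congr 1
  ext a b
  simp only [gpM, RingHom.mapMatrix_apply, Matrix.map_apply, Matrix.of_apply]
  fin_cases b <;> simp

private lemma gpM_ref (t : Fin 4 → ℝ) :
    (gpM fun a => (t a, t a ^ 2)).det =
      -((t 0 + t 1 + t 2 + t 3) * ((t 1 - t 0) * (t 2 - t 0) * (t 3 - t 0) * (t 2 - t 1) *
        (t 3 - t 1) * (t 3 - t 2))) := by
  simp only [gpM, Matrix.det_succ_row_zero, Fin.sum_univ_succ, Matrix.of_apply,
    Matrix.submatrix_apply, Matrix.det_unique]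
  simp [Fin.succAbove]
  ring

private lemma gpM_zero (f : Fin 4 → ℝ × ℝ) (h : (gpM f).det ≠ 0) (a b c d : ℝ)
    (hf : ∀ i, a * ((f i).1 ^ 2 + (f i).2 ^ 2) + (b * (f i).1 + c * (f i).2) + d = 0) :
    a = 0 ∧ b = 0 ∧ c = 0 ∧ d = 0 := by
  have h1 : (gpM f).mulVec ![a, b, c, d] = 0 := by
    funext i
    have := hf i
    simp only [gpM, Matrix.mulVec, dotProduct, Fin.sum_univ_four, Matrix.of_apply,
      Matrix.cons_val_zero, Matrix.cons_val_one, Matrix.cons_val, Pi.zero_apply]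
    linarith
  have h2 := Matrix.eq_zero_of_mulVec_eq_zero h h1
  refine ⟨?_, ?_, ?_, ?_⟩
  · simpa using congrFun h2 0
  · simpa using congrFun h2 1
  · simpa using congrFun h2 2
  · simpa using congrFun h2 3

open Polynomial in
private noncomputable def gpre {n : ℕ} (z₀ : Fin n → ℂ) (m : Fin n) : ℝ[X] :=
  C (z₀ m).re + X * C ((m : ℝ) + 1 - (z₀ m).re)

open Polynomial in
private noncomputable def gpim {n : ℕ} (z₀ : Fin n → ℂ) (m : Fin n) : ℝ[X] :=
  C (z₀ m).im + X * C (((m : ℝ) + 1) ^ 2 - (z₀ m).im)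

private lemma gpre_one {n : ℕ} (z₀ : Fin n → ℂ) (m : Fin n) :
    (gpre z₀ m).eval 1 = (m : ℝ) + 1 := by
  simp [gpre]

private lemma gpim_one {n : ℕ} (z₀ : Fin n → ℂ) (m : Fin n) :
    (gpim z₀ m).eval 1 = ((m : ℝ) + 1) ^ 2 := by
  simp [gpim]

private noncomputable def gpQ {n : ℕ} (z₀ : Fin n → ℂ) (s : Fin 4 → Fin n) : Polynomial ℝ :=
  (gpM fun a => (gpre z₀ (s a), gpim z₀ (s a))).det

private lemma gpQ_eval {n : ℕ} (z₀ : Fin n → ℂ) (s : Fin 4 → Fin n) (t : ℝ) :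
    (gpQ z₀ s).eval t =
      (gpM fun a => ((gpre z₀ (s a)).eval t, (gpim z₀ (s a)).eval t)).det :=
  gpM_map (Polynomial.evalRingHom t) _

private lemma gpQ_ne {n : ℕ} (z₀ : Fin n → ℂ) (s : Fin 4 → Fin n) (hs : Function.Injective s) :
    gpQ z₀ s ≠ 0 := by
  intro h
  have h1 := gpQ_eval z₀ s 1
  rw [h, Polynomial.eval_zero] at h1
  have h2 : (fun a => ((gpre z₀ (s a)).eval 1, (gpim z₀ (s a)).eval 1)) =
      fun a => ((fun a => ((s a : ℕ) : ℝ) + 1) a, ((fun a => ((s a : ℕ) : ℝ) + 1) a) ^ 2) := by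
    funext a
    rw [gpre_one, gpim_one]
  rw [h2, gpM_ref (fun a => ((s a : ℕ) : ℝ) + 1)] at h1
  have hne : ∀ a b : Fin 4, a ≠ b → ((s a : ℕ) : ℝ) + 1 - (((s b : ℕ) : ℝ) + 1) ≠ 0 := by
    intro a b hab h3
    apply hab
    apply hs
    apply Fin.ext
    have h4 : ((s a : ℕ) : ℝ) = ((s b : ℕ) : ℝ) := by linarith
    exact_mod_cast h4
  have hpos : (0 : ℝ) < (((s 0 : ℕ) : ℝ) + 1) + (((s 1 : ℕ) : ℝ) + 1) + (((s 2 : ℕ) : ℝ) + 1) +
      (((s 3 : ℕ) : ℝ) + 1) := by positivity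
  have h5 := neg_eq_zero.1 h1.symm
  rcases mul_eq_zero.1 h5 with h6 | h6
  · exact hpos.ne' h6
  · revert h6
    refine mul_ne_zero (mul_ne_zero (mul_ne_zero (mul_ne_zero (mul_ne_zero ?_ ?_) ?_) ?_) ?_) ?_
    all_goals
      refine hne _ _ ?_
      decide

theorem gp_dense {n : ℕ} (z₀ : Fin n → ℂ) {ε : ℝ} (hε : 0 < ε) :
    ∃ z : Fin n → ℂ, GP z ∧ ∀ i, ‖z i - z₀ i‖ < ε := by
  classical
  obtain ⟨z₁, hz₁⟩ : ∃ z₁ : Fin n → ℂ, z₁ = fun m : Fin n =>
      (⟨((m : ℕ) : ℝ) + 1, (((m : ℕ) : ℝ) + 1) ^ 2⟩ : ℂ) :=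
    ⟨_, rfl⟩
  -- the bad polynomials
  obtain ⟨Q, hQ⟩ : ∃ Q : Polynomial ℝ, Q =
    (∏ s ∈ Finset.univ.filter (fun s : Fin 4 → Fin n => Function.Injective s), gpQ z₀ s) *
      ∏ p ∈ Finset.univ.filter (fun p : Fin n × Fin n => p.1 ≠ p.2),
        (gpre z₀ p.1 - gpre z₀ p.2) := ⟨_, rfl⟩
  have hQ0 : Q ≠ 0 := by
    rw [hQ]
    refine mul_ne_zero ?_ ?_
    · rw [Finset.prod_ne_zero_iff]
      intro s hs
      exact gpQ_ne z₀ s (Finset.mem_filter.1 hs).2
    · rw [Finset.prod_ne_zero_iff]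
      intro p hp h
      apply (Finset.mem_filter.1 hp).2
      have h1 := congrArg (Polynomial.eval 1) h
      rw [Polynomial.eval_sub, gpre_one, gpre_one, Polynomial.eval_zero] at h1
      apply Fin.ext
      have h4 : ((p.1 : ℕ) : ℝ) = ((p.2 : ℕ) : ℝ) := by linarith
      exact_mod_cast h4
  obtain ⟨B, hB⟩ : ∃ B : ℝ, B = ∑ i, ‖z₁ i - z₀ i‖ + 1 := ⟨_, rfl⟩
  have hB0 : 0 < B := by
    rw [hB]
    have : 0 ≤ ∑ i, ‖z₁ i - z₀ i‖ := Finset.sum_nonneg fun i _ => norm_nonneg _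
    linarith
  obtain ⟨t, ht, htQ⟩ := (Set.Ioo_infinite (div_pos hε hB0)).exists_notMem_finset Q.roots.toFinset
  have hev : Q.eval t ≠ 0 := by
    intro h
    apply htQ
    rw [Multiset.mem_toFinset, Polynomial.mem_roots hQ0]
    exact h
  rw [hQ, Polynomial.eval_mul, Polynomial.eval_prod, Polynomial.eval_prod] at hev
  have hev1 := left_ne_zero_of_mul hev
  have hev2 := right_ne_zero_of_mul hev
  rw [Finset.prod_ne_zero_iff] at hev1 hev2
  refine ⟨fun m => ⟨(gpre z₀ m).eval t, (gpim z₀ m).eval t⟩, ⟨?_, ?_⟩, ?_⟩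
  · intro i j hij
    by_contra hne
    apply hev2 (i, j) (by simpa using hne)
    have h1 := congrArg Complex.re hij
    simp only at h1
    rw [Polynomial.eval_sub, h1, sub_self]
  · intro i j k l hij hik hil hjk hjl hkl a d b h1 h2 h3 h4
    have hinj : Function.Injective (![i, j, k, l] : Fin 4 → Fin n) := by
      intro x y hxy
      fin_cases x <;> fin_cases y <;> simp_all
    have h5 := hev1 ![i, j, k, l] (by simpa using hinj)
    rw [gpQ_eval] at h5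
    have hns : ∀ m : Fin n, ‖(⟨(gpre z₀ m).eval t, (gpim z₀ m).eval t⟩ : ℂ)‖ ^ 2 =
        (gpre z₀ m).eval t ^ 2 + (gpim z₀ m).eval t ^ 2 := by
      intro m
      rw [Complex.sq_norm, Complex.normSq_mk]
      ring
    simp only [hns] at h1 h2 h3 h4
    have h6 := gpM_zero _ h5 a b.re b.im d (by
      intro x
      fin_cases x
      · exact h1
      · exact h2
      · exact h3
      · exact h4)
    exact ⟨h6.1, Complex.ext h6.2.1 h6.2.2.1, h6.2.2.2⟩
  · intro i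
    have h1 : (⟨(gpre z₀ i).eval t, (gpim z₀ i).eval t⟩ : ℂ) - z₀ i = (t : ℂ) * (z₁ i - z₀ i) := by
      rw [hz₁]
      apply Complex.ext
      · simp [gpre]
      · simp [gpim]
    rw [h1, norm_mul, Complex.norm_real, Real.norm_eq_abs, abs_of_pos ht.1]
    have h2 : ‖z₁ i - z₀ i‖ ≤ B := by
      rw [hB]
      have := Finset.single_le_sum (f := fun i => ‖z₁ i - z₀ i‖) (fun i _ => norm_nonneg _)
        (Finset.mem_univ i)
      linarith
    calc t * ‖z₁ i - z₀ i‖ ≤ t * B := mul_le_mul_of_nonneg_left h2 ht.1.le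
      _ < ε := by
        have := ht.2
        rwa [lt_div_iff₀ hB0] at this

end Pool.Agent.CAPS
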