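import Pool.Agent.Lib.MP_488b8a_co.Sph
import Pool.Agent.Lib.MP_488b8a_co.GpDense

/-! Project CAPS (MP_488b8a_co), module GenPos. -/

namespace Pool.Agent.CAPS

open Complex MeasureTheory

private theorem GenPos_lip (z w : ℂ) : ‖sph z - sph w‖ ≤ 2 * ‖z - w‖ := by
  refine abs_le_of_sq_le_sq' ?_ (by positivity) |>.2
  rw [sph_dist, xx, div_le_iff₀ (by positivity)]
  have h1 : 0 ≤ ‖z‖ ^ 2 := by positivity
  have h2 : 0 ≤ ‖w‖ ^ 2 := by positivity
  have h3 : 0 ≤ ‖z - w‖ ^ 2 := by positivity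
  have h4 : 0 ≤ ‖z‖ ^ 2 * ‖w‖ ^ 2 := by positivity
  nlinarith [mul_nonneg h3 h1, mul_nonneg h3 h2, mul_nonneg h3 h4]

private theorem GenPos_nsq (z : ℂ) : ‖z‖ ^ 2 = z.re ^ 2 + z.im ^ 2 := by
  rw [Complex.sq_norm, Complex.normSq_apply]
  ring

private theorem GenPos_unit {y : EuclideanSpace ℝ (Fin 3)} (hy : ‖y‖ = 1) :
    y 0 ^ 2 + y 1 ^ 2 + y 2 ^ 2 = 1 := by
  have h := EuclideanSpace.norm_sq_eq y
  rw [hy, Fin.sum_univ_three] at h
  simp only [Real.norm_eq_abs, sq_abs] at h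
  linarith

private theorem GenPos_dense {y : EuclideanSpace ℝ (Fin 3)} (hy : ‖y‖ = 1) {δ : ℝ} (hδ : 0 < δ) :
    ∃ w : ℂ, ‖sph w - y‖ < δ := by
  have hu := GenPos_unit hy
  by_cases h : y 2 = -1
  · have h0 : y 0 = 0 := by
      rw [h] at hu
      nlinarith [sq_nonneg (y 0), sq_nonneg (y 1)]
    have h1 : y 1 = 0 := by
      rw [h] at hu
      nlinarith [sq_nonneg (y 0), sq_nonneg (y 1)]
    refine ⟨⟨2 / δ, 0⟩, ?_⟩
    set w : ℂ := ⟨2 / δ, 0⟩ with hw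
    have hn : ‖w‖ ^ 2 = (2 / δ) ^ 2 := by
      rw [GenPos_nsq]
      simp [hw]
    have e : ‖sph w - y‖ ^ 2 = 4 / (1 + (2 / δ) ^ 2) := by
      rw [EuclideanSpace.norm_sq_eq, Fin.sum_univ_three]
      simp only [Real.norm_eq_abs, sq_abs]
      have e0 : (sph w - y) 0 = 2 * w.re / (1 + ‖w‖ ^ 2) - y 0 := rfl
      have e1 : (sph w - y) 1 = 2 * w.im / (1 + ‖w‖ ^ 2) - y 1 := rfl
      have e2 : (sph w - y) 2 = (1 - ‖w‖ ^ 2) / (1 + ‖w‖ ^ 2) - y 2 := rfl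
      rw [e0, e1, e2, h0, h1, h, hn]
      have r1 : w.re = 2 / δ := rfl
      have r2 : w.im = 0 := rfl
      rw [r1, r2]
      have h5 : (1 : ℝ) + (2 / δ) ^ 2 ≠ 0 := by positivity
      generalize 2 / δ = t at *
      field_simp
      ring
    have h6 : ‖sph w - y‖ ^ 2 < δ ^ 2 := by
      rw [e, div_lt_iff₀ (by positivity)]
      have : δ ^ 2 * (1 + (2 / δ) ^ 2) = δ ^ 2 + 4 := by
        field_simp
        ring
      rw [this]
      have := pow_pos hδ 2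
      linarith
    exact lt_of_pow_lt_pow_left₀ 2 hδ.le h6
  · have h2 : -1 < y 2 := by
      have h3 : y 2 ^ 2 ≤ 1 := by nlinarith [sq_nonneg (y 0), sq_nonneg (y 1)]
      have h4 : -1 ≤ y 2 := by nlinarith [sq_nonneg (y 2 + 1)]
      exact lt_of_le_of_ne h4 (Ne.symm h)
    have h3 : (0 : ℝ) < 1 + y 2 := by linarith
    refine ⟨⟨y 0 / (1 + y 2), y 1 / (1 + y 2)⟩, ?_⟩
    set w : ℂ := ⟨y 0 / (1 + y 2), y 1 / (1 + y 2)⟩ with hw
    have hn : ‖w‖ ^ 2 = (1 - y 2) / (1 + y 2) := by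
      rw [GenPos_nsq]
      have r1 : w.re = y 0 / (1 + y 2) := rfl
      have r2 : w.im = y 1 / (1 + y 2) := rfl
      rw [r1, r2]
      field_simp
      nlinarith
    have hn1 : 1 + ‖w‖ ^ 2 = 2 / (1 + y 2) := by
      rw [hn]
      field_simp
      ring
    have he : sph w = y := by
      ext i
      have r1 : w.re = y 0 / (1 + y 2) := rfl
      have r2 : w.im = y 1 / (1 + y 2) := rfl
      fin_cases i
      · show 2 * w.re / (1 + ‖w‖ ^ 2) = y 0
        rw [hn1, r1]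
        field_simp
      · show 2 * w.im / (1 + ‖w‖ ^ 2) = y 1
        rw [hn1, r2]
        field_simp
      · show (1 - ‖w‖ ^ 2) / (1 + ‖w‖ ^ 2) = y 2
        rw [hn1, hn]
        field_simp
        ring
    rw [he, sub_self, norm_zero]
    exact hδ

theorem gen_pos {n : ℕ} (p : Fin n → EuclideanSpace ℝ (Fin 3)) (hp : ∀ i, ‖p i‖ = 1) {r r' : ℝ}
    (hr : 0 ≤ r) (hrr : r < r') (hr' : r' ≤ Real.pi)
    (hc : ∀ x : EuclideanSpace ℝ (Fin 3), ‖x‖ = 1 → ∃ i, Real.cos r ≤ inner ℝ x (p i)) :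
    ∃ z : Fin n → ℂ, GP z ∧ Cov z r' := by
  have hD : 0 < Real.cos r - Real.cos r' := by
    have := Real.cos_lt_cos_of_nonneg_of_le_pi hr hr' hrr
    linarith
  set D : ℝ := Real.cos r - Real.cos r' with hDdef
  choose w hw using fun i => GenPos_dense (hp i) (δ := D / 2) (by linarith)
  obtain ⟨z, hz, hzw⟩ := gp_dense w (ε := D / 4) (by linarith)
  refine ⟨z, hz, fun x hx => ?_⟩
  obtain ⟨i, hi⟩ := hc x hx
  refine ⟨i, ?_⟩
  have h1 : ‖sph (z i) - p i‖ < D := by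
    have h2 : sph (z i) - p i = (sph (z i) - sph (w i)) + (sph (w i) - p i) := by abel
    rw [h2]
    refine lt_of_le_of_lt (norm_add_le _ _) ?_
    have h3 := GenPos_lip (z i) (w i)
    have h4 := hzw i
    have h5 := hw i
    linarith
  have h6 : inner ℝ x (sph (z i)) = inner ℝ x (p i) + inner ℝ x (sph (z i) - p i) := by
    rw [← inner_add_right]
    congr 1
    abel
  have h7 : |inner ℝ x (sph (z i) - p i)| ≤ ‖x‖ * ‖sph (z i) - p i‖ := abs_real_inner_le_norm _ _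
  rw [hx, one_mul] at h7
  have h8 := (abs_le.1 h7).1
  rw [h6]
  linarith

end Pool.Agent.CAPS
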