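import Pool.Agent.Lib.MP_488b8a_co.FinA
import Pool.Agent.Lib.MP_488b8a_co.GenPos

/-! Project CAPS (MP_488b8a_co), module Final. -/

namespace Pool.Agent.CAPS

open Complex MeasureTheory

/-- the least common radius of `n` caps covering the sphere -/
noncomputable def capRadius (n : ℕ) : ℝ :=
  sInf {r : ℝ | 0 ≤ r ∧ ∃ p : Fin n → EuclideanSpace ℝ (Fin 3), (∀ i, ‖p i‖ = 1) ∧
    ∀ x : EuclideanSpace ℝ (Fin 3), ‖x‖ = 1 → ∃ i, InnerProductGeometry.angle x (p i) ≤ r}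

private lemma al_bounds : 4 < 8 * Real.pi / (3 * Real.sqrt 3) ∧
    8 * Real.pi / (3 * Real.sqrt 3) < 5 := by
  have hs3 : (0 : ℝ) < Real.sqrt 3 := Real.sqrt_pos.2 (by norm_num)
  have hlo : (1.7 : ℝ) < Real.sqrt 3 := Real.lt_sqrt_of_sq_lt (by norm_num)
  have hhi : Real.sqrt 3 < 1.8 := (Real.sqrt_lt' (by norm_num)).2 (by norm_num)
  have hpi := Real.pi_gt_three
  have hpi' := Real.pi_lt_d2
  constructor
  · rw [lt_div_iff₀ (by positivity)]; linarith
  · rw [div_lt_iff₀ (by positivity)]; linarith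

theorem main : ∃ c : ℝ, 0 < c ∧ ∃ n₀ : ℕ, ∀ n : ℕ, n₀ ≤ n →
    8 * Real.pi / (3 * Real.sqrt 3) * (1 + c / Real.sqrt n) ≤ n * capRadius n ^ 2 := by
  obtain ⟨c, r₀, hc, hr₀, hfin⟩ := fin_ineq
  obtain ⟨hal, hal'⟩ := al_bounds
  set α : ℝ := 8 * Real.pi / (3 * Real.sqrt 3) with hα
  obtain ⟨n₁, hn₁⟩ := exists_nat_gt (10 / (min r₀ 1) ^ 2)
  refine ⟨min c 1, lt_min hc one_pos, n₁ + 1, ?_⟩
  intro n hn
  have hn1 : 1 ≤ n := by omega
  have hnpos : (0 : ℝ) < n := by exact_mod_cast hn1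
  have hn1' : (1 : ℝ) ≤ n := by exact_mod_cast hn1
  have hsn : 1 ≤ Real.sqrt n := Real.one_le_sqrt.2 hn1'
  have hsn0 : 0 < Real.sqrt n := by linarith
  have hm : 0 < min r₀ 1 := lt_min hr₀ one_pos
  have hnbig : 10 / (min r₀ 1) ^ 2 < n := by
    have : (n₁ : ℝ) ≤ n := by exact_mod_cast (by omega : n₁ ≤ n)
    linarith
  -- the inequality for every admissible radius
  have key : ∀ ρ : ℝ, 0 ≤ ρ → (∃ p : Fin n → EuclideanSpace ℝ (Fin 3), (∀ i, ‖p i‖ = 1) ∧
      ∀ x : EuclideanSpace ℝ (Fin 3), ‖x‖ = 1 → ∃ i, InnerProductGeometry.angle x (p i) ≤ ρ) →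
      α * (1 + min c 1 / Real.sqrt n) ≤ n * ρ ^ 2 := by
    intro ρ hρ ⟨p, hp, hcov⟩
    by_cases h10 : 10 ≤ n * ρ ^ 2
    · have h1 : min c 1 / Real.sqrt n ≤ 1 := by
        rw [div_le_one hsn0]
        exact (min_le_right _ _).trans hsn
      have h0 : 0 ≤ min c 1 / Real.sqrt n := div_nonneg (lt_min hc one_pos).le hsn0.le
      nlinarith
    push Not at h10
    -- ρ is small
    have hρm : ρ < min r₀ 1 := by
      rw [div_lt_iff₀ (by positivity)] at hnbig
      have : n * ρ ^ 2 < n * (min r₀ 1) ^ 2 := by linarith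
      have h2 := lt_of_mul_lt_mul_left this hnpos.le
      exact lt_of_pow_lt_pow_left₀ 2 hm.le h2
    have hρ1 : ρ < 1 := hρm.trans_le (min_le_right _ _)
    have hρr : ρ < r₀ := hρm.trans_le (min_le_left _ _)
    have hpi := Real.pi_gt_three
    have hcos : ∀ x : EuclideanSpace ℝ (Fin 3), ‖x‖ = 1 → ∃ i, Real.cos ρ ≤ inner ℝ x (p i) := by
      intro x hx
      obtain ⟨i, hi⟩ := hcov x hx
      refine ⟨i, ?_⟩
      have h1 : Real.cos (InnerProductGeometry.angle x (p i)) = inner ℝ x (p i) := by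
        rw [InnerProductGeometry.cos_angle, hx, hp i]; simp
      rw [← h1]
      exact Real.cos_le_cos_of_nonneg_of_le_pi (InnerProductGeometry.angle_nonneg _ _)
        (by linarith) hi
    -- limit from the right
    have hlim : α * (1 + c * ρ) ≤ n * ρ ^ 2 := by
      have t1 : Filter.Tendsto (fun r' : ℝ => α * (1 + c * r')) (nhdsWithin ρ (Set.Ioi ρ))
          (nhds (α * (1 + c * ρ))) :=
        (Continuous.tendsto (by fun_prop) ρ).mono_left nhdsWithin_le_nhds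
      have t2 : Filter.Tendsto (fun r' : ℝ => (n : ℝ) * r' ^ 2) (nhdsWithin ρ (Set.Ioi ρ))
          (nhds (n * ρ ^ 2)) :=
        (Continuous.tendsto (by fun_prop) ρ).mono_left nhdsWithin_le_nhds
      refine le_of_tendsto_of_tendsto t1 t2 ?_
      have m1 : ∀ᶠ r' in nhdsWithin ρ (Set.Ioi ρ), r' < r₀ :=
        nhdsWithin_le_nhds (Iio_mem_nhds hρr)
      have m2 : ∀ᶠ r' in nhdsWithin ρ (Set.Ioi ρ), r' < 1 :=
        nhdsWithin_le_nhds (Iio_mem_nhds hρ1)
      have m3 : ∀ᶠ r' in nhdsWithin ρ (Set.Ioi ρ), (n : ℝ) * r' ^ 2 < 10 :=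
        t2.eventually (Iio_mem_nhds h10)
      filter_upwards [m1, m2, m3, self_mem_nhdsWithin] with r' h1 h2 h3 h4
      have h4' : ρ < r' := h4
      obtain ⟨z, hG, hC⟩ := gen_pos p hp hρ h4' (by linarith) hcos
      exact hfin n z r' hG hC (by linarith) h1.le h3.le
    have hρ2 : 4 ≤ n * ρ ^ 2 := by
      have : 0 ≤ c * ρ := mul_nonneg hc.le hρ
      nlinarith
    have hρs : 1 / Real.sqrt n ≤ ρ := by
      rw [div_le_iff₀ hsn0]
      have h1 : (ρ * Real.sqrt n) ^ 2 = n * ρ ^ 2 := by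
        rw [mul_pow, Real.sq_sqrt hnpos.le]; ring
      have h2 : 0 ≤ ρ * Real.sqrt n := mul_nonneg hρ hsn0.le
      nlinarith
    refine le_trans ?_ hlim
    apply mul_le_mul_of_nonneg_left _ (by linarith)
    have h1 : min c 1 / Real.sqrt n ≤ c * ρ := by
      calc min c 1 / Real.sqrt n ≤ c / Real.sqrt n :=
            div_le_div_of_nonneg_right (min_le_left _ _) hsn0.le
        _ = c * (1 / Real.sqrt n) := by ring
        _ ≤ c * ρ := mul_le_mul_of_nonneg_left hρs hc.le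
    linarith
  -- conclusion
  have hpos : 0 ≤ α * (1 + min c 1 / Real.sqrt n) := by
    have h0 : 0 ≤ min c 1 / Real.sqrt n := div_nonneg (lt_min hc one_pos).le hsn0.le
    positivity
  set L : ℝ := Real.sqrt (α * (1 + min c 1 / Real.sqrt n) / n) with hL
  have hL0 : 0 ≤ L := Real.sqrt_nonneg _
  have hLsq : n * L ^ 2 = α * (1 + min c 1 / Real.sqrt n) := by
    rw [hL, Real.sq_sqrt (div_nonneg hpos hnpos.le)]
    field_simp
  have hLle : L ≤ capRadius n := by
    unfold capRadius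
    apply le_csInf
    · refine ⟨Real.pi, Real.pi_pos.le, fun _ => EuclideanSpace.single 0 1, ?_, ?_⟩
      · intro i; simp
      · intro x _
        exact ⟨⟨0, by omega⟩, InnerProductGeometry.angle_le_pi _ _⟩
    · rintro ρ ⟨hρ, hex⟩
      have h1 := key ρ hρ hex
      rw [← hLsq] at h1
      have h2 := le_of_mul_le_mul_left h1 hnpos
      exact le_of_sq_le_sq h2 hρ
  calc α * (1 + min c 1 / Real.sqrt n) = n * L ^ 2 := hLsq.symm
    _ ≤ n * capRadius n ^ 2 :=
        mul_le_mul_of_nonneg_left (pow_le_pow_left₀ hL0 hLle 2) hnpos.le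

end Pool.Agent.CAPS
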