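import Pool.Agent.Lib.MP_488b8a_co.Defs

/-! Project CAPS (MP_488b8a_co), module Flx. -/

namespace Pool.Agent.CAPS

open Complex MeasureTheory

private theorem Flx_crs_le (e d : ℂ) : |crs e d| ≤ ‖e‖ * ‖d‖ := by
  apply abs_le_of_sq_le_sq
  · rw [mul_pow, Complex.sq_norm, Complex.sq_norm, Complex.normSq_apply, Complex.normSq_apply]
    unfold crs
    nlinarith [sq_nonneg (e.re * d.re + e.im * d.im)]
  · positivity

theorem flx_symm (f : ℂ → ℂ) (e p q : ℂ) : flx f e q p = - flx f e p q := by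
  unfold flx
  have h1 : (∫ t in (0 : ℝ)..1, f (q + (t : ℂ) * (p - q))) =
      ∫ t in (0 : ℝ)..1, f (p + (t : ℂ) * (q - p)) := by
    have h := intervalIntegral.integral_comp_sub_left
      (fun t : ℝ => f (p + (t : ℂ) * (q - p))) (a := 0) (b := 1) 1
    rw [sub_self, sub_zero] at h
    rw [← h]
    refine intervalIntegral.integral_congr fun t _ => ?_
    show f (q + (t : ℂ) * (p - q)) = f (p + ((1 - t : ℝ) : ℂ) * (q - p))
    congr 1
    push_cast
    ring
  have h2 : crs e (p - q) = - crs e (q - p) := by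
    unfold crs
    simp only [Complex.sub_re, Complex.sub_im]
    ring
  rw [h1, h2]
  push_cast
  ring

theorem flx_zero {f : ℂ → ℂ} (e : ℂ) {p q : ℂ} (h : ∀ x ∈ segment ℝ p q, f x = 0) :
    flx f e p q = 0 := by
  unfold flx
  have h1 : (∫ t in (0 : ℝ)..1, f (p + (t : ℂ) * (q - p))) = 0 := by
    rw [intervalIntegral.integral_congr (g := fun _ => (0 : ℂ)) ?_,
      intervalIntegral.integral_zero]
    intro t ht
    rw [Set.uIcc_of_le zero_le_one] at ht
    apply h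
    rw [segment_eq_image']
    exact ⟨t, ht, by simp⟩
  rw [h1, zero_mul]

theorem flx_norm {f : ℂ → ℂ} {e : ℂ} (he : ‖e‖ = 1) {B : ℝ} (hB : ∀ x, ‖f x‖ ≤ B) (p q : ℂ) :
    ‖flx f e p q‖ ≤ B * ‖q - p‖ := by
  unfold flx
  rw [norm_mul, Complex.norm_real, Real.norm_eq_abs]
  have h1 : ‖∫ t in (0 : ℝ)..1, f (p + (t : ℂ) * (q - p))‖ ≤ B * |1 - 0| :=
    intervalIntegral.norm_integral_le_of_norm_le_const fun t _ => hB _
  rw [sub_zero, abs_one, mul_one] at h1
  have h2 := Flx_crs_le e (q - p)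
  rw [he, one_mul] at h2
  have h3 : 0 ≤ B := (norm_nonneg _).trans (hB 0)
  exact mul_le_mul h1 h2 (abs_nonneg _) h3

theorem flx_est {f : ℂ → ℂ} (hf : ContDiff ℝ 1 f) {e : ℂ} (he : ‖e‖ = 1) {B' : ℝ}
    (hB : ∀ x, ‖fderiv ℝ f x‖ ≤ B') {p q x : ℂ} {δ : ℝ} (hp : ‖p - x‖ ≤ δ) (hq : ‖q - x‖ ≤ δ) :
    ‖flx f e p q - f x * (crs e (q - p) : ℂ)‖ ≤ B' * δ * ‖q - p‖ := by
  unfold flx
  have hB0 : 0 ≤ B' := (norm_nonneg _).trans (hB 0)
  have hδ : 0 ≤ δ := (norm_nonneg _).trans hp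
  have hcont : Continuous fun t : ℝ => f (p + (t : ℂ) * (q - p)) :=
    hf.continuous.comp (by fun_prop)
  have h1 : (∫ t in (0 : ℝ)..1, f (p + (t : ℂ) * (q - p))) - f x =
      ∫ t in (0 : ℝ)..1, (f (p + (t : ℂ) * (q - p)) - f x) := by
    rw [intervalIntegral.integral_sub (hcont.intervalIntegrable _ _) (by simp)]
    simp
  have h2 : ‖∫ t in (0 : ℝ)..1, (f (p + (t : ℂ) * (q - p)) - f x)‖ ≤ B' * δ * |1 - 0| := by
    apply intervalIntegral.norm_integral_le_of_norm_le_const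
    intro t ht
    rw [Set.uIoc_of_le zero_le_one] at ht
    have h3 : ‖f (p + (t : ℂ) * (q - p)) - f x‖ ≤ B' * ‖p + (t : ℂ) * (q - p) - x‖ :=
      Convex.norm_image_sub_le_of_norm_fderiv_le (𝕜 := ℝ) (s := Set.univ)
        (fun y _ => hf.differentiable (by norm_num) y) (fun y _ => hB y) convex_univ
        (Set.mem_univ _) (Set.mem_univ _)
    have h4 : ‖p + (t : ℂ) * (q - p) - x‖ ≤ δ := by
      have h5 : p + (t : ℂ) * (q - p) - x = ((1 - t : ℝ) : ℂ) * (p - x) + (t : ℂ) * (q - x) := by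
        push_cast; ring
      rw [h5]
      calc ‖((1 - t : ℝ) : ℂ) * (p - x) + (t : ℂ) * (q - x)‖ ≤
            ‖((1 - t : ℝ) : ℂ) * (p - x)‖ + ‖(t : ℂ) * (q - x)‖ := norm_add_le _ _
        _ = (1 - t) * ‖p - x‖ + t * ‖q - x‖ := by
            rw [norm_mul, norm_mul, Complex.norm_real, Complex.norm_real,
              Real.norm_of_nonneg (by linarith [ht.2]), Real.norm_of_nonneg ht.1.le]
        _ ≤ (1 - t) * δ + t * δ :=
            add_le_add (mul_le_mul_of_nonneg_left hp (by linarith [ht.2]))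
              (mul_le_mul_of_nonneg_left hq ht.1.le)
        _ = δ := by ring
    exact h3.trans (mul_le_mul_of_nonneg_left h4 hB0)
  rw [sub_zero, abs_one, mul_one, ← h1] at h2
  rw [← sub_mul, norm_mul, Complex.norm_real, Real.norm_eq_abs]
  have h6 := Flx_crs_le e (q - p)
  rw [he, one_mul] at h6
  exact mul_le_mul h2 h6 (abs_nonneg _) (by positivity)

end Pool.Agent.CAPS
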