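import Pool.Agent.Lib.MP_488b8a_co.GreenA

/-! Project CAPS (MP_488b8a_co), module Green. -/

namespace Pool.Agent.CAPS

open Complex MeasureTheory

/-- the linear map with columns `u`, `v` -/
private noncomputable def green_A (u v : ℂ) : ℂ →L[ℝ] ℂ :=
  reCLM.smulRight u + imCLM.smulRight v

private lemma green_A_apply (u v x : ℂ) : green_A u v x = (x.re : ℂ) * u + (x.im : ℂ) * v := by
  simp [green_A]

private lemma green_A_re (u v x : ℂ) : (green_A u v x).re = x.re * u.re + x.im * v.re := by
  rw [green_A_apply]; simp

private lemma green_A_im (u v x : ℂ) : (green_A u v x).im = x.re * u.im + x.im * v.im := by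
  rw [green_A_apply]; simp

private lemma green_A_det (u v : ℂ) : (green_A u v).det = crs u v := by
  have h : (green_A u v).det = LinearMap.det ((green_A u v : ℂ →L[ℝ] ℂ) : ℂ →ₗ[ℝ] ℂ) := rfl
  rw [h, ← LinearMap.det_toMatrix Complex.basisOneI, Matrix.det_fin_two]
  simp only [LinearMap.toMatrix_apply, Complex.coe_basisOneI_repr, Complex.coe_basisOneI]
  simp [green_A_re, green_A_im, crs]
  ring

private lemma green_image {p q w : ℂ} (h : 0 < crs (q - p) (w - p)) :
    triS p q w = (fun x => p + green_A (q - p) (w - p) x) '' Tstd := by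
  have hD : crs (q - p) (w - p) ≠ 0 := ne_of_gt h
  have hD' : (q.re - p.re) * (w.im - p.im) - (q.im - p.im) * (w.re - p.re) ≠ 0 := by
    simpa [crs] using hD
  ext y
  constructor
  · intro hy
    obtain ⟨h1, h2, h3⟩ := hy
    refine ⟨⟨crs (y - p) (w - p) / crs (q - p) (w - p), crs (q - p) (y - p) / crs (q - p) (w - p)⟩,
      ⟨?_, ?_, ?_⟩, ?_⟩
    · show 0 < crs (y - p) (w - p) / crs (q - p) (w - p)
      apply div_pos _ h
      have : crs (y - p) (w - p) = crs (p - w) (y - w) := by simp [crs]; ring
      rw [this]; exact h3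
    · show 0 < crs (q - p) (y - p) / crs (q - p) (w - p)
      exact div_pos h1 h
    · show crs (y - p) (w - p) / crs (q - p) (w - p) + crs (q - p) (y - p) / crs (q - p) (w - p) < 1
      rw [← add_div, div_lt_one h]
      have : crs (q - p) (w - p) - (crs (y - p) (w - p) + crs (q - p) (y - p)) = crs (w - q) (y - q) := by
        simp [crs]; ring
      linarith
    · apply Complex.ext
      · simp only [add_re, green_A_re]
        have key : crs (y - p) (w - p) * (q - p).re + crs (q - p) (y - p) * (w - p).re =
            crs (q - p) (w - p) * (y.re - p.re) := by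
          simp only [crs, sub_re, sub_im]; ring
        have : crs (y - p) (w - p) / crs (q - p) (w - p) * (q - p).re +
            crs (q - p) (y - p) / crs (q - p) (w - p) * (w - p).re = y.re - p.re := by
          rw [div_mul_eq_mul_div, div_mul_eq_mul_div, ← add_div, key, mul_div_cancel_left₀ _ hD]
        rw [this]; ring
      · simp only [add_im, green_A_im]
        have key : crs (y - p) (w - p) * (q - p).im + crs (q - p) (y - p) * (w - p).im =
            crs (q - p) (w - p) * (y.im - p.im) := by
          simp only [crs, sub_re, sub_im]; ring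
        have : crs (y - p) (w - p) / crs (q - p) (w - p) * (q - p).im +
            crs (q - p) (y - p) / crs (q - p) (w - p) * (w - p).im = y.im - p.im := by
          rw [div_mul_eq_mul_div, div_mul_eq_mul_div, ← add_div, key, mul_div_cancel_left₀ _ hD]
        rw [this]; ring
  · rintro ⟨x, ⟨h1, h2, h3⟩, rfl⟩
    refine ⟨?_, ?_, ?_⟩
    · have : crs (q - p) (p + green_A (q - p) (w - p) x - p) = crs (q - p) (w - p) * x.im := by
        simp only [crs, sub_re, sub_im, add_re, add_im, green_A_re, green_A_im]; ring
      show 0 < crs (q - p) (p + green_A (q - p) (w - p) x - p)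
      rw [this]; exact mul_pos h h2
    · have : crs (w - q) (p + green_A (q - p) (w - p) x - q) =
          crs (q - p) (w - p) * (1 - x.re - x.im) := by
        simp only [crs, sub_re, sub_im, add_re, add_im, green_A_re, green_A_im]; ring
      show 0 < crs (w - q) (p + green_A (q - p) (w - p) x - q)
      rw [this]; apply mul_pos h; linarith
    · have : crs (p - w) (p + green_A (q - p) (w - p) x - w) = crs (q - p) (w - p) * x.re := by
        simp only [crs, sub_re, sub_im, add_re, add_im, green_A_re, green_A_im]; ring
      show 0 < crs (p - w) (p + green_A (q - p) (w - p) x - w)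
      rw [this]; exact mul_pos h h1

private lemma green_Tstd_open : IsOpen Tstd := by
  have : Tstd = {x : ℂ | 0 < x.re} ∩ {x : ℂ | 0 < x.im} ∩ {x : ℂ | x.re + x.im < 1} := by
    ext x; simp [Tstd, and_assoc]
  rw [this]
  apply IsOpen.inter
  · apply IsOpen.inter
    · exact isOpen_lt continuous_const Complex.continuous_re
    · exact isOpen_lt continuous_const Complex.continuous_im
  · exact isOpen_lt (Complex.continuous_re.add Complex.continuous_im) continuous_const

private lemma green_Tstd_sub : Tstd ⊆ Metric.closedBall (0 : ℂ) 2 := by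
  intro x hx
  obtain ⟨h1, h2, h3⟩ := hx
  rw [mem_closedBall_zero_iff]
  have := Complex.norm_le_abs_re_add_abs_im x
  rw [abs_of_pos h1, abs_of_pos h2] at this
  linarith

private lemma green_inj {u v : ℂ} (h : 0 < crs u v) (p : ℂ) :
    Set.InjOn (fun x => p + green_A u v x) Tstd := by
  intro x _ y _ hxy
  have h0 : green_A u v x = green_A u v y := by
    simpa using hxy
  have hre := congrArg Complex.re h0
  have him := congrArg Complex.im h0
  rw [green_A_re, green_A_re] at hre
  rw [green_A_im, green_A_im] at him
  have e1 : (x.re - y.re) * crs u v = 0 := by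
    have : (x.re - y.re) * crs u v = (x.re * u.re + x.im * v.re - (y.re * u.re + y.im * v.re)) * v.im
      - (x.re * u.im + x.im * v.im - (y.re * u.im + y.im * v.im)) * v.re := by simp only [crs]; ring
    rw [this, hre, him]; ring
  have e2 : (x.im - y.im) * crs u v = 0 := by
    have : (x.im - y.im) * crs u v = (x.re * u.im + x.im * v.im - (y.re * u.im + y.im * v.im)) * u.re
      - (x.re * u.re + x.im * v.re - (y.re * u.re + y.im * v.re)) * u.im := by simp only [crs]; ring
    rw [this, hre, him]; ring
  apply Complex.ext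
  · rcases mul_eq_zero.mp e1 with h1 | h1
    · linarith
    · linarith
  · rcases mul_eq_zero.mp e2 with h1 | h1
    · linarith
    · linarith

private lemma green_deriv (u v p x : ℂ) (s : Set ℂ) :
    HasFDerivWithinAt (fun x => p + green_A u v x) (green_A u v) s x :=
  ((green_A u v).hasFDerivAt.const_add p).hasFDerivWithinAt

theorem area_triS {p q w : ℂ} (h : 0 < crs (q - p) (w - p)) :
    volume (triS p q w) = ENNReal.ofReal (crs (q - p) (w - p) / 2) := by
  rw [green_image h, ← lintegral_abs_det_fderiv_eq_addHaar_image volume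
    green_Tstd_open.measurableSet (fun x _ => green_deriv (q - p) (w - p) p x Tstd) (green_inj h p)]
  rw [green_A_det, setLIntegral_const, Tstd_vol, abs_of_pos h, ← ENNReal.ofReal_mul h.le]
  congr 1
  ring

theorem green {f : ℂ → ℂ} (hf : ContDiff ℝ 1 f) (e : ℂ) {p q w : ℂ}
    (h : 0 < crs (q - p) (w - p)) :
    ∫ x in triS p q w, fderiv ℝ f x e = flx f e p q + flx f e q w + flx f e w p := by
  set g : ℂ → ℂ := fun x => f (p + green_A (q - p) (w - p) x) with hg
  have hgC : ContDiff ℝ 1 g := hf.comp (contDiff_const.add (green_A (q - p) (w - p)).contDiff)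
  have hfd : ∀ x, DifferentiableAt ℝ f x := fun x => (hf.differentiable (by norm_num)) x
  have hgd : ∀ x y, fderiv ℝ g x y =
      fderiv ℝ f (p + green_A (q - p) (w - p) x) (green_A (q - p) (w - p) y) := by
    intro x y
    have h1 : HasFDerivAt (fun x => p + green_A (q - p) (w - p) x) (green_A (q - p) (w - p)) x :=
      (green_A (q - p) (w - p)).hasFDerivAt.const_add p
    have h2 := (hfd (p + green_A (q - p) (w - p) x)).hasFDerivAt.comp x h1
    have h3 : HasFDerivAt g ((fderiv ℝ f (p + green_A (q - p) (w - p) x)).comp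
      (green_A (q - p) (w - p))) x := h2
    rw [h3.fderiv]
    rfl
  have hint : ∀ y : ℂ, IntegrableOn (fun x => fderiv ℝ g x y) Tstd volume := by
    intro y
    have hc : Continuous (fun x => fderiv ℝ g x y) :=
      (hgC.continuous_fderiv (by norm_num)).clm_apply continuous_const
    exact (hc.continuousOn.integrableOn_compact (isCompact_closedBall (0 : ℂ) 2)).mono_set
      green_Tstd_sub
  rw [green_image h, integral_image_eq_integral_abs_det_fderiv_smul volume
    green_Tstd_open.measurableSet (fun x _ => green_deriv (q - p) (w - p) p x Tstd) (green_inj h p)]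
  have hcr : ∀ x, |(green_A (q - p) (w - p)).det| • fderiv ℝ f (p + green_A (q - p) (w - p) x) e =
      (crs e (w - p)) • fderiv ℝ g x 1 + (crs (q - p) e) • fderiv ℝ g x I := by
    intro x
    rw [green_A_det, abs_of_pos h, hgd, hgd]
    set L := fderiv ℝ f (p + green_A (q - p) (w - p) x) with hL
    have e0 : (crs (q - p) (w - p)) • e = (crs e (w - p)) • green_A (q - p) (w - p) 1 +
        (crs (q - p) e) • green_A (q - p) (w - p) I := by
      apply Complex.ext
      · simp only [real_smul, add_re, mul_re, ofReal_re, ofReal_im, green_A_re, green_A_im, one_re, one_im, I_re,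
          I_im, crs, sub_re, sub_im]
        ring
      · simp only [real_smul, add_im, mul_im, ofReal_re, ofReal_im, green_A_re, green_A_im, one_re, one_im, I_re,
          I_im, crs, sub_re, sub_im]
        ring
    calc (crs (q - p) (w - p)) • L e = L ((crs (q - p) (w - p)) • e) := (map_smul L _ _).symm
      _ = L ((crs e (w - p)) • green_A (q - p) (w - p) 1 +
          (crs (q - p) e) • green_A (q - p) (w - p) I) := by rw [e0]
      _ = _ := by rw [map_add, map_smul, map_smul]
  simp only [hcr]
  have hadd : ∫ x in Tstd, ((crs e (w - p)) • fderiv ℝ g x 1 + (crs (q - p) e) • fderiv ℝ g x I) =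
      (∫ x in Tstd, (crs e (w - p)) • fderiv ℝ g x 1) +
        ∫ x in Tstd, (crs (q - p) e) • fderiv ℝ g x I := by
    apply integral_add
    · exact (hint 1).smul (crs e (w - p))
    · exact (hint I).smul (crs (q - p) e)
  rw [hadd, integral_smul, integral_smul, std_int1 hgC, std_int2 hgC]
  have hrev : ∀ k : ℝ → ℂ, ∫ t in (0 : ℝ)..1, k (1 - t) = ∫ t in (0 : ℝ)..1, k t := by
    intro k
    rw [intervalIntegral.integral_comp_sub_left (fun t => k t) 1]
    norm_num
  have i1 : (∫ t in (0 : ℝ)..1, g ⟨1 - t, t⟩) = ∫ t in (0 : ℝ)..1, f (q + (t : ℂ) * (w - q)) := by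
    congr 1
    funext t
    rw [hg]
    show f _ = f _
    congr 1
    rw [green_A_apply]
    push_cast
    ring
  have i2 : (∫ t in (0 : ℝ)..1, g ⟨0, t⟩) = ∫ t in (0 : ℝ)..1, f (w + (t : ℂ) * (p - w)) := by
    rw [← hrev (fun t => f (w + (t : ℂ) * (p - w)))]
    congr 1
    funext t
    rw [hg]
    show f _ = f _
    congr 1
    rw [green_A_apply]
    push_cast
    ring
  have i3 : (∫ t in (0 : ℝ)..1, g ⟨t, 1 - t⟩) = ∫ t in (0 : ℝ)..1, f (q + (t : ℂ) * (w - q)) := by
    rw [← hrev (fun t => f (q + (t : ℂ) * (w - q)))]
    congr 1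
    funext t
    rw [hg]
    show f _ = f _
    congr 1
    rw [green_A_apply]
    push_cast
    ring
  have i4 : (∫ t in (0 : ℝ)..1, g ⟨t, 0⟩) = ∫ t in (0 : ℝ)..1, f (p + (t : ℂ) * (q - p)) := by
    congr 1
    funext t
    rw [hg]
    show f _ = f _
    congr 1
    rw [green_A_apply]
    push_cast
    ring
  rw [i1, i2, i3, i4]
  unfold flx
  simp only [real_smul, crs, sub_re, sub_im]
  push_cast
  ring

end Pool.Agent.CAPS
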