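import Pool.Agent.Lib.MP_488b8a_co.Rot
import Pool.Agent.Lib.MP_488b8a_co.Green

/-! Project CAPS (MP_488b8a_co), module PsiI. -/

namespace Pool.Agent.CAPS

open Complex MeasureTheory

variable {n : ℕ} {z : Fin n → ℂ}

private theorem PsiI_crs_cont (a b : ℂ) : Continuous fun x : ℂ => crs a (x - b) := by
  unfold crs
  fun_prop

private theorem PsiI_open (h : HE n) : IsOpen (tri z h) := by
  have h1 : tri z h = {x | 0 < crs (z h.2.1 - z h.1) (x - z h.1)} ∩
      ({x | 0 < crs (z h.2.2 - z h.2.1) (x - z h.2.1)} ∩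
        {x | 0 < crs (z h.1 - z h.2.2) (x - z h.2.2)}) := rfl
  rw [h1]
  exact (isOpen_lt continuous_const (PsiI_crs_cont _ _)).inter
    ((isOpen_lt continuous_const (PsiI_crs_cont _ _)).inter
      (isOpen_lt continuous_const (PsiI_crs_cont _ _)))

theorem psi_int {g : ℂ → ℂ} (hg : Integrable g) :
    ∫ x, psi z x * g x = (1 / 3) * ∑ h ∈ Dset z, ph z h * ∫ x in tri z h, g x := by
  have hm : ∀ h : HE n, MeasurableSet (tri z h) := fun h => (PsiI_open h).measurableSet
  have h1 : ∀ x, psi z x * g x =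
      ∑ h ∈ Dset z, (1 / 3 : ℂ) * (ph z h * (tri z h).indicator g x) := by
    intro x
    rw [psi, mul_assoc, Finset.sum_mul, Finset.mul_sum]
    refine Finset.sum_congr rfl fun h _ => ?_
    by_cases hx : x ∈ tri z h
    · rw [Set.indicator_of_mem hx, Set.indicator_of_mem hx]
    · rw [Set.indicator_of_notMem hx, Set.indicator_of_notMem hx, zero_mul, mul_zero, mul_zero, mul_zero]
  simp only [h1]
  rw [integral_finsetSum _ fun h _ => ((hg.indicator (hm h)).const_mul _).const_mul _,
    Finset.mul_sum]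
  refine Finset.sum_congr rfl fun h _ => ?_
  rw [integral_const_mul, integral_const_mul, integral_indicator (hm h)]

/-- integration by parts -/
theorem psi_div {f : ℂ → ℂ} (hf : ContDiff ℝ 1 f) (hc : HasCompactSupport f) (e : ℂ) :
    ∫ x, psi z x * fderiv ℝ f x e = ∑ h ∈ Dset z, ph z h * flx f e (z h.1) (z h.2.1) := by
  have hcont : Continuous fun x => fderiv ℝ f x e :=
    (hf.continuous_fderiv (by norm_num)).clm_apply continuous_const
  have hint : Integrable fun x => fderiv ℝ f x e :=
    hcont.integrable_of_hasCompactSupport (hc.fderiv_apply ℝ e)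
  rw [psi_int hint]
  have h1 : ∀ h ∈ Dset z, ph z h * ∫ x in tri z h, fderiv ℝ f x e =
      ph z h * flx f e (z h.1) (z h.2.1) +
        (ph z (rot h) * flx f e (z (rot h).1) (z (rot h).2.1) +
          ph z (rot (rot h)) * flx f e (z (rot (rot h)).1) (z (rot (rot h)).2.1)) := by
    intro h hh
    rw [ph_rot (rot h), ph_rot h]
    have h2 := green hf e (mem_Dset.1 hh).1
    have h3 : ∫ x in tri z h, fderiv ℝ f x e = flx f e (z h.1) (z h.2.1) +
        flx f e (z h.2.1) (z h.2.2) + flx f e (z h.2.2) (z h.1) := h2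
    rw [h3]
    show _ = ph z h * flx f e (z h.1) (z h.2.1) + (ph z h * flx f e (z h.2.1) (z h.2.2) +
      ph z h * flx f e (z h.2.2) (z h.1))
    ring
  rw [Finset.sum_congr rfl h1, Finset.sum_add_distrib, Finset.sum_add_distrib]
  have h4 := sum_rot (z := z) fun h => ph z h * flx f e (z h.1) (z h.2.1)
  have h5 := sum_rot (z := z) fun h => ph z (rot h) * flx f e (z (rot h).1) (z (rot h).2.1)
  rw [h5, h4]
  ring

end Pool.Agent.CAPS
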