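import Pool.Agent.Lib.MP_488b8a_co.Sph

/-! Project CAPS (MP_488b8a_co), module Hull. -/

namespace Pool.Agent.CAPS

open Complex MeasureTheory

theorem hull_pts {n : ℕ} {z : Fin n → ℂ} {r : ℝ} (hC : Cov z r) (hr : 0 < r) (hr1 : r ≤ 1 / 100)
    (y : ℂ) (hy : ‖y‖ = 2) : ∃ l, ‖z l - y‖ ≤ 1 / 10 := by
  obtain ⟨l, hl⟩ := hC (sph y) (sph_norm y)
  refine ⟨l, ?_⟩
  have h1 : xx y (z l) ≤ r ^ 2 := by
    rw [← sph_dist, norm_sub_sq_real, sph_norm, sph_norm]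
    have h2 := Real.one_sub_sq_div_two_le_cos (x := r)
    linarith
  rw [xx, hy] at h1
  have h3 : (0 : ℝ) < (1 + 2 ^ 2) * (1 + ‖z l‖ ^ 2) := by positivity
  rw [div_le_iff₀ h3] at h1
  have h4 : ‖z l‖ ≤ 2 + ‖z l - y‖ := by
    have h5 := norm_add_le (z l - y) y
    rw [sub_add_cancel, hy] at h5
    linarith
  have h6 : ‖y - z l‖ = ‖z l - y‖ := norm_sub_rev _ _
  rw [h6] at h1
  have h7 : r ^ 2 ≤ 1 / 10000 := by nlinarith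
  have h8 : (0 : ℝ) ≤ ‖z l - y‖ := norm_nonneg _
  have h9 : ‖z l‖ ^ 2 ≤ 8 + 2 * ‖z l - y‖ ^ 2 := by
    have h10 := norm_nonneg (z l)
    nlinarith [sq_nonneg (‖z l - y‖ - 2)]
  have h11 : 4 * ‖z l - y‖ ^ 2 ≤ 1 / 10000 * ((1 + 2 ^ 2) * (1 + ‖z l‖ ^ 2)) :=
    h1.trans (mul_le_mul_of_nonneg_right h7 h3.le)
  have h12 : ‖z l - y‖ ^ 2 ≤ (1 / 10) ^ 2 := by nlinarith
  exact (abs_le_of_sq_le_sq' h12 (by norm_num)).2

end Pool.Agent.CAPS
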