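import Pool.Agent.Lib.MP_488b8a_co.Defs

/-! Project CAPS (MP_488b8a_co), module NonOv. -/

namespace Pool.Agent.CAPS

open Complex MeasureTheory

private theorem nonov_aff (p q w x c c' : ℂ) (a b : ℝ) :
    crs (q - p) (w - p) * ((‖x - c‖ ^ 2 - a) - (‖x - c'‖ ^ 2 - b)) =
      crs (w - q) (x - q) * ((‖p - c‖ ^ 2 - a) - (‖p - c'‖ ^ 2 - b)) +
      crs (p - w) (x - w) * ((‖q - c‖ ^ 2 - a) - (‖q - c'‖ ^ 2 - b)) +
      crs (q - p) (x - p) * ((‖w - c‖ ^ 2 - a) - (‖w - c'‖ ^ 2 - b)) := by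
  simp only [Complex.sq_norm, Complex.normSq_apply, crs, Complex.sub_re, Complex.sub_im]
  ring

/-- one half of the comparison: all vertices of the second triangle are vertices of the first -/
private theorem nonov_half {n : ℕ} {z : Fin n → ℂ} {h h' : HE n} (hD : Del z h)
    (hD' : Del z h') {x : ℂ} (hx : x ∈ tri z h) (hx' : x ∈ tri z h') (l : Fin n)
    (hl : l = h'.1 ∨ l = h'.2.1 ∨ l = h'.2.2) : l = h.1 ∨ l = h.2.1 ∨ l = h.2.2 := by
  obtain ⟨hp, c, q, h1, h2, h3, h4⟩ := hD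
  obtain ⟨hp', c', q', h1', h2', h3', h4'⟩ := hD'
  have hF : ∀ l, 0 ≤ ‖z l - c‖ ^ 2 - q := by
    intro l
    by_cases e1 : l = h.1
    · rw [e1, h1, sub_self]
    by_cases e2 : l = h.2.1
    · rw [e2, h2, sub_self]
    by_cases e3 : l = h.2.2
    · rw [e3, h3, sub_self]
    exact (sub_pos.mpr (h4 l e1 e2 e3)).le
  have hF' : ∀ l, 0 ≤ ‖z l - c'‖ ^ 2 - q' := by
    intro l
    by_cases e1 : l = h'.1
    · rw [e1, h1', sub_self]
    by_cases e2 : l = h'.2.1
    · rw [e2, h2', sub_self]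
    by_cases e3 : l = h'.2.2
    · rw [e3, h3', sub_self]
    exact (sub_pos.mpr (h4' l e1 e2 e3)).le
  obtain ⟨x1, x2, x3⟩ := hx
  obtain ⟨y1, y2, y3⟩ := hx'
  -- `F x ≤ F' x`
  have hle : (‖x - c‖ ^ 2 - q) - (‖x - c'‖ ^ 2 - q') ≤ 0 := by
    have key := nonov_aff (z h.1) (z h.2.1) (z h.2.2) x c c' q q'
    rw [h1, h2, h3] at key
    have k1 := mul_nonneg x2.le (hF' h.1)
    have k2 := mul_nonneg x3.le (hF' h.2.1)
    have k3 := mul_nonneg x1.le (hF' h.2.2)
    by_contra hcon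
    push Not at hcon
    have k4 := mul_pos hp hcon
    rw [key] at k4
    linarith
  have key := nonov_aff (z h'.1) (z h'.2.1) (z h'.2.2) x c c' q q'
  rw [h1', h2', h3'] at key
  have k0 := mul_nonneg hp'.le (neg_nonneg.mpr hle)
  have k1 := mul_nonneg y2.le (hF h'.1)
  have k2 := mul_nonneg y3.le (hF h'.2.1)
  have k3 := mul_nonneg y1.le (hF h'.2.2)
  have z1 : ‖z h'.1 - c‖ ^ 2 - q = 0 := by
    have : crs (z h'.2.2 - z h'.2.1) (x - z h'.2.1) * (‖z h'.1 - c‖ ^ 2 - q) = 0 := by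
      linarith
    rcases mul_eq_zero.mp this with h | h
    · exact absurd h y2.ne'
    · exact h
  have z2 : ‖z h'.2.1 - c‖ ^ 2 - q = 0 := by
    have : crs (z h'.1 - z h'.2.2) (x - z h'.2.2) * (‖z h'.2.1 - c‖ ^ 2 - q) = 0 := by
      linarith
    rcases mul_eq_zero.mp this with h | h
    · exact absurd h y3.ne'
    · exact h
  have z3 : ‖z h'.2.2 - c‖ ^ 2 - q = 0 := by
    have : crs (z h'.2.1 - z h'.1) (x - z h'.1) * (‖z h'.2.2 - c‖ ^ 2 - q) = 0 := by
      linarith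
    rcases mul_eq_zero.mp this with h | h
    · exact absurd h y1.ne'
    · exact h
  have zl : ‖z l - c‖ ^ 2 - q = 0 := by
    rcases hl with rfl | rfl | rfl
    · exact z1
    · exact z2
    · exact z3
  by_contra hcon
  push Not at hcon
  have := h4 l hcon.1 hcon.2.1 hcon.2.2
  linarith

theorem nonov {n : ℕ} {z : Fin n → ℂ} (hz : Function.Injective z) {h h' : HE n} (hD : Del z h)
    (hD' : Del z h') {x : ℂ} (hx : x ∈ tri z h) (hx' : x ∈ tri z h') :
    h' = h ∨ h' = rot h ∨ h' = rot (rot h) := by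
  have ha := nonov_half hD hD' hx hx' h'.1 (Or.inl rfl)
  have hb := nonov_half hD hD' hx hx' h'.2.1 (Or.inr (Or.inl rfl))
  have hc := nonov_half hD hD' hx hx' h'.2.2 (Or.inr (Or.inr rfl))
  have hp := hD.1
  have hp' := hD'.1
  obtain ⟨i, j, k⟩ := h
  obtain ⟨a, b, c⟩ := h'
  simp only [rot] at *
  clear hD hD' hx hx'
  rcases ha with rfl | rfl | rfl <;> rcases hb with rfl | rfl | rfl <;>
    rcases hc with rfl | rfl | rfl <;>
    first
    | exact Or.inl rfl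
    | exact Or.inr (Or.inl rfl)
    | exact Or.inr (Or.inr rfl)
    | (exfalso; simp only [crs, Complex.sub_re, Complex.sub_im] at hp hp'; nlinarith)

end Pool.Agent.CAPS
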