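import Pool.Agent.Lib.MP_488b8a_co.CoverP
import Pool.Agent.Lib.MP_488b8a_co.NonOv
import Pool.Agent.Lib.MP_488b8a_co.Rot
import Pool.Agent.Lib.MP_488b8a_co.Hull

/-! Project CAPS (MP_488b8a_co), module PsiN. -/

namespace Pool.Agent.CAPS

open Complex MeasureTheory

variable {n : ℕ} {z : Fin n → ℂ} {r : ℝ}

private lemma psiN_out {x : ℂ} (hx : ∀ h ∈ Dset z, x ∉ tri z h) : psi z x = 0 := by
  have h : ∑ h ∈ Dset z, (tri z h).indicator (fun _ => ph z h) x = 0 :=
    Finset.sum_eq_zero fun h hh => Set.indicator_of_notMem (hx h hh) _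
  rw [psi, h, mul_zero]

private lemma psiN_in (hG : GP z) {h : HE n} (hD : Del z h) {x : ℂ} (hx : x ∈ tri z h) :
    psi z x = ph z h := by
  classical
  obtain ⟨a1, a2, a3⟩ := Del_ne hD
  have b1 : h.1 ≠ h.2.1 := fun e => a1 (congrArg z e)
  have b2 : h.2.1 ≠ h.2.2 := fun e => a2 (congrArg z e)
  have b3 : h.2.2 ≠ h.1 := fun e => a3 (congrArg z e)
  have c1 : h ≠ rot h := fun e => b1 (congrArg Prod.fst e)
  have c2 : rot h ≠ rot (rot h) := fun e => b2 (congrArg Prod.fst e)
  have c3 : h ≠ rot (rot h) := fun e => b3 (congrArg Prod.fst e).symm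
  have hs : ∑ h' ∈ Dset z, (tri z h').indicator (fun _ => ph z h') x =
      ∑ h' ∈ ({h, rot h, rot (rot h)} : Finset (HE n)),
        (tri z h').indicator (fun _ => ph z h') x := by
    symm
    apply Finset.sum_subset
    · intro h' hh
      simp only [Finset.mem_insert, Finset.mem_singleton] at hh
      rw [mem_Dset]
      rcases hh with rfl | rfl | rfl
      · exact hD
      · exact Del_rot.2 hD
      · exact Del_rot.2 (Del_rot.2 hD)
    · intro h' hh hn
      apply Set.indicator_of_notMem
      intro hx'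
      apply hn
      simp only [Finset.mem_insert, Finset.mem_singleton]
      exact nonov hG.1 hD (mem_Dset.1 hh) hx hx'
  rw [psi, hs, Finset.sum_insert (by simp [c1, c3]), Finset.sum_insert (by simp [c2]),
    Finset.sum_singleton]
  have d1 : x ∈ tri z (rot h) := by rw [tri_rot]; exact hx
  have d2 : x ∈ tri z (rot (rot h)) := by rw [tri_rot]; exact d1
  rw [Set.indicator_of_mem hx, Set.indicator_of_mem d1, Set.indicator_of_mem d2,
    ph_rot (rot h), ph_rot h]
  ring

private lemma psiN_cont (a p : ℂ) : Continuous fun x : ℂ => crs a (x - p) := by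
  unfold crs
  fun_prop

private lemma psiN_open (h : HE n) : IsOpen (tri z h) := by
  unfold tri triS
  exact (isOpen_lt continuous_const (psiN_cont _ _)).inter
    ((isOpen_lt continuous_const (psiN_cont _ _)).inter
      (isOpen_lt continuous_const (psiN_cont _ _)))

private lemma psiN_line {a : ℂ} (ha : a ≠ 0) (p : ℂ) : ∀ᵐ x : ℂ, crs a (x - p) ≠ 0 := by
  let L : ℂ →ₗ[ℝ] ℝ := a.re • Complex.imLm - a.im • Complex.reLm
  have hL : ∀ x, L x = crs a x := fun x => by simp [L, crs]
  have h1 : LinearMap.ker L ≠ ⊤ := by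
    intro e
    have h2 : (I * a) ∈ LinearMap.ker L := by rw [e]; trivial
    rw [LinearMap.mem_ker, hL, crs] at h2
    apply ha
    have h3 : a.re * a.re + a.im * a.im = 0 := by simpa using h2
    apply Complex.ext
    · simp only [Complex.zero_re]; nlinarith [mul_self_nonneg a.re, mul_self_nonneg a.im]
    · simp only [Complex.zero_im]; nlinarith [mul_self_nonneg a.re, mul_self_nonneg a.im]
  have h2 := Measure.addHaar_submodule (volume : Measure ℂ) _ h1
  have h3 : ∀ᵐ x : ℂ, crs a x ≠ 0 := by
    rw [measure_eq_zero_iff_ae_notMem] at h2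
    filter_upwards [h2] with x hx hx'
    apply hx
    rw [SetLike.mem_coe, LinearMap.mem_ker, hL, hx']
  exact (measurePreserving_sub_right (volume : Measure ℂ) p).quasiMeasurePreserving.ae h3

private lemma psiN_gen (hz : Function.Injective z) :
    ∀ᵐ x : ℂ, ∀ i j, i ≠ j → crs (z j - z i) (x - z i) ≠ 0 := by
  rw [ae_all_iff]
  intro i
  rw [ae_all_iff]
  intro j
  by_cases hij : i = j
  · exact Filter.Eventually.of_forall fun x h => absurd hij h
  · filter_upwards [psiN_line (sub_ne_zero.2 fun e => hij (hz e.symm)) (z i)] with x hx _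
    exact hx

private lemma psiN_cat {h : HE n} (hD : Del z h) (c : ℂ) {x : ℂ}
    (hx : ∀ i j, i ≠ j → crs (z j - z i) (x - z i) ≠ 0) :
    ContinuousAt ((tri z h).indicator (fun _ => c)) x := by
  obtain ⟨a1, a2, a3⟩ := Del_ne hD
  have b1 : h.1 ≠ h.2.1 := fun e => a1 (congrArg z e)
  have b2 : h.2.1 ≠ h.2.2 := fun e => a2 (congrArg z e)
  have b3 : h.2.2 ≠ h.1 := fun e => a3 (congrArg z e)
  by_cases hm : x ∈ tri z h
  · refine (continuousAt_const (y := c)).congr ?_
    filter_upwards [(psiN_open h).mem_nhds hm] with y hy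
    rw [Set.indicator_of_mem hy]
  · have key : ∃ a p : ℂ, crs a (x - p) < 0 ∧ ∀ y ∈ tri z h, 0 < crs a (y - p) := by
      by_contra hcon
      push Not at hcon
      apply hm
      refine ⟨?_, ?_, ?_⟩
      · rcases lt_trichotomy (crs (z h.2.1 - z h.1) (x - z h.1)) 0 with e | e | e
        · obtain ⟨y, hy, hy2⟩ := hcon _ _ e
          exact absurd hy.1 (not_lt.2 hy2)
        · exact absurd e (hx _ _ b1)
        · exact e
      · rcases lt_trichotomy (crs (z h.2.2 - z h.2.1) (x - z h.2.1)) 0 with e | e | e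
        · obtain ⟨y, hy, hy2⟩ := hcon _ _ e
          exact absurd hy.2.1 (not_lt.2 hy2)
        · exact absurd e (hx _ _ b2)
        · exact e
      · rcases lt_trichotomy (crs (z h.1 - z h.2.2) (x - z h.2.2)) 0 with e | e | e
        · obtain ⟨y, hy, hy2⟩ := hcon _ _ e
          exact absurd hy.2.2 (not_lt.2 hy2)
        · exact absurd e (hx _ _ b3)
        · exact e
    obtain ⟨a, p, h1, h2⟩ := key
    refine (continuousAt_const (y := (0 : ℂ))).congr ?_
    have h3 : ∀ᶠ y in nhds x, crs a (y - p) < 0 :=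
      (psiN_cont a p).continuousAt.eventually (gt_mem_nhds h1)
    filter_upwards [h3] with y hy
    rw [Set.indicator_of_notMem fun hy2 => absurd (h2 y hy2) (not_lt.2 hy.le)]

theorem psi_nice (hG : GP z) (hC : Cov z r) (hr : 0 < r) (hr1 : r ≤ 1 / 100) : Nice (psi z) := by
  have hgen := psiN_gen hG.1
  refine ⟨?_, ?_, ?_, ?_⟩
  · unfold psi
    refine Measurable.const_mul ?_ _
    refine Finset.measurable_sum _ fun h _ => ?_
    exact measurable_const.indicator (psiN_open h).measurableSet
  · intro x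
    by_cases h : ∃ h ∈ Dset z, x ∈ tri z h
    · obtain ⟨h, hh, hx⟩ := h
      rw [psiN_in hG (mem_Dset.1 hh) hx, ph_norm (mem_Dset.1 hh)]
    · push Not at h
      rw [psiN_out h, norm_zero]
      exact zero_le_one
  · filter_upwards [hgen] with x hx hx2
    obtain ⟨h, hD, hm⟩ := coverP hG (hull_pts hC hr hr1) (by linarith : ‖x‖ ≤ 5 / 8) hx
    rw [psiN_in hG hD hm, ph_norm hD]
  · filter_upwards [hgen] with x hx
    unfold psi
    refine continuousAt_const.mul ?_
    exact tendsto_finsetSum _ fun h hh => psiN_cat (mem_Dset.1 hh) _ hx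

end Pool.Agent.CAPS
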