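import Pool.Agent.Lib.MP_488b8a_co.Defs

/-! Project CAPS (MP_488b8a_co), module LgT. -/

namespace Pool.Agent.CAPS

open Complex MeasureTheory

namespace LgT

/-- the real inner product -/
private def dot (a b : ℂ) : ℝ := a.re * b.re + a.im * b.im

private theorem dot_abs_le (a b : ℂ) : |dot a b| ≤ ‖a‖ * ‖b‖ := by
  have h1 : dot a b = ((starRingEnd ℂ) a * b).re := by
    simp [dot, Complex.mul_re]
  rw [h1]
  calc |((starRingEnd ℂ) a * b).re| ≤ ‖(starRingEnd ℂ) a * b‖ := Complex.abs_re_le_norm _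
    _ = ‖a‖ * ‖b‖ := by rw [norm_mul, Complex.norm_conj]

private theorem crs_abs_le (a b : ℂ) : |crs a b| ≤ ‖a‖ * ‖b‖ := by
  have h1 : crs a b = ((starRingEnd ℂ) a * b).im := by
    simp [crs, Complex.mul_im]
    ring
  rw [h1]
  calc |((starRingEnd ℂ) a * b).im| ≤ ‖(starRingEnd ℂ) a * b‖ := Complex.abs_im_le_norm _
    _ = ‖a‖ * ‖b‖ := by rw [norm_mul, Complex.norm_conj]

/-- the gradient of `lg` -/
private noncomputable def grd (y : ℂ) : ℂ := ((2 / (1 + ‖y‖ ^ 2) : ℝ) : ℂ) * y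

private theorem grd_norm_le (y : ℂ) : ‖grd y‖ ≤ 1 := by
  unfold grd
  rw [norm_mul, Complex.norm_real, Real.norm_of_nonneg (by positivity), div_mul_eq_mul_div,
    div_le_one (by positivity)]
  nlinarith [sq_nonneg (‖y‖ - 1)]

private theorem grd_lip (x y : ℂ) : ‖grd x - grd y‖ ≤ 4 * ‖x - y‖ := by
  have hx : (0 : ℝ) < 1 + ‖x‖ ^ 2 := by positivity
  have hy : (0 : ℝ) < 1 + ‖y‖ ^ 2 := by positivity
  have e1 : grd x - grd y = ((2 / (1 + ‖x‖ ^ 2) : ℝ) : ℂ) * (x - y) +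
      ((2 * (‖y‖ ^ 2 - ‖x‖ ^ 2) / ((1 + ‖x‖ ^ 2) * (1 + ‖y‖ ^ 2)) : ℝ) : ℂ) * y := by
    have e2 : 2 * (‖y‖ ^ 2 - ‖x‖ ^ 2) / ((1 + ‖x‖ ^ 2) * (1 + ‖y‖ ^ 2)) =
        2 / (1 + ‖x‖ ^ 2) - 2 / (1 + ‖y‖ ^ 2) := by
      field_simp
      ring
    rw [e2]
    unfold grd
    push_cast
    ring
  rw [e1]
  have h1 : ‖((2 / (1 + ‖x‖ ^ 2) : ℝ) : ℂ) * (x - y)‖ ≤ 2 * ‖x - y‖ := by
    rw [norm_mul, Complex.norm_real, Real.norm_of_nonneg (by positivity)]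
    refine mul_le_mul_of_nonneg_right ?_ (norm_nonneg _)
    rw [div_le_iff₀ hx]
    nlinarith [sq_nonneg ‖x‖]
  have h2 : ‖((2 * (‖y‖ ^ 2 - ‖x‖ ^ 2) / ((1 + ‖x‖ ^ 2) * (1 + ‖y‖ ^ 2)) : ℝ) : ℂ) * y‖ ≤
      2 * ‖x - y‖ := by
    rw [norm_mul, Complex.norm_real, Real.norm_eq_abs, abs_div, abs_of_pos (mul_pos hx hy),
      abs_mul, abs_of_pos (two_pos : (0 : ℝ) < 2), div_mul_eq_mul_div,
      div_le_iff₀ (mul_pos hx hy)]
    have h3 : |‖y‖ ^ 2 - ‖x‖ ^ 2| ≤ ‖x - y‖ * (‖y‖ + ‖x‖) := by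
      have : ‖y‖ ^ 2 - ‖x‖ ^ 2 = (‖y‖ - ‖x‖) * (‖y‖ + ‖x‖) := by ring
      rw [this, abs_mul, abs_of_nonneg (by positivity : (0 : ℝ) ≤ ‖y‖ + ‖x‖)]
      refine mul_le_mul_of_nonneg_right ?_ (by positivity)
      have h4 := abs_norm_sub_norm_le y x
      rwa [norm_sub_rev] at h4
    have h5 : (‖y‖ + ‖x‖) * ‖y‖ ≤ (1 + ‖x‖ ^ 2) * (1 + ‖y‖ ^ 2) := by
      nlinarith [sq_nonneg (‖x‖ * ‖y‖ - 1), sq_nonneg ‖x‖, norm_nonneg x, norm_nonneg y,
        mul_nonneg (norm_nonneg x) (norm_nonneg y)]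
    calc 2 * |‖y‖ ^ 2 - ‖x‖ ^ 2| * ‖y‖ ≤ 2 * (‖x - y‖ * (‖y‖ + ‖x‖)) * ‖y‖ :=
          mul_le_mul_of_nonneg_right (mul_le_mul_of_nonneg_left h3 two_pos.le) (norm_nonneg _)
      _ = 2 * ‖x - y‖ * ((‖y‖ + ‖x‖) * ‖y‖) := by ring
      _ ≤ 2 * ‖x - y‖ * ((1 + ‖x‖ ^ 2) * (1 + ‖y‖ ^ 2)) :=
          mul_le_mul_of_nonneg_left h5 (by positivity)
  calc _ ≤ 2 * ‖x - y‖ + 2 * ‖x - y‖ := le_trans (norm_add_le _ _) (add_le_add h1 h2)
    _ = _ := by ring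

private theorem dot_grd (y v : ℂ) : dot (grd y) v = 2 * dot y v / (1 + ‖y‖ ^ 2) := by
  unfold dot grd
  rw [Complex.re_ofReal_mul, Complex.im_ofReal_mul]
  ring

private theorem crs_grd (x e : ℂ) : crs (grd x) e = AA e x := by
  unfold crs grd AA crs
  rw [Complex.re_ofReal_mul, Complex.im_ofReal_mul]
  ring

private theorem crs_sub (a b e : ℂ) : crs (a - b) e = crs a e - crs b e := by
  unfold crs
  rw [Complex.sub_re, Complex.sub_im]
  ring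

private theorem dot_sub (a b e : ℂ) : dot (a - b) e = dot a e - dot b e := by
  unfold dot
  rw [Complex.sub_re, Complex.sub_im]
  ring

/-- the mean value theorem for `lg` on the segment from `q` to `p` -/
private theorem mvt (p q : ℂ) : ∃ t : ℝ, 0 < t ∧ t < 1 ∧
    lg p - lg q = dot (grd (q + (t : ℂ) * (p - q))) (p - q) := by
  have hsq : ∀ t : ℝ, ‖q + (t : ℂ) * (p - q)‖ ^ 2 =
      (q.re + t * (p - q).re) ^ 2 + (q.im + t * (p - q).im) ^ 2 := by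
    intro t
    rw [← Complex.normSq_eq_norm_sq, Complex.normSq_apply, Complex.add_re, Complex.add_im,
      Complex.re_ofReal_mul, Complex.im_ofReal_mul]
    ring
  have hpos : ∀ t : ℝ, 0 < 1 + ((q.re + t * (p - q).re) ^ 2 + (q.im + t * (p - q).im) ^ 2) := by
    intro t
    positivity
  have hder : ∀ t : ℝ, HasDerivAt (fun t : ℝ => lg (q + (t : ℂ) * (p - q)))
      (dot (grd (q + (t : ℂ) * (p - q))) (p - q)) t := by
    intro t
    have h1 : HasDerivAt (fun t : ℝ => 1 + ((q.re + t * (p - q).re) ^ 2 +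
        (q.im + t * (p - q).im) ^ 2))
        (2 * (q.re + t * (p - q).re) * (p - q).re + 2 * (q.im + t * (p - q).im) * (p - q).im)
        t := by
      have h2 : HasDerivAt (fun t : ℝ => q.re + t * (p - q).re) ((p - q).re) t := by
        simpa using ((hasDerivAt_id t).mul_const ((p - q).re)).const_add q.re
      have h3 : HasDerivAt (fun t : ℝ => q.im + t * (p - q).im) ((p - q).im) t := by
        simpa using ((hasDerivAt_id t).mul_const ((p - q).im)).const_add q.im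
      have h4 := ((h2.pow 2).add (h3.pow 2)).const_add 1
      refine h4.congr_deriv ?_
      norm_num
    have h5 := h1.log (hpos t).ne'
    have h6 : (fun t : ℝ => lg (q + (t : ℂ) * (p - q))) =
        fun t : ℝ => Real.log (1 + ((q.re + t * (p - q).re) ^ 2 +
          (q.im + t * (p - q).im) ^ 2)) := by
      funext t
      unfold lg
      rw [hsq t]
    rw [h6]
    refine h5.congr_deriv ?_
    rw [dot_grd, hsq t]
    unfold dot
    rw [Complex.add_re, Complex.add_im, Complex.re_ofReal_mul, Complex.im_ofReal_mul]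
    ring
  obtain ⟨t, ht, hs⟩ := exists_hasDerivAt_eq_slope (fun t : ℝ => lg (q + (t : ℂ) * (p - q)))
    (fun t : ℝ => dot (grd (q + (t : ℂ) * (p - q))) (p - q)) one_pos
    (fun t _ => (hder t).continuousAt.continuousWithinAt) (fun t _ => hder t)
  refine ⟨t, ht.1, ht.2, ?_⟩
  simp only [Complex.ofReal_one, Complex.ofReal_zero, one_mul, zero_mul, add_zero, sub_zero,
    div_one, add_sub_cancel] at hs
  exact hs.symm

end LgT

open LgT

theorem lg_lip (p q : ℂ) : |lg p - lg q| ≤ ‖p - q‖ := by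
  obtain ⟨t, -, -, h⟩ := LgT.mvt p q
  rw [h]
  calc _ ≤ ‖LgT.grd (q + (t : ℂ) * (p - q))‖ * ‖p - q‖ := LgT.dot_abs_le _ _
    _ ≤ 1 * ‖p - q‖ := mul_le_mul_of_nonneg_right (LgT.grd_norm_le _) (norm_nonneg _)
    _ = _ := one_mul _

theorem lg_taylor {x₀ p q : ℂ} {δ : ℝ} (hp : ‖p - x₀‖ ≤ δ) (hq : ‖q - x₀‖ ≤ δ) :
    |(lg p - lg q) - 2 * (x₀.re * (p - q).re + x₀.im * (p - q).im) / (1 + ‖x₀‖ ^ 2)| ≤
      10 * δ * ‖p - q‖ := by
  obtain ⟨t, h0, h1, h⟩ := LgT.mvt p q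
  have hδ : 0 ≤ δ := le_trans (norm_nonneg _) hp
  have e1 : 2 * (x₀.re * (p - q).re + x₀.im * (p - q).im) / (1 + ‖x₀‖ ^ 2) =
      LgT.dot (LgT.grd x₀) (p - q) := by
    rw [LgT.dot_grd]
    rfl
  rw [h, e1, ← LgT.dot_sub]
  have h2 : ‖q + (t : ℂ) * (p - q) - x₀‖ ≤ δ := by
    have e2 : q + (t : ℂ) * (p - q) - x₀ = ((1 - t : ℝ) : ℂ) * (q - x₀) + (t : ℂ) * (p - x₀) := by
      push_cast
      ring
    rw [e2]
    calc _ ≤ ‖((1 - t : ℝ) : ℂ) * (q - x₀)‖ + ‖(t : ℂ) * (p - x₀)‖ := norm_add_le _ _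
      _ = (1 - t) * ‖q - x₀‖ + t * ‖p - x₀‖ := by
          rw [norm_mul, norm_mul, Complex.norm_real, Complex.norm_real,
            Real.norm_of_nonneg (by linarith), Real.norm_of_nonneg h0.le]
      _ ≤ (1 - t) * δ + t * δ := by
          refine add_le_add ?_ ?_
          · exact mul_le_mul_of_nonneg_left hq (by linarith)
          · exact mul_le_mul_of_nonneg_left hp h0.le
      _ = δ := by ring
  calc _ ≤ ‖LgT.grd (q + (t : ℂ) * (p - q)) - LgT.grd x₀‖ * ‖p - q‖ := LgT.dot_abs_le _ _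
    _ ≤ (4 * ‖q + (t : ℂ) * (p - q) - x₀‖) * ‖p - q‖ :=
        mul_le_mul_of_nonneg_right (LgT.grd_lip _ _) (norm_nonneg _)
    _ ≤ (4 * δ) * ‖p - q‖ :=
        mul_le_mul_of_nonneg_right (mul_le_mul_of_nonneg_left h2 (by norm_num)) (norm_nonneg _)
    _ ≤ 10 * δ * ‖p - q‖ :=
        mul_le_mul_of_nonneg_right (by linarith) (norm_nonneg _)

theorem AA_le {e : ℂ} (he : ‖e‖ ≤ 1) (x : ℂ) : |AA e x| ≤ 1 := by
  rw [← LgT.crs_grd]
  calc _ ≤ ‖LgT.grd x‖ * ‖e‖ := LgT.crs_abs_le _ _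
    _ ≤ 1 * 1 := mul_le_mul (LgT.grd_norm_le x) he (norm_nonneg _) zero_le_one
    _ = 1 := one_mul 1

theorem AA_lip {e : ℂ} (he : ‖e‖ ≤ 1) (x y : ℂ) : |AA e x - AA e y| ≤ 10 * ‖x - y‖ := by
  rw [← LgT.crs_grd, ← LgT.crs_grd, ← LgT.crs_sub]
  calc _ ≤ ‖LgT.grd x - LgT.grd y‖ * ‖e‖ := LgT.crs_abs_le _ _
    _ ≤ (4 * ‖x - y‖) * 1 :=
        mul_le_mul (LgT.grd_lip x y) he (norm_nonneg _) (by positivity)
    _ ≤ 10 * ‖x - y‖ := by nlinarith [norm_nonneg (x - y)]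

end Pool.Agent.CAPS
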