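import Pool.Agent.Lib.MP_488b8a_co.Cap

/-! Project CAPS (MP_488b8a_co), module NearR. -/

namespace Pool.Agent.CAPS

open Complex MeasureTheory

variable {n : ℕ} {z : Fin n → ℂ} {r : ℝ}

private lemma xx_to {x v : ℂ} {r : ℝ} (hr : 0 < r) (hr1 : r ≤ 1 / 100)
    (h : xx x v ≤ 4 * Real.sin r ^ 2) :
    ‖x - v‖ ^ 2 ≤ r ^ 2 * ((1 + ‖x‖ ^ 2) * (1 + ‖v‖ ^ 2)) := by
  have hsin0 : 0 < Real.sin r := Real.sin_pos_of_pos_of_lt_pi hr (by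
    have := Real.pi_gt_three; linarith)
  have hsin : Real.sin r ^ 2 ≤ r ^ 2 := pow_le_pow_left₀ hsin0.le (Real.sin_le hr.le) 2
  have hp : 0 < (1 + ‖x‖ ^ 2) * (1 + ‖v‖ ^ 2) := by positivity
  unfold xx at h
  rw [div_le_iff₀ hp] at h
  nlinarith

private lemma kpt {x v : ℂ} {r : ℝ} (hr : 0 < r) (hr1 : r ≤ 1 / 100) (hx : ‖x‖ ≤ 5 / 8)
    (h : xx x v ≤ 4 * Real.sin r ^ 2) : ‖v‖ ≤ 3 / 4 ∧ ‖v - x‖ ≤ 2 * r := by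
  have h1 := xx_to hr hr1 h
  set D := ‖x - v‖ with hD
  have hD0 : 0 ≤ D := norm_nonneg _
  have hv : ‖v‖ ≤ 5 / 8 + D := by
    have : ‖v‖ ≤ ‖x‖ + ‖x - v‖ := by
      calc ‖v‖ = ‖x - (x - v)‖ := by congr 1; ring
        _ ≤ ‖x‖ + ‖x - v‖ := norm_sub_le _ _
    linarith
  have hx0 := norm_nonneg x
  have hv0 := norm_nonneg v
  have hx2 : 1 + ‖x‖ ^ 2 ≤ 89 / 64 := by nlinarith
  have hv2 : 1 + ‖v‖ ^ 2 ≤ 1 + (5 / 8 + D) ^ 2 := by nlinarith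
  have hr2 : r ^ 2 ≤ 1 / 10000 := by nlinarith
  have h2 : (1 + ‖x‖ ^ 2) * (1 + ‖v‖ ^ 2) ≤ 89 / 64 * (1 + (5 / 8 + D) ^ 2) :=
    mul_le_mul hx2 hv2 (by positivity) (by norm_num)
  have h3 : D ^ 2 ≤ r ^ 2 * (89 / 64 * (1 + (5 / 8 + D) ^ 2)) :=
    h1.trans (mul_le_mul_of_nonneg_left h2 (sq_nonneg r))
  have h4 : D ^ 2 ≤ 1 / 10000 * (89 / 64 * (1 + (5 / 8 + D) ^ 2)) :=
    h3.trans (mul_le_mul_of_nonneg_right hr2 (by positivity))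
  have h5 : D ≤ 1 / 50 := by
    by_contra hn
    push Not at hn
    nlinarith
  have h6 : (1 + (5 / 8 + D) ^ 2) ≤ 3 / 2 := by nlinarith
  refine ⟨by linarith, ?_⟩
  rw [norm_sub_rev, ← hD]
  apply le_of_sq_le_sq _ (by positivity)
  have h7 : r ^ 2 * (89 / 64 * (1 + (5 / 8 + D) ^ 2)) ≤ r ^ 2 * (89 / 64 * (3 / 2)) :=
    mul_le_mul_of_nonneg_left (mul_le_mul_of_nonneg_left h6 (by norm_num)) (sq_nonneg r)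
  nlinarith [sq_nonneg r]

private lemma klen {x v : ℂ} {r : ℝ} (hr : 0 < r) (hr1 : r ≤ 1 / 100) (hx : ‖x‖ ≤ 3 / 4)
    (hv : ‖v‖ ≤ 3 / 4) (h : xx x v ≤ 4 * Real.sin r ^ 2) : ‖x - v‖ ≤ 2 * r := by
  have h1 := xx_to hr hr1 h
  have hx0 := norm_nonneg x
  have hv0 := norm_nonneg v
  have hx2 : 1 + ‖x‖ ^ 2 ≤ 25 / 16 := by nlinarith
  have hv2 : 1 + ‖v‖ ^ 2 ≤ 25 / 16 := by nlinarith
  have h2 : (1 + ‖x‖ ^ 2) * (1 + ‖v‖ ^ 2) ≤ 25 / 16 * (25 / 16) :=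
    mul_le_mul hx2 hv2 (by positivity) (by norm_num)
  apply le_of_sq_le_sq _ (by positivity)
  have h3 : r ^ 2 * ((1 + ‖x‖ ^ 2) * (1 + ‖v‖ ^ 2)) ≤ r ^ 2 * (25 / 16 * (25 / 16)) :=
    mul_le_mul_of_nonneg_left h2 (sq_nonneg r)
  nlinarith [sq_nonneg r]

private lemma del_data {h : HE n} (hD : Del z h) : ∃ (c : ℂ) (q : ℝ), 0 ≤ q ∧
    (∀ l, q ≤ ‖z l - c‖ ^ 2) ∧ ‖z h.1 - c‖ ^ 2 = q ∧ ‖z h.2.1 - c‖ ^ 2 = q ∧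
    ‖z h.2.2 - c‖ ^ 2 = q := by
  obtain ⟨_, c, q, h1, h2, h3, h4⟩ := hD
  refine ⟨c, q, by rw [← h1]; positivity, ?_, h1, h2, h3⟩
  intro l
  by_cases e1 : l = h.1
  · rw [e1, h1]
  by_cases e2 : l = h.2.1
  · rw [e2, h2]
  by_cases e3 : l = h.2.2
  · rw [e3, h3]
  exact (h4 l e1 e2 e3).le

theorem near_pts (hC : Cov z r) (hr : 0 < r) (hr1 : r ≤ 1 / 100) {h : HE n} (hD : Del z h)
    {x : ℂ} (hx : x ∈ convexHull ℝ {z h.1, z h.2.1, z h.2.2}) (hx5 : ‖x‖ ≤ 5 / 8) :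
    Near z h ∧ ‖z h.1 - x‖ ≤ 2 * r ∧ ‖z h.2.1 - x‖ ≤ 2 * r ∧ ‖z h.2.2 - x‖ ≤ 2 * r := by
  obtain ⟨c, q, hq, he, h1, h2, h3⟩ := del_data hD
  have hball : ∀ w : ℂ, w ∈ Metric.closedBall c (Real.sqrt q) ↔ ‖w - c‖ ^ 2 ≤ q := by
    intro w
    rw [Metric.mem_closedBall, dist_eq_norm, Real.le_sqrt (norm_nonneg _) hq]
  have hxb : ‖x - c‖ ^ 2 ≤ q := by
    rw [← hball]
    refine convexHull_min ?_ (convex_closedBall c (Real.sqrt q)) hx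
    intro w hw
    rw [hball]
    rcases hw with rfl | rfl | rfl
    · exact h1.le
    · exact h2.le
    · exact h3.le
  have hr1' : r ≤ 1 := by linarith
  obtain ⟨a1, b1⟩ := kpt hr hr1 hx5 (cap_two hC hr hr1' hq he hxb h1.le)
  obtain ⟨a2, b2⟩ := kpt hr hr1 hx5 (cap_two hC hr hr1' hq he hxb h2.le)
  obtain ⟨a3, b3⟩ := kpt hr hr1 hx5 (cap_two hC hr hr1' hq he hxb h3.le)
  exact ⟨⟨hD, a1, a2, a3⟩, b1, b2, b3⟩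

theorem near_len (hC : Cov z r) (hr : 0 < r) (hr1 : r ≤ 1 / 100) {h : HE n} (hN : Near z h) :
    ‖z h.1 - z h.2.1‖ ≤ 2 * r ∧ ‖z h.2.1 - z h.2.2‖ ≤ 2 * r ∧ ‖z h.2.2 - z h.1‖ ≤ 2 * r := by
  obtain ⟨hD, n1, n2, n3⟩ := hN
  obtain ⟨c, q, hq, he, h1, h2, h3⟩ := del_data hD
  have hr1' : r ≤ 1 := by linarith
  exact ⟨klen hr hr1 n1 n2 (cap_two hC hr hr1' hq he h1.le h2.le),
    klen hr hr1 n2 n3 (cap_two hC hr hr1' hq he h2.le h3.le),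
    klen hr hr1 n3 n1 (cap_two hC hr hr1' hq he h3.le h1.le)⟩

end Pool.Agent.CAPS
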