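import Pool.Agent.Lib.MP_488b8a_co.Defs

/-! Project CAPS (MP_488b8a_co), module Sph. -/

namespace Pool.Agent.CAPS

open Complex MeasureTheory

private theorem Sph_nsq (z : ℂ) : ‖z‖ ^ 2 = z.re ^ 2 + z.im ^ 2 := by
  rw [Complex.sq_norm, Complex.normSq_apply]
  ring

theorem sph_norm (z : ℂ) : ‖sph z‖ = 1 := by
  have h0 : (1 : ℝ) + ‖z‖ ^ 2 ≠ 0 := by positivity
  rw [EuclideanSpace.norm_eq, Fin.sum_univ_three]
  have h1 : ‖(sph z) 0‖ ^ 2 + ‖(sph z) 1‖ ^ 2 + ‖(sph z) 2‖ ^ 2 = 1 := by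
    simp only [Real.norm_eq_abs, sq_abs]
    have e0 : (sph z) 0 = 2 * z.re / (1 + ‖z‖ ^ 2) := rfl
    have e1 : (sph z) 1 = 2 * z.im / (1 + ‖z‖ ^ 2) := rfl
    have e2 : (sph z) 2 = (1 - ‖z‖ ^ 2) / (1 + ‖z‖ ^ 2) := rfl
    rw [e0, e1, e2]
    field_simp
    rw [Sph_nsq]
    ring
  rw [h1, Real.sqrt_one]

theorem sph_dist (z w : ℂ) : ‖sph z - sph w‖ ^ 2 = xx z w := by
  have h0 : (1 : ℝ) + ‖z‖ ^ 2 ≠ 0 := by positivity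
  have h0' : (1 : ℝ) + ‖w‖ ^ 2 ≠ 0 := by positivity
  rw [EuclideanSpace.norm_eq, Fin.sum_univ_three, Real.sq_sqrt (by positivity)]
  simp only [Real.norm_eq_abs, sq_abs]
  have e0 : (sph z - sph w) 0 = 2 * z.re / (1 + ‖z‖ ^ 2) - 2 * w.re / (1 + ‖w‖ ^ 2) := rfl
  have e1 : (sph z - sph w) 1 = 2 * z.im / (1 + ‖z‖ ^ 2) - 2 * w.im / (1 + ‖w‖ ^ 2) := rfl
  have e2 : (sph z - sph w) 2 = (1 - ‖z‖ ^ 2) / (1 + ‖z‖ ^ 2) - (1 - ‖w‖ ^ 2) / (1 + ‖w‖ ^ 2) :=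
    rfl
  have e3 : ‖z - w‖ ^ 2 = ‖z‖ ^ 2 + ‖w‖ ^ 2 - 2 * (z.re * w.re + z.im * w.im) := by
    rw [Sph_nsq, Sph_nsq, Sph_nsq, Complex.sub_re, Complex.sub_im]
    ring
  rw [e0, e1, e2, xx, e3]
  have hz := Sph_nsq z
  have hw := Sph_nsq w
  generalize ‖z‖ ^ 2 = s at *
  generalize ‖w‖ ^ 2 = t at *
  subst hz
  subst hw
  field_simp
  ring

theorem xx_nonneg (z w : ℂ) : 0 ≤ xx z w := by
  rw [xx]
  positivity

private theorem Sph_xx_pos {z w : ℂ} (h : z ≠ w) : 0 < xx z w := by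
  have h1 : 0 < ‖z - w‖ := norm_pos_iff.2 (sub_ne_zero.2 h)
  rw [xx]
  positivity

theorem log_norm_sub {z w : ℂ} (h : z ≠ w) :
    Real.log ‖z - w‖ = 1 / 2 * Real.log (xx z w) - Real.log 2 + 1 / 2 * lg z + 1 / 2 * lg w := by
  have h1 : 0 < ‖z - w‖ := norm_pos_iff.2 (sub_ne_zero.2 h)
  have h2 : (0 : ℝ) < 1 + ‖z‖ ^ 2 := by positivity
  have h3 : (0 : ℝ) < 1 + ‖w‖ ^ 2 := by positivity
  have h4 : Real.log 4 = 2 * Real.log 2 := by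
    rw [show (4 : ℝ) = 2 ^ 2 by norm_num, Real.log_pow]
    norm_num
  rw [xx, Real.log_div (by positivity) (by positivity), Real.log_mul (by norm_num) (by positivity),
    Real.log_mul h2.ne' h3.ne', Real.log_pow, h4, lg, lg]
  push_cast
  ring

theorem gg_eq {n : ℕ} {z : Fin n → ℂ} {r : ℝ} (hr : 0 < Real.sin r) {h : HE n}
    (h1 : z h.1 ≠ z h.2.2) (h2 : z h.2.1 ≠ z h.2.2) :
    gg z h = (uu r (z h.1) (z h.2.2) - uu r (z h.2.1) (z h.2.2)) +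
      1 / 2 * (lg (z h.1) - lg (z h.2.1)) := by
  have h3 := Sph_xx_pos h1
  have h4 := Sph_xx_pos h2
  have h5 : 3 * Real.sin r ^ 2 ≠ 0 := by positivity
  rw [gg, log_norm_sub h1, log_norm_sub h2, uu, uu, Real.log_div h3.ne' h5,
    Real.log_div h4.ne' h5]
  ring

end Pool.Agent.CAPS
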