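import Pool.Agent.Lib.MP_488b8a_co.Tlen
import Pool.Agent.Lib.MP_488b8a_co.NearR
import Pool.Agent.Lib.MP_488b8a_co.Rot
import Pool.Agent.Lib.MP_488b8a_co.Sph
import Pool.Agent.Lib.MP_488b8a_co.LgT

/-! Project CAPS (MP_488b8a_co), module Shape. -/

namespace Pool.Agent.CAPS

open Complex MeasureTheory

private theorem abs_log_le {x t : ℝ} (ht : t ≤ 3 / 1000) (h : |x - 1| ≤ t) :
    |Real.log x| ≤ t / (997 / 1000) := by
  have ht0 : 0 ≤ t := (abs_nonneg _).trans h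
  obtain ⟨h1, h2⟩ := abs_le.1 h
  have hx : 0 < x := by linarith
  rw [abs_le]
  constructor
  · have h3 := Real.one_sub_inv_le_log_of_pos hx
    have h4 : -(t / (997 / 1000)) ≤ 1 - x⁻¹ := by
      have h5 : 1 - x⁻¹ = (x - 1) / x := by field_simp
      rw [h5, neg_le, ← neg_div]
      rw [div_le_div_iff₀ hx (by norm_num)]
      nlinarith
    linarith
  · have h3 := Real.log_le_sub_one_of_pos hx
    have h4 : t ≤ t / (997 / 1000) := by
      rw [le_div_iff₀ (by norm_num)]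
      nlinarith
    linarith

variable {n : ℕ} {z : Fin n → ℂ} {r : ℝ}

theorem uu_est (hC : Cov z r) (hr : 0 < r) (hr1 : r ≤ 1 / 1000) {h : HE n} (hg : Good r z h) :
    |uu r (z h.1) (z h.2.1)| ≤ 2 * Real.sqrt (dfc r z h) := by
  have hδ : dfc r z h ≤ 1 / 10 ^ 6 := hg.2.2.2.2
  have hsd : Real.sqrt (dfc r z h) ≤ 1 / 1000 := by
    rw [show (1 : ℝ) / 1000 = Real.sqrt ((1 / 1000) ^ 2) by
      rw [Real.sqrt_sq (by norm_num)]]
    apply Real.sqrt_le_sqrt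
    norm_num at hδ ⊢
    exact hδ
  have hs0 := Real.sqrt_nonneg (dfc r z h)
  have hsin : 0 < Real.sin r :=
    Real.sin_pos_of_pos_of_lt_pi hr (by linarith [Real.pi_gt_three])
  have h1 := (tlen hC hr (by linarith) hg.1 (by norm_num at hδ; linarith)).1
  unfold uu
  obtain ⟨s, hs⟩ : ∃ s, s = 3 * Real.sin r ^ 2 := ⟨_, rfl⟩
  have hspos : 0 < s := by rw [hs]; positivity
  rw [← hs] at h1 ⊢
  have h2 : |xx (z h.1) (z h.2.1) / s - 1| ≤ 3 * Real.sqrt (dfc r z h) := by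
    have h3 : xx (z h.1) (z h.2.1) / s - 1 = (xx (z h.1) (z h.2.1) - s) / s := by
      field_simp
    rw [h3, abs_div, abs_of_pos hspos, div_le_iff₀ hspos]
    refine h1.trans (le_of_eq ?_)
    rw [hs]
    ring
  have h4 := abs_log_le (by linarith) h2
  rw [abs_mul, abs_of_pos (by norm_num : (0 : ℝ) < 1 / 2)]
  calc 1 / 2 * |Real.log (xx (z h.1) (z h.2.1) / s)|
      ≤ 1 / 2 * (3 * Real.sqrt (dfc r z h) / (997 / 1000)) := by linarith
    _ ≤ 2 * Real.sqrt (dfc r z h) := by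
      rw [div_eq_mul_inv]
      norm_num
      nlinarith

private theorem xx_pos {u v : ℂ} (h : u ≠ v) : 0 < xx u v := by
  unfold xx
  have h1 : 0 < ‖u - v‖ := norm_pos_iff.2 (sub_ne_zero.2 h)
  positivity

private theorem log_sub_log {u v w : ℂ} (hr : 0 < Real.sin r) (h1 : u ≠ v) (h2 : w ≠ v) :
    Real.log ‖u - v‖ - Real.log ‖w - v‖ = uu r u v - uu r w v + 1 / 2 * (lg u - lg w) := by
  rw [log_norm_sub h1, log_norm_sub h2]
  unfold uu
  have h3 := xx_pos h1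
  have h4 := xx_pos h2
  rw [Real.log_div h3.ne' (by positivity), Real.log_div h4.ne' (by positivity)]
  ring

private theorem exp_bound {A e : ℝ} (he : e ≤ 1 / 500) (hA : |A| ≤ 4 * e) :
    |Real.exp (2 * A) - 1| ≤ 9 * e := by
  have he0 : 0 ≤ e := by linarith [abs_nonneg A]
  have h1 : |2 * A| ≤ 8 * e := by
    rw [abs_mul, abs_of_pos (by norm_num : (0 : ℝ) < 2)]
    linarith
  have h2 : |2 * A| ≤ 1 := by linarith
  have h3 := Real.abs_exp_sub_one_sub_id_le h2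
  have h4 : (2 * A) ^ 2 ≤ (8 * e) ^ 2 := by
    rw [← sq_abs (2 * A)]
    exact pow_le_pow_left₀ (abs_nonneg _) h1 2
  have h5 : |Real.exp (2 * A) - 1| ≤ |Real.exp (2 * A) - 1 - 2 * A| + |2 * A| := by
    have := abs_add_le (Real.exp (2 * A) - 1 - 2 * A) (2 * A)
    rwa [sub_add_cancel] at this
  nlinarith

theorem shape (hC : Cov z r) (hr : 0 < r) (hr1 : r ≤ 1 / 1000) {h : HE n} (hg : Good r z h) :
    ‖tau z h - zet‖ ≤ 50 * eps r z h ∧ ‖tau z h - zet‖ ≤ 1 / 10 := by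
  have hδ : dfc r z h ≤ 1 / 10 ^ 6 := hg.2.2.2.2
  have hsd : Real.sqrt (dfc r z h) ≤ 1 / 1000 := by
    rw [show (1 : ℝ) / 1000 = Real.sqrt ((1 / 1000) ^ 2) by
      rw [Real.sqrt_sq (by norm_num)]]
    apply Real.sqrt_le_sqrt
    norm_num at hδ ⊢
    exact hδ
  have hs0 := Real.sqrt_nonneg (dfc r z h)
  have hsin : 0 < Real.sin r :=
    Real.sin_pos_of_pos_of_lt_pi hr (by linarith [Real.pi_gt_three])
  obtain ⟨hpq, hqw, hwp⟩ := Del_ne hg.1
  have hN : Near z h := ⟨hg.1, hg.2.1, hg.2.2.1, hg.2.2.2.1⟩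
  obtain ⟨hl1, hl2, hl3⟩ := near_len hC hr (by linarith) hN
  have u1 := uu_est hC hr hr1 hg
  have u2 := uu_est hC hr hr1 (Good_rot.2 hg)
  have u3 := uu_est hC hr hr1 (Good_rot.2 (Good_rot.2 hg))
  rw [dfc_rot] at u2 u3
  rw [dfc_rot] at u3
  have hu2 : uu r (z (rot h).1) (z (rot h).2.1) = uu r (z h.2.1) (z h.2.2) := rfl
  have hu3 : uu r (z (rot (rot h)).1) (z (rot (rot h)).2.1) = uu r (z h.2.2) (z h.1) := rfl
  rw [hu2] at u2
  rw [hu3] at u3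
  have hcr : 0 < crs (z h.2.1 - z h.1) (z h.2.2 - z h.1) := hg.1.1
  unfold tau eps
  obtain ⟨p, hp⟩ : ∃ p, p = z h.1 := ⟨_, rfl⟩
  obtain ⟨q, hq⟩ : ∃ q, q = z h.2.1 := ⟨_, rfl⟩
  obtain ⟨w, hw⟩ : ∃ w, w = z h.2.2 := ⟨_, rfl⟩
  rw [← hp, ← hq] at hpq hl1 u1
  rw [← hq, ← hw] at hqw hl2 u2
  rw [← hw, ← hp] at hwp hl3 u3
  rw [← hp, ← hq, ← hw] at hcr ⊢
  have uu_comm : ∀ a b : ℂ, uu r a b = uu r b a := by
    intro a b
    unfold uu
    rw [xx_comm]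
  obtain ⟨e, he⟩ : ∃ e, e = Real.sqrt (dfc r z h) + r := ⟨_, rfl⟩
  rw [← he]
  have he1 : e ≤ 1 / 500 := by rw [he]; linarith
  have he0 : 0 ≤ e := by rw [he]; linarith
  obtain ⟨τ, hτ⟩ : ∃ τ, τ = (w - p) / (q - p) := ⟨_, rfl⟩
  rw [← hτ]
  have hqp0 : q - p ≠ 0 := sub_ne_zero.2 hpq.symm
  have hwp0 : w - p ≠ 0 := sub_ne_zero.2 hwp
  have hqw0 : q - w ≠ 0 := sub_ne_zero.2 hqw
  have hnτ : ‖τ‖ = ‖w - p‖ / ‖q - p‖ := by rw [hτ, norm_div]
  have h1τ : 1 - τ = (q - w) / (q - p) := by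
    rw [hτ]
    field_simp
    ring
  have hn1τ : ‖1 - τ‖ = ‖q - w‖ / ‖q - p‖ := by rw [h1τ, norm_div]
  have hτpos : 0 < ‖τ‖ := by
    rw [hnτ]
    exact div_pos (norm_pos_iff.2 hwp0) (norm_pos_iff.2 hqp0)
  have h1τpos : 0 < ‖1 - τ‖ := by
    rw [hn1τ]
    exact div_pos (norm_pos_iff.2 hqw0) (norm_pos_iff.2 hqp0)
  have hA : |Real.log ‖τ‖| ≤ 4 * e := by
    rw [hnτ, Real.log_div (norm_pos_iff.2 hwp0).ne' (norm_pos_iff.2 hqp0).ne',
      log_sub_log hsin hwp hpq.symm]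
    have h1 := lg_lip w q
    rw [norm_sub_rev] at hl2
    have h2 : |lg w - lg q| ≤ 2 * r := h1.trans hl2
    rw [uu_comm q p]
    obtain ⟨a1, a2⟩ := abs_le.1 u1
    obtain ⟨b1, b2⟩ := abs_le.1 u3
    obtain ⟨c1, c2⟩ := abs_le.1 h2
    rw [abs_le, he]
    constructor <;> linarith
  have hB : |Real.log ‖1 - τ‖| ≤ 4 * e := by
    rw [hn1τ, norm_sub_rev q w, norm_sub_rev q p, Real.log_div
      (by rw [norm_sub_rev]; exact (norm_pos_iff.2 hqw0).ne')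
      (by rw [norm_sub_rev]; exact (norm_pos_iff.2 hqp0).ne'),
      log_sub_log hsin hqw.symm hpq]
    have h1 := lg_lip w p
    have h2 : |lg w - lg p| ≤ 2 * r := h1.trans hl3
    rw [uu_comm w q]
    obtain ⟨a1, a2⟩ := abs_le.1 u1
    obtain ⟨b1, b2⟩ := abs_le.1 u2
    obtain ⟨c1, c2⟩ := abs_le.1 h2
    rw [abs_le, he]
    constructor <;> linarith
  have hsqA : ‖τ‖ ^ 2 = Real.exp (2 * Real.log ‖τ‖) := by
    rw [mul_comm, Real.exp_mul, Real.exp_log hτpos]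
    norm_num
  have hsqB : ‖1 - τ‖ ^ 2 = Real.exp (2 * Real.log ‖1 - τ‖) := by
    rw [mul_comm, Real.exp_mul, Real.exp_log h1τpos]
    norm_num
  have hA2 : |‖τ‖ ^ 2 - 1| ≤ 9 * e := by
    rw [hsqA]
    exact exp_bound he1 hA
  have hB2 : |‖1 - τ‖ ^ 2 - 1| ≤ 9 * e := by
    rw [hsqB]
    exact exp_bound he1 hB
  have hn1 : ‖τ‖ ^ 2 = τ.re ^ 2 + τ.im ^ 2 := by
    rw [← Complex.normSq_eq_norm_sq, Complex.normSq_apply]
    ring
  have hn2 : ‖1 - τ‖ ^ 2 = (1 - τ.re) ^ 2 + τ.im ^ 2 := by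
    rw [← Complex.normSq_eq_norm_sq, Complex.normSq_apply, Complex.sub_re, Complex.sub_im,
      Complex.one_re, Complex.one_im]
    ring
  have him : 0 < τ.im := by
    rw [hτ, Complex.div_im]
    have h1 : 0 < Complex.normSq (q - p) := Complex.normSq_pos.2 hqp0
    have h2 : (w - p).im * (q - p).re / Complex.normSq (q - p) -
        (w - p).re * (q - p).im / Complex.normSq (q - p) =
        crs (q - p) (w - p) / Complex.normSq (q - p) := by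
      unfold crs
      ring
    rw [h2]
    exact div_pos hcr h1
  rw [hn1] at hA2
  rw [hn2] at hB2
  obtain ⟨x, hx⟩ : ∃ x, x = τ.re := ⟨_, rfl⟩
  obtain ⟨y, hy⟩ : ∃ y, y = τ.im := ⟨_, rfl⟩
  rw [← hx, ← hy] at hA2 hB2
  rw [← hy] at him
  have hn3 : ‖τ - zet‖ ^ 2 = (x - 1 / 2) ^ 2 + (y - Real.sqrt 3 / 2) ^ 2 := by
    rw [← Complex.normSq_eq_norm_sq, Complex.normSq_apply, Complex.sub_re, Complex.sub_im]
    unfold zet
    rw [hx, hy]
    ring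
  obtain ⟨A1, A2⟩ := abs_le.1 hA2
  obtain ⟨B1, B2⟩ := abs_le.1 hB2
  have hx1 : |x - 1 / 2| ≤ 9 * e := by
    rw [abs_le]
    constructor <;> linarith
  obtain ⟨X1, X2⟩ := abs_le.1 hx1
  have hs3 : Real.sqrt 3 ^ 2 = 3 := Real.sq_sqrt (by norm_num)
  have hs3' : 1.73 ≤ Real.sqrt 3 := by
    rw [show (1.73 : ℝ) = Real.sqrt (1.73 ^ 2) by rw [Real.sqrt_sq (by norm_num)]]
    apply Real.sqrt_le_sqrt
    norm_num
  have hy1 : |(y - Real.sqrt 3 / 2) * (y + Real.sqrt 3 / 2)| ≤ 18.2 * e := by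
    have h1 : (y - Real.sqrt 3 / 2) * (y + Real.sqrt 3 / 2) =
        (x ^ 2 + y ^ 2 - 1) - (x - 1 / 2) * (x + 1 / 2) := by
      linear_combination (-1 / 4 : ℝ) * hs3
    rw [h1]
    have h2 : |(x - 1 / 2) * (x + 1 / 2)| ≤ 9 * e * (1 + 9 * e) := by
      rw [abs_mul]
      apply mul_le_mul hx1 _ (abs_nonneg _) (by positivity)
      rw [abs_le]
      constructor <;> linarith
    have h3 := abs_sub (x ^ 2 + y ^ 2 - 1) ((x - 1 / 2) * (x + 1 / 2))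
    have h4 : 9 * e * (1 + 9 * e) ≤ 9.2 * e := by
      have h5 : e * e ≤ 1 / 500 * e := mul_le_mul_of_nonneg_right he1 he0
      linarith
    have h6 : |(x ^ 2 + y ^ 2 - 1) - (x - 1 / 2) * (x + 1 / 2)| ≤ 9 * e + 9 * e * (1 + 9 * e) :=
      h3.trans (add_le_add hA2 h2)
    linarith
  have hy2 : |y - Real.sqrt 3 / 2| ≤ 21.1 * e := by
    rw [abs_mul] at hy1
    have h1 : 0.865 ≤ |y + Real.sqrt 3 / 2| := by
      rw [abs_of_pos (by linarith)]
      linarith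
    have h2 := abs_nonneg (y - Real.sqrt 3 / 2)
    have h3 := mul_le_mul_of_nonneg_left h1 h2
    linarith
  have hfin : ‖τ - zet‖ ^ 2 ≤ (23 * e) ^ 2 := by
    rw [hn3]
    have h1 : (x - 1 / 2) ^ 2 ≤ (9 * e) ^ 2 := by
      rw [← sq_abs]
      exact pow_le_pow_left₀ (abs_nonneg _) hx1 2
    have h2 : (y - Real.sqrt 3 / 2) ^ 2 ≤ (21.1 * e) ^ 2 := by
      rw [← sq_abs]
      exact pow_le_pow_left₀ (abs_nonneg _) hy2 2
    have h3 : (9 * e) ^ 2 + (21.1 * e) ^ 2 ≤ (23 * e) ^ 2 := by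
      have h4 := mul_nonneg he0 he0
      linarith
    linarith
  have hfin2 : ‖τ - zet‖ ≤ 23 * e := by
    have := abs_le_of_sq_le_sq hfin (by positivity)
    exact (abs_le.1 this).2
  constructor
  · linarith
  · linarith

end Pool.Agent.CAPS
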