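import Pool.Agent.Lib.MP_488b8a_co.JumpA
import Pool.Agent.Lib.MP_488b8a_co.EtaLoc
import Pool.Agent.Lib.MP_488b8a_co.Shape

/-! Project CAPS (MP_488b8a_co), module Jump. -/

namespace Pool.Agent.CAPS

open Complex MeasureTheory

theorem gg_est : ∃ C : ℝ, 0 < C ∧ ∀ (n : ℕ) (z : Fin n → ℂ) (r : ℝ) (h : HE n), Cov z r → 0 < r →
    r ≤ 1 / 1000 → Good r z h → |gg z h| ≤ C * eps r z h := by
  obtain ⟨C₀, hC₀, hE⟩ := eta_est
  refine ⟨50 * C₀, by positivity, fun n z r h hCov hr hr1 hg => ?_⟩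
  obtain ⟨s1, s2⟩ := shape hCov hr hr1 hg
  have h2 := (hE (tau z h) s2).2
  rw [← gg_tau hg.1] at h2
  calc |gg z h| ≤ C₀ * ‖tau z h - zet‖ := h2
    _ ≤ C₀ * (50 * eps r z h) := mul_le_mul_of_nonneg_left s1 hC₀.le
    _ = 50 * C₀ * eps r z h := by ring

theorem Jump.eps_nonneg {n : ℕ} {z : Fin n → ℂ} {r : ℝ} {h : HE n} (hr : 0 < r) :
    0 ≤ eps r z h := by
  unfold eps
  have := Real.sqrt_nonneg (dfc r z h)
  linarith

theorem Jump.eps_le_one {n : ℕ} {z : Fin n → ℂ} {r : ℝ} {h : HE n} (hr1 : r ≤ 1 / 1000)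
    (hg : Good r z h) : eps r z h ≤ 1 := by
  unfold eps
  have h1 : Real.sqrt (dfc r z h) ≤ 1 / 2 := by
    apply Real.sqrt_le_iff.2
    refine ⟨by norm_num, ?_⟩
    have := hg.2.2.2.2
    norm_num at this ⊢
    linarith
  linarith

theorem Jump.sqrt3_le : Real.sqrt 3 ≤ 2 := by
  apply Real.sqrt_le_iff.2
  norm_num

theorem Jump.norm_c : ‖(2 * Real.sqrt 3 * I : ℂ)‖ ≤ 4 := by
  rw [norm_mul, norm_mul, Complex.norm_I, Complex.norm_real, Real.norm_eq_abs,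
    abs_of_nonneg (Real.sqrt_nonneg 3)]
  have := Jump.sqrt3_le
  simp only [Complex.norm_ofNat, mul_one]
  linarith

/-- the estimates for one triangle -/
theorem Jump.key {C₀ : ℝ} (hC₀ : 0 < C₀) (hE : ∀ τ : ℂ, ‖τ - zet‖ ≤ 1 / 10 →
    ‖eta τ - (1 - 2 * Real.sqrt 3 * I * ((Real.log ‖τ‖ - Real.log ‖1 - τ‖ : ℝ) : ℂ))‖ ≤
      C₀ * ‖τ - zet‖ ^ 2 ∧ |Real.log ‖τ‖ - Real.log ‖1 - τ‖| ≤ C₀ * ‖τ - zet‖)
    {n : ℕ} {z : Fin n → ℂ} {r : ℝ} {h : HE n} (hCov : Cov z r) (hr : 0 < r)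
    (hr1 : r ≤ 1 / 1000) (hg : Good r z h) :
    ‖eta (tau z h) - (1 - 2 * Real.sqrt 3 * I * (gg z h : ℂ))‖ ≤ 2500 * C₀ * eps r z h ^ 2 ∧
    ‖eta (tau z h) - 1‖ ≤ 2700 * C₀ * eps r z h ∧
    ‖(eta (tau z h) - 1) * (gg z h : ℂ)‖ ≤ 135000 * C₀ ^ 2 * eps r z h ^ 2 := by
  obtain ⟨s1, s2⟩ := shape hCov hr hr1 hg
  obtain ⟨h1, h2⟩ := hE (tau z h) s2
  rw [← gg_tau hg.1] at h1 h2
  have e0 := Jump.eps_nonneg (z := z) (h := h) hr
  have e1 := Jump.eps_le_one hr1 hg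
  set ε := eps r z h with hε
  have n0 : 0 ≤ ‖tau z h - zet‖ := norm_nonneg _
  have b1 : ‖eta (tau z h) - (1 - 2 * Real.sqrt 3 * I * (gg z h : ℂ))‖ ≤
      2500 * C₀ * ε ^ 2 := by
    calc _ ≤ C₀ * ‖tau z h - zet‖ ^ 2 := h1
      _ ≤ C₀ * (50 * ε) ^ 2 := by gcongr
      _ = 2500 * C₀ * ε ^ 2 := by ring
  have b2 : |gg z h| ≤ 50 * C₀ * ε := by
    calc |gg z h| ≤ C₀ * ‖tau z h - zet‖ := h2
      _ ≤ C₀ * (50 * ε) := by gcongr
      _ = 50 * C₀ * ε := by ring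
  have b2' : ‖(gg z h : ℂ)‖ ≤ 50 * C₀ * ε := by
    rw [Complex.norm_real, Real.norm_eq_abs]
    exact b2
  have b3 : ‖eta (tau z h) - 1‖ ≤ 2700 * C₀ * ε := by
    have t : eta (tau z h) - 1 = (eta (tau z h) - (1 - 2 * Real.sqrt 3 * I * (gg z h : ℂ))) -
        2 * Real.sqrt 3 * I * (gg z h : ℂ) := by ring
    rw [t]
    have t2 : ‖(2 * Real.sqrt 3 * I * (gg z h : ℂ) : ℂ)‖ ≤ 4 * (50 * C₀ * ε) := by
      rw [norm_mul]
      exact mul_le_mul Jump.norm_c b2' (norm_nonneg _) (by norm_num)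
    have t3 : ε ^ 2 ≤ ε := by nlinarith
    have t4 : 2500 * C₀ * ε ^ 2 ≤ 2500 * C₀ * ε := by gcongr
    calc _ ≤ ‖eta (tau z h) - (1 - 2 * Real.sqrt 3 * I * (gg z h : ℂ))‖ +
          ‖(2 * Real.sqrt 3 * I * (gg z h : ℂ) : ℂ)‖ := norm_sub_le _ _
      _ ≤ 2700 * C₀ * ε := by linarith
  refine ⟨b1, b3, ?_⟩
  rw [norm_mul]
  calc ‖eta (tau z h) - 1‖ * ‖(gg z h : ℂ)‖ ≤ (2700 * C₀ * ε) * (50 * C₀ * ε) :=
        mul_le_mul b3 b2' (norm_nonneg _) (by positivity)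
    _ = 135000 * C₀ ^ 2 * ε ^ 2 := by ring

theorem jump : ∃ C : ℝ, 0 < C ∧ ∀ (n : ℕ) (z : Fin n → ℂ) (r : ℝ) (i j k k' : Fin n), Cov z r →
    0 < r → r ≤ 1 / 1000 → Good r z (i, j, k) → Good r z (j, i, k') →
    ‖ph z (i, j, k) - ph z (j, i, k')‖ ≤ C * (eps r z (i, j, k) + eps r z (j, i, k')) ∧
    ‖ph z (i, j, k) - ph z (j, i, k') + 2 * Real.sqrt 3 * I *
      (ph z (i, j, k) * (gg z (i, j, k) : ℂ) - ph z (j, i, k') * (gg z (j, i, k') : ℂ))‖ ≤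
      C * (eps r z (i, j, k) ^ 2 + eps r z (j, i, k') ^ 2) := by
  obtain ⟨C₀, hC₀, hE⟩ := eta_est
  refine ⟨2700 * C₀ + 540000 * C₀ ^ 2, by positivity,
    fun n z r i j k k' hCov hr hr1 hg hg' => ?_⟩
  obtain ⟨a1, a2, a3⟩ := Jump.key hC₀ hE hCov hr hr1 hg
  obtain ⟨b1, b2, b3⟩ := Jump.key hC₀ hE hCov hr hr1 hg'
  have e0 := Jump.eps_nonneg (z := z) (h := (i, j, k)) hr
  have e0' := Jump.eps_nonneg (z := z) (h := (j, i, k')) hr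
  have p1 := ph_eta hg.1
  have p2 := ph_eta hg'.1
  have hs : ((z i - z j) / (‖z i - z j‖ : ℂ)) ^ 6 = ((z j - z i) / (‖z j - z i‖ : ℂ)) ^ 6 := by
    have h1 : z i - z j = -(z j - z i) := by ring
    rw [h1, norm_neg, neg_div, Even.neg_pow (by decide)]
  simp only at p1 p2
  rw [hs] at p2
  set s : ℂ := ((z j - z i) / (‖z j - z i‖ : ℂ)) ^ 6 with hsdef
  have hs1 : ‖s‖ ≤ 1 := by
    rw [hsdef, norm_pow, norm_div, Complex.norm_real, norm_norm]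
    exact pow_le_one₀ (by positivity) (div_self_le_one _)
  set a := eta (tau z (i, j, k))
  set a' := eta (tau z (j, i, k'))
  set g : ℂ := (gg z (i, j, k) : ℂ)
  set g' : ℂ := (gg z (j, i, k') : ℂ)
  set ε := eps r z (i, j, k)
  set ε' := eps r z (j, i, k')
  rw [p1, p2]
  constructor
  · have t : s * a - s * a' = s * ((a - 1) - (a' - 1)) := by ring
    rw [t, norm_mul]
    calc ‖s‖ * ‖(a - 1) - (a' - 1)‖ ≤ 1 * (‖a - 1‖ + ‖a' - 1‖) :=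
          mul_le_mul hs1 (norm_sub_le _ _) (norm_nonneg _) zero_le_one
      _ ≤ 2700 * C₀ * (ε + ε') := by linarith
      _ ≤ (2700 * C₀ + 540000 * C₀ ^ 2) * (ε + ε') := by
          apply mul_le_mul_of_nonneg_right _ (by linarith)
          have : 0 ≤ 540000 * C₀ ^ 2 := by positivity
          linarith
  · have t : s * a - s * a' + 2 * Real.sqrt 3 * I * (s * a * g - s * a' * g') =
        s * ((a - (1 - 2 * Real.sqrt 3 * I * g)) - (a' - (1 - 2 * Real.sqrt 3 * I * g')) +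
          (2 * Real.sqrt 3 * I) * ((a - 1) * g - (a' - 1) * g')) := by ring
    rw [t, norm_mul]
    have t1 : ‖(2 * Real.sqrt 3 * I : ℂ) * ((a - 1) * g - (a' - 1) * g')‖ ≤
        4 * (135000 * C₀ ^ 2 * ε ^ 2 + 135000 * C₀ ^ 2 * ε' ^ 2) := by
      rw [norm_mul]
      exact mul_le_mul Jump.norm_c ((norm_sub_le _ _).trans (add_le_add a3 b3)) (norm_nonneg _)
        (by norm_num)
    have t2 : ‖(a - (1 - 2 * Real.sqrt 3 * I * g)) - (a' - (1 - 2 * Real.sqrt 3 * I * g'))‖ ≤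
        2500 * C₀ * ε ^ 2 + 2500 * C₀ * ε' ^ 2 :=
      (norm_sub_le _ _).trans (add_le_add a1 b1)
    have q1 : 0 ≤ C₀ * ε ^ 2 := by positivity
    have q2 : 0 ≤ C₀ * ε' ^ 2 := by positivity
    calc ‖s‖ * ‖(a - (1 - 2 * Real.sqrt 3 * I * g)) - (a' - (1 - 2 * Real.sqrt 3 * I * g')) +
          (2 * Real.sqrt 3 * I) * ((a - 1) * g - (a' - 1) * g')‖
        ≤ 1 * (‖(a - (1 - 2 * Real.sqrt 3 * I * g)) - (a' - (1 - 2 * Real.sqrt 3 * I * g'))‖ +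
          ‖(2 * Real.sqrt 3 * I : ℂ) * ((a - 1) * g - (a' - 1) * g')‖) :=
          mul_le_mul hs1 (norm_add_le _ _) (norm_nonneg _) zero_le_one
      _ ≤ (2700 * C₀ + 540000 * C₀ ^ 2) * (ε ^ 2 + ε' ^ 2) := by
          nlinarith [t1, t2, q1, q2]

end Pool.Agent.CAPS
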