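import Pool.Agent.Lib.MP_488b8a_co.NearTw
import Pool.Agent.Lib.MP_488b8a_co.Jump

/-! Project CAPS (MP_488b8a_co), module SumB. -/

namespace Pool.Agent.CAPS

open Complex MeasureTheory

open Classical in
private noncomputable def SumB_a {n : ℕ} (r : ℝ) (z : Fin n → ℂ) (h : HE n) : ℂ :=
  if Good r z h then ph z h * (gg z h : ℂ) else 0

private theorem SumB_a_le {C₁ : ℝ} (hC₁ : 0 < C₁)
    (hG : ∀ (n : ℕ) (z : Fin n → ℂ) (r : ℝ) (h : HE n), Cov z r → 0 < r →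
      r ≤ 1 / 1000 → Good r z h → |gg z h| ≤ C₁ * eps r z h)
    {n : ℕ} {z : Fin n → ℂ} {r : ℝ} (hC : Cov z r) (hr : 0 < r) (hr1 : r ≤ 1 / 1000)
    (h : HE n) : ‖SumB_a r z h‖ ≤ C₁ := by
  unfold SumB_a
  split_ifs with hg
  · rw [norm_mul, ph_norm hg.1, one_mul, Complex.norm_real, Real.norm_eq_abs]
    refine (hG n z r h hC hr hr1 hg).trans ?_
    have h1 := Jump.eps_le_one hr1 hg
    nlinarith
  · rw [norm_zero]
    exact hC₁.le

private theorem SumB_jump {C₀ C₁ : ℝ} (hC₀ : 0 < C₀) (hC₁ : 0 < C₁)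
    (hJ : ∀ (n : ℕ) (z : Fin n → ℂ) (r : ℝ) (i j k k' : Fin n), Cov z r →
      0 < r → r ≤ 1 / 1000 → Good r z (i, j, k) → Good r z (j, i, k') →
      ‖ph z (i, j, k) - ph z (j, i, k') + 2 * Real.sqrt 3 * I *
        (ph z (i, j, k) * (gg z (i, j, k) : ℂ) - ph z (j, i, k') * (gg z (j, i, k') : ℂ))‖ ≤
        C₀ * (eps r z (i, j, k) ^ 2 + eps r z (j, i, k') ^ 2))
    (hG : ∀ (n : ℕ) (z : Fin n → ℂ) (r : ℝ) (h : HE n), Cov z r → 0 < r →
      r ≤ 1 / 1000 → Good r z h → |gg z h| ≤ C₁ * eps r z h)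
    {n : ℕ} {z : Fin n → ℂ} {r : ℝ} (hC : Cov z r) (hr : 0 < r) (hr1 : r ≤ 1 / 1000)
    {h : HE n} (hN : Near z h) (hN' : Near z (tw z h))
    (hk : ∃ k', tw z h = (h.2.1, h.1, k')) :
    ‖ph z h - ph z (tw z h) + 2 * Real.sqrt 3 * I * (SumB_a r z h - SumB_a r z (tw z h))‖ ≤
      (C₀ + (2 + 8 * C₁) * 10 ^ 6) *
      ((eps r z h ^ 2 + dfc r z h) + (eps r z (tw z h) ^ 2 + dfc r z (tw z h))) := by
  have e0 : 0 ≤ eps r z h ^ 2 := sq_nonneg _
  have e0' : 0 ≤ eps r z (tw z h) ^ 2 := sq_nonneg _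
  have d0 : 0 ≤ dfc r z h := dfc_nonneg hC hr (by linarith) hN.1
  have d0' : 0 ≤ dfc r z (tw z h) := dfc_nonneg hC hr (by linarith) hN'.1
  by_cases hg : dfc r z h ≤ 1 / 10 ^ 6 ∧ dfc r z (tw z h) ≤ 1 / 10 ^ 6
  · have g1 : Good r z h := ⟨hN.1, hN.2.1, hN.2.2.1, hN.2.2.2, hg.1⟩
    have g2 : Good r z (tw z h) := ⟨hN'.1, hN'.2.1, hN'.2.2.1, hN'.2.2.2, hg.2⟩
    obtain ⟨k', hk'⟩ := hk
    have a1 : SumB_a r z h = ph z h * (gg z h : ℂ) := if_pos g1
    have a2 : SumB_a r z (tw z h) = ph z (tw z h) * (gg z (tw z h) : ℂ) := if_pos g2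
    rw [a1, a2]
    rw [hk'] at g2 e0' d0' ⊢
    have h1 := hJ n z r h.1 h.2.1 h.2.2 k' hC hr hr1 g1 g2
    refine h1.trans ?_
    apply mul_le_mul _ _ (by positivity) (by positivity)
    · have : 0 ≤ (2 + 8 * C₁) * 10 ^ 6 := by positivity
      linarith
    · have e1 : eps r z (h.1, h.2.1, h.2.2) = eps r z h := rfl
      rw [e1]
      linarith
  · have h1 : 1 / 10 ^ 6 ≤ dfc r z h + dfc r z (tw z h) := by
      rw [not_and_or, not_le, not_le] at hg
      rcases hg with hg | hg <;> linarith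
    have h2 : ‖ph z h - ph z (tw z h) + 2 * Real.sqrt 3 * I *
        (SumB_a r z h - SumB_a r z (tw z h))‖ ≤ 2 + 8 * C₁ := by
      refine (norm_add_le _ _).trans ?_
      have b1 : ‖ph z h - ph z (tw z h)‖ ≤ 2 := by
        refine (norm_sub_le _ _).trans ?_
        rw [ph_norm hN.1, ph_norm hN'.1]
        norm_num
      have b2 : ‖SumB_a r z h - SumB_a r z (tw z h)‖ ≤ 2 * C₁ := by
        refine (norm_sub_le _ _).trans ?_
        have c1 := SumB_a_le hC₁ hG hC hr hr1 h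
        have c2 := SumB_a_le hC₁ hG hC hr hr1 (tw z h)
        linarith
      have b3 : ‖(2 * Real.sqrt 3 * I : ℂ) * (SumB_a r z h - SumB_a r z (tw z h))‖ ≤ 4 * (2 * C₁) := by
        rw [norm_mul]
        exact mul_le_mul Jump.norm_c b2 (norm_nonneg _) (by norm_num)
      linarith
    refine h2.trans ?_
    have h3 : 2 + 8 * C₁ ≤ ((2 + 8 * C₁) * 10 ^ 6) *
        ((eps r z h ^ 2 + dfc r z h) + (eps r z (tw z h) ^ 2 + dfc r z (tw z h))) := by
      have h4 : 1 / 10 ^ 6 ≤ (eps r z h ^ 2 + dfc r z h) + (eps r z (tw z h) ^ 2 + dfc r z (tw z h)) := by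
        linarith
      have h5 := mul_le_mul_of_nonneg_left h4 (by positivity : (0 : ℝ) ≤ (2 + 8 * C₁) * 10 ^ 6)
      refine le_trans (le_of_eq ?_) h5
      ring
    refine h3.trans ?_
    apply mul_le_mul_of_nonneg_right _ (by positivity)
    linarith

open Classical in
theorem sumB : ∃ C : ℝ, 0 < C ∧ ∀ (n : ℕ) (z : Fin n → ℂ) (r : ℝ), GP z → Cov z r → 0 < r →
    r ≤ 1 / 1000 → ∀ e : ℂ, (e = 1 ∨ e = I) → ∀ f : ℂ → ℂ,
    tsupport f ⊆ Metric.ball 0 (1 / 2) → ∀ B : ℝ, (∀ x, ‖f x‖ ≤ B) →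
    ‖∑ h ∈ Dset z, ph z h * flx f e (z h.1) (z h.2.1) + 2 * Real.sqrt 3 * I *
        ∑ h ∈ Dset z, (if Good r z h then ph z h * (gg z h : ℂ) else 0) *
          flx f e (z h.1) (z h.2.1)‖ ≤
      C * r * B * ∑ h ∈ Dset z, (eps r z h ^ 2 + dfc r z h) := by
  obtain ⟨C₀, hC₀, hJ⟩ := jump
  obtain ⟨C₁, hC₁, hGG⟩ := gg_est
  refine ⟨2 * (C₀ + (2 + 8 * C₁) * 10 ^ 6), by positivity, ?_⟩
  intro n z r hG hC hr hr1 e he f hf B hB
  have he1 : ‖e‖ = 1 := by
    rcases he with rfl | rfl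
    · exact norm_one
    · exact Complex.norm_I
  have hB0 : 0 ≤ B := (norm_nonneg _).trans (hB 0)
  have hr2 : r ≤ 1 / 100 := by linarith
  have hterm : ∀ h ∈ Dset z,
      ‖(ph z h - ph z (tw z h) + 2 * Real.sqrt 3 * I * (SumB_a r z h - SumB_a r z (tw z h))) *
        flx f e (z h.1) (z h.2.1)‖ ≤
        (2 * (C₀ + (2 + 8 * C₁) * 10 ^ 6) * r * B) *
          ((eps r z h ^ 2 + dfc r z h) + (eps r z (tw z h) ^ 2 + dfc r z (tw z h))) := by
    intro h hh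
    have hD : Del z h := mem_Dset.1 hh
    have hD' : Del z (tw z h) := mem_Dset.1 (tw_mem hh)
    have d0 : 0 ≤ dfc r z h := dfc_nonneg hC hr (by linarith) hD
    have d0' : 0 ≤ dfc r z (tw z h) := dfc_nonneg hC hr (by linarith) hD'
    by_cases h0 : flx f e (z h.1) (z h.2.1) = 0
    · rw [h0, mul_zero, norm_zero]
      positivity
    · obtain ⟨hN, hN', hk⟩ := flx_near hG hC hr hr2 hf e hD h0
      have h1 := SumB_jump hC₀ hC₁ (fun n z r i j k k' a b c d e => (hJ n z r i j k k' a b c d e).2)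
        hGG hC hr hr1 hN hN' hk
      have h2 : ‖flx f e (z h.1) (z h.2.1)‖ ≤ 2 * r * B := by
        refine (flx_norm he1 hB _ _).trans ?_
        have h3 := (near_len hC hr hr2 hN).1
        rw [norm_sub_rev] at h3
        have h4 := mul_le_mul_of_nonneg_left h3 hB0
        linarith
      rw [norm_mul]
      refine (mul_le_mul h1 h2 (norm_nonneg _) (by positivity)).trans (le_of_eq ?_)
      ring
  set Φ : HE n → ℂ := fun h => ph z h + 2 * Real.sqrt 3 * I * SumB_a r z h with hΦ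
  have hLHS : ∑ h ∈ Dset z, ph z h * flx f e (z h.1) (z h.2.1) + 2 * Real.sqrt 3 * I *
        ∑ h ∈ Dset z, (if Good r z h then ph z h * (gg z h : ℂ) else 0) *
          flx f e (z h.1) (z h.2.1) = ∑ h ∈ Dset z, Φ h * flx f e (z h.1) (z h.2.1) := by
    rw [Finset.mul_sum, ← Finset.sum_add_distrib]
    apply Finset.sum_congr rfl
    intro h _
    have h1 : SumB_a r z h = if Good r z h then ph z h * (gg z h : ℂ) else 0 := rfl
    rw [hΦ]
    simp only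
    rw [h1]
    ring
  have hsum : (2 : ℂ) * ∑ h ∈ Dset z, Φ h * flx f e (z h.1) (z h.2.1) =
      ∑ h ∈ Dset z, (ph z h - ph z (tw z h) + 2 * Real.sqrt 3 * I *
        (SumB_a r z h - SumB_a r z (tw z h))) * flx f e (z h.1) (z h.2.1) := by
    have h1 := sum_tw (z := z) hG.1 (fun h => Φ h * flx f e (z h.1) (z h.2.1))
    have h2 : ∑ h ∈ Dset z, Φ (tw z h) * flx f e (z (tw z h).1) (z (tw z h).2.1) =
        ∑ h ∈ Dset z, -(Φ (tw z h) * flx f e (z h.1) (z h.2.1)) := by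
      apply Finset.sum_congr rfl
      intro h hh
      rw [flx_tw hG hC hr hr2 hf e (mem_Dset.1 hh)]
      ring
    rw [h2] at h1
    rw [two_mul]
    nth_rewrite 2 [← h1]
    rw [← Finset.sum_add_distrib]
    apply Finset.sum_congr rfl
    intro h _
    simp only [hΦ]
    ring
  have h5 : ‖(2 : ℂ) * ∑ h ∈ Dset z, Φ h * flx f e (z h.1) (z h.2.1)‖ ≤
      (2 * (C₀ + (2 + 8 * C₁) * 10 ^ 6) * r * B) *
        (2 * ∑ h ∈ Dset z, (eps r z h ^ 2 + dfc r z h)) := by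
    rw [hsum]
    refine (norm_sum_le _ _).trans ((Finset.sum_le_sum hterm).trans (le_of_eq ?_))
    rw [← Finset.mul_sum, Finset.sum_add_distrib]
    rw [sum_tw (z := z) hG.1 (fun h => eps r z h ^ 2 + dfc r z h)]
    ring
  rw [norm_mul, Complex.norm_ofNat] at h5
  rw [hLHS]
  linarith

end Pool.Agent.CAPS
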