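import Pool.Agent.Lib.MP_488b8a_co.NearTw
import Pool.Agent.Lib.MP_488b8a_co.Jump

/-! Project CAPS (MP_488b8a_co), module SumC. -/

namespace Pool.Agent.CAPS

open Complex MeasureTheory

private theorem SumC_crs_le (e d : ℂ) : |crs e d| ≤ ‖e‖ * ‖d‖ := by
  apply abs_le_of_sq_le_sq
  · rw [mul_pow, Complex.sq_norm, Complex.sq_norm, Complex.normSq_apply, Complex.normSq_apply]
    unfold crs
    nlinarith [sq_nonneg (e.re * d.re + e.im * d.im)]
  · positivity

open Classical in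
/-- the phase, zero at bad triangles -/
private noncomputable def SumC_P {n : ℕ} (z : Fin n → ℂ) (r : ℝ) (h : HE n) : ℂ :=
  if Good r z h then ph z h else 0

private noncomputable def SumC_Phi {n : ℕ} (z : Fin n → ℂ) (r : ℝ) (f : ℂ → ℂ) (e : ℂ)
    (h : HE n) : ℂ :=
  SumC_P z r h * ((uu r (z h.1) (z h.2.1) : ℝ) : ℂ) *
    (flx f e (z h.2.1) (z h.2.2) - flx f e (z h.2.2) (z h.1))

private theorem SumC_P_rot {n : ℕ} {z : Fin n → ℂ} {r : ℝ} (h : HE n) :
    SumC_P z r (rot h) = SumC_P z r h := by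
  unfold SumC_P
  by_cases hg : Good r z h
  · rw [if_pos hg, if_pos (Good_rot.2 hg), ph_rot]
  · rw [if_neg hg, if_neg (fun h' => hg (Good_rot.1 h'))]

private theorem SumC_P_norm {n : ℕ} {z : Fin n → ℂ} {r : ℝ} (h : HE n) :
    ‖SumC_P z r h‖ ≤ 1 := by
  unfold SumC_P
  by_cases hg : Good r z h
  · rw [if_pos hg, ph_norm hg.1]
  · rw [if_neg hg, norm_zero]
    exact zero_le_one

private theorem SumC_uu_comm (r : ℝ) (a b : ℂ) : uu r a b = uu r b a := by
  unfold uu
  rw [xx_comm]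

/-- the sum rearranged -/
private theorem SumC_sum {n : ℕ} (z : Fin n → ℂ) (r : ℝ) (f : ℂ → ℂ) (e : ℂ) :
    ∑ h ∈ Dset z, SumC_P z r h *
      ((uu r (z h.1) (z h.2.2) - uu r (z h.2.1) (z h.2.2) : ℝ) : ℂ) *
        flx f e (z h.1) (z h.2.1) = ∑ h ∈ Dset z, SumC_Phi z r f e h := by
  have hA := sum_rot (z := z) (fun h => SumC_P z r h * ((uu r (z h.1) (z h.2.2) : ℝ) : ℂ) *
    flx f e (z h.1) (z h.2.1))
  have hB := sum_rot (z := z) (fun h => SumC_P z r h * ((uu r (z h.2.1) (z h.2.2) : ℝ) : ℂ) *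
    flx f e (z h.1) (z h.2.1))
  have hB2 := sum_rot (z := z) (fun h => SumC_P z r (rot h) *
    ((uu r (z (rot h).2.1) (z (rot h).2.2) : ℝ) : ℂ) * flx f e (z (rot h).1) (z (rot h).2.1))
  have h1 : ∑ h ∈ Dset z, SumC_P z r h *
      ((uu r (z h.1) (z h.2.2) - uu r (z h.2.1) (z h.2.2) : ℝ) : ℂ) *
        flx f e (z h.1) (z h.2.1) =
      ∑ h ∈ Dset z, SumC_P z r h * ((uu r (z h.1) (z h.2.2) : ℝ) : ℂ) *
        flx f e (z h.1) (z h.2.1) -
      ∑ h ∈ Dset z, SumC_P z r h * ((uu r (z h.2.1) (z h.2.2) : ℝ) : ℂ) *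
        flx f e (z h.1) (z h.2.1) := by
    rw [← Finset.sum_sub_distrib]
    refine Finset.sum_congr rfl fun h _ => ?_
    push_cast
    ring
  rw [h1, ← hA, ← hB, ← hB2, ← Finset.sum_sub_distrib]
  refine Finset.sum_congr rfl fun h _ => ?_
  rw [SumC_P_rot, SumC_P_rot, SumC_P_rot]
  unfold SumC_Phi
  have e1 : (rot h).1 = h.2.1 := rfl
  have e2 : (rot h).2.1 = h.2.2 := rfl
  have e3 : (rot h).2.2 = h.1 := rfl
  have e4 : (rot (rot h)).1 = h.2.2 := rfl
  have e5 : (rot (rot h)).2.1 = h.1 := rfl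
  have e6 : (rot (rot h)).2.2 = h.2.1 := rfl
  rw [e1, e2, e3, e4, e5, e6, SumC_uu_comm r (z h.2.1) (z h.1)]
  ring

/-- the bracket of the second term -/
private theorem SumC_bracket {n : ℕ} {z : Fin n → ℂ} {r : ℝ} {i j k k' : Fin n}
    (hCov : Cov z r) (hr : 0 < r) (hr1 : r ≤ 1 / 1000) (hg : Good r z (i, j, k))
    (hg' : Good r z (j, i, k')) {e : ℂ} (he : ‖e‖ = 1) {f : ℂ → ℂ} (hf : ContDiff ℝ 1 f)
    {B B' : ℝ} (hB : ∀ x, ‖f x‖ ≤ B) (hB' : ∀ x, ‖fderiv ℝ f x‖ ≤ B')
    (l1 : ‖z i - z j‖ ≤ 2 * r) (l2 : ‖z j - z k‖ ≤ 2 * r) (l3 : ‖z k - z i‖ ≤ 2 * r)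
    (l4 : ‖z i - z k'‖ ≤ 2 * r) (l5 : ‖z k' - z j‖ ≤ 2 * r) :
    ‖flx f e (z j) (z k) - flx f e (z k) (z i) +
      (flx f e (z i) (z k') - flx f e (z k') (z j))‖ ≤
      200 * r * B * (eps r z (i, j, k) + eps r z (j, i, k')) + 16 * r ^ 2 * B' := by
  have hB0 : 0 ≤ B := (norm_nonneg _).trans (hB 0)
  have hB0' : 0 ≤ B' := (norm_nonneg _).trans (hB' 0)
  have s1 := (shape hCov hr hr1 hg).1
  have s2 := (shape hCov hr hr1 hg').1
  set ε := eps r z (i, j, k)
  set ε' := eps r z (j, i, k')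
  set τ := tau z (i, j, k) with hτ
  set τ' := tau z (j, i, k') with hτ'
  set x := z i with hx
  have d0 : ‖z i - x‖ ≤ 2 * r := by rw [hx, sub_self, norm_zero]; linarith
  have d1 : ‖z j - x‖ ≤ 2 * r := by rw [norm_sub_rev]; exact l1
  have d2 : ‖z k - x‖ ≤ 2 * r := l3
  have d3 : ‖z k' - x‖ ≤ 2 * r := by rw [norm_sub_rev]; exact l4
  have hstep : ∀ p q : ℂ, ‖p - x‖ ≤ 2 * r → ‖q - x‖ ≤ 2 * r → ‖q - p‖ ≤ 2 * r →
      ‖flx f e p q - f x * (crs e (q - p) : ℂ)‖ ≤ 4 * r ^ 2 * B' := by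
    intro p q hp hq hpq
    refine (flx_est hf he hB' hp hq).trans ?_
    calc B' * (2 * r) * ‖q - p‖ ≤ B' * (2 * r) * (2 * r) :=
          mul_le_mul_of_nonneg_left hpq (by positivity)
      _ = 4 * r ^ 2 * B' := by ring
  have f1 := hstep (z j) (z k) d1 d2 (by rw [norm_sub_rev]; exact l2)
  have f2 := hstep (z k) (z i) d2 d0 (by rw [norm_sub_rev]; exact l3)
  have f3 := hstep (z i) (z k') d0 d3 (by rw [norm_sub_rev]; exact l4)
  have f4 := hstep (z k') (z j) d3 d1 (by rw [norm_sub_rev]; exact l5)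
  have hne : z j - z i ≠ 0 := sub_ne_zero.2 (Del_ne hg.1).1.symm
  have hne' : z i - z j ≠ 0 := sub_ne_zero.2 (Del_ne hg.1).1
  have t1 : z k - z i = τ * (z j - z i) := by
    rw [hτ]
    unfold tau
    simp only
    rw [div_mul_cancel₀ _ hne]
  have t2 : z k' - z j = τ' * (z i - z j) := by
    rw [hτ']
    unfold tau
    simp only
    rw [div_mul_cancel₀ _ hne']
  have hV : (crs e (z k - z j) - crs e (z i - z k) + (crs e (z k' - z i) - crs e (z j - z k'))) =
      crs e (2 * ((τ - τ') * (z j - z i))) := by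
    have h1 : 2 * ((τ - τ') * (z j - z i)) = (z k - z j) - (z i - z k) + ((z k' - z i) -
        (z j - z k')) := by
      linear_combination -2 * t1 - 2 * t2
    rw [h1]
    unfold crs
    simp only [Complex.sub_re, Complex.sub_im, Complex.add_re, Complex.add_im]
    ring
  have hVn : |crs e (2 * ((τ - τ') * (z j - z i)))| ≤ 200 * r * (ε + ε') := by
    refine (SumC_crs_le _ _).trans ?_
    rw [he, one_mul, norm_mul, norm_mul, Complex.norm_ofNat]
    have h1 : ‖τ - τ'‖ ≤ 50 * (ε + ε') := by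
      have h2 : τ - τ' = (τ - zet) - (τ' - zet) := by ring
      rw [h2]
      refine (norm_sub_le _ _).trans ?_
      linarith
    have h3 : ‖z j - z i‖ ≤ 2 * r := d1
    calc 2 * (‖τ - τ'‖ * ‖z j - z i‖) ≤ 2 * ((50 * (ε + ε')) * (2 * r)) := by
          refine mul_le_mul_of_nonneg_left ?_ (by norm_num)
          exact mul_le_mul h1 h3 (norm_nonneg _) ((norm_nonneg _).trans h1)
      _ = 200 * r * (ε + ε') := by ring
  have hdec : flx f e (z j) (z k) - flx f e (z k) (z i) +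
      (flx f e (z i) (z k') - flx f e (z k') (z j)) =
      f x * ((crs e (2 * ((τ - τ') * (z j - z i))) : ℝ) : ℂ) +
      ((flx f e (z j) (z k) - f x * (crs e (z k - z j) : ℂ)) -
        (flx f e (z k) (z i) - f x * (crs e (z i - z k) : ℂ)) +
        ((flx f e (z i) (z k') - f x * (crs e (z k' - z i) : ℂ)) -
        (flx f e (z k') (z j) - f x * (crs e (z j - z k') : ℂ)))) := by
    rw [← hV]
    push_cast
    ring
  rw [hdec]
  have g1 : ‖f x * ((crs e (2 * ((τ - τ') * (z j - z i))) : ℝ) : ℂ)‖ ≤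
      B * (200 * r * (ε + ε')) := by
    rw [norm_mul, Complex.norm_real, Real.norm_eq_abs]
    exact mul_le_mul (hB x) hVn (abs_nonneg _) hB0
  refine (norm_add_le _ _).trans ?_
  refine (add_le_add g1 ((norm_add_le _ _).trans (add_le_add (norm_sub_le _ _)
    (norm_sub_le _ _)))).trans ?_
  linarith

/-- the pair estimate -/
private theorem SumC_pair {C₀ : ℝ} (hC₀ : 0 < C₀)
    (hJ : ∀ (n : ℕ) (z : Fin n → ℂ) (r : ℝ) (i j k k' : Fin n), Cov z r →
      0 < r → r ≤ 1 / 1000 → Good r z (i, j, k) → Good r z (j, i, k') →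
      ‖ph z (i, j, k) - ph z (j, i, k')‖ ≤ C₀ * (eps r z (i, j, k) + eps r z (j, i, k')))
    {n : ℕ} {z : Fin n → ℂ} {r : ℝ} (hG : GP z)
    (hCov : Cov z r) (hr : 0 < r) (hr1 : r ≤ 1 / 1000) {e : ℂ} (he : ‖e‖ = 1) {f : ℂ → ℂ}
    (hf : ContDiff ℝ 1 f) (hs : tsupport f ⊆ Metric.ball 0 (1 / 2))
    {B B' : ℝ} (hB : ∀ x, ‖f x‖ ≤ B) (hB' : ∀ x, ‖fderiv ℝ f x‖ ≤ B') {h : HE n}
    (hD : h ∈ Dset z) :
    ‖SumC_Phi z r f e h + SumC_Phi z r f e (tw z h)‖ ≤
      (12 * C₀ + 5000000) * (r * B * ((eps r z h ^ 2 + dfc r z h) +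
        (eps r z (tw z h) ^ 2 + dfc r z (tw z h))) +
        r ^ 2 * B' * (eps r z h + eps r z (tw z h))) := by
  have hB0 : 0 ≤ B := (norm_nonneg _).trans (hB 0)
  have hB0' : 0 ≤ B' := (norm_nonneg _).trans (hB' 0)
  have hD' := tw_mem hD
  have hDel := mem_Dset.1 hD
  have hDel' := mem_Dset.1 hD'
  have e0 : 0 ≤ eps r z h := Jump.eps_nonneg hr
  have e0' : 0 ≤ eps r z (tw z h) := Jump.eps_nonneg hr
  have q0 : 0 ≤ dfc r z h := dfc_nonneg hCov hr (by linarith) hDel
  have q0' : 0 ≤ dfc r z (tw z h) := dfc_nonneg hCov hr (by linarith) hDel'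
  have hRHS : 0 ≤ (12 * C₀ + 5000000) * (r * B * ((eps r z h ^ 2 + dfc r z h) +
        (eps r z (tw z h) ^ 2 + dfc r z (tw z h))) +
        r ^ 2 * B' * (eps r z h + eps r z (tw z h))) := by positivity
  by_cases hz : (flx f e (z h.2.1) (z h.2.2) - flx f e (z h.2.2) (z h.1) = 0 ∧
      flx f e (z (tw z h).2.1) (z (tw z h).2.2) - flx f e (z (tw z h).2.2) (z (tw z h).1) = 0)
  · have z1 : SumC_Phi z r f e h = 0 := by unfold SumC_Phi; rw [hz.1, mul_zero]
    have z2 : SumC_Phi z r f e (tw z h) = 0 := by unfold SumC_Phi; rw [hz.2, mul_zero]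
    rw [z1, z2, add_zero, norm_zero]
    exact hRHS
  · -- both near and twins
    have hN : Near z h ∧ Near z (tw z h) ∧ ∃ k', tw z h = (h.2.1, h.1, k') := by
      by_cases h1 : flx f e (z h.2.1) (z h.2.2) - flx f e (z h.2.2) (z h.1) = 0
      · have h2 : flx f e (z (tw z h).2.1) (z (tw z h).2.2) -
            flx f e (z (tw z h).2.2) (z (tw z h).1) ≠ 0 := fun h2 => hz ⟨h1, h2⟩
        obtain ⟨a1, a2, k'', a3⟩ := flx_near2 hG hCov hr (by linarith) hs e hDel' h2
        rw [tw_tw hG.1 hD] at a2 a3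
        refine ⟨a2, a1, (tw z h).2.2, ?_⟩
        have b1 : h.1 = (tw z h).2.1 := congrArg (fun t : HE n => t.1) a3
        have b2 : h.2.1 = (tw z h).1 := congrArg (fun t : HE n => t.2.1) a3
        rw [b1, b2]
      · exact flx_near2 hG hCov hr (by linarith) hs e hDel h1
    obtain ⟨hN1, hN2, k', hk'⟩ := hN
    clear hz
    obtain ⟨i, j, k⟩ := h
    simp only at hk'
    rw [hk'] at hN2 hDel' e0' q0' hRHS ⊢
    obtain ⟨l1, l2, l3⟩ := near_len hCov hr (by linarith) hN1
    obtain ⟨-, l4, l5⟩ := near_len hCov hr (by linarith) hN2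
    simp only at l1 l2 l3 l4 l5
    have hfl : ∀ p q : ℂ, ‖p - q‖ ≤ 2 * r → ‖flx f e p q‖ ≤ 2 * r * B := by
      intro p q hpq
      refine (flx_norm he hB p q).trans ?_
      rw [norm_sub_rev]
      calc B * ‖p - q‖ ≤ B * (2 * r) := mul_le_mul_of_nonneg_left hpq hB0
        _ = 2 * r * B := by ring
    have F1 := hfl _ _ l2
    have F2 := hfl _ _ l3
    have F3 := hfl _ _ l4
    have F4 := hfl _ _ l5
    have hFF : ‖flx f e (z j) (z k) - flx f e (z k) (z i)‖ ≤ 4 * r * B :=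
      (norm_sub_le _ _).trans (by linarith)
    have hFF' : ‖flx f e (z i) (z k') - flx f e (z k') (z j)‖ ≤ 4 * r * B :=
      (norm_sub_le _ _).trans (by linarith)
    -- bounds of the strain
    have hu : ∀ h : HE n, Good r z h → |uu r (z h.1) (z h.2.1)| ≤ 2 * eps r z h ∧
        |uu r (z h.1) (z h.2.1)| ≤ 1 := by
      intro h hg
      have h1 := uu_est hCov hr hr1 hg
      have h2 : Real.sqrt (dfc r z h) ≤ 1 / 1000 := by
        apply Real.sqrt_le_iff.2
        refine ⟨by norm_num, ?_⟩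
        have := hg.2.2.2.2
        norm_num at this ⊢
        linarith
      refine ⟨?_, by linarith⟩
      unfold eps
      linarith
    by_cases hg : Good r z (i, j, k)
    · by_cases hg' : Good r z (j, i, k')
      · -- both good
        set ε := eps r z (i, j, k) with hε
        set ε' := eps r z (j, i, k') with hε'
        obtain ⟨u1, -⟩ := hu _ hg
        simp only at u1
        have hJ1 := hJ n z r i j k k' hCov hr hr1 hg hg'
        have hBr := SumC_bracket hCov hr hr1 hg hg' he hf hB hB' l1 l2 l3 l4 l5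
        have hp' : ‖ph z (j, i, k')‖ = 1 := ph_norm hg'.1
        set u := uu r (z i) (z j) with hudef
        have hsplit : SumC_Phi z r f e (i, j, k) + SumC_Phi z r f e (j, i, k') =
            (u : ℂ) * ((ph z (i, j, k) - ph z (j, i, k')) *
              (flx f e (z j) (z k) - flx f e (z k) (z i))) +
            (u : ℂ) * (ph z (j, i, k') * (flx f e (z j) (z k) - flx f e (z k) (z i) +
              (flx f e (z i) (z k') - flx f e (z k') (z j)))) := by
          unfold SumC_Phi SumC_P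
          rw [if_pos hg, if_pos hg']
          simp only
          rw [SumC_uu_comm r (z j) (z i), ← hudef]
          ring
        rw [hsplit]
        have n1 : ‖(u : ℂ) * ((ph z (i, j, k) - ph z (j, i, k')) *
              (flx f e (z j) (z k) - flx f e (z k) (z i)))‖ ≤
            (2 * ε) * ((C₀ * (ε + ε')) * (4 * r * B)) := by
          rw [norm_mul, norm_mul, Complex.norm_real, Real.norm_eq_abs]
          refine mul_le_mul u1 (mul_le_mul hJ1 hFF (norm_nonneg _) (by positivity))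
            (by positivity) (by positivity)
        have n2 : ‖(u : ℂ) * (ph z (j, i, k') * (flx f e (z j) (z k) - flx f e (z k) (z i) +
              (flx f e (z i) (z k') - flx f e (z k') (z j))))‖ ≤
            (2 * ε) * (200 * r * B * (ε + ε') + 16 * r ^ 2 * B') := by
          rw [norm_mul, norm_mul, hp', one_mul, Complex.norm_real, Real.norm_eq_abs]
          exact mul_le_mul u1 hBr (norm_nonneg _) (by positivity)
        refine (norm_add_le _ _).trans ((add_le_add n1 n2).trans ?_)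
        have hrB : 0 ≤ r * B := by positivity
        have hrB' : 0 ≤ r ^ 2 * B' := by positivity
        have k1 : ε * (ε + ε') ≤ 3 / 2 * (ε ^ 2 + ε' ^ 2) := by nlinarith [sq_nonneg (ε - ε')]
        have k2 : 8 * C₀ * (r * B) * (ε * (ε + ε')) ≤
            8 * C₀ * (r * B) * (3 / 2 * (ε ^ 2 + ε' ^ 2)) :=
          mul_le_mul_of_nonneg_left k1 (by positivity)
        have k3 : 400 * (r * B) * (ε * (ε + ε')) ≤ 400 * (r * B) * (3 / 2 * (ε ^ 2 + ε' ^ 2)) :=
          mul_le_mul_of_nonneg_left k1 (by positivity)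
        have k4 : 0 ≤ (12 * C₀ + 5000000) * (r * B * (dfc r z (i, j, k) +
            dfc r z (j, i, k'))) := by positivity
        have k5 : 0 ≤ (r * B) * (ε ^ 2 + ε' ^ 2) := by positivity
        have k6 : 0 ≤ (r ^ 2 * B') * ε := by positivity
        have k7 : 0 ≤ (r ^ 2 * B') * ε' := by positivity
        have k8 : 0 ≤ C₀ * ((r ^ 2 * B') * ε) := by positivity
        have k9 : 0 ≤ C₀ * ((r ^ 2 * B') * ε') := by positivity
        nlinarith [k2, k3, k4, k5, k6, k7, k8, k9]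
      · -- the twin is bad
        have hz2 : SumC_Phi z r f e (j, i, k') = 0 := by
          unfold SumC_Phi SumC_P
          rw [if_neg hg', zero_mul, zero_mul]
        have hd' : 1 / 10 ^ 6 < dfc r z (j, i, k') := by
          by_contra hcon
          exact hg' ⟨hN2.1, hN2.2.1, hN2.2.2.1, hN2.2.2.2, not_lt.1 hcon⟩
        rw [hz2, add_zero]
        have n1 : ‖SumC_Phi z r f e (i, j, k)‖ ≤ 1 * 1 * (4 * r * B) := by
          unfold SumC_Phi
          rw [norm_mul, norm_mul, Complex.norm_real, Real.norm_eq_abs]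
          exact mul_le_mul (mul_le_mul (SumC_P_norm _) (hu _ hg).2 (abs_nonneg _) zero_le_one)
            hFF (norm_nonneg _) (by norm_num)
        refine n1.trans ?_
        have hrB : 0 ≤ r * B := by positivity
        have m1 : r * B * (1 / 10 ^ 6) ≤ r * B * dfc r z (j, i, k') :=
          mul_le_mul_of_nonneg_left hd'.le hrB
        have m2 : 0 ≤ C₀ * (r * B * dfc r z (j, i, k')) := by positivity
        have m3 : 0 ≤ (12 * C₀ + 5000000) * (r * B * (eps r z (i, j, k) ^ 2 +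
            dfc r z (i, j, k) + eps r z (j, i, k') ^ 2) +
            r ^ 2 * B' * (eps r z (i, j, k) + eps r z (j, i, k'))) := by positivity
        norm_num at m1 ⊢
        nlinarith [m1, m2, m3]
    · have hz1 : SumC_Phi z r f e (i, j, k) = 0 := by
        unfold SumC_Phi SumC_P
        rw [if_neg hg, zero_mul, zero_mul]
      by_cases hg' : Good r z (j, i, k')
      · have hd' : 1 / 10 ^ 6 < dfc r z (i, j, k) := by
          by_contra hcon
          exact hg ⟨hN1.1, hN1.2.1, hN1.2.2.1, hN1.2.2.2, not_lt.1 hcon⟩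
        rw [hz1, zero_add]
        have n1 : ‖SumC_Phi z r f e (j, i, k')‖ ≤ 1 * 1 * (4 * r * B) := by
          unfold SumC_Phi
          rw [norm_mul, norm_mul, Complex.norm_real, Real.norm_eq_abs]
          exact mul_le_mul (mul_le_mul (SumC_P_norm _) (hu _ hg').2 (abs_nonneg _) zero_le_one)
            hFF' (norm_nonneg _) (by norm_num)
        refine n1.trans ?_
        have hrB : 0 ≤ r * B := by positivity
        have m1 : r * B * (1 / 10 ^ 6) ≤ r * B * dfc r z (i, j, k) :=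
          mul_le_mul_of_nonneg_left hd'.le hrB
        have m2 : 0 ≤ C₀ * (r * B * dfc r z (i, j, k)) := by positivity
        have m3 : 0 ≤ (12 * C₀ + 5000000) * (r * B * (eps r z (i, j, k) ^ 2 +
            dfc r z (j, i, k') + eps r z (j, i, k') ^ 2) +
            r ^ 2 * B' * (eps r z (i, j, k) + eps r z (j, i, k'))) := by positivity
        norm_num at m1 ⊢
        nlinarith [m1, m2, m3]
      · have hz2 : SumC_Phi z r f e (j, i, k') = 0 := by
          unfold SumC_Phi SumC_P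
          rw [if_neg hg', zero_mul, zero_mul]
        rw [hz1, hz2, add_zero, norm_zero]
        exact hRHS

open Classical in
theorem sumC : ∃ C : ℝ, 0 < C ∧ ∀ (n : ℕ) (z : Fin n → ℂ) (r : ℝ), GP z → Cov z r → 0 < r →
    r ≤ 1 / 1000 → ∀ e : ℂ, (e = 1 ∨ e = I) → ∀ f : ℂ → ℂ, ContDiff ℝ 1 f →
    tsupport f ⊆ Metric.ball 0 (1 / 2) → ∀ B B' : ℝ, (∀ x, ‖f x‖ ≤ B) →
    (∀ x, ‖fderiv ℝ f x‖ ≤ B') →
    ‖∑ h ∈ Dset z, (if Good r z h then
        ph z h * ((uu r (z h.1) (z h.2.2) - uu r (z h.2.1) (z h.2.2) : ℝ) : ℂ) else 0) *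
          flx f e (z h.1) (z h.2.1)‖ ≤
      C * (r * B * ∑ h ∈ Dset z, (eps r z h ^ 2 + dfc r z h) +
        r ^ 2 * B' * ∑ h ∈ Dset z, eps r z h) := by
  obtain ⟨C₀, hC₀, hJ⟩ := jump
  refine ⟨12 * C₀ + 5000000, by positivity, ?_⟩
  intro n z r hG hCov hr hr1 e he f hf hs B B' hB hB'
  have he1 : ‖e‖ = 1 := by
    rcases he with rfl | rfl
    · exact norm_one
    · exact Complex.norm_I
  have hsum : ∑ h ∈ Dset z, (if Good r z h then
        ph z h * ((uu r (z h.1) (z h.2.2) - uu r (z h.2.1) (z h.2.2) : ℝ) : ℂ) else 0) *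
          flx f e (z h.1) (z h.2.1) = ∑ h ∈ Dset z, SumC_Phi z r f e h := by
    rw [← SumC_sum]
    refine Finset.sum_congr rfl fun h _ => ?_
    unfold SumC_P
    by_cases hg : Good r z h
    · rw [if_pos hg, if_pos hg]
    · rw [if_neg hg, if_neg hg]
      ring
  rw [hsum]
  have h2 : 2 * ∑ h ∈ Dset z, SumC_Phi z r f e h =
      ∑ h ∈ Dset z, (SumC_Phi z r f e h + SumC_Phi z r f e (tw z h)) := by
    rw [Finset.sum_add_distrib, sum_tw hG.1 (fun h => SumC_Phi z r f e h)]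
    ring
  have h3 : ‖∑ h ∈ Dset z, (SumC_Phi z r f e h + SumC_Phi z r f e (tw z h))‖ ≤
      ∑ h ∈ Dset z, (12 * C₀ + 5000000) * (r * B * ((eps r z h ^ 2 + dfc r z h) +
        (eps r z (tw z h) ^ 2 + dfc r z (tw z h))) +
        r ^ 2 * B' * (eps r z h + eps r z (tw z h))) :=
    (norm_sum_le _ _).trans (Finset.sum_le_sum fun h hh =>
      SumC_pair hC₀ (fun n z r i j k k' a b c d g => (hJ n z r i j k k' a b c d g).1)
        hG hCov hr hr1 he1 hf hs hB hB' hh)
  have h4 : ∑ h ∈ Dset z, (12 * C₀ + 5000000) * (r * B * ((eps r z h ^ 2 + dfc r z h) +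
        (eps r z (tw z h) ^ 2 + dfc r z (tw z h))) +
        r ^ 2 * B' * (eps r z h + eps r z (tw z h))) =
      2 * ((12 * C₀ + 5000000) * (r * B * ∑ h ∈ Dset z, (eps r z h ^ 2 + dfc r z h) +
        r ^ 2 * B' * ∑ h ∈ Dset z, eps r z h)) := by
    have s1 := sum_tw hG.1 (fun h => eps r z h ^ 2)
    have s2 := sum_tw hG.1 (fun h => dfc r z h)
    have s3 := sum_tw hG.1 (fun h => eps r z h)
    simp only [← Finset.mul_sum, Finset.sum_add_distrib]
    rw [s1, s2, s3]
    ring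
  rw [h4, ← h2, norm_mul, Complex.norm_ofNat] at h3
  linarith

end Pool.Agent.CAPS
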