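import Pool.Agent.Lib.MP_488b8a_co.Defs

/-! Project CAPS (MP_488b8a_co), module Twin. -/

namespace Pool.Agent.CAPS

open Complex MeasureTheory

variable {n : ℕ} {z : Fin n → ℂ}

private theorem Twin_nsq (a : ℂ) : ‖a‖ ^ 2 = a.re ^ 2 + a.im ^ 2 := by
  rw [← Complex.normSq_eq_norm_sq, Complex.normSq_apply]; ring

private theorem Twin_abs_crs (d u : ℂ) : |crs d u| ≤ ‖d‖ * ‖u‖ := by
  apply abs_le_of_sq_le_sq _ (by positivity)
  rw [mul_pow, Twin_nsq, Twin_nsq]
  unfold crs
  nlinarith [sq_nonneg (d.re * u.re + d.im * u.im)]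

/-- the right side of the edge contains a point -/
private theorem Twin_right (hH : ∀ y : ℂ, ‖y‖ = 2 → ∃ l, ‖z l - y‖ ≤ 1 / 10) {p d x : ℂ}
    (hd : d ≠ 0) (hx : crs d (x - p) = 0) (hx5 : ‖x‖ ≤ 5 / 8) : ∃ l, crs d (z l - p) < 0 := by
  have hd0 : 0 < ‖d‖ := norm_pos_iff.mpr hd
  have hdd : ((‖d‖ : ℝ) : ℂ) ≠ 0 := by exact_mod_cast hd0.ne'
  obtain ⟨l, hl⟩ := hH (2 * (-I * d / (‖d‖ : ℂ))) (by
    rw [norm_mul, norm_div, norm_mul, norm_neg, Complex.norm_I, Complex.norm_real, norm_norm,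
      one_mul, div_self hd0.ne']
    simp)
  refine ⟨l, ?_⟩
  set y : ℂ := 2 * (-I * d / (‖d‖ : ℂ)) with hy
  have hy1 : y * (‖d‖ : ℂ) = 2 * (-I * d) := by rw [hy]; field_simp
  have hre : y.re * ‖d‖ = 2 * d.im := by
    have := congrArg Complex.re hy1
    simpa using this
  have him : y.im * ‖d‖ = -(2 * d.re) := by
    have := congrArg Complex.im hy1
    simpa using this
  have hcy : crs d y * ‖d‖ = -(2 * ‖d‖ ^ 2) := by
    rw [Twin_nsq]; unfold crs
    linear_combination d.re * him - d.im * hre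
  have hcy' : crs d y = -(2 * ‖d‖) := by
    have h1 : crs d y * ‖d‖ = -(2 * ‖d‖) * ‖d‖ := by rw [hcy]; ring
    exact mul_right_cancel₀ hd0.ne' h1
  have h1 := Twin_abs_crs d (z l - y)
  have h2 := Twin_abs_crs d x
  have h3 : crs d (z l - p) = crs d y + crs d (z l - y) - crs d x + crs d (x - p) := by
    unfold crs; simp only [Complex.sub_re, Complex.sub_im]; ring
  rw [h3, hx, hcy']
  have h1' := (abs_le.mp h1).2
  have h2' := (abs_le.mp h2).1
  have h4 : ‖d‖ * ‖z l - y‖ ≤ ‖d‖ * (1 / 10) := mul_le_mul_of_nonneg_left hl hd0.le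
  have h5 : ‖d‖ * ‖x‖ ≤ ‖d‖ * (5 / 8) := mul_le_mul_of_nonneg_left hx5 hd0.le
  nlinarith

theorem twin_exists (hG : GP z) (hH : ∀ y : ℂ, ‖y‖ = 2 → ∃ l, ‖z l - y‖ ≤ 1 / 10) {h : HE n}
    (hD : Del z h) {x : ℂ} (hx : x ∈ segment ℝ (z h.1) (z h.2.1)) (hx5 : ‖x‖ ≤ 5 / 8) :
    ∃ k', Del z (h.2.1, h.1, k') := by
  classical
  obtain ⟨hor, c, q, hp, hq, hw, hem⟩ := hD
  set p : ℂ := z h.1 with hpdef
  set qq : ℂ := z h.2.1 with hqdef
  set w : ℂ := z h.2.2 with hwdef
  set d : ℂ := qq - p with hd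
  have hd0 : d ≠ 0 := by
    intro h0
    rw [h0] at hor
    simp [crs] at hor
  have h12 : h.1 ≠ h.2.1 := by
    intro he
    apply hd0
    rw [hd, hqdef, hpdef, he, sub_self]
  -- the signed distance, negative on the right side
  set S : ℂ → ℝ := fun y => crs d (y - p) with hS
  have hSp : S p = 0 := by simp [hS, crs]
  have hSq : S qq = 0 := by simp only [hS, hd, crs]; ring
  have hSw : 0 < S w := hor
  have hSx : crs d (x - p) = 0 := by
    obtain ⟨a, b, ha, hb, hab, rfl⟩ := hx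
    have : (a • p + b • qq : ℂ) - p = b • d := by
      have ha' : a = 1 - b := by linarith
      rw [ha', hd]
      module
    rw [this]
    simp only [crs, Complex.real_smul, Complex.mul_re, Complex.mul_im, Complex.ofReal_re,
      Complex.ofReal_im]
    ring
  obtain ⟨l0, hl0⟩ := Twin_right hH hd0 hSx hx5
  have hl0' : S (z l0) < 0 := hl0
  set F : ℂ → ℝ := fun y => ‖y - c‖ ^ 2 - q with hF
  have hFp : F p = 0 := by simp only [hF]; rw [hp]; ring
  have hFq : F qq = 0 := by simp only [hF]; rw [hq]; ring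
  have hFw : F w = 0 := by simp only [hF]; rw [hw]; ring
  have hFpos : ∀ l, l ≠ h.1 → l ≠ h.2.1 → l ≠ h.2.2 → 0 < F (z l) := by
    intro l h1 h2 h3
    have := hem l h1 h2 h3
    simp only [hF]; linarith
  obtain ⟨k, hk, hmin⟩ := Finset.exists_min_image
    (Finset.univ.filter (fun l : Fin n => S (z l) < 0)) (fun l => F (z l) / (-S (z l)))
    ⟨l0, by simp only [Finset.mem_filter, Finset.mem_univ, true_and]; exact hl0'⟩
  simp only [Finset.mem_filter, Finset.mem_univ, true_and] at hk hmin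
  have hk1 : k ≠ h.1 := by rintro rfl; rw [← hpdef, hSp] at hk; exact lt_irrefl _ hk
  have hk2 : k ≠ h.2.1 := by rintro rfl; rw [← hqdef, hSq] at hk; exact lt_irrefl _ hk
  have hk3 : k ≠ h.2.2 := by rintro rfl; rw [← hwdef] at hk; linarith
  have hSk : 0 < -S (z k) := by linarith
  have hFk : 0 < F (z k) := hFpos k hk1 hk2 hk3
  set ρ : ℝ := F (z k) / (-S (z k)) with hρ
  have hρ0 : 0 < ρ := div_pos hFk hSk
  have hρk : F (z k) + ρ * S (z k) = 0 := by
    have : ρ * (-S (z k)) = F (z k) := div_mul_cancel₀ _ hSk.ne'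
    linarith
  -- the new circle
  set c' : ℂ := ⟨c.re + ρ * d.im / 2, c.im - ρ * d.re / 2⟩ with hc'
  set q' : ℝ := ‖c'‖ ^ 2 - (‖c‖ ^ 2 - q - ρ * (d.re * p.im - d.im * p.re)) with hq'
  have hnew : ∀ y : ℂ, ‖y - c'‖ ^ 2 - q' = F y + ρ * S y := by
    intro y
    simp only [hF, hS, hq', Twin_nsq, Complex.sub_re, Complex.sub_im, crs]
    simp only [hc']
    ring
  have hne : ∀ l, l ≠ h.2.1 → l ≠ h.1 → l ≠ k → 0 < F (z l) + ρ * S (z l) := by
    intro l hl1 hl2 hl3
    rcases lt_trichotomy (S (z l)) 0 with hs | hs | hs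
    · have hle : 0 ≤ F (z l) + ρ * S (z l) := by
        have h1 := hmin l hs
        have h2 : 0 < -S (z l) := by linarith
        have h3 : ρ * (-S (z l)) ≤ F (z l) := by
          rw [← le_div_iff₀ h2]; exact h1
        linarith
      rcases hle.lt_or_eq with hlt | heq
      · exact hlt
      · exfalso
        have key : ∀ i : Fin n, F (z i) + ρ * S (z i) = 0 →
            (1 : ℝ) * ‖z i‖ ^ 2 + ((-2 * c' : ℂ).re * (z i).re + (-2 * c' : ℂ).im * (z i).im) +
              (‖c'‖ ^ 2 - q') = 0 := by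
          intro i hi
          rw [← hnew] at hi
          rw [Twin_nsq] at hi ⊢
          rw [Twin_nsq c']
          simp only [Complex.sub_re, Complex.sub_im] at hi
          have e1 : (-2 * c' : ℂ).re = -2 * c'.re := by simp
          have e2 : (-2 * c' : ℂ).im = -2 * c'.im := by simp
          rw [e1, e2]
          linear_combination hi
        have hfin := hG.2 h.1 h.2.1 k l h12 hk1.symm hl2.symm hk2.symm hl1.symm hl3.symm
          1 (‖c'‖ ^ 2 - q') (-2 * c') (key h.1 (by rw [← hpdef, hFp, hSp]; ring))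
          (key h.2.1 (by rw [← hqdef, hFq, hSq]; ring)) (key k hρk) (key l heq.symm)
        exact one_ne_zero hfin.1
    · have hl4 : l ≠ h.2.2 := by rintro rfl; rw [← hwdef] at hs; linarith
      rw [hs, mul_zero, add_zero]
      exact hFpos l hl2 hl1 hl4
    · have h1 : 0 ≤ F (z l) := by
        by_cases hl4 : l = h.2.2
        · rw [hl4, ← hwdef, hFw]
        · exact (hFpos l hl2 hl1 hl4).le
      have h2 : 0 < ρ * S (z l) := mul_pos hρ0 hs
      linarith
  refine ⟨k, ?_, c', q', ?_, ?_, ?_, ?_⟩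
  · show 0 < crs (z h.1 - z h.2.1) (z k - z h.2.1)
    rw [← hpdef, ← hqdef]
    have : crs (p - qq) (z k - qq) = -S (z k) := by
      simp only [hS, hd, crs, Complex.sub_re, Complex.sub_im]; ring
    rw [this]; exact hSk
  · show ‖z h.2.1 - c'‖ ^ 2 = q'
    have := hnew (z h.2.1)
    rw [← hqdef, hFq, hSq] at this
    rw [← hqdef]; linarith
  · show ‖z h.1 - c'‖ ^ 2 = q'
    have := hnew (z h.1)
    rw [← hpdef, hFp, hSp] at this
    rw [← hpdef]; linarith
  · show ‖z k - c'‖ ^ 2 = q'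
    have := hnew (z k)
    linarith
  · intro l hl1 hl2 hl3
    have h1 := hnew (z l)
    have h2 := hne l hl1 hl2 hl3
    linarith

end Pool.Agent.CAPS
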