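import Pool.Agent.Lib.MP_488b8a_co.Pair
import Pool.Agent.Lib.MP_488b8a_co.Twin
import Pool.Agent.Lib.MP_488b8a_co.NearR
import Pool.Agent.Lib.MP_488b8a_co.Hull
import Pool.Agent.Lib.MP_488b8a_co.Flx

/-! Project CAPS (MP_488b8a_co), module NearTw. -/

namespace Pool.Agent.CAPS

open Complex MeasureTheory

variable {n : ℕ} {z : Fin n → ℂ} {r : ℝ}

private theorem NearTw_key (hG : GP z) (hC : Cov z r) (hr : 0 < r) (hr1 : r ≤ 1 / 100) {h : HE n}
    (hD : Del z h) {x : ℂ} (hx : x ∈ segment ℝ (z h.1) (z h.2.1)) (hx5 : ‖x‖ ≤ 5 / 8) :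
    Near z h ∧ Near z (tw z h) ∧ ∃ k', tw z h = (h.2.1, h.1, k') := by
  have hx1 : x ∈ convexHull ℝ {z h.1, z h.2.1, z h.2.2} :=
    segment_subset_convexHull (by simp) (by simp) hx
  have hn := near_pts hC hr hr1 hD hx1 hx5
  obtain ⟨k', hk', hDk⟩ := tw_of_exists (twin_exists hG (hull_pts hC hr hr1) hD hx hx5)
  refine ⟨hn.1, ?_, k', hk'⟩
  have hx2 : x ∈ convexHull ℝ {z (tw z h).1, z (tw z h).2.1, z (tw z h).2.2} := by
    rw [hk']
    refine segment_subset_convexHull (x := z h.1) (y := z h.2.1) (by simp) (by simp) hx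
  exact (near_pts hC hr hr1 hDk hx2 hx5).1

private theorem NearTw_pt {f : ℂ → ℂ} (hf : tsupport f ⊆ Metric.ball 0 (1 / 2)) {e p q : ℂ}
    (h0 : flx f e p q ≠ 0) : ∃ x ∈ segment ℝ p q, ‖x‖ ≤ 1 / 2 := by
  by_contra hcon
  apply h0
  apply flx_zero
  intro x hx
  by_contra hfx
  apply hcon
  refine ⟨x, hx, ?_⟩
  have h1 : x ∈ tsupport f := subset_tsupport f hfx
  have h2 := hf h1
  rw [mem_ball_zero_iff] at h2
  exact h2.le

/-- the flux through a half-edge vanishes or the half-edge and its twin are near and twins -/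
theorem flx_near (hG : GP z) (hC : Cov z r) (hr : 0 < r) (hr1 : r ≤ 1 / 100) {f : ℂ → ℂ}
    (hf : tsupport f ⊆ Metric.ball 0 (1 / 2)) (e : ℂ) {h : HE n} (hD : Del z h)
    (h0 : flx f e (z h.1) (z h.2.1) ≠ 0) :
    Near z h ∧ Near z (tw z h) ∧ ∃ k', tw z h = (h.2.1, h.1, k') := by
  obtain ⟨x, hx, hx2⟩ := NearTw_pt hf h0
  exact NearTw_key hG hC hr hr1 hD hx (by linarith)

theorem flx_near2 (hG : GP z) (hC : Cov z r) (hr : 0 < r) (hr1 : r ≤ 1 / 100) {f : ℂ → ℂ}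
    (hf : tsupport f ⊆ Metric.ball 0 (1 / 2)) (e : ℂ) {h : HE n} (hD : Del z h)
    (h0 : flx f e (z h.2.1) (z h.2.2) - flx f e (z h.2.2) (z h.1) ≠ 0) :
    Near z h ∧ Near z (tw z h) ∧ ∃ k', tw z h = (h.2.1, h.1, k') := by
  have hx : ∃ x ∈ convexHull ℝ {z h.1, z h.2.1, z h.2.2}, ‖x‖ ≤ 1 / 2 := by
    by_cases h1 : flx f e (z h.2.1) (z h.2.2) = 0
    · have h2 : flx f e (z h.2.2) (z h.1) ≠ 0 := by
        intro h2
        apply h0
        rw [h1, h2, sub_zero]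
      obtain ⟨x, hx, hx2⟩ := NearTw_pt hf h2
      exact ⟨x, segment_subset_convexHull (by simp) (by simp) hx, hx2⟩
    · obtain ⟨x, hx, hx2⟩ := NearTw_pt hf h1
      exact ⟨x, segment_subset_convexHull (by simp) (by simp) hx, hx2⟩
  obtain ⟨x, hx, hx2⟩ := hx
  obtain ⟨-, h1, -, -⟩ := near_pts hC hr hr1 hD hx (by linarith)
  have h3 : ‖z h.1‖ ≤ 5 / 8 := by
    have h4 : z h.1 = (z h.1 - x) + x := by ring
    have h5 : ‖z h.1‖ ≤ ‖z h.1 - x‖ + ‖x‖ := by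
      conv_lhs => rw [h4]
      exact norm_add_le _ _
    linarith
  exact NearTw_key hG hC hr hr1 hD (left_mem_segment ℝ _ _) h3

theorem flx_tw (hG : GP z) (hC : Cov z r) (hr : 0 < r) (hr1 : r ≤ 1 / 100) {f : ℂ → ℂ}
    (hf : tsupport f ⊆ Metric.ball 0 (1 / 2)) (e : ℂ) {h : HE n} (hD : Del z h) :
    flx f e (z (tw z h).1) (z (tw z h).2.1) = - flx f e (z h.1) (z h.2.1) := by
  by_cases H : ∃ k', Del z (h.2.1, h.1, k')
  · obtain ⟨k', hk', -⟩ := tw_of_exists H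
    rw [hk']
    exact flx_symm f e _ _
  · have h1 := tw_of_not H
    have h2 : flx f e (z h.1) (z h.2.1) = 0 := by
      by_contra h0
      obtain ⟨x, hx, hx2⟩ := NearTw_pt hf h0
      exact H (twin_exists hG (hull_pts hC hr hr1) hD hx (by linarith))
    rw [h1, h2, neg_zero]

end Pool.Agent.CAPS
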