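import Pool.Agent.Lib.MP_488b8a_co.Lam
import Pool.Agent.Lib.MP_488b8a_co.NearTw
import Pool.Agent.Lib.MP_488b8a_co.PsiI

/-! Project CAPS (MP_488b8a_co), module SumD. -/

namespace Pool.Agent.CAPS

open Complex MeasureTheory

private theorem SumD_crs_le (a b : ℂ) : |crs a b| ≤ ‖a‖ * ‖b‖ := by
  have h : crs a b = ((starRingEnd ℂ) a * b).im := by
    simp [crs, Complex.mul_im]
    ring
  rw [h]
  refine (Complex.abs_im_le_norm _).trans ?_
  rw [norm_mul, Complex.norm_conj]

/-- the open triangle is contained in the convex hull of its vertices -/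
private theorem SumD_hull {p q w x : ℂ} (h : 0 < crs (q - p) (w - p)) (hx : x ∈ triS p q w) :
    x ∈ convexHull ℝ {p, q, w} := by
  obtain ⟨h1, h2, h3⟩ := hx
  set c := crs (q - p) (w - p) with hc
  have e1 : crs (p - w) (x - w) = crs (x - p) (w - p) := by
    simp only [crs, Complex.sub_re, Complex.sub_im]
    ring
  have e2 : crs (w - q) (x - q) = c - crs (x - p) (w - p) - crs (q - p) (x - p) := by
    rw [hc]
    simp only [crs, Complex.sub_re, Complex.sub_im]
    ring
  have e3 : (c : ℂ) * (x - p) = (crs (x - p) (w - p) : ℂ) * (q - p) +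
      (crs (q - p) (x - p) : ℂ) * (w - p) := by
    rw [hc]
    apply Complex.ext
    · simp only [crs, Complex.sub_re, Complex.sub_im, Complex.mul_re, Complex.add_re,
        Complex.ofReal_re, Complex.ofReal_im]
      ring
    · simp only [crs, Complex.sub_re, Complex.sub_im, Complex.mul_im, Complex.add_im,
        Complex.ofReal_re, Complex.ofReal_im]
      ring
  rw [e1] at h3
  rw [e2] at h2
  set b1 := crs (x - p) (w - p) with hb1
  set b2 := crs (q - p) (x - p) with hb2
  have hcc : (c : ℂ) ≠ 0 := by exact_mod_cast h.ne'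
  have hx : x = ∑ i : Fin 3, (![(c - b1 - b2) / c, b1 / c, b2 / c] : Fin 3 → ℝ) i •
      (![p, q, w] : Fin 3 → ℂ) i := by
    rw [Fin.sum_univ_three]
    simp only [Matrix.cons_val_zero, Matrix.cons_val_one, Matrix.cons_val_two, Matrix.tail_cons,
      Matrix.head_cons, Matrix.cons_val, Complex.real_smul]
    have : (c : ℂ) * x = ((c - b1 - b2 : ℝ) : ℂ) * p + (b1 : ℂ) * q + (b2 : ℂ) * w := by
      push_cast
      linear_combination e3
    apply mul_left_cancel₀ hcc
    rw [this]
    push_cast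
    field_simp
  rw [hx]
  refine (convex_convexHull ℝ _).sum_mem ?_ ?_ ?_
  · intro i _
    fin_cases i
    · show (0 : ℝ) ≤ (c - b1 - b2) / c
      exact div_nonneg h2.le h.le
    · show (0 : ℝ) ≤ b1 / c
      exact div_nonneg h3.le h.le
    · show (0 : ℝ) ≤ b2 / c
      exact div_nonneg h1.le h.le
  · rw [Fin.sum_univ_three]
    show (c - b1 - b2) / c + b1 / c + b2 / c = 1
    field_simp
    ring
  · intro i _
    apply subset_convexHull
    fin_cases i
    · show p ∈ ({p, q, w} : Set ℂ)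
      simp
    · show q ∈ ({p, q, w} : Set ℂ)
      simp
    · show w ∈ ({p, q, w} : Set ℂ)
      simp

private theorem SumD_AA_cont (e : ℂ) : Continuous (fun x : ℂ => (AA e x : ℂ)) := by
  unfold AA crs
  apply Complex.continuous_ofReal.comp
  apply Continuous.div
  · fun_prop
  · fun_prop
  · intro x
    positivity

open Classical in
theorem sumD : ∃ C : ℝ, 0 < C ∧ ∀ (n : ℕ) (z : Fin n → ℂ) (r : ℝ), GP z → Cov z r → 0 < r →
    r ≤ 1 / 1000 → ∀ e : ℂ, (e = 1 ∨ e = I) → ∀ f : ℂ → ℂ, ContDiff ℝ 1 f →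
    tsupport f ⊆ Metric.ball 0 (1 / 2) → ∀ B B' : ℝ, (∀ x, ‖f x‖ ≤ B) →
    (∀ x, ‖fderiv ℝ f x‖ ≤ B') →
    ‖∑ h ∈ Dset z, (if Good r z h then
        ph z h * ((1 / 2 * (lg (z h.1) - lg (z h.2.1)) : ℝ) : ℂ) else 0) *
          flx f e (z h.1) (z h.2.1) -
        (Real.sqrt 3 : ℂ) * ∫ x, psi z x * ((AA e x : ℂ) * f x)‖ ≤
      C * r ^ 2 * ∑ h ∈ Dset z, (B * (eps r z h + dfc r z h) + r * (B + B')) := by
  obtain ⟨C₀, hC₀, hlam⟩ := lam_est
  refine ⟨C₀ + 4 * 10 ^ 6, by positivity, ?_⟩
  intro n z r _ hC hr hr1 e he f hf hsupp B B' hB hB'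
  have hB0 : 0 ≤ B := (norm_nonneg _).trans (hB 0)
  have hB'0 : 0 ≤ B' := (norm_nonneg _).trans (hB' 0)
  have he1 : ‖e‖ = 1 := by
    rcases he with rfl | rfl
    · exact norm_one
    · exact Complex.norm_I
  have hs3 : Real.sqrt 3 ≤ 2 := by
    rw [Real.sqrt_le_left (by norm_num)]
    norm_num
  have hs30 : 0 ≤ Real.sqrt 3 := Real.sqrt_nonneg 3
  -- the function under the integral
  set g : ℂ → ℂ := fun x => (AA e x : ℂ) * f x with hg
  have hcomp : HasCompactSupport f :=
    HasCompactSupport.of_support_subset_isCompact (isCompact_closedBall (0 : ℂ) (1 / 2))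
      ((subset_tsupport f).trans (hsupp.trans Metric.ball_subset_closedBall))
  have hgint : Integrable g :=
    ((SumD_AA_cont e).mul hf.continuous).integrable_of_hasCompactSupport
      (hcomp.mul_left (f := fun x => (AA e x : ℂ)))
  have hf0 : ∀ x : ℂ, f x ≠ 0 → ‖x‖ < 1 / 2 := by
    intro x hx
    have := hsupp (subset_tsupport f hx)
    rwa [Metric.mem_ball, dist_zero_right] at this
  -- the terms
  set Φ : HE n → ℂ := fun h => (if Good r z h then
    ph z h * ((1 / 2 * (lg (z h.1) - lg (z h.2.1)) : ℝ) : ℂ) else 0) *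
      flx f e (z h.1) (z h.2.1) with hΦ
  set br : HE n → ℂ := fun h =>
    (1 / 2 : ℂ) * (((lg (z h.1) - lg (z h.2.1) : ℝ) : ℂ) * flx f e (z h.1) (z h.2.1) +
        ((lg (z h.2.1) - lg (z h.2.2) : ℝ) : ℂ) * flx f e (z h.2.1) (z h.2.2) +
        ((lg (z h.2.2) - lg (z h.1) : ℝ) : ℂ) * flx f e (z h.2.2) (z h.1)) with hbr
  set T : HE n → ℂ := fun h => (if Good r z h then ph z h * br h else 0) -
    (Real.sqrt 3 : ℂ) * (ph z h * ∫ x in tri z h, g x) with hT
  have hrot : ∀ h : HE n, Φ h + Φ (rot h) + Φ (rot (rot h)) =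
      if Good r z h then ph z h * br h else 0 := by
    intro h
    have g1 : Good r z (rot h) ↔ Good r z h := Good_rot
    have g2 : Good r z (rot (rot h)) ↔ Good r z h := Good_rot.trans Good_rot
    have p1 : ph z (rot h) = ph z h := ph_rot h
    have p2 : ph z (rot (rot h)) = ph z h := (ph_rot (rot h)).trans (ph_rot h)
    simp only [hΦ, hbr]
    by_cases hgd : Good r z h
    · rw [if_pos hgd, if_pos (g1.2 hgd), if_pos (g2.2 hgd), if_pos hgd, p1, p2]
      show ph z h * ((1 / 2 * (lg (z h.1) - lg (z h.2.1)) : ℝ) : ℂ) *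
          flx f e (z h.1) (z h.2.1) +
        ph z h * ((1 / 2 * (lg (z h.2.1) - lg (z h.2.2)) : ℝ) : ℂ) *
          flx f e (z h.2.1) (z h.2.2) +
        ph z h * ((1 / 2 * (lg (z h.2.2) - lg (z h.1)) : ℝ) : ℂ) *
          flx f e (z h.2.2) (z h.1) = _
      push_cast
      ring
    · rw [if_neg hgd, if_neg (fun h' => hgd (g1.1 h')), if_neg (fun h' => hgd (g2.1 h')),
        if_neg hgd]
      ring
  have hsum3 : 3 * ∑ h ∈ Dset z, Φ h = ∑ h ∈ Dset z, (if Good r z h then ph z h * br h else 0) := by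
    have a1 : ∑ h ∈ Dset z, Φ (rot h) = ∑ h ∈ Dset z, Φ h := sum_rot Φ
    have a2 : ∑ h ∈ Dset z, Φ (rot (rot h)) = ∑ h ∈ Dset z, Φ (rot h) :=
      sum_rot (fun h => Φ (rot h))
    rw [← Finset.sum_congr rfl (fun h _ => hrot h), Finset.sum_add_distrib,
      Finset.sum_add_distrib, a2, a1]
    ring
  have hmain : ∑ h ∈ Dset z, Φ h - (Real.sqrt 3 : ℂ) * ∫ x, psi z x * g x =
      (1 / 3) * ∑ h ∈ Dset z, T h := by
    rw [psi_int hgint]
    simp only [hT]
    rw [Finset.sum_sub_distrib, ← hsum3, ← Finset.mul_sum]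
    ring
  have hgoal : ‖∑ h ∈ Dset z, Φ h - (Real.sqrt 3 : ℂ) * ∫ x, psi z x * g x‖ ≤
      (C₀ + 4 * 10 ^ 6) * r ^ 2 *
        ∑ h ∈ Dset z, (B * (eps r z h + dfc r z h) + r * (B + B')) := by
    rw [hmain, norm_mul]
    have h13 : ‖(1 / 3 : ℂ)‖ ≤ 1 := by norm_num
    refine (mul_le_mul_of_nonneg_right h13 (norm_nonneg _)).trans ?_
    rw [one_mul, Finset.mul_sum]
    refine (norm_sum_le _ _).trans (Finset.sum_le_sum fun h hh => ?_)
    have hD : Del z h := mem_Dset.1 hh
    have hdn : 0 ≤ dfc r z h := dfc_nonneg hC hr (by linarith) hD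
    have heps : 0 ≤ eps r z h := by
      unfold eps
      positivity
    have hph := ph_norm hD
    simp only [hT]
    by_cases hgd : Good r z h
    · rw [if_pos hgd]
      have e1 : ph z h * br h - (Real.sqrt 3 : ℂ) * (ph z h * ∫ x in tri z h, g x) =
          ph z h * (br h - (Real.sqrt 3 : ℂ) * ∫ x in tri z h, g x) := by ring
      rw [e1, norm_mul, hph, one_mul]
      refine (hlam n z r h hC hr hr1 hgd e he f hf B B' hB hB').trans ?_
      have c1 : 0 ≤ r ^ 2 * (B * eps r z h) := by positivity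
      have c2 : 0 ≤ r ^ 2 * (B * dfc r z h) := by positivity
      have c3 : 0 ≤ r ^ 2 * (r * (B + B')) := by positivity
      have c4 : 0 ≤ C₀ * (r ^ 2 * (B * dfc r z h)) := by positivity
      nlinarith
    · rw [if_neg hgd, zero_sub, norm_neg, norm_mul, norm_mul, hph, one_mul, Complex.norm_real,
        Real.norm_eq_abs, abs_of_nonneg hs30]
      have hnn : 0 ≤ (C₀ + 4 * 10 ^ 6) * r ^ 2 *
          (B * (eps r z h + dfc r z h) + r * (B + B')) := by positivity
      by_cases hex : ∃ x ∈ tri z h, f x ≠ 0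
      · obtain ⟨x, hx, hfx⟩ := hex
        have hx2 := hf0 x hfx
        have hhull : x ∈ convexHull ℝ {z h.1, z h.2.1, z h.2.2} := SumD_hull hD.1 hx
        obtain ⟨hN, -⟩ := near_pts hC hr (by linarith) hD hhull (by linarith)
        have hdf : 1 / 10 ^ 6 < dfc r z h := by
          by_contra hle
          exact hgd ⟨hD, hN.2.1, hN.2.2.1, hN.2.2.2, not_lt.1 hle⟩
        obtain ⟨l1, l2, l3⟩ := near_len hC hr (by linarith) hN
        have hcr : crs (z h.2.1 - z h.1) (z h.2.2 - z h.1) ≤ 4 * r ^ 2 := by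
          refine (le_abs_self _).trans ((SumD_crs_le _ _).trans ?_)
          rw [norm_sub_rev (z h.2.1)]
          have := mul_le_mul l1 l3 (norm_nonneg _) (by positivity : (0 : ℝ) ≤ 2 * r)
          nlinarith
        have hvol := area_triS hD.1
        have hvr : (volume.real (tri z h)) = crs (z h.2.1 - z h.1) (z h.2.2 - z h.1) / 2 := by
          show volume.real (triS _ _ _) = _
          rw [Measure.real, hvol, ENNReal.toReal_ofReal (by have := hD.1; positivity)]
        have hfin : volume (tri z h) < ⊤ := by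
          show volume (triS _ _ _) < ⊤
          rw [hvol]
          exact ENNReal.ofReal_lt_top
        have hpt : ∀ x ∈ tri z h, ‖g x‖ ≤ B := by
          intro x _
          show ‖(AA e x : ℂ) * f x‖ ≤ B
          rw [norm_mul, Complex.norm_real, Real.norm_eq_abs]
          calc |AA e x| * ‖f x‖ ≤ 1 * B :=
                mul_le_mul (AA_le he1.le x) (hB x) (norm_nonneg _) zero_le_one
            _ = B := one_mul _
        have hI : ‖∫ x in tri z h, g x‖ ≤ B * (2 * r ^ 2) := by
          refine (norm_setIntegral_le_of_norm_le_const (μ := volume) hfin hpt).trans ?_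
          rw [hvr]
          exact mul_le_mul_of_nonneg_left (by linarith) hB0
        have h2 : Real.sqrt 3 * ‖∫ x in tri z h, g x‖ ≤ 2 * (B * (2 * r ^ 2)) :=
          mul_le_mul hs3 hI (norm_nonneg _) (by norm_num)
        refine h2.trans ?_
        have c0 : 0 ≤ B * r ^ 2 := by positivity
        have c5 : B * r ^ 2 * (1 / 10 ^ 6) ≤ B * r ^ 2 * dfc r z h :=
          mul_le_mul_of_nonneg_left hdf.le c0
        have c1 : 0 ≤ (C₀ + 4 * 10 ^ 6) * (r ^ 2 * (B * eps r z h)) := by positivity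
        have c3 : 0 ≤ (C₀ + 4 * 10 ^ 6) * (r ^ 2 * (r * (B + B'))) := by positivity
        have c4 : 0 ≤ C₀ * (r ^ 2 * (B * dfc r z h)) := by positivity
        nlinarith
      · have hz : ∫ x in tri z h, g x = 0 := by
          refine setIntegral_eq_zero_of_forall_eq_zero fun x hx => ?_
          have : f x = 0 := by
            by_contra hfx
            exact hex ⟨x, hx, hfx⟩
          show (AA e x : ℂ) * f x = 0
          rw [this, mul_zero]
        rw [hz, norm_zero, mul_zero]
        exact hnn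
  exact hgoal

end Pool.Agent.CAPS
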