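import Pool.Agent.Lib.MP_488b8a_co.SumA
import Pool.Agent.Lib.MP_488b8a_co.SumB
import Pool.Agent.Lib.MP_488b8a_co.SumC
import Pool.Agent.Lib.MP_488b8a_co.SumD
import Pool.Agent.Lib.MP_488b8a_co.Count
import Pool.Agent.Lib.MP_488b8a_co.PsiN
import Pool.Agent.Lib.MP_488b8a_co.PsiI
import Pool.Agent.Lib.MP_488b8a_co.Tlen

/-! Project CAPS (MP_488b8a_co), module Geo. -/

namespace Pool.Agent.CAPS

open Complex MeasureTheory

private lemma card_Dset {n : ℕ} {z : Fin n → ℂ} (hz : Function.Injective z) :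
    (Dset z).card ≤ 6 * n := by
  classical
  obtain ⟨S, hS0, hScard, hS⟩ := count z hz
  have hsub : Dset z ⊆ S ∪ (S.image rot ∪ S.image (fun h => rot (rot h))) := by
    intro h hh
    rw [mem_Dset] at hh
    simp only [Finset.mem_union, Finset.mem_image]
    rcases hS h hh with h1 | h1 | h1
    · exact Or.inl h1
    · exact Or.inr (Or.inr ⟨rot h, h1, rot_rot_rot h⟩)
    · exact Or.inr (Or.inl ⟨rot (rot h), h1, rot_rot_rot h⟩)
  have h1 := Finset.card_le_card hsub
  have h2 := Finset.card_union_le S (S.image rot ∪ S.image (fun h => rot (rot h)))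
  have h3 := Finset.card_union_le (S.image rot) (S.image (fun h => rot (rot h)))
  have h4 : (S.image rot).card ≤ S.card := Finset.card_image_le
  have h5 : (S.image (fun h => rot (rot h))).card ≤ S.card := Finset.card_image_le
  omega

private lemma int_mul {ψ g : ℂ → ℂ} (hψ : Nice ψ) (hg : Integrable g) :
    Integrable (fun x => ψ x * g x) := by
  obtain ⟨hm, hb, -, -⟩ := hψ
  exact hg.bdd_mul hm.aestronglyMeasurable (Filter.Eventually.of_forall hb)

private lemma supp_compact {f : ℂ → ℂ} (hs : tsupport f ⊆ Metric.ball 0 (1 / 2)) :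
    HasCompactSupport f :=
  (isCompact_closedBall (0 : ℂ) (1 / 2)).of_isClosed_subset (isClosed_tsupport f)
    (hs.trans Metric.ball_subset_closedBall)

private lemma AA_cont (e : ℂ) : Continuous (fun x : ℂ => (AA e x : ℂ)) := by
  unfold AA crs
  refine Complex.continuous_ofReal.comp ?_
  refine Continuous.div ?_ ?_ ?_
  · fun_prop
  · fun_prop
  · intro x; positivity

theorem geo : ∃ C r₀ : ℝ, 0 < C ∧ 0 < r₀ ∧ ∀ (n : ℕ) (z : Fin n → ℂ) (r : ℝ), GP z → Cov z r →
    0 < r → r ≤ r₀ → (n : ℝ) * r ^ 2 ≤ 10 → 0 ≤ EE r z ∧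
    ∃ ψ : ℂ → ℂ, Nice ψ ∧ H1 ψ (C * (Real.sqrt (EE r z) + 1 + r * EE r z)) ∧
      H2 ψ (C * r * (EE r z + 1)) (C * r * (Real.sqrt (EE r z) + 1)) := by
  classical
  obtain ⟨CA, hCA, hA⟩ := sumA
  obtain ⟨CB, hCB, hB⟩ := sumB
  obtain ⟨CC, hCC, hCsum⟩ := sumC
  obtain ⟨CD, hCD, hD⟩ := sumD
  refine ⟨60 * CA + 120 * CB + 480 * CC + 604 * CD, 1 / 1000, by positivity, by norm_num, ?_⟩
  intro n z r hG hC hr hr0 hn
  have hr100 : r ≤ 1 / 100 := by linarith
  have hr1 : r ≤ 1 := by linarith
  have hdn : ∀ h ∈ Dset z, 0 ≤ dfc r z h := fun h hh => dfc_nonneg hC hr hr1 (mem_Dset.1 hh)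
  have hE : 0 ≤ EE r z := Finset.sum_nonneg hdn
  refine ⟨hE, psi z, psi_nice hG hC hr hr100, ?_, ?_⟩
  all_goals
    set E := EE r z with hEdef
    set N : ℝ := ((Dset z).card : ℝ) with hN
    have hNr : N * r ^ 2 ≤ 60 := by
      have h1 : N ≤ 6 * n := by
        rw [hN]; exact_mod_cast card_Dset hG.1
      have : N * r ^ 2 ≤ 6 * n * r ^ 2 := mul_le_mul_of_nonneg_right h1 (sq_nonneg r)
      linarith
    have hN0 : 0 ≤ N := Nat.cast_nonneg _
    have hsE : 0 ≤ Real.sqrt E := Real.sqrt_nonneg _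
    have hsE2 : Real.sqrt E ^ 2 = E := Real.sq_sqrt hE
    -- sum of the square roots
    have hSs : ∑ h ∈ Dset z, Real.sqrt (dfc r z h) ≤ Real.sqrt N * Real.sqrt E := by
      rw [← Real.sqrt_mul hN0]
      apply Real.le_sqrt_of_sq_le
      have h1 := sq_sum_le_card_mul_sum_sq (s := Dset z) (f := fun h => Real.sqrt (dfc r z h))
      refine h1.trans (le_of_eq ?_)
      rw [hN, hEdef]
      congr 1
      exact Finset.sum_congr rfl fun h hh => Real.sq_sqrt (hdn h hh)
    have hrN : r * Real.sqrt N ≤ 8 := by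
      have h1 : (r * Real.sqrt N) ^ 2 ≤ 8 ^ 2 := by
        rw [mul_pow, Real.sq_sqrt hN0]; linarith
      exact le_of_sq_le_sq h1 (by norm_num)
    have hSeps : r * ∑ h ∈ Dset z, eps r z h ≤ 60 * (Real.sqrt E + 1) := by
      have h1 : ∑ h ∈ Dset z, eps r z h = ∑ h ∈ Dset z, Real.sqrt (dfc r z h) + N * r := by
        simp only [eps, Finset.sum_add_distrib, Finset.sum_const, nsmul_eq_mul]
        rfl
      rw [h1]
      have h2 : r * ∑ h ∈ Dset z, Real.sqrt (dfc r z h) ≤ 8 * Real.sqrt E := by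
        calc r * ∑ h ∈ Dset z, Real.sqrt (dfc r z h) ≤ r * (Real.sqrt N * Real.sqrt E) :=
              mul_le_mul_of_nonneg_left hSs hr.le
          _ = r * Real.sqrt N * Real.sqrt E := by ring
          _ ≤ 8 * Real.sqrt E := mul_le_mul_of_nonneg_right hrN hsE
      calc r * (∑ h ∈ Dset z, Real.sqrt (dfc r z h) + N * r)
          = r * ∑ h ∈ Dset z, Real.sqrt (dfc r z h) + N * r ^ 2 := by ring
        _ ≤ 60 * (Real.sqrt E + 1) := by linarith
    have hSeps2 : ∑ h ∈ Dset z, (eps r z h ^ 2 + dfc r z h) ≤ 120 * (E + 1) := by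
      have h1 : ∀ h ∈ Dset z, eps r z h ^ 2 + dfc r z h ≤ 3 * dfc r z h + 2 * r ^ 2 := by
        intro h hh
        have h2 := Real.sq_sqrt (hdn h hh)
        have h3 : eps r z h = Real.sqrt (dfc r z h) + r := rfl
        rw [h3]
        nlinarith [sq_nonneg (Real.sqrt (dfc r z h) - r)]
      refine (Finset.sum_le_sum h1).trans ?_
      rw [Finset.sum_add_distrib, ← Finset.mul_sum, Finset.sum_const, nsmul_eq_mul]
      have h4 : ∑ h ∈ Dset z, dfc r z h = E := rfl
      rw [h4]
      nlinarith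
  -- H1
  · intro e he f hf hs B hBd
    have hB0 : 0 ≤ B := (norm_nonneg _).trans (hBd 0)
    have hc := supp_compact hs
    rw [psi_div hf hc e]
    refine (hA n z r hG hC hr hr0 e he f hs B hBd).trans ?_
    have h1 : r * ∑ h ∈ Dset z, (eps r z h + dfc r z h) ≤ 60 * (Real.sqrt E + 1 + r * E) := by
      rw [Finset.sum_add_distrib, mul_add]
      have h4 : ∑ h ∈ Dset z, dfc r z h = E := rfl
      rw [h4]
      have : 0 ≤ r * E := mul_nonneg hr.le hE
      linarith
    have h2 : 0 ≤ Real.sqrt E + 1 + r * E := by positivity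
    calc CA * r * B * ∑ h ∈ Dset z, (eps r z h + dfc r z h)
        = CA * B * (r * ∑ h ∈ Dset z, (eps r z h + dfc r z h)) := by ring
      _ ≤ CA * B * (60 * (Real.sqrt E + 1 + r * E)) :=
          mul_le_mul_of_nonneg_left h1 (by positivity)
      _ = (60 * CA) * (Real.sqrt E + 1 + r * E) * B := by ring
      _ ≤ (60 * CA + 120 * CB + 480 * CC + 604 * CD) * (Real.sqrt E + 1 + r * E) * B := by
          apply mul_le_mul_of_nonneg_right _ hB0
          apply mul_le_mul_of_nonneg_right _ h2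
          have : 0 ≤ 120 * CB + 480 * CC + 604 * CD := by positivity
          linarith
  -- H2
  · intro e he f hf hs B B' hBd hBd'
    have hB0 : 0 ≤ B := (norm_nonneg _).trans (hBd 0)
    have hB'0 : 0 ≤ B' := (norm_nonneg _).trans (hBd' 0)
    have hc := supp_compact hs
    have hnice := psi_nice hG hC hr hr100
    set T := ∑ h ∈ Dset z, ph z h * flx f e (z h.1) (z h.2.1) with hT
    set Gs := ∑ h ∈ Dset z, (if Good r z h then ph z h * (gg z h : ℂ) else 0) *
          flx f e (z h.1) (z h.2.1) with hGs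
    set U := ∑ h ∈ Dset z, (if Good r z h then
        ph z h * ((uu r (z h.1) (z h.2.2) - uu r (z h.2.1) (z h.2.2) : ℝ) : ℂ) else 0) *
          flx f e (z h.1) (z h.2.1) with hU
    set Lm := ∑ h ∈ Dset z, (if Good r z h then
        ph z h * ((1 / 2 * (lg (z h.1) - lg (z h.2.1)) : ℝ) : ℂ) else 0) *
          flx f e (z h.1) (z h.2.1) with hLm
    set J := ∫ x, psi z x * ((AA e x : ℂ) * f x) with hJ
    have hGUL : Gs = U + Lm := by
      rw [hGs, hU, hLm, ← Finset.sum_add_distrib]
      refine Finset.sum_congr rfl fun h hh => ?_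
      by_cases hgd : Good r z h
      · simp only [if_pos hgd]
        obtain ⟨h1, h2, h3⟩ := Del_ne (mem_Dset.1 hh)
        have hsin : 0 < Real.sin r := Real.sin_pos_of_pos_of_lt_pi hr (by
          have := Real.pi_gt_three; linarith)
        rw [gg_eq hsin (Ne.symm h3) h2]
        push_cast
        ring
      · simp only [if_neg hgd]
        ring
    have hfc : Continuous f := hf.continuous
    have hdc : Continuous (fun x => fderiv ℝ f x e) :=
      (hf.continuous_fderiv one_ne_zero).clm_apply continuous_const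
    have hi1 : Integrable (fun x => fderiv ℝ f x e) := by
      refine hdc.integrable_of_hasCompactSupport ?_
      exact hc.fderiv_apply ℝ e
    have hi2 : Integrable (fun x => (AA e x : ℂ) * f x) := by
      refine Continuous.integrable_of_hasCompactSupport ((AA_cont e).mul hfc) ?_
      exact hc.mul_left
    have hsplit : (∫ x, psi z x * (fderiv ℝ f x e + 6 * I * (AA e x : ℂ) * f x)) =
        T + 6 * I * J := by
      have e1 : ∀ x, psi z x * (fderiv ℝ f x e + 6 * I * (AA e x : ℂ) * f x) =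
          psi z x * fderiv ℝ f x e + 6 * I * (psi z x * ((AA e x : ℂ) * f x)) := by
        intro x; ring
      simp only [e1]
      rw [integral_add (int_mul hnice hi1) ((int_mul hnice hi2).const_mul _),
        integral_const_mul, psi_div hf hc e]
    rw [hsplit]
    have b1 := hB n z r hG hC hr hr0 e he f hs B hBd
    have b2 := hCsum n z r hG hC hr hr0 e he f hf hs B B' hBd hBd'
    have b3 := hD n z r hG hC hr hr0 e he f hf hs B B' hBd hBd'
    rw [← hT, ← hGs] at b1
    rw [← hU] at b2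
    rw [← hLm, ← hJ] at b3
    have h3 : ((Real.sqrt 3 : ℝ) : ℂ) * ((Real.sqrt 3 : ℝ) : ℂ) = 3 := by
      rw [← Complex.ofReal_mul, Real.mul_self_sqrt (by norm_num)]; norm_num
    have hdec : T + 6 * I * J = (T + 2 * (Real.sqrt 3 : ℂ) * I * Gs) - 2 * (Real.sqrt 3 : ℂ) * I * U -
        2 * (Real.sqrt 3 : ℂ) * I * (Lm - (Real.sqrt 3 : ℂ) * J) := by
      rw [hGUL]
      linear_combination (-2 * I * J) * h3
    have hn3 : ‖2 * (Real.sqrt 3 : ℂ) * I‖ ≤ 4 := by
      rw [norm_mul, norm_mul, Complex.norm_I, Complex.norm_real, Real.norm_eq_abs,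
        abs_of_nonneg (Real.sqrt_nonneg 3)]
      have : Real.sqrt 3 < 1.8 := (Real.sqrt_lt' (by norm_num)).2 (by norm_num)
      norm_num
      linarith
    set P := r * B * ∑ h ∈ Dset z, (eps r z h ^ 2 + dfc r z h) with hP
    set Q := r ^ 2 * B' * ∑ h ∈ Dset z, eps r z h with hQ
    set R := r ^ 2 * ∑ h ∈ Dset z, (B * (eps r z h + dfc r z h) + r * (B + B')) with hR
    have b1' : ‖T + 2 * (Real.sqrt 3 : ℂ) * I * Gs‖ ≤ CB * P := by
      refine b1.trans (le_of_eq ?_); rw [hP]; ring
    have b2' : ‖U‖ ≤ CC * (P + Q) := by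
      refine b2.trans (le_of_eq ?_); rw [hP, hQ]
    have b3' : ‖Lm - (Real.sqrt 3 : ℂ) * J‖ ≤ CD * R := by
      refine b3.trans (le_of_eq ?_); rw [hR]; ring
    have hE1 : 0 ≤ r * (E + 1) * B := by positivity
    have hE2 : 0 ≤ r * (Real.sqrt E + 1) * B' := by positivity
    have hPb : P ≤ 120 * (r * (E + 1) * B) := by
      calc P ≤ r * B * (120 * (E + 1)) := mul_le_mul_of_nonneg_left hSeps2 (by positivity)
        _ = 120 * (r * (E + 1) * B) := by ring
    have hQb : Q ≤ 60 * (r * (Real.sqrt E + 1) * B') := by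
      calc Q = r * B' * (r * ∑ h ∈ Dset z, eps r z h) := by rw [hQ]; ring
        _ ≤ r * B' * (60 * (Real.sqrt E + 1)) := mul_le_mul_of_nonneg_left hSeps (by positivity)
        _ = 60 * (r * (Real.sqrt E + 1) * B') := by ring
    have hsE1 : Real.sqrt E ≤ (E + 1) / 2 := by
      nlinarith [sq_nonneg (Real.sqrt E - 1)]
    have hRb : R ≤ 151 * (r * (E + 1) * B) + 60 * (r * (Real.sqrt E + 1) * B') := by
      have h4 : ∑ h ∈ Dset z, dfc r z h = E := rfl
      have e1 : R = B * r * (r * ∑ h ∈ Dset z, eps r z h + r * E) +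
          r * (N * r ^ 2) * (B + B') := by
        rw [hR, Finset.sum_add_distrib, ← Finset.mul_sum, Finset.sum_add_distrib, h4,
          Finset.sum_const, nsmul_eq_mul]
        ring
      rw [e1]
      have hrE : r * E ≤ 1 * E := mul_le_mul_of_nonneg_right hr1 hE
      have e2 : B * r * (r * ∑ h ∈ Dset z, eps r z h + r * E) ≤ B * r * (91 * (E + 1)) :=
        mul_le_mul_of_nonneg_left (by linarith) (by positivity)
      have e3 : r * (N * r ^ 2) * (B + B') ≤ r * 60 * (B + B') := by
        apply mul_le_mul_of_nonneg_right _ (by positivity)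
        exact mul_le_mul_of_nonneg_left hNr hr.le
      have e4 : 0 ≤ r * E * B := by positivity
      have e5 : 0 ≤ r * Real.sqrt E * B' := by positivity
      have e6 : B * r * (91 * (E + 1)) = 91 * (r * (E + 1) * B) := by ring
      have e7 : r * 60 * (B + B') = 60 * (r * B) + 60 * (r * B') := by ring
      have e8 : r * (E + 1) * B = r * E * B + r * B := by ring
      have e9 : r * (Real.sqrt E + 1) * B' = r * Real.sqrt E * B' + r * B' := by ring
      rw [e6] at e2
      rw [e7] at e3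
      rw [e9]
      linarith
    calc ‖T + 6 * I * J‖ ≤ ‖T + 2 * (Real.sqrt 3 : ℂ) * I * Gs‖ +
          ‖2 * (Real.sqrt 3 : ℂ) * I * U‖ +
          ‖2 * (Real.sqrt 3 : ℂ) * I * (Lm - (Real.sqrt 3 : ℂ) * J)‖ := by
          rw [hdec]
          exact (norm_sub_le _ _).trans (add_le_add_left (norm_sub_le _ _) _)
      _ ≤ CB * P + 4 * (CC * (P + Q)) + 4 * (CD * R) := by
          rw [norm_mul (2 * (Real.sqrt 3 : ℂ) * I) U,
            norm_mul (2 * (Real.sqrt 3 : ℂ) * I) (Lm - (Real.sqrt 3 : ℂ) * J)]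
          refine add_le_add (add_le_add b1' ?_) ?_
          · exact mul_le_mul hn3 b2' (norm_nonneg _) (by norm_num)
          · exact mul_le_mul hn3 b3' (norm_nonneg _) (by norm_num)
      _ ≤ CB * (120 * (r * (E + 1) * B)) +
          4 * (CC * (120 * (r * (E + 1) * B) + 60 * (r * (Real.sqrt E + 1) * B'))) +
          4 * (CD * (151 * (r * (E + 1) * B) + 60 * (r * (Real.sqrt E + 1) * B'))) := by
          refine add_le_add (add_le_add (mul_le_mul_of_nonneg_left hPb hCB.le) ?_) ?_
          · exact mul_le_mul_of_nonneg_left (mul_le_mul_of_nonneg_left (add_le_add hPb hQb)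
              hCC.le) (by norm_num)
          · exact mul_le_mul_of_nonneg_left (mul_le_mul_of_nonneg_left hRb hCD.le) (by norm_num)
      _ = (120 * CB + 480 * CC + 604 * CD) * (r * (E + 1) * B) +
          (240 * CC + 240 * CD) * (r * (Real.sqrt E + 1) * B') := by ring
      _ ≤ (60 * CA + 120 * CB + 480 * CC + 604 * CD) * (r * (E + 1) * B) +
          (60 * CA + 120 * CB + 480 * CC + 604 * CD) * (r * (Real.sqrt E + 1) * B') := by
          refine add_le_add (mul_le_mul_of_nonneg_right ?_ hE1)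
            (mul_le_mul_of_nonneg_right ?_ hE2)
          · linarith
          · linarith
      _ = (60 * CA + 120 * CB + 480 * CC + 604 * CD) * r * (E + 1) * B +
          (60 * CA + 120 * CB + 480 * CC + 604 * CD) * r * (Real.sqrt E + 1) * B' := by ring

end Pool.Agent.CAPS
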