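import Pool.Agent.Lib.MP_488b8a_co.Defs

/-! Project CAPS (MP_488b8a_co), module GreenA. -/

namespace Pool.Agent.CAPS

open Complex MeasureTheory

/-- the standard open triangle -/
def Tstd : Set ℂ := {x | 0 < x.re ∧ 0 < x.im ∧ x.re + x.im < 1}

private def GreenA_R : Set (ℝ × ℝ) := {p | 0 < p.1 ∧ 0 < p.2 ∧ p.1 + p.2 < 1}

private lemma GreenA_meas : MeasurableSet GreenA_R := by
  have h : IsOpen GreenA_R := by
    refine (isOpen_lt continuous_const continuous_fst).inter
      ((isOpen_lt continuous_const continuous_snd).inter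
        (isOpen_lt (continuous_fst.add continuous_snd) continuous_const))
  exact h.measurableSet

private lemma GreenA_pre : Tstd = Complex.measurableEquivRealProd ⁻¹' GreenA_R := by
  ext x
  simp [Tstd, GreenA_R]

private lemma GreenA_sub : GreenA_R ⊆ Set.Icc (0 : ℝ) 1 ×ˢ Set.Icc (0 : ℝ) 1 := by
  rintro ⟨a, b⟩ ⟨h1, h2, h3⟩
  simp only at h1 h2 h3
  exact ⟨⟨h1.le, by simp only; linarith⟩, ⟨h2.le, by simp only; linarith⟩⟩

private lemma GreenA_set (f : ℂ → ℂ) :
    ∫ x in Tstd, f x = ∫ p in GreenA_R, f ⟨p.1, p.2⟩ := by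
  rw [GreenA_pre]
  have h := Complex.volume_preserving_equiv_real_prod.setIntegral_preimage_emb
    Complex.measurableEquivRealProd.measurableEmbedding
    (fun p : ℝ × ℝ => f ⟨p.1, p.2⟩) GreenA_R
  rw [← h]
  rfl

private lemma GreenA_int {G : ℝ × ℝ → ℂ} (hG : Continuous G) : IntegrableOn G GreenA_R :=
  (hG.continuousOn.integrableOn_compact (isCompact_Icc.prod isCompact_Icc)).mono_set GreenA_sub

private lemma GreenA_fubA {G : ℝ × ℝ → ℂ} (hG : Continuous G) :
    ∫ p in GreenA_R, G p = ∫ x in (0 : ℝ)..1, ∫ y in (0 : ℝ)..(1 - x), G (x, y) := by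
  rw [← integral_indicator GreenA_meas, Measure.volume_eq_prod,
    integral_prod _ ((GreenA_int hG).integrable_indicator GreenA_meas),
    intervalIntegral.integral_of_le zero_le_one, integral_Ioc_eq_integral_Ioo,
    ← integral_indicator measurableSet_Ioo]
  congr 1
  ext x
  by_cases hx : x ∈ Set.Ioo (0 : ℝ) 1
  · rw [Set.indicator_of_mem hx, intervalIntegral.integral_of_le (by linarith [hx.2]),
      integral_Ioc_eq_integral_Ioo, ← integral_indicator measurableSet_Ioo]
    congr 1
    ext y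
    by_cases hy : y ∈ Set.Ioo (0 : ℝ) (1 - x)
    · rw [Set.indicator_of_mem hy, Set.indicator_of_mem]
      exact ⟨hx.1, hy.1, by simp only; linarith [hy.2]⟩
    · rw [Set.indicator_of_notMem hy, Set.indicator_of_notMem]
      rintro ⟨h1, h2, h3⟩
      simp only at h1 h2 h3
      exact hy ⟨h2, by linarith⟩
  · rw [Set.indicator_of_notMem hx]
    have h0 : ∀ y : ℝ, GreenA_R.indicator G (x, y) = 0 := by
      intro y
      rw [Set.indicator_of_notMem]
      rintro ⟨h1, h2, h3⟩
      simp only at h1 h2 h3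
      exact hx ⟨h1, by linarith⟩
    simp [h0]

private lemma GreenA_fubB {G : ℝ × ℝ → ℂ} (hG : Continuous G) :
    ∫ p in GreenA_R, G p = ∫ y in (0 : ℝ)..1, ∫ x in (0 : ℝ)..(1 - y), G (x, y) := by
  rw [← integral_indicator GreenA_meas, Measure.volume_eq_prod,
    integral_prod_symm _ ((GreenA_int hG).integrable_indicator GreenA_meas),
    intervalIntegral.integral_of_le zero_le_one, integral_Ioc_eq_integral_Ioo,
    ← integral_indicator measurableSet_Ioo]
  congr 1
  ext y
  by_cases hx : y ∈ Set.Ioo (0 : ℝ) 1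
  · rw [Set.indicator_of_mem hx, intervalIntegral.integral_of_le (by linarith [hx.2]),
      integral_Ioc_eq_integral_Ioo, ← integral_indicator measurableSet_Ioo]
    congr 1
    ext x
    by_cases hy : x ∈ Set.Ioo (0 : ℝ) (1 - y)
    · rw [Set.indicator_of_mem hy, Set.indicator_of_mem]
      exact ⟨hy.1, hx.1, by simp only; linarith [hy.2]⟩
    · rw [Set.indicator_of_notMem hy, Set.indicator_of_notMem]
      rintro ⟨h1, h2, h3⟩
      simp only at h1 h2 h3
      exact hy ⟨h1, by linarith⟩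
  · rw [Set.indicator_of_notMem hx]
    have h0 : ∀ x : ℝ, GreenA_R.indicator G (x, y) = 0 := by
      intro x
      rw [Set.indicator_of_notMem]
      rintro ⟨h1, h2, h3⟩
      simp only at h1 h2 h3
      exact hx ⟨h2, by linarith⟩
    simp [h0]

theorem Tstd_vol : volume Tstd = ENNReal.ofReal (1 / 2) := by
  have hfin : volume GreenA_R ≠ ⊤ := by
    refine ne_top_of_le_ne_top ?_ (measure_mono GreenA_sub)
    exact (isCompact_Icc.prod isCompact_Icc).measure_lt_top.ne
  have h1 : volume Tstd = volume GreenA_R := by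
    rw [GreenA_pre]
    exact Complex.volume_preserving_equiv_real_prod.measure_preimage
      GreenA_meas.nullMeasurableSet
  have h2 := GreenA_fubA (G := fun _ => (1 : ℂ)) continuous_const
  have h3 : ∫ x in (0 : ℝ)..1, ∫ y in (0 : ℝ)..(1 - x), (1 : ℂ) = 1 / 2 := by
    have h4 : ∀ x : ℝ, ∫ y in (0 : ℝ)..(1 - x), (1 : ℂ) = ((1 - x : ℝ) : ℂ) := by
      intro x
      simp
    simp only [h4]
    rw [intervalIntegral.integral_ofReal]
    have h5 : ∫ x in (0 : ℝ)..1, (1 - x) = 1 / 2 := by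
      rw [intervalIntegral.integral_sub (by simp) (by simp)]
      simp
      norm_num
    rw [h5]
    norm_num
  rw [h3] at h2
  have h6 : ((volume.real GreenA_R : ℝ) : ℂ) = ((1 / 2 : ℝ) : ℂ) := by
    have h7 : ∫ p in GreenA_R, (1 : ℂ) = ((volume.real GreenA_R : ℝ) : ℂ) := by
      rw [setIntegral_const]
      simp
    rw [← h7, h2]
    norm_num
  have h8 : volume.real GreenA_R = 1 / 2 := by exact_mod_cast h6
  rw [h1, ← h8, Measure.real, ENNReal.ofReal_toReal hfin]

theorem std_int1 {g : ℂ → ℂ} (hg : ContDiff ℝ 1 g) :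
    ∫ x in Tstd, fderiv ℝ g x 1 = (∫ t in (0 : ℝ)..1, g ⟨1 - t, t⟩) - ∫ t in (0 : ℝ)..1, g ⟨0, t⟩ := by
  have hc : Continuous (fun p : ℝ × ℝ => (⟨p.1, p.2⟩ : ℂ)) :=
    Complex.equivRealProdCLM.symm.continuous
  have hd : Continuous (fun x : ℂ => fderiv ℝ g x 1) :=
    (hg.continuous_fderiv (by norm_num)).clm_apply continuous_const
  rw [GreenA_set, GreenA_fubB (G := fun p => fderiv ℝ g ⟨p.1, p.2⟩ 1) (hd.comp hc)]
  have hin : ∀ t : ℝ, ∫ s in (0 : ℝ)..(1 - t), fderiv ℝ g ⟨s, t⟩ 1
      = g ⟨1 - t, t⟩ - g ⟨0, t⟩ := by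
    intro t
    refine intervalIntegral.integral_eq_sub_of_hasDerivAt (f := fun s : ℝ => g ⟨s, t⟩)
      (fun s _ => ?_) ?_
    · have h1 : HasDerivAt (fun s : ℝ => (⟨s, t⟩ : ℂ)) 1 s := by
        have h2 : (fun s : ℝ => (⟨s, t⟩ : ℂ)) = fun s : ℝ => (s : ℂ) + (t : ℂ) * I := by
          ext s
          apply Complex.ext <;> simp
        rw [h2]
        have h3 : HasDerivAt (fun s : ℝ => (s : ℂ)) 1 s := Complex.ofRealCLM.hasDerivAt
        simpa using h3.add_const ((t : ℂ) * I)
      have h4 : HasFDerivAt g (fderiv ℝ g ⟨s, t⟩) ⟨s, t⟩ :=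
        (hg.differentiable (by norm_num) _).hasFDerivAt
      exact h4.comp_hasDerivAt s h1
    · apply Continuous.intervalIntegrable
      exact hd.comp (hc.comp (continuous_id.prodMk continuous_const))
  simp only [hin]
  rw [intervalIntegral.integral_sub]
  · apply Continuous.intervalIntegrable
    exact hg.continuous.comp (hc.comp ((continuous_const.sub continuous_id).prodMk continuous_id))
  · apply Continuous.intervalIntegrable
    exact hg.continuous.comp (hc.comp (continuous_const.prodMk continuous_id))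

theorem std_int2 {g : ℂ → ℂ} (hg : ContDiff ℝ 1 g) :
    ∫ x in Tstd, fderiv ℝ g x I = (∫ t in (0 : ℝ)..1, g ⟨t, 1 - t⟩) - ∫ t in (0 : ℝ)..1, g ⟨t, 0⟩ := by
  have hc : Continuous (fun p : ℝ × ℝ => (⟨p.1, p.2⟩ : ℂ)) :=
    Complex.equivRealProdCLM.symm.continuous
  have hd : Continuous (fun x : ℂ => fderiv ℝ g x I) :=
    (hg.continuous_fderiv (by norm_num)).clm_apply continuous_const
  rw [GreenA_set, GreenA_fubA (G := fun p => fderiv ℝ g ⟨p.1, p.2⟩ I) (hd.comp hc)]
  have hin : ∀ s : ℝ, ∫ t in (0 : ℝ)..(1 - s), fderiv ℝ g ⟨s, t⟩ I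
      = g ⟨s, 1 - s⟩ - g ⟨s, 0⟩ := by
    intro s
    refine intervalIntegral.integral_eq_sub_of_hasDerivAt (f := fun t : ℝ => g ⟨s, t⟩)
      (fun t _ => ?_) ?_
    · have h1 : HasDerivAt (fun t : ℝ => (⟨s, t⟩ : ℂ)) I t := by
        have h2 : (fun t : ℝ => (⟨s, t⟩ : ℂ)) = fun t : ℝ => (s : ℂ) + (t : ℂ) * I := by
          ext t
          apply Complex.ext <;> simp
        rw [h2]
        have h3 : HasDerivAt (fun t : ℝ => (t : ℂ)) 1 t := Complex.ofRealCLM.hasDerivAt
        simpa using (h3.mul_const I).const_add (s : ℂ)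
      have h4 : HasFDerivAt g (fderiv ℝ g ⟨s, t⟩) ⟨s, t⟩ :=
        (hg.differentiable (by norm_num) _).hasFDerivAt
      exact h4.comp_hasDerivAt t h1
    · apply Continuous.intervalIntegrable
      exact hd.comp (hc.comp (continuous_const.prodMk continuous_id))
  simp only [hin]
  rw [intervalIntegral.integral_sub]
  · apply Continuous.intervalIntegrable
    exact hg.continuous.comp (hc.comp (continuous_id.prodMk (continuous_const.sub continuous_id)))
  · apply Continuous.intervalIntegrable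
    exact hg.continuous.comp (hc.comp (continuous_id.prodMk continuous_const))

end Pool.Agent.CAPS
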