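import Pool.Agent.Lib.MP_488b8a_co.Defs

/-! Project CAPS (MP_488b8a_co), module Init. -/

namespace Pool.Agent.CAPS

open Complex MeasureTheory

private lemma init_abs_crs_le (a b : ℂ) : |crs a b| ≤ ‖a‖ * ‖b‖ := by
  have h1 : ‖a‖ ^ 2 = a.re ^ 2 + a.im ^ 2 := by
    rw [Complex.sq_norm, Complex.normSq_apply]; ring
  have h2 : ‖b‖ ^ 2 = b.re ^ 2 + b.im ^ 2 := by
    rw [Complex.sq_norm, Complex.normSq_apply]; ring
  have h3 : (crs a b) ^ 2 ≤ (‖a‖ * ‖b‖) ^ 2 := by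
    rw [mul_pow, h1, h2]
    unfold crs
    nlinarith [sq_nonneg (a.re * b.re + a.im * b.im)]
  have h4 : 0 ≤ ‖a‖ * ‖b‖ := by positivity
  exact abs_le_of_sq_le_sq h3 h4

private lemma init_side {p0 q0 p q x : ℂ} (h0 : ‖q0 - p0‖ = 2 * Real.sqrt 3)
    (h1 : crs p0 q0 = 2 * Real.sqrt 3) (h2 : ‖p0‖ = 2)
    (hp : ‖p - p0‖ ≤ 1 / 10) (hq : ‖q - q0‖ ≤ 1 / 10) (hx : ‖x‖ ≤ 5 / 8) :
    0 < crs (q - p) (x - p) := by
  have e : crs (q - p) (x - p) = crs (q0 - p0) x + crs p0 q0 - crs (q0 - p0) (p - p0)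
      + crs ((q - q0) - (p - p0)) (x - p) := by
    simp only [crs, Complex.sub_re, Complex.sub_im]
    ring
  have a1 := init_abs_crs_le (q0 - p0) x
  have a2 := init_abs_crs_le (q0 - p0) (p - p0)
  have a3 := init_abs_crs_le ((q - q0) - (p - p0)) (x - p)
  have n1 : ‖(q - q0) - (p - p0)‖ ≤ 1 / 5 := by
    calc ‖(q - q0) - (p - p0)‖ ≤ ‖q - q0‖ + ‖p - p0‖ := norm_sub_le _ _
      _ ≤ 1 / 5 := by linarith
  have n2 : ‖x - p‖ ≤ 109 / 40 := by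
    have e2 : x - p = x - ((p - p0) + p0) := by ring
    calc ‖x - p‖ = ‖x - ((p - p0) + p0)‖ := by rw [← e2]
      _ ≤ ‖x‖ + ‖(p - p0) + p0‖ := norm_sub_le _ _
      _ ≤ ‖x‖ + (‖p - p0‖ + ‖p0‖) := by gcongr; exact norm_add_le _ _
      _ ≤ 109 / 40 := by rw [h2]; linarith
  have s1 : (1.732 : ℝ) < Real.sqrt 3 := by
    rw [show (1.732 : ℝ) = 1.732 by norm_num]
    apply Real.lt_sqrt_of_sq_lt
    norm_num
  have s0 : 0 ≤ Real.sqrt 3 := Real.sqrt_nonneg 3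
  rw [h0] at a1 a2
  have b1 : 2 * Real.sqrt 3 * ‖x‖ ≤ 2 * Real.sqrt 3 * (5 / 8) := by gcongr
  have b2 : 2 * Real.sqrt 3 * ‖p - p0‖ ≤ 2 * Real.sqrt 3 * (1 / 10) := by gcongr
  have b3 : ‖(q - q0) - (p - p0)‖ * ‖x - p‖ ≤ (1 / 5) * (109 / 40) := by
    gcongr
  have c1 := neg_abs_le (crs (q0 - p0) x)
  have c2 := le_abs_self (crs (q0 - p0) (p - p0))
  have c3 := neg_abs_le (crs ((q - q0) - (p - p0)) (x - p))
  rw [e, h1]
  have b4 : 2 * Real.sqrt 3 * (5 / 8) = (5 / 4) * Real.sqrt 3 := by ring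
  have b5 : 2 * Real.sqrt 3 * (1 / 10) = (1 / 5) * Real.sqrt 3 := by ring
  rw [b4] at b1
  rw [b5] at b2
  have s2 : (433 / 250 : ℝ) < Real.sqrt 3 := by
    have : (1.732 : ℝ) = 433 / 250 := by norm_num
    linarith
  linarith

private lemma init_norm_eq {u : ℂ} {r : ℝ} (hr : 0 ≤ r) (h : u.re ^ 2 + u.im ^ 2 = r ^ 2) :
    ‖u‖ = r := by
  have h1 : ‖u‖ ^ 2 = r ^ 2 := by
    rw [Complex.sq_norm, Complex.normSq_apply, ← h]; ring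
  exact (sq_eq_sq₀ (norm_nonneg u) hr).1 h1

/-- a starting triangle -/
theorem init_tri {n : ℕ} {z : Fin n → ℂ} (hH : ∀ y : ℂ, ‖y‖ = 2 → ∃ l, ‖z l - y‖ ≤ 1 / 10)
    {x : ℂ} (hx : ‖x‖ ≤ 5 / 8) :
    ∃ h : HE n, 0 < crs (z h.2.1 - z h.1) (z h.2.2 - z h.1) ∧ x ∈ tri z h := by
  have s3 : Real.sqrt 3 ^ 2 = 3 := Real.sq_sqrt (by norm_num)
  have s0 : 0 ≤ Real.sqrt 3 := Real.sqrt_nonneg 3
  have hA : ‖(⟨2, 0⟩ : ℂ)‖ = 2 := init_norm_eq (by norm_num) (by norm_num)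
  have hB : ‖(⟨-1, Real.sqrt 3⟩ : ℂ)‖ = 2 := init_norm_eq (by norm_num) (by
    simp only []; rw [s3]; norm_num)
  have hC : ‖(⟨-1, -Real.sqrt 3⟩ : ℂ)‖ = 2 := init_norm_eq (by norm_num) (by
    nlinarith [s3])
  obtain ⟨a, ha⟩ := hH _ hA
  obtain ⟨b, hb⟩ := hH _ hB
  obtain ⟨c, hc⟩ := hH _ hC
  have nAB : ‖(⟨-1, Real.sqrt 3⟩ : ℂ) - ⟨2, 0⟩‖ = 2 * Real.sqrt 3 := init_norm_eq (by positivity) (by
    simp only [Complex.sub_re, Complex.sub_im]; rw [mul_pow, s3, sub_zero, s3]; norm_num)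
  have nBC : ‖(⟨-1, -Real.sqrt 3⟩ : ℂ) - ⟨-1, Real.sqrt 3⟩‖ = 2 * Real.sqrt 3 :=
    init_norm_eq (by positivity) (by
      simp only [Complex.sub_re, Complex.sub_im]
      nlinarith [s3])
  have nCA : ‖(⟨2, 0⟩ : ℂ) - ⟨-1, -Real.sqrt 3⟩‖ = 2 * Real.sqrt 3 := init_norm_eq (by positivity) (by
    simp only [Complex.sub_re, Complex.sub_im]
    nlinarith [s3])
  have cAB : crs (⟨2, 0⟩ : ℂ) ⟨-1, Real.sqrt 3⟩ = 2 * Real.sqrt 3 := by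
    simp only [crs]; ring
  have cBC : crs (⟨-1, Real.sqrt 3⟩ : ℂ) ⟨-1, -Real.sqrt 3⟩ = 2 * Real.sqrt 3 := by
    simp only [crs]; ring
  have cCA : crs (⟨-1, -Real.sqrt 3⟩ : ℂ) ⟨2, 0⟩ = 2 * Real.sqrt 3 := by
    simp only [crs]; ring
  have h00 : ‖(0 : ℂ)‖ ≤ 5 / 8 := by rw [norm_zero]; norm_num
  refine ⟨(a, b, c), ?_, ?_⟩
  · have e1 := init_side nAB cAB hA ha hb h00
    have e2 := init_side nBC cBC hB hb hc h00
    have e3 := init_side nCA cCA hC hc ha h00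
    have e : crs (z b - z a) (z c - z a) = crs (z b - z a) (0 - z a) + crs (z c - z b) (0 - z b)
        + crs (z a - z c) (0 - z c) := by
      simp only [crs, Complex.sub_re, Complex.sub_im, Complex.zero_re, Complex.zero_im]
      ring
    show 0 < crs (z b - z a) (z c - z a)
    rw [e]
    linarith
  · exact ⟨init_side nAB cAB hA ha hb hx, init_side nBC cBC hB hb hc hx,
      init_side nCA cCA hC hc ha hx⟩

end Pool.Agent.CAPS
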