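import Pool.Agent.Lib.MP_488b8a_co.Defs

/-! Project CAPS (MP_488b8a_co), module JumpA. -/

namespace Pool.Agent.CAPS

open Complex MeasureTheory

private lemma jumpA_ne {n : ℕ} {z : Fin n → ℂ} {h : HE n} (hD : Del z h) :
    z h.2.1 - z h.1 ≠ 0 ∧ tau z h ≠ 0 ∧ 1 - tau z h ≠ 0 ∧
      z h.2.2 - z h.1 = tau z h * (z h.2.1 - z h.1) := by
  have h1 := hD.1
  have he : z h.2.1 - z h.1 ≠ 0 := by
    intro h0
    rw [h0] at h1
    simp [crs] at h1
  have h2 : z h.2.2 - z h.1 = tau z h * (z h.2.1 - z h.1) := by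
    unfold tau
    rw [div_mul_cancel₀ _ he]
  refine ⟨he, ?_, ?_, h2⟩
  · intro h0
    rw [h0, zero_mul] at h2
    rw [h2] at h1
    simp [crs] at h1
  · intro h0
    have h3 : tau z h = 1 := (sub_eq_zero.1 h0).symm
    rw [h3, one_mul] at h2
    rw [h2] at h1
    simp only [crs] at h1
    nlinarith

theorem ph_eta {n : ℕ} {z : Fin n → ℂ} {h : HE n} (hD : Del z h) :
    ph z h = ((z h.2.1 - z h.1) / (‖z h.2.1 - z h.1‖ : ℂ)) ^ 6 * eta (tau z h) := by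
  obtain ⟨he, ht, ht1, h2⟩ := jumpA_ne hD
  set e := z h.2.1 - z h.1 with hedef
  set τ := tau z h
  have h3 : z h.1 - z h.2.1 = -e := by rw [hedef]; ring
  have h4 : z h.2.1 - z h.2.2 = (1 - τ) * e := by
    have : z h.2.1 - z h.2.2 = e - (z h.2.2 - z h.1) := by rw [hedef]; ring
    rw [this, h2]
    ring
  have h5 : dsc z h = e ^ 6 * (τ * (1 - τ)) ^ 2 := by
    unfold dsc
    rw [h3, h4, h2]
    ring
  have hf : τ * (1 - τ) ≠ 0 := mul_ne_zero ht ht1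
  have hfc : (starRingEnd ℂ) (τ * (1 - τ)) ≠ 0 := (map_ne_zero _).2 hf
  have hn : ((‖τ * (1 - τ)‖ : ℝ) : ℂ) ^ 2 = (τ * (1 - τ)) * (starRingEnd ℂ) (τ * (1 - τ)) := by
    rw [Complex.mul_conj, Complex.normSq_eq_norm_sq]
    push_cast
    ring
  have hne : ((‖e‖ : ℝ) : ℂ) ≠ 0 := by
    exact_mod_cast (norm_ne_zero_iff.2 he)
  unfold ph eta
  rw [h5, norm_mul, norm_pow, norm_pow]
  push_cast
  rw [hn]
  field_simp

theorem gg_tau {n : ℕ} {z : Fin n → ℂ} {h : HE n} (hD : Del z h) :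
    gg z h = Real.log ‖tau z h‖ - Real.log ‖1 - tau z h‖ := by
  obtain ⟨he, ht, ht1, h2⟩ := jumpA_ne hD
  have h4 : z h.2.1 - z h.2.2 = (1 - tau z h) * (z h.2.1 - z h.1) := by
    have : z h.2.1 - z h.2.2 = (z h.2.1 - z h.1) - (z h.2.2 - z h.1) := by ring
    rw [this, h2]
    ring
  unfold gg
  rw [norm_sub_rev (z h.1), h2, h4, norm_mul, norm_mul, Real.log_mul, Real.log_mul]
  · ring
  · exact norm_ne_zero_iff.2 ht1
  · exact norm_ne_zero_iff.2 he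
  · exact norm_ne_zero_iff.2 ht
  · exact norm_ne_zero_iff.2 he

end Pool.Agent.CAPS
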