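import Pool.Agent.Lib.MP_488b8a_co.Defs

/-! Project CAPS (MP_488b8a_co), module Ker. -/

namespace Pool.Agent.CAPS

open Complex MeasureTheory

namespace Ker

private theorem nsq_pos (x : ℂ) {a : ℝ} (ha : 0 < a) : 0 < ‖x‖ ^ 2 + a := by positivity

private theorem KK_eq {s T : ℝ} (hs : 0 < s) (hT : 0 < T) (x : ℂ) :
    KK s T x = 1 / (4 * Real.pi) * (Real.log (‖x‖ ^ 2 + T) - Real.log (‖x‖ ^ 2 + s)) := by
  unfold KK
  rw [Real.log_div (nsq_pos x hT).ne' (nsq_pos x hs).ne']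

/-- the quotient of the inner product and `‖y‖ ^ 2 + a` -/
private noncomputable def qq (a : ℝ) (e y : ℂ) : ℝ := inner ℝ e y * (‖y‖ ^ 2 + a)⁻¹

/-- its derivative -/
private noncomputable def dq (a : ℝ) (e x : ℂ) : ℂ →L[ℝ] ℝ :=
  (inner ℝ e x : ℝ) • ((-((‖x‖ ^ 2 + a) ^ 2)⁻¹) • (2 • innerSL ℝ x)) +
    ((‖x‖ ^ 2 + a)⁻¹) • innerSL ℝ e

private theorem hasFDerivAt_qq {a : ℝ} (ha : 0 < a) (e x : ℂ) :
    HasFDerivAt (qq a e) (dq a e x) x := by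
  have h1 : HasFDerivAt (fun y : ℂ => (inner ℝ e y : ℝ)) (innerSL ℝ e) x :=
    (innerSL ℝ e).hasFDerivAt
  have h2 : HasFDerivAt (fun y : ℂ => ‖y‖ ^ 2 + a) (2 • innerSL ℝ x) x :=
    (hasStrictFDerivAt_norm_sq x).hasFDerivAt.add_const a
  have h3 : HasFDerivAt (fun y : ℂ => (‖y‖ ^ 2 + a)⁻¹)
      ((-((‖x‖ ^ 2 + a) ^ 2)⁻¹) • (2 • innerSL ℝ x)) x :=
    (hasDerivAt_inv (nsq_pos x ha).ne').comp_hasFDerivAt x h2
  exact h1.mul h3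

private theorem dq_apply (a : ℝ) (e x v : ℂ) : dq a e x v =
    inner ℝ e v * (‖x‖ ^ 2 + a)⁻¹ - 2 * (inner ℝ e x * inner ℝ x v) * ((‖x‖ ^ 2 + a) ^ 2)⁻¹ := by
  unfold dq
  simp only [_root_.add_apply, _root_.smul_apply, innerSL_apply_apply,
    smul_eq_mul, nsmul_eq_mul, Nat.cast_ofNat]
  ring

private theorem dq_abs_le {a : ℝ} (ha : 0 < a) {e : ℂ} (he : ‖e‖ ≤ 1) (x v : ℂ) :
    |dq a e x v| ≤ 3 / (‖x‖ ^ 2 + a) * ‖v‖ := by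
  have hA := nsq_pos x ha
  rw [dq_apply]
  have h1 : |(inner ℝ e v : ℝ)| ≤ ‖v‖ := by
    refine le_trans (abs_real_inner_le_norm e v) ?_
    exact mul_le_of_le_one_left (norm_nonneg _) he
  have h2 : |(inner ℝ e x : ℝ)| ≤ ‖x‖ := by
    refine le_trans (abs_real_inner_le_norm e x) ?_
    exact mul_le_of_le_one_left (norm_nonneg _) he
  have h3 : |(inner ℝ x v : ℝ)| ≤ ‖x‖ * ‖v‖ := abs_real_inner_le_norm x v
  have h4 : |(inner ℝ e x : ℝ) * inner ℝ x v| ≤ ‖x‖ ^ 2 * ‖v‖ := by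
    rw [abs_mul]
    calc _ ≤ ‖x‖ * (‖x‖ * ‖v‖) := mul_le_mul h2 h3 (abs_nonneg _) (norm_nonneg _)
      _ = _ := by ring
  have h5 : ‖x‖ ^ 2 * ‖v‖ * ((‖x‖ ^ 2 + a) ^ 2)⁻¹ ≤ ‖v‖ * (‖x‖ ^ 2 + a)⁻¹ := by
    have h6 : ‖x‖ ^ 2 * ((‖x‖ ^ 2 + a) ^ 2)⁻¹ ≤ (‖x‖ ^ 2 + a)⁻¹ := by
      rw [← div_eq_mul_inv, div_le_iff₀ (by positivity), sq (‖x‖ ^ 2 + a), ← mul_assoc,
        inv_mul_cancel₀ hA.ne', one_mul]
      linarith
    calc ‖x‖ ^ 2 * ‖v‖ * ((‖x‖ ^ 2 + a) ^ 2)⁻¹ = ‖v‖ * (‖x‖ ^ 2 * ((‖x‖ ^ 2 + a) ^ 2)⁻¹) := by ring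
      _ ≤ _ := mul_le_mul_of_nonneg_left h6 (norm_nonneg _)
  calc |inner ℝ e v * (‖x‖ ^ 2 + a)⁻¹ - 2 * (inner ℝ e x * inner ℝ x v) * ((‖x‖ ^ 2 + a) ^ 2)⁻¹|
      ≤ |inner ℝ e v * (‖x‖ ^ 2 + a)⁻¹| +
        |2 * (inner ℝ e x * inner ℝ x v) * ((‖x‖ ^ 2 + a) ^ 2)⁻¹| := abs_sub _ _
    _ = |(inner ℝ e v : ℝ)| * (‖x‖ ^ 2 + a)⁻¹ +
        2 * (|(inner ℝ e x : ℝ) * inner ℝ x v| * ((‖x‖ ^ 2 + a) ^ 2)⁻¹) := by
        rw [abs_mul, abs_mul, abs_mul, abs_of_pos (inv_pos.mpr hA),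
          abs_of_pos (inv_pos.mpr (pow_pos hA 2)), abs_of_pos (two_pos : (0 : ℝ) < 2)]
        ring
    _ ≤ ‖v‖ * (‖x‖ ^ 2 + a)⁻¹ + 2 * (‖x‖ ^ 2 * ‖v‖ * ((‖x‖ ^ 2 + a) ^ 2)⁻¹) := by
        refine add_le_add (mul_le_mul_of_nonneg_right h1 (by positivity)) ?_
        exact mul_le_mul_of_nonneg_left (mul_le_mul_of_nonneg_right h4 (by positivity)) two_pos.le
    _ ≤ ‖v‖ * (‖x‖ ^ 2 + a)⁻¹ + 2 * (‖v‖ * (‖x‖ ^ 2 + a)⁻¹) := by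
        linarith
    _ = _ := by rw [div_eq_mul_inv]; ring

private theorem hasFDerivAt_KK {s T : ℝ} (hs : 0 < s) (hT : 0 < T) (x : ℂ) :
    HasFDerivAt (KK s T) ((1 / (4 * Real.pi)) • ((‖x‖ ^ 2 + T)⁻¹ • (2 • innerSL ℝ x) -
      (‖x‖ ^ 2 + s)⁻¹ • (2 • innerSL ℝ x))) x := by
  have h2 : ∀ {a : ℝ}, 0 < a → HasFDerivAt (fun y : ℂ => Real.log (‖y‖ ^ 2 + a))
      ((‖x‖ ^ 2 + a)⁻¹ • (2 • innerSL ℝ x)) x := by
    intro a ha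
    exact ((hasStrictFDerivAt_norm_sq x).hasFDerivAt.add_const a).log (nsq_pos x ha).ne'
  have h3 := ((h2 hT).sub (h2 hs)).const_mul (1 / (4 * Real.pi))
  refine h3.congr_of_eventuallyEq (Filter.Eventually.of_forall (fun y => ?_))
  exact KK_eq hs hT y

private theorem fderiv_KK {s T : ℝ} (hs : 0 < s) (hT : 0 < T) (x e : ℂ) :
    fderiv ℝ (KK s T) x e = 1 / (2 * Real.pi) * (qq T e x - qq s e x) := by
  rw [(hasFDerivAt_KK hs hT x).fderiv]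
  unfold qq
  simp only [_root_.smul_apply, _root_.sub_apply, innerSL_apply_apply,
    smul_eq_mul, nsmul_eq_mul, Nat.cast_ofNat]
  rw [real_inner_comm x e]
  have := Real.pi_ne_zero
  field_simp
  ring

private theorem hasFDerivAt_dKK {s T : ℝ} (hs : 0 < s) (hT : 0 < T) (e x : ℂ) :
    HasFDerivAt (fun y => fderiv ℝ (KK s T) y e)
      ((1 / (2 * Real.pi)) • (dq T e x - dq s e x)) x := by
  have h3 := ((hasFDerivAt_qq hT e x).sub (hasFDerivAt_qq hs e x)).const_mul (1 / (2 * Real.pi))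
  refine h3.congr_of_eventuallyEq (Filter.Eventually.of_forall (fun y => ?_))
  exact fderiv_KK hs hT y e

end Ker

theorem KK_smooth {s T : ℝ} (hs : 0 < s) (hT : 0 < T) : ContDiff ℝ 3 (KK s T) := by
  have h1 : ∀ {a : ℝ}, 0 < a → ContDiff ℝ 3 (fun y : ℂ => Real.log (‖y‖ ^ 2 + a)) := by
    intro a ha
    exact ((contDiff_norm_sq ℝ).add contDiff_const).log (fun y => (Ker.nsq_pos y ha).ne')
  have h2 : KK s T = fun x : ℂ =>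
      1 / (4 * Real.pi) * (Real.log (‖x‖ ^ 2 + T) - Real.log (‖x‖ ^ 2 + s)) := by
    funext x
    exact Ker.KK_eq hs hT x
  rw [h2]
  exact contDiff_const.mul ((h1 hT).sub (h1 hs))

theorem rho_smooth {s : ℝ} (hs : 0 < s) : ContDiff ℝ 3 (rho s) := by
  unfold rho
  refine contDiff_const.div (contDiff_const.mul (((contDiff_norm_sq ℝ).add contDiff_const).pow 2))
    (fun y => ?_)
  have := Ker.nsq_pos y hs
  have := Real.pi_pos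
  positivity

theorem KK_lap {s T : ℝ} (hs : 0 < s) (hT : 0 < T) (x : ℂ) :
    fderiv ℝ (fun y => fderiv ℝ (KK s T) y 1) x 1 + fderiv ℝ (fun y => fderiv ℝ (KK s T) y I) x I =
      rho T x - rho s x := by
  rw [(Ker.hasFDerivAt_dKK hs hT 1 x).fderiv, (Ker.hasFDerivAt_dKK hs hT I x).fderiv]
  simp only [_root_.smul_apply, _root_.sub_apply, smul_eq_mul,
    Ker.dq_apply]
  have e1 : (inner ℝ (1 : ℂ) (1 : ℂ) : ℝ) = 1 := by simp [Complex.inner]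
  have e2 : (inner ℝ I I : ℝ) = 1 := by simp [Complex.inner]
  have e3 : (inner ℝ (1 : ℂ) x : ℝ) = x.re := by simp [Complex.inner]
  have e4 : (inner ℝ x (1 : ℂ) : ℝ) = x.re := by simp [Complex.inner]
  have e5 : (inner ℝ I x : ℝ) = x.im := by simp [Complex.inner]
  have e6 : (inner ℝ x I : ℝ) = x.im := by simp [Complex.inner]
  rw [e1, e2, e3, e4, e5, e6]
  unfold rho
  have hsq : ‖x‖ ^ 2 = x.re * x.re + x.im * x.im := by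
    rw [← Complex.normSq_eq_norm_sq, Complex.normSq_apply]
  have h1 := (Ker.nsq_pos x hs).ne'
  have h2 := (Ker.nsq_pos x hT).ne'
  have h3 := Real.pi_ne_zero
  rw [hsq] at h1 h2 ⊢
  field_simp
  ring

theorem KK_d1 {s T : ℝ} (hs : 0 < s) (hsT : s ≤ T) {x : ℂ} (hx : x ≠ 0) {e : ℂ} (he : ‖e‖ ≤ 1) :
    |fderiv ℝ (KK s T) x e| ≤ T / (‖x‖ * (‖x‖ ^ 2 + T)) := by
  have hT : 0 < T := lt_of_lt_of_le hs hsT
  have hn : 0 < ‖x‖ := norm_pos_iff.mpr hx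
  have hA := Ker.nsq_pos x hs
  have hB := Ker.nsq_pos x hT
  rw [Ker.fderiv_KK hs hT]
  have e1 : Ker.qq T e x - Ker.qq s e x =
      -(inner ℝ e x * ((T - s) / ((‖x‖ ^ 2 + T) * (‖x‖ ^ 2 + s)))) := by
    unfold Ker.qq
    field_simp
    ring
  have h2 : |(inner ℝ e x : ℝ)| ≤ ‖x‖ := by
    refine le_trans (abs_real_inner_le_norm e x) ?_
    exact mul_le_of_le_one_left (norm_nonneg _) he
  have h3 : (T - s) / ((‖x‖ ^ 2 + T) * (‖x‖ ^ 2 + s)) ≤ T / ((‖x‖ ^ 2 + T) * ‖x‖ ^ 2) := by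
    rw [div_le_div_iff₀ (by positivity) (by positivity)]
    have h4 : (T - s) * ‖x‖ ^ 2 ≤ T * (‖x‖ ^ 2 + s) := by nlinarith [sq_nonneg ‖x‖]
    calc (T - s) * ((‖x‖ ^ 2 + T) * ‖x‖ ^ 2) = ((T - s) * ‖x‖ ^ 2) * (‖x‖ ^ 2 + T) := by ring
      _ ≤ (T * (‖x‖ ^ 2 + s)) * (‖x‖ ^ 2 + T) := mul_le_mul_of_nonneg_right h4 hB.le
      _ = _ := by ring
  have h5 : 0 ≤ (T - s) / ((‖x‖ ^ 2 + T) * (‖x‖ ^ 2 + s)) := div_nonneg (by linarith) (by positivity)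
  have hpi : 1 / (2 * Real.pi) ≤ 1 := by
    rw [div_le_one (by positivity)]
    linarith [Real.pi_gt_three]
  rw [e1, abs_mul, abs_neg, abs_mul, abs_of_nonneg h5,
    abs_of_nonneg (by positivity : (0 : ℝ) ≤ 1 / (2 * Real.pi))]
  calc _ ≤ 1 * (‖x‖ * (T / ((‖x‖ ^ 2 + T) * ‖x‖ ^ 2))) := by
        refine mul_le_mul hpi (mul_le_mul h2 h3 h5 hn.le) (by positivity) zero_le_one
    _ = T / (‖x‖ * (‖x‖ ^ 2 + T)) := by
        field_simp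

theorem KK_d2 {s T : ℝ} (hs : 0 < s) (hsT : s ≤ T) (x : ℂ) {e : ℂ} (he : ‖e‖ ≤ 1) :
    ‖fderiv ℝ (fun y => fderiv ℝ (KK s T) y e) x‖ ≤ 2 / (‖x‖ ^ 2 + s) := by
  have hT : 0 < T := lt_of_lt_of_le hs hsT
  have hA := Ker.nsq_pos x hs
  have hB := Ker.nsq_pos x hT
  rw [(Ker.hasFDerivAt_dKK hs hT e x).fderiv]
  refine ContinuousLinearMap.opNorm_le_bound _ (by positivity) (fun v => ?_)
  simp only [_root_.smul_apply, _root_.sub_apply, smul_eq_mul]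
  rw [Real.norm_eq_abs, abs_mul, abs_of_nonneg (by positivity : (0 : ℝ) ≤ 1 / (2 * Real.pi))]
  have h1 := Ker.dq_abs_le hT he x v
  have h2 := Ker.dq_abs_le hs he x v
  have h3 : 3 / (‖x‖ ^ 2 + T) ≤ 3 / (‖x‖ ^ 2 + s) :=
    div_le_div_of_nonneg_left (by norm_num) hA (by linarith)
  have hpi : 1 / (2 * Real.pi) ≤ 1 / 3 := by
    rw [div_le_div_iff₀ (by positivity) (by norm_num)]
    linarith [Real.pi_gt_three]
  calc 1 / (2 * Real.pi) * |Ker.dq T e x v - Ker.dq s e x v|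
      ≤ 1 / 3 * (|Ker.dq T e x v| + |Ker.dq s e x v|) :=
        mul_le_mul hpi (abs_sub _ _) (abs_nonneg _) (by norm_num)
    _ ≤ 1 / 3 * (3 / (‖x‖ ^ 2 + s) * ‖v‖ + 3 / (‖x‖ ^ 2 + s) * ‖v‖) := by
        refine mul_le_mul_of_nonneg_left (add_le_add (le_trans h1 ?_) h2) (by norm_num)
        exact mul_le_mul_of_nonneg_right h3 (norm_nonneg _)
    _ = 2 / (‖x‖ ^ 2 + s) * ‖v‖ := by ring

end Pool.Agent.CAPS
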