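import Pool.Agent.Lib.MP_488b8a_co.Ker

/-! Project CAPS (MP_488b8a_co), module KerB. -/

namespace Pool.Agent.CAPS

open Complex MeasureTheory

namespace KerB

private theorem nsq_pos (x : ℂ) {a : ℝ} (ha : 0 < a) : 0 < ‖x‖ ^ 2 + a := by positivity

private theorem combine {P Q : ℂ → ℝ} {R : ℂ → ℂ → ℝ} {p q r : ℝ} (hp : ∀ x, P x ≤ p)
    (hq : ∀ x, Q x ≤ q) (hr : ∀ x e, ‖e‖ ≤ 1 → R x e ≤ r) :
    ∃ C : ℝ, ∀ x, P x ≤ C ∧ Q x ≤ C ∧ ∀ e : ℂ, ‖e‖ ≤ 1 → R x e ≤ C :=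
  ⟨max p (max q r), fun x => ⟨(hp x).trans (le_max_left _ _),
    (hq x).trans ((le_max_left _ _).trans (le_max_right _ _)),
    fun e he => (hr x e he).trans ((le_max_right _ _).trans (le_max_right _ _))⟩⟩

private theorem norm_div_le (x : ℂ) {a : ℝ} (ha : 0 < a) :
    ‖x‖ * (‖x‖ ^ 2 + a)⁻¹ ≤ 1 + 1 / a := by
  have hA := nsq_pos x ha
  rw [← div_eq_mul_inv, div_le_iff₀ hA]
  have h1 : (1 + 1 / a) * (‖x‖ ^ 2 + a) = ‖x‖ ^ 2 + a + ‖x‖ ^ 2 / a + 1 := by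
    field_simp
    ring
  rw [h1]
  have : 0 ≤ ‖x‖ ^ 2 / a := by positivity
  nlinarith [sq_nonneg (‖x‖ - 1), norm_nonneg x]

private theorem inv_le (x : ℂ) {a : ℝ} (ha : 0 < a) : (‖x‖ ^ 2 + a)⁻¹ ≤ a⁻¹ := by
  refine inv_anti₀ ha ?_
  nlinarith [sq_nonneg ‖x‖]

private theorem norm_two_inner (x : ℂ) : ‖(2 : ℕ) • innerSL ℝ x‖ ≤ 2 * ‖x‖ := by
  refine (norm_nsmul_le).trans ?_
  rw [innerSL_apply_norm]
  simp

private theorem hasFDerivAt_KK {s T : ℝ} (hs : 0 < s) (hT : 0 < T) (x : ℂ) :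
    HasFDerivAt (KK s T) ((1 / (4 * Real.pi)) • ((‖x‖ ^ 2 + T)⁻¹ • (2 • innerSL ℝ x) -
      (‖x‖ ^ 2 + s)⁻¹ • (2 • innerSL ℝ x))) x := by
  have h2 : ∀ {a : ℝ}, 0 < a → HasFDerivAt (fun y : ℂ => Real.log (‖y‖ ^ 2 + a))
      ((‖x‖ ^ 2 + a)⁻¹ • (2 • innerSL ℝ x)) x := by
    intro a ha
    exact ((hasStrictFDerivAt_norm_sq x).hasFDerivAt.add_const a).log (nsq_pos x ha).ne'
  have h3 := ((h2 hT).sub (h2 hs)).const_mul (1 / (4 * Real.pi))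
  refine h3.congr_of_eventuallyEq (Filter.Eventually.of_forall (fun y => ?_))
  unfold KK
  rw [Real.log_div (nsq_pos y hT).ne' (nsq_pos y hs).ne']
  rfl

private theorem KK_d1_bdd {s T : ℝ} (hs : 0 < s) (hT : 0 < T) (x : ℂ) :
    ‖fderiv ℝ (KK s T) x‖ ≤ 2 * (1 + 1 / T) + 2 * (1 + 1 / s) := by
  rw [(hasFDerivAt_KK hs hT x).fderiv, norm_smul]
  have h1 : ∀ {a : ℝ}, 0 < a → ‖(‖x‖ ^ 2 + a)⁻¹ • ((2 : ℕ) • innerSL ℝ x)‖ ≤ 2 * (1 + 1 / a) := by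
    intro a ha
    have hA := nsq_pos x ha
    rw [norm_smul, Real.norm_eq_abs, abs_of_pos (inv_pos.2 hA)]
    calc _ ≤ (‖x‖ ^ 2 + a)⁻¹ * (2 * ‖x‖) :=
          mul_le_mul_of_nonneg_left (norm_two_inner x) (inv_pos.2 hA).le
      _ = 2 * (‖x‖ * (‖x‖ ^ 2 + a)⁻¹) := by ring
      _ ≤ _ := mul_le_mul_of_nonneg_left (norm_div_le x ha) two_pos.le
  have hpi : ‖1 / (4 * Real.pi)‖ ≤ 1 := by
    rw [Real.norm_eq_abs, abs_of_nonneg (by positivity), div_le_one (by positivity)]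
    linarith [Real.pi_gt_three]
  calc _ ≤ 1 * (2 * (1 + 1 / T) + 2 * (1 + 1 / s)) := by
        refine mul_le_mul hpi ((norm_sub_le _ _).trans (add_le_add (h1 hT) (h1 hs)))
          (norm_nonneg _) zero_le_one
    _ = _ := one_mul _

private theorem KK_swap (s T : ℝ) (x : ℂ) : KK s T x = -KK T s x := by
  unfold KK
  rw [← inv_div (‖x‖ ^ 2 + s) (‖x‖ ^ 2 + T), Real.log_inv]
  ring

private theorem KK_abs {s T : ℝ} (hs : 0 < s) (hsT : s ≤ T) (x : ℂ) :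
    |KK s T x| ≤ 1 / (4 * Real.pi) * Real.log (T / s) := by
  have hT : 0 < T := lt_of_lt_of_le hs hsT
  have hA := nsq_pos x hs
  have hB := nsq_pos x hT
  have h1 : 1 ≤ (‖x‖ ^ 2 + T) / (‖x‖ ^ 2 + s) := by
    rw [le_div_iff₀ hA]
    linarith
  have h2 : (‖x‖ ^ 2 + T) / (‖x‖ ^ 2 + s) ≤ T / s := by
    rw [div_le_div_iff₀ hA hs]
    nlinarith [sq_nonneg ‖x‖, mul_nonneg (sub_nonneg.2 hsT) (sq_nonneg ‖x‖)]
  unfold KK
  rw [abs_of_nonneg (mul_nonneg (by positivity) (Real.log_nonneg h1))]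
  exact mul_le_mul_of_nonneg_left (Real.log_le_log (by linarith) h2) (by positivity)

private theorem KK_d2_bdd {s T : ℝ} (hs : 0 < s) (hsT : s ≤ T) (x e : ℂ) (he : ‖e‖ ≤ 1) :
    ‖fderiv ℝ (fun y => fderiv ℝ (KK s T) y e) x‖ ≤ 2 / s := by
  refine (KK_d2 hs hsT x he).trans ?_
  refine div_le_div_of_nonneg_left two_pos.le hs ?_
  nlinarith [sq_nonneg ‖x‖]

/-- the derivative of `(‖y‖ ^ 2 + a)⁻¹` -/
private noncomputable def dg (a : ℝ) (x : ℂ) : ℂ →L[ℝ] ℝ :=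
  (-((‖x‖ ^ 2 + a) ^ 2)⁻¹) • ((2 : ℕ) • innerSL ℝ x)

private theorem hasFDerivAt_g {a : ℝ} (ha : 0 < a) (x : ℂ) :
    HasFDerivAt (fun y : ℂ => (‖y‖ ^ 2 + a)⁻¹) (dg a x) x := by
  have h2 : HasFDerivAt (fun y : ℂ => ‖y‖ ^ 2 + a) (2 • innerSL ℝ x) x :=
    (hasStrictFDerivAt_norm_sq x).hasFDerivAt.add_const a
  exact (hasDerivAt_inv (nsq_pos x ha).ne').comp_hasFDerivAt x h2

private theorem norm_dg {a : ℝ} (ha : 0 < a) (x : ℂ) :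
    ‖dg a x‖ ≤ 2 * (1 + 1 / a) * a⁻¹ := by
  have hA := nsq_pos x ha
  unfold dg
  rw [norm_smul, norm_neg, Real.norm_eq_abs, abs_of_pos (by positivity)]
  calc _ ≤ ((‖x‖ ^ 2 + a) ^ 2)⁻¹ * (2 * ‖x‖) :=
        mul_le_mul_of_nonneg_left (norm_two_inner x) (by positivity)
    _ = 2 * (‖x‖ * (‖x‖ ^ 2 + a)⁻¹) * (‖x‖ ^ 2 + a)⁻¹ := by
        rw [sq, mul_inv]
        ring
    _ ≤ _ := by
        refine mul_le_mul (mul_le_mul_of_nonneg_left (norm_div_le x ha) two_pos.le) (inv_le x ha)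
          (by positivity) (by positivity)

private theorem hasFDerivAt_rho {s : ℝ} (hs : 0 < s) (x : ℂ) :
    HasFDerivAt (rho s) ((s / Real.pi * (2 * (‖x‖ ^ 2 + s)⁻¹)) • dg s x) x := by
  have h1 := ((hasFDerivAt_g hs x).mul (hasFDerivAt_g hs x)).const_mul (s / Real.pi)
  have h2 : (s / Real.pi * (2 * (‖x‖ ^ 2 + s)⁻¹)) • dg s x =
      (s / Real.pi) • ((‖x‖ ^ 2 + s)⁻¹ • dg s x + (‖x‖ ^ 2 + s)⁻¹ • dg s x) := by
    rw [← add_smul, smul_smul]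
    congr 1
    ring
  rw [h2]
  refine h1.congr_of_eventuallyEq (Filter.Eventually.of_forall (fun y => ?_))
  unfold rho
  have hA := (nsq_pos y hs).ne'
  have hpi := Real.pi_ne_zero
  show _ = s / Real.pi * ((‖y‖ ^ 2 + s)⁻¹ * (‖y‖ ^ 2 + s)⁻¹)
  field_simp

private theorem fderiv_rho {s : ℝ} (hs : 0 < s) (x e : ℂ) :
    fderiv ℝ (rho s) x e = (-(4 * s / Real.pi)) *
      ((‖x‖ ^ 2 + s)⁻¹ * (‖x‖ ^ 2 + s)⁻¹ * ((‖x‖ ^ 2 + s)⁻¹ * inner ℝ e x)) := by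
  rw [(hasFDerivAt_rho hs x).fderiv]
  unfold dg
  simp only [_root_.smul_apply, innerSL_apply_apply, smul_eq_mul, nsmul_eq_mul, Nat.cast_ofNat]
  rw [real_inner_comm x e]
  have hpi := Real.pi_ne_zero
  have hA := (nsq_pos x hs).ne'
  field_simp
  ring

private theorem rho_d2_bdd {s : ℝ} (hs : 0 < s) (x e : ℂ) (he : ‖e‖ ≤ 1) :
    ‖fderiv ℝ (fun y => fderiv ℝ (rho s) y e) x‖ ≤
      4 * s / Real.pi * (s⁻¹ * s⁻¹ * (s⁻¹ * 1 + 2 * (1 + 1 / s) * (1 + 1 / s)) +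
        (1 + 1 / s) * (2 * (s⁻¹ * (2 * (1 + 1 / s) * s⁻¹)))) := by
  have hA := nsq_pos x hs
  have hg := hasFDerivAt_g hs x
  have h1 : HasFDerivAt (fun y : ℂ => (inner ℝ e y : ℝ)) (innerSL ℝ e) x :=
    (innerSL ℝ e).hasFDerivAt
  have h3 := ((hg.mul hg).mul (hg.mul h1)).const_mul (-(4 * s / Real.pi))
  have h4 : HasFDerivAt (fun y => fderiv ℝ (rho s) y e) _ x :=
    h3.congr_of_eventuallyEq (Filter.Eventually.of_forall (fun y => fderiv_rho hs y e))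
  rw [h4.fderiv]
  have he1 : ‖innerSL ℝ e‖ ≤ 1 := by
    rw [innerSL_apply_norm]
    exact he
  have he2 : |(inner ℝ e x : ℝ)| ≤ ‖x‖ := by
    refine le_trans (abs_real_inner_le_norm e x) ?_
    exact mul_le_of_le_one_left (norm_nonneg _) he
  have hi := inv_le x hs
  have hi0 : 0 < (‖x‖ ^ 2 + s)⁻¹ := inv_pos.2 hA
  have hs0 : 0 < s⁻¹ := inv_pos.2 hs
  have hd := norm_dg hs x
  have hn := norm_div_le x hs
  have hc : 0 ≤ 1 + 1 / s := by positivity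
  rw [norm_smul, norm_neg, Real.norm_eq_abs, abs_of_nonneg (by positivity : 0 ≤ 4 * s / Real.pi)]
  refine mul_le_mul_of_nonneg_left ?_ (by positivity)
  refine (norm_add_le _ _).trans (add_le_add ?_ ?_)
  · rw [norm_smul, Real.norm_eq_abs]
    show |(‖x‖ ^ 2 + s)⁻¹ * (‖x‖ ^ 2 + s)⁻¹| * _ ≤ _
    rw [abs_of_pos (mul_pos hi0 hi0)]
    refine mul_le_mul (mul_le_mul hi hi hi0.le hs0.le) ?_ (norm_nonneg _) (by positivity)
    refine (norm_add_le _ _).trans (add_le_add ?_ ?_)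
    · rw [norm_smul, Real.norm_eq_abs, abs_of_pos hi0]
      exact mul_le_mul hi he1 (norm_nonneg _) hs0.le
    · rw [norm_smul, Real.norm_eq_abs]
      have h5 : ‖dg s x‖ ≤ 2 * (1 + 1 / s) * (‖x‖ ^ 2 + s)⁻¹ := by
        unfold dg
        rw [norm_smul, norm_neg, Real.norm_eq_abs, abs_of_pos (by positivity)]
        calc _ ≤ ((‖x‖ ^ 2 + s) ^ 2)⁻¹ * (2 * ‖x‖) :=
              mul_le_mul_of_nonneg_left (norm_two_inner x) (by positivity)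
          _ = 2 * (‖x‖ * (‖x‖ ^ 2 + s)⁻¹) * (‖x‖ ^ 2 + s)⁻¹ := by
              rw [sq, mul_inv]
              ring
          _ ≤ _ := mul_le_mul_of_nonneg_right (mul_le_mul_of_nonneg_left hn two_pos.le) hi0.le
      calc |(inner ℝ e x : ℝ)| * ‖dg s x‖ ≤ ‖x‖ * (2 * (1 + 1 / s) * (‖x‖ ^ 2 + s)⁻¹) :=
            mul_le_mul he2 h5 (norm_nonneg _) (norm_nonneg _)
        _ = 2 * (1 + 1 / s) * (‖x‖ * (‖x‖ ^ 2 + s)⁻¹) := by ring
        _ ≤ _ := mul_le_mul_of_nonneg_left hn (by positivity)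
  · rw [norm_smul, Real.norm_eq_abs]
    show |(‖x‖ ^ 2 + s)⁻¹ * inner ℝ e x| * _ ≤ _
    rw [abs_mul, abs_of_pos hi0]
    have h6 : (‖x‖ ^ 2 + s)⁻¹ * |(inner ℝ e x : ℝ)| ≤ 1 + 1 / s := by
      calc _ ≤ (‖x‖ ^ 2 + s)⁻¹ * ‖x‖ := mul_le_mul_of_nonneg_left he2 hi0.le
        _ = ‖x‖ * (‖x‖ ^ 2 + s)⁻¹ := mul_comm _ _
        _ ≤ _ := hn
    refine mul_le_mul h6 ?_ (norm_nonneg _) hc
    refine (norm_add_le _ _).trans ?_
    rw [two_mul]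
    have h7 : ‖(‖x‖ ^ 2 + s)⁻¹ • dg s x‖ ≤ s⁻¹ * (2 * (1 + 1 / s) * s⁻¹) := by
      rw [norm_smul, Real.norm_eq_abs, abs_of_pos hi0]
      exact mul_le_mul hi hd (norm_nonneg _) hs0.le
    exact add_le_add h7 h7

end KerB

theorem KK_bdd {s T : ℝ} (hs : 0 < s) (hT : 0 < T) :
    ∃ C : ℝ, ∀ x, |KK s T x| ≤ C ∧ ‖fderiv ℝ (KK s T) x‖ ≤ C ∧
      ∀ e : ℂ, ‖e‖ ≤ 1 → ‖fderiv ℝ (fun y => fderiv ℝ (KK s T) y e) x‖ ≤ C := by
  rcases le_total s T with h | h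
  · exact KerB.combine (fun x => KerB.KK_abs hs h x) (fun x => KerB.KK_d1_bdd hs hT x)
      (fun x e he => KerB.KK_d2_bdd hs h x e he)
  · refine KerB.combine (p := 1 / (4 * Real.pi) * Real.log (s / T)) (r := 2 / T) (fun x => ?_)
      (fun x => KerB.KK_d1_bdd hs hT x) (fun x e he => ?_)
    · rw [KerB.KK_swap, abs_neg]
      exact KerB.KK_abs hT h x
    · have h1 : KK s T = fun y => -KK T s y := funext fun y => KerB.KK_swap s T y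
      have h2 : (fun y => fderiv ℝ (KK s T) y e) = fun y => -(fderiv ℝ (KK T s) y e) := by
        funext y
        rw [h1, fderiv_fun_neg]
        rfl
      rw [h2, fderiv_fun_neg, norm_neg]
      exact KerB.KK_d2_bdd hT h x e he

theorem rho_bdd {s : ℝ} (hs : 0 < s) :
    ∃ C : ℝ, ∀ x, |rho s x| ≤ C ∧ ‖fderiv ℝ (rho s) x‖ ≤ C ∧
      ∀ e : ℂ, ‖e‖ ≤ 1 → ‖fderiv ℝ (fun y => fderiv ℝ (rho s) y e) x‖ ≤ C := by
  refine KerB.combine (p := s / (Real.pi * s ^ 2))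
    (q := s / Real.pi * (2 * s⁻¹) * (2 * (1 + 1 / s) * s⁻¹)) (fun x => ?_) (fun x => ?_)
    (fun x e he => KerB.rho_d2_bdd hs x e he)
  · unfold rho
    have hA := KerB.nsq_pos x hs
    rw [abs_of_pos (by positivity)]
    refine div_le_div_of_nonneg_left hs.le (by positivity) ?_
    refine mul_le_mul_of_nonneg_left (pow_le_pow_left₀ hs.le ?_ 2) Real.pi_pos.le
    nlinarith [sq_nonneg ‖x‖]
  · have hA := KerB.nsq_pos x hs
    rw [(KerB.hasFDerivAt_rho hs x).fderiv, norm_smul, Real.norm_eq_abs,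
      abs_of_pos (by positivity)]
    refine mul_le_mul ?_ (KerB.norm_dg hs x) (norm_nonneg _) (by positivity)
    exact mul_le_mul_of_nonneg_left (mul_le_mul_of_nonneg_left (KerB.inv_le x hs) two_pos.le)
      (by positivity)

end Pool.Agent.CAPS
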