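import Pool.Agent.Lib.MP_488b8a_co.Defs

/-! Project CAPS (MP_488b8a_co), module KerInt. -/

namespace Pool.Agent.CAPS

open Complex MeasureTheory

private theorem KerInt_radial (f : ℝ → ℝ) :
    ∫ x in Metric.ball (0 : ℂ) 1, f ‖x‖ = 2 * Real.pi * ∫ y in (0 : ℝ)..1, y * f y := by
  have h1 : ∫ x in Metric.ball (0 : ℂ) 1, f ‖x‖ = ∫ x : ℂ, (Set.Iio (1 : ℝ)).indicator f ‖x‖ := by
    rw [← integral_indicator Metric.isOpen_ball.measurableSet]
    congr 1
    ext x
    simp [Set.indicator]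
  rw [h1, integral_fun_norm_addHaar (volume : Measure ℂ) ((Set.Iio (1 : ℝ)).indicator f)]
  have h2 : (volume : Measure ℂ).real (Metric.ball (0 : ℂ) 1) = Real.pi := by
    rw [Measure.real, Complex.volume_ball]
    simp
  rw [h2, Complex.finrank_real_complex]
  have h3 : ∫ y in Set.Ioi (0 : ℝ), y ^ (2 - 1) • (Set.Iio (1 : ℝ)).indicator f y =
      ∫ y in (0 : ℝ)..1, y * f y := by
    rw [intervalIntegral.integral_of_le zero_le_one, integral_Ioc_eq_integral_Ioo]
    have h4 : (fun y : ℝ => y ^ (2 - 1) • (Set.Iio (1 : ℝ)).indicator f y) =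
        (Set.Iio (1 : ℝ)).indicator (fun y => y * f y) := by
      ext y
      by_cases hy : y < 1 <;> simp [Set.indicator, hy]
    rw [h4, setIntegral_indicator measurableSet_Iio, Set.Ioi_inter_Iio]
  rw [h3]
  simp only [nsmul_eq_mul, smul_eq_mul]
  push_cast
  ring

private theorem KerInt_int {f g : ℝ → ℝ} (hg : Continuous g)
    (hfg : ∀ y, 0 < y → y < 1 → y * f y = g y) :
    IntegrableOn (fun x : ℂ => f ‖x‖) (Metric.ball 0 1) ∧
    ∫ x in Metric.ball (0 : ℂ) 1, f ‖x‖ = 2 * Real.pi * ∫ y in (0 : ℝ)..1, g y := by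
  constructor
  · rw [integrableOn_fun_norm_addHaar (volume : Measure ℂ), Complex.finrank_real_complex]
    have h1 : IntegrableOn g (Set.Ioo (0 : ℝ) 1) :=
      (hg.integrableOn_Icc (a := 0) (b := 1)).mono_set Set.Ioo_subset_Icc_self
    refine h1.congr_fun ?_ measurableSet_Ioo
    intro y hy
    have := hfg y hy.1 hy.2
    simp only [smul_eq_mul]
    rw [← this]
    norm_num
  · rw [KerInt_radial]
    congr 1
    rw [intervalIntegral.integral_of_le zero_le_one, intervalIntegral.integral_of_le zero_le_one,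
      integral_Ioc_eq_integral_Ioo, integral_Ioc_eq_integral_Ioo]
    exact setIntegral_congr_fun measurableSet_Ioo (fun y hy => hfg y hy.1 hy.2)

theorem int_d1 {T : ℝ} (hT : 0 < T) (hT1 : T ≤ 1) :
    IntegrableOn (fun x : ℂ => T / (‖x‖ * (‖x‖ ^ 2 + T))) (Metric.ball 0 1) ∧
    ∫ x in Metric.ball (0 : ℂ) 1, T / (‖x‖ * (‖x‖ ^ 2 + T)) ≤ 20 * Real.sqrt T := by
  have hpos : ∀ y : ℝ, 0 < y ^ 2 + T := fun y => by positivity
  have hc : Continuous (fun y : ℝ => T / (y ^ 2 + T)) :=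
    continuous_const.div (by fun_prop) (fun y => (hpos y).ne')
  obtain ⟨h1, h2⟩ := KerInt_int (f := fun y => T / (y * (y ^ 2 + T)))
    (g := fun y => T / (y ^ 2 + T)) hc (by
      intro y hy _
      have := hpos y
      field_simp)
  refine ⟨h1, ?_⟩
  rw [h2]
  have hsT : 0 < Real.sqrt T := Real.sqrt_pos.mpr hT
  have hss : Real.sqrt T * Real.sqrt T = T := Real.mul_self_sqrt hT.le
  have hder : ∀ y : ℝ, HasDerivAt (fun y => Real.sqrt T * Real.arctan (y / Real.sqrt T))
      (T / (y ^ 2 + T)) y := by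
    intro y
    have h3 : HasDerivAt (fun y : ℝ => y / Real.sqrt T) (1 / Real.sqrt T) y :=
      (hasDerivAt_id y).div_const _
    have h4 := (h3.arctan).const_mul (Real.sqrt T)
    refine h4.congr_deriv ?_
    have := hpos y
    have hne : 1 + (y / Real.sqrt T) ^ 2 ≠ 0 := by positivity
    rw [div_pow, Real.sq_sqrt hT.le]
    have hne' : (1 : ℝ) + y ^ 2 / T ≠ 0 := by positivity
    field_simp
    ring
  have hint : ∫ y in (0 : ℝ)..1, T / (y ^ 2 + T) =
      Real.sqrt T * Real.arctan (1 / Real.sqrt T) := by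
    rw [intervalIntegral.integral_eq_sub_of_hasDerivAt (fun y _ => hder y)
      (hc.intervalIntegrable _ _)]
    simp
  rw [hint]
  have h5 : Real.arctan (1 / Real.sqrt T) < Real.pi / 2 := Real.arctan_lt_pi_div_two _
  have h6 : Real.pi < 3.15 := Real.pi_lt_d2
  have h7 : 0 < Real.pi := Real.pi_pos
  have h8 : 2 * Real.pi * (Real.sqrt T * Real.arctan (1 / Real.sqrt T)) ≤
      2 * Real.pi * (Real.sqrt T * (Real.pi / 2)) := by gcongr
  have h9 : 2 * Real.pi * (Real.sqrt T * (Real.pi / 2)) = Real.pi ^ 2 * Real.sqrt T := by ring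
  have h10 : Real.pi ^ 2 ≤ 20 := by nlinarith
  calc _ ≤ _ := h8
    _ = _ := h9
    _ ≤ _ := by gcongr

theorem int_d2 {s : ℝ} (hs : 0 < s) (hs1 : s ≤ 1) :
    IntegrableOn (fun x : ℂ => 2 / (‖x‖ ^ 2 + s)) (Metric.ball 0 1) ∧
    ∫ x in Metric.ball (0 : ℂ) 1, 2 / (‖x‖ ^ 2 + s) ≤ 20 * (1 + Real.log (1 / s)) := by
  have hpos : ∀ y : ℝ, 0 < y ^ 2 + s := fun y => by positivity
  have hc : Continuous (fun y : ℝ => 2 * y / (y ^ 2 + s)) :=
    Continuous.div (by fun_prop) (by fun_prop) (fun y => (hpos y).ne')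
  obtain ⟨h1, h2⟩ := KerInt_int (f := fun y => 2 / (y ^ 2 + s))
    (g := fun y => 2 * y / (y ^ 2 + s)) hc (by
      intro y hy _
      ring)
  refine ⟨h1, ?_⟩
  rw [h2]
  have hder : ∀ y : ℝ, HasDerivAt (fun y : ℝ => Real.log (y ^ 2 + s)) (2 * y / (y ^ 2 + s)) y := by
    intro y
    have h3 : HasDerivAt (fun y : ℝ => y ^ 2 + s) (2 * y) y := by
      have := (hasDerivAt_pow 2 y).add_const s
      simpa using this
    exact h3.log (hpos y).ne'
  have hint : ∫ y in (0 : ℝ)..1, 2 * y / (y ^ 2 + s) = Real.log (1 + s) - Real.log s := by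
    rw [intervalIntegral.integral_eq_sub_of_hasDerivAt (fun y _ => hder y)
      (hc.intervalIntegrable _ _)]
    simp
  rw [hint]
  have h6 : Real.pi < 3.15 := Real.pi_lt_d2
  have h7 : 0 < Real.pi := Real.pi_pos
  have h8 : Real.log (1 + s) ≤ 1 := by
    have := Real.log_le_sub_one_of_pos (show 0 < 1 + s by linarith)
    linarith
  have h9 : Real.log s ≤ 0 := Real.log_nonpos hs.le hs1
  rw [one_div, Real.log_inv]
  have h10 : Real.log (1 + s) - Real.log s ≤ 1 + -Real.log s := by linarith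
  have h11 : 0 ≤ 1 + -Real.log s := by linarith
  calc 2 * Real.pi * (Real.log (1 + s) - Real.log s) ≤ 2 * Real.pi * (1 + -Real.log s) := by gcongr
    _ ≤ 20 * (1 + -Real.log s) := by
      apply mul_le_mul_of_nonneg_right _ h11
      linarith

end Pool.Agent.CAPS
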