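import Pool.Agent.Lib.MP_488b8a_co.Defs

/-! Project CAPS (MP_488b8a_co), module LP3. -/

namespace Pool.Agent.CAPS

open Complex MeasureTheory

/-- a small step in a direction which does not increase the active constraints stays feasible -/
private theorem lp3_step {n : ℕ} (p : Fin n → EuclideanSpace ℝ (Fin 3))
    (N d : EuclideanSpace ℝ (Fin 3)) (hN : ∀ l, inner ℝ N (p l) ≤ 1)
    (hd : ∀ l, inner ℝ N (p l) = 1 → inner ℝ d (p l) ≤ 0) :
    ∃ t : ℝ, 0 < t ∧ ∀ l, inner ℝ (N + t • d) (p l) ≤ 1 := by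
  have h1 : ∀ l, ∀ᶠ t : ℝ in nhdsWithin 0 (Set.Ioi 0), inner ℝ (N + t • d) (p l) ≤ 1 := by
    intro l
    by_cases h : inner ℝ N (p l) = 1
    · filter_upwards [self_mem_nhdsWithin] with t ht
      have ht' : (0 : ℝ) < t := ht
      rw [inner_add_left, real_inner_smul_left, h]
      nlinarith [hd l h]
    · have hlt : inner ℝ N (p l) < 1 := lt_of_le_of_ne (hN l) h
      have hc : Continuous (fun t : ℝ => inner ℝ (N + t • d) (p l)) := by fun_prop
      have h0 : (fun t : ℝ => inner ℝ (N + t • d) (p l)) 0 < 1 := by simpa using hlt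
      have h2 : ∀ᶠ t : ℝ in nhds 0, inner ℝ (N + t • d) (p l) < 1 :=
        hc.continuousAt.eventually_lt continuousAt_const h0
      exact (h2.filter_mono nhdsWithin_le_nhds).mono (fun t ht => le_of_lt ht)
  have h2 : ∀ᶠ t : ℝ in nhdsWithin 0 (Set.Ioi 0), ∀ l, inner ℝ (N + t • d) (p l) ≤ 1 :=
    Filter.eventually_all.2 h1
  obtain ⟨t, ht, ht'⟩ := (h2.and self_mem_nhdsWithin).exists
  exact ⟨t, ht', ht⟩

/-- first order optimality -/
private theorem lp3_opt {n : ℕ} (p : Fin n → EuclideanSpace ℝ (Fin 3))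
    (N x : EuclideanSpace ℝ (Fin 3)) (hN : ∀ l, inner ℝ N (p l) ≤ 1)
    (hmax : ∀ M : EuclideanSpace ℝ (Fin 3), (∀ l, inner ℝ M (p l) ≤ 1) →
      inner ℝ M x ≤ inner ℝ N x)
    (d : EuclideanSpace ℝ (Fin 3))
    (hd : ∀ l, inner ℝ N (p l) = 1 → inner ℝ d (p l) ≤ 0) : inner ℝ d x ≤ 0 := by
  obtain ⟨t, ht, h⟩ := lp3_step p N d hN hd
  have h1 := hmax _ h
  rw [inner_add_left, real_inner_smul_left] at h1
  by_contra h2
  push Not at h2
  nlinarith [mul_pos ht h2]

/-- linear programming on the sphere -/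
theorem lp3 {n : ℕ} (p : Fin n → EuclideanSpace ℝ (Fin 3)) {κ : ℝ} (hκ : 0 < κ)
    (hc : ∀ x : EuclideanSpace ℝ (Fin 3), ‖x‖ = 1 → ∃ l, κ ≤ inner ℝ x (p l))
    (hgp : ∀ N : EuclideanSpace ℝ (Fin 3), ∀ i j k l : Fin n,
      i ≠ j → i ≠ k → i ≠ l → j ≠ k → j ≠ l → k ≠ l →
      ¬ (inner ℝ N (p i) = 1 ∧ inner ℝ N (p j) = 1 ∧ inner ℝ N (p k) = 1 ∧ inner ℝ N (p l) = 1))
    {x : EuclideanSpace ℝ (Fin 3)} (hx : ∀ i j, x ∉ Submodule.span ℝ {p i, p j}) :
    ∃ (N : EuclideanSpace ℝ (Fin 3)) (i j k : Fin n) (α β γ : ℝ), (∀ l, inner ℝ N (p l) ≤ 1) ∧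
      LinearIndependent ℝ ![p i, p j, p k] ∧ inner ℝ N (p i) = 1 ∧ inner ℝ N (p j) = 1 ∧
      inner ℝ N (p k) = 1 ∧ (∀ l, l ≠ i → l ≠ j → l ≠ k → inner ℝ N (p l) < 1) ∧
      0 ≤ α ∧ 0 ≤ β ∧ 0 ≤ γ ∧ x = α • p i + β • p j + γ • p k := by
  classical
  -- the feasible set
  let P : Set (EuclideanSpace ℝ (Fin 3)) := {N | ∀ l, inner ℝ N (p l) ≤ 1}
  have hPc : IsClosed P := by
    have : P = ⋂ l, {N | inner ℝ N (p l) ≤ 1} := by
      ext N; simp [P]
    rw [this]
    refine isClosed_iInter (fun l => isClosed_le (by fun_prop) continuous_const)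
  have hPb : P ⊆ Metric.closedBall 0 (1 / κ) := by
    intro N hN
    rw [mem_closedBall_zero_iff]
    rcases eq_or_ne N 0 with h0 | h0
    · rw [h0, norm_zero]; positivity
    · have hn : 0 < ‖N‖ := norm_pos_iff.2 h0
      obtain ⟨l, hl⟩ := hc (‖N‖⁻¹ • N) (by
        rw [norm_smul, norm_inv, norm_norm, inv_mul_cancel₀ hn.ne'])
      rw [real_inner_smul_left] at hl
      have h1 : ‖N‖⁻¹ * inner ℝ N (p l) ≤ ‖N‖⁻¹ * 1 :=
        mul_le_mul_of_nonneg_left (hN l) (by positivity)
      have h2 : κ ≤ ‖N‖⁻¹ := by linarith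
      rw [le_div_iff₀ hκ]
      calc ‖N‖ * κ ≤ ‖N‖ * ‖N‖⁻¹ := mul_le_mul_of_nonneg_left h2 hn.le
        _ = 1 := mul_inv_cancel₀ hn.ne'
  have hPk : IsCompact P :=
    Metric.isCompact_of_isClosed_isBounded hPc (Metric.isBounded_closedBall.subset hPb)
  have hP0 : P.Nonempty := ⟨0, fun l => by simp⟩
  obtain ⟨N, hN, hNm⟩ := hPk.exists_isMaxOn hP0
    (f := fun N => inner ℝ N x) (by fun_prop)
  have hN' : ∀ l, inner ℝ N (p l) ≤ 1 := hN
  have hmax : ∀ M : EuclideanSpace ℝ (Fin 3), (∀ l, inner ℝ M (p l) ≤ 1) →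
      inner ℝ M x ≤ inner ℝ N x := fun M hM => hNm hM
  have hopt := lp3_opt p N x hN' hmax
  -- the active set
  let A : Set (Fin n) := {l | inner ℝ N (p l) = 1}
  have hxV : x ∈ Submodule.span ℝ (p '' A) := by
    rw [← Submodule.orthogonal_orthogonal (Submodule.span ℝ (p '' A)),
      Submodule.mem_orthogonal]
    intro d hd
    rw [Submodule.mem_orthogonal] at hd
    have hz : ∀ l, inner ℝ N (p l) = 1 → inner ℝ d (p l) = 0 := by
      intro l hl
      rw [real_inner_comm]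
      exact hd _ (Submodule.subset_span ⟨l, hl, rfl⟩)
    have h1 := hopt d (fun l hl => (hz l hl).le)
    have h2 := hopt (-d) (fun l hl => by rw [inner_neg_left, hz l hl, neg_zero])
    rw [inner_neg_left] at h2
    linarith
  -- three independent active points
  obtain ⟨b, hbA, hbs, hbi⟩ := exists_linearIndependent ℝ (p '' A)
  have hbf : b.Finite := (Set.toFinite (p '' A)).subset hbA
  have hne : ∃ l : Fin n, True := by
    obtain ⟨l, _⟩ := hc (EuclideanSpace.single 0 1) (by simp)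
    exact ⟨l, trivial⟩
  obtain ⟨l₀, _⟩ := hne
  have hcard : b.ncard ≤ 3 := by
    have := hbf.fintype
    have h1 := hbi.fintype_card_le_finrank
    rw [finrank_euclideanSpace, Fintype.card_fin] at h1
    rw [Set.ncard_eq_toFinset_card' b, Set.toFinset_card]
    exact h1
  have hkey : ∃ i j k : Fin n, i ∈ A ∧ j ∈ A ∧ k ∈ A ∧
      LinearIndependent ℝ ![p i, p j, p k] := by
    rcases Nat.lt_or_ge b.ncard 3 with h3 | h3
    · exfalso
      have hsub : ∃ i j : Fin n, b ⊆ {p i, p j} := by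
        have hc3 : b.ncard = 0 ∨ b.ncard = 1 ∨ b.ncard = 2 := by omega
        rcases hc3 with h | h | h
        · rw [Set.ncard_eq_zero hbf] at h
          exact ⟨l₀, l₀, by rw [h]; exact Set.empty_subset _⟩
        · obtain ⟨u, hu⟩ := Set.ncard_eq_one.1 h
          obtain ⟨i, _, hi⟩ := hbA (by rw [hu]; exact Set.mem_singleton u)
          refine ⟨i, i, ?_⟩
          rw [hu, hi]; simp
        · obtain ⟨u, v, _, huv⟩ := Set.ncard_eq_two.1 h
          obtain ⟨i, _, hi⟩ := hbA (show u ∈ b by rw [huv]; simp)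
          obtain ⟨j, _, hj⟩ := hbA (show v ∈ b by rw [huv]; simp)
          refine ⟨i, j, ?_⟩
          rw [huv, hi, hj]
      obtain ⟨i, j, hij⟩ := hsub
      exact hx i j (Submodule.span_mono hij (by rw [hbs]; exact hxV))
    · have h3' : b.ncard = 3 := le_antisymm hcard h3
      obtain ⟨u, v, w, huv, huw, hvw, hb⟩ := Set.ncard_eq_three.1 h3'
      have hub : u ∈ b := by rw [hb]; simp
      have hvb : v ∈ b := by rw [hb]; simp
      have hwb : w ∈ b := by rw [hb]; simp
      obtain ⟨i, hiA, hi⟩ := hbA hub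
      obtain ⟨j, hjA, hj⟩ := hbA hvb
      obtain ⟨k, hkA, hk⟩ := hbA hwb
      refine ⟨i, j, k, hiA, hjA, hkA, ?_⟩
      rw [hi, hj, hk]
      have hinj : Function.Injective ![(⟨u, hub⟩ : b), ⟨v, hvb⟩, ⟨w, hwb⟩] := by
        intro a c hac
        fin_cases a <;> fin_cases c <;> simp_all
      have h4 := hbi.comp _ hinj
      have h5 : (Subtype.val ∘ ![(⟨u, hub⟩ : b), ⟨v, hvb⟩, ⟨w, hwb⟩]) = ![u, v, w] := by
        funext a
        fin_cases a <;> rfl
      rw [h5] at h4
      exact h4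
  obtain ⟨i, j, k, hi, hj, hk, hli⟩ := hkey
  have hi1 : inner ℝ N (p i) = 1 := hi
  have hj1 : inner ℝ N (p j) = 1 := hj
  have hk1 : inner ℝ N (p k) = 1 := hk
  have hij : i ≠ j := by
    intro h
    have := hli.injective (a₁ := 0) (a₂ := 1) (by simp [h])
    exact absurd this (by decide)
  have hik : i ≠ k := by
    intro h
    have := hli.injective (a₁ := 0) (a₂ := 2) (by simp [h])
    exact absurd this (by decide)
  have hjk : j ≠ k := by
    intro h
    have := hli.injective (a₁ := 1) (a₂ := 2) (by simp [h])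
    exact absurd this (by decide)
  have hin : ∀ l, l ≠ i → l ≠ j → l ≠ k → inner ℝ N (p l) < 1 := fun l h1 h2 h3 =>
    lt_of_le_of_ne (hN' l) (fun h => hgp N i j k l hij hik h1.symm hjk h2.symm h3.symm
      ⟨hi1, hj1, hk1, h⟩)
  -- the coordinates of `x`
  let B := basisOfLinearIndependentOfCardEqFinrank hli (by
    rw [finrank_euclideanSpace])
  have hB : ∀ m, B m = ![p i, p j, p k] m := fun m => by
    simp [B]
  have hco : ∀ m : Fin 3, 0 ≤ B.repr x m := by
    intro m
    obtain ⟨v, hv⟩ : ∃ v : EuclideanSpace ℝ (Fin 3), ∀ y, inner ℝ v y = B.coord m y := by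
      refine ⟨(InnerProductSpace.toDual ℝ (EuclideanSpace ℝ (Fin 3))).symm
        (LinearMap.toContinuousLinearMap (B.coord m)), fun y => ?_⟩
      rw [InnerProductSpace.toDual_symm_apply]
      rfl
    have hv3 : ∀ r : Fin 3, 0 ≤ inner ℝ v (![p i, p j, p k] r) := by
      intro r
      rw [hv, ← hB r, Module.Basis.coord_apply, Module.Basis.repr_self]
      rw [Finsupp.single_apply]
      split_ifs <;> norm_num
    have h1 := hopt (-v) (fun l hl => by
      rw [inner_neg_left]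
      by_cases h1 : l = i
      · have := hv3 0
        rw [h1]
        simpa using this
      · by_cases h2 : l = j
        · have := hv3 1
          rw [h2]
          simpa using this
        · by_cases h3 : l = k
          · have := hv3 2
            rw [h3]
            simpa using this
          · exact absurd hl (hin l h1 h2 h3).ne)
    rw [inner_neg_left, hv, Module.Basis.coord_apply] at h1
    linarith
  refine ⟨N, i, j, k, B.repr x 0, B.repr x 1, B.repr x 2, hN', hli, hi1, hj1, hk1, hin,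
    hco 0, hco 1, hco 2, ?_⟩
  have h1 := B.sum_repr x
  rw [Fin.sum_univ_three, hB 0, hB 1, hB 2] at h1
  exact h1.symm

end Pool.Agent.CAPS
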