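import Pool.Agent.Lib.MP_488b8a_co.Defs

/-! Project CAPS (MP_488b8a_co), module TriAlg. -/

namespace Pool.Agent.CAPS

open Complex MeasureTheory

private theorem TriAlg_dot_le (X v : ℂ) : |X.re * v.re + X.im * v.im| ≤ ‖X‖ * ‖v‖ := by
  have h : X.re * v.re + X.im * v.im = (X * (starRingEnd ℂ) v).re := by
    simp [Complex.mul_re]
  rw [h]
  refine (Complex.abs_re_le_norm _).trans (le_of_eq ?_)
  rw [norm_mul, Complex.norm_conj]

private theorem TriAlg_crs_le (X v : ℂ) : |crs X v| ≤ ‖X‖ * ‖v‖ := by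
  have h : crs X v = ((starRingEnd ℂ) X * v).im := by
    simp [crs, Complex.mul_im]
    ring
  rw [h]
  refine (Complex.abs_im_le_norm _).trans (le_of_eq ?_)
  rw [norm_mul, Complex.norm_conj]

private theorem TriAlg_sq3 : Real.sqrt 3 ^ 2 = 3 := Real.sq_sqrt (by norm_num)

private theorem TriAlg_norm_zet : ‖zet‖ = 1 := by
  rw [Complex.norm_eq_sqrt_sq_add_sq]
  have h : zet.re ^ 2 + zet.im ^ 2 = 1 := by
    simp only [zet]
    have := TriAlg_sq3
    nlinarith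
  rw [h, Real.sqrt_one]

private theorem TriAlg_norm_zet_sub : ‖zet - 1‖ = 1 := by
  rw [Complex.norm_eq_sqrt_sq_add_sq]
  have h : (zet - 1).re ^ 2 + (zet - 1).im ^ 2 = 1 := by
    simp only [zet, Complex.sub_re, Complex.sub_im, Complex.one_re, Complex.one_im]
    have := TriAlg_sq3
    nlinarith
  rw [h, Real.sqrt_one]

private theorem TriAlg_diff {X e v v' : ℂ} (he : ‖e‖ ≤ 1) {A B D : ℝ} (hv : ‖v‖ ≤ A)
    (hv' : ‖v'‖ ≤ B) (hd : ‖v - v'‖ ≤ D) :
    |(X.re * v.re + X.im * v.im) * crs e v - (X.re * v'.re + X.im * v'.im) * crs e v'| ≤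
      ‖X‖ * D * (A + B) := by
  have hid : (X.re * v.re + X.im * v.im) * crs e v - (X.re * v'.re + X.im * v'.im) * crs e v' =
      (X.re * (v - v').re + X.im * (v - v').im) * crs e v +
      (X.re * v'.re + X.im * v'.im) * crs e (v - v') := by
    simp only [crs, Complex.sub_re, Complex.sub_im]
    ring
  rw [hid]
  have hD : 0 ≤ D := (norm_nonneg _).trans hd
  have hA : 0 ≤ A := (norm_nonneg _).trans hv
  have hB : 0 ≤ B := (norm_nonneg _).trans hv'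
  have hX := norm_nonneg X
  have h1 := TriAlg_dot_le X (v - v')
  have h2 := TriAlg_crs_le e v
  have h3 := TriAlg_dot_le X v'
  have h4 := TriAlg_crs_le e (v - v')
  have h1' : |X.re * (v - v').re + X.im * (v - v').im| ≤ ‖X‖ * D :=
    h1.trans (mul_le_mul_of_nonneg_left hd hX)
  have h2' : |crs e v| ≤ A := h2.trans (by
    calc ‖e‖ * ‖v‖ ≤ 1 * ‖v‖ := mul_le_mul_of_nonneg_right he (norm_nonneg _)
      _ ≤ A := by rw [one_mul]; exact hv)
  have h3' : |X.re * v'.re + X.im * v'.im| ≤ ‖X‖ * B :=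
    h3.trans (mul_le_mul_of_nonneg_left hv' hX)
  have h4' : |crs e (v - v')| ≤ D := h4.trans (by
    calc ‖e‖ * ‖v - v'‖ ≤ 1 * ‖v - v'‖ := mul_le_mul_of_nonneg_right he (norm_nonneg _)
      _ ≤ D := by rw [one_mul]; exact hd)
  refine (abs_add_le _ _).trans ?_
  rw [abs_mul, abs_mul]
  have h5 : |X.re * (v - v').re + X.im * (v - v').im| * |crs e v| ≤ (‖X‖ * D) * A :=
    mul_le_mul h1' h2' (abs_nonneg _) (mul_nonneg hX hD)
  have h6 : |X.re * v'.re + X.im * v'.im| * |crs e (v - v')| ≤ (‖X‖ * B) * D :=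
    mul_le_mul h3' h4' (abs_nonneg _) (mul_nonneg hX hB)
  calc _ ≤ (‖X‖ * D) * A + (‖X‖ * B) * D := add_le_add h5 h6
    _ = ‖X‖ * D * (A + B) := by ring

/-- the identity at the regular triangle -/
private theorem TriAlg_reg (X e w : ℂ) :
    1 / 2 * ((X.re * w.re + X.im * w.im) * crs e w +
        (X.re * ((zet - 1) * w).re + X.im * ((zet - 1) * w).im) * crs e ((zet - 1) * w) +
        (X.re * (-(zet * w)).re + X.im * (-(zet * w)).im) * crs e (-(zet * w))) -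
      Real.sqrt 3 * (crs w (zet * w) / 2) * crs e X = 0 := by
  have h3 := TriAlg_sq3
  simp only [crs, zet, Complex.sub_re, Complex.sub_im, Complex.one_re, Complex.one_im,
    Complex.mul_re, Complex.mul_im, Complex.neg_re, Complex.neg_im]
  ring_nf
  rw [h3]
  ring

/-- the three sides of an almost regular triangle -/
theorem tri_alg {X e w τ : ℂ} (he : ‖e‖ ≤ 1) (hτ : ‖τ - zet‖ ≤ 1 / 10) :
    |1 / 2 * ((X.re * w.re + X.im * w.im) * crs e w +
        (X.re * ((τ - 1) * w).re + X.im * ((τ - 1) * w).im) * crs e ((τ - 1) * w) +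
        (X.re * (-(τ * w)).re + X.im * (-(τ * w)).im) * crs e (-(τ * w))) -
      Real.sqrt 3 * (crs w (τ * w) / 2) * crs e X| ≤ 10 * ‖X‖ * ‖w‖ ^ 2 * ‖τ - zet‖ := by
  have hw := norm_nonneg w
  have hX := norm_nonneg X
  have hδ := norm_nonneg (τ - zet)
  have hreg := TriAlg_reg X e w
  have hn1 : ‖(τ - 1) * w‖ ≤ 11 / 10 * ‖w‖ := by
    rw [norm_mul]
    refine mul_le_mul_of_nonneg_right ?_ hw
    calc ‖τ - 1‖ = ‖(τ - zet) + (zet - 1)‖ := by congr 1; ring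
      _ ≤ ‖τ - zet‖ + ‖zet - 1‖ := norm_add_le _ _
      _ ≤ 11 / 10 := by rw [TriAlg_norm_zet_sub]; linarith
  have hn2 : ‖(zet - 1) * w‖ ≤ 1 * ‖w‖ := by rw [norm_mul, TriAlg_norm_zet_sub]
  have hn3 : ‖-(τ * w)‖ ≤ 11 / 10 * ‖w‖ := by
    rw [norm_neg, norm_mul]
    refine mul_le_mul_of_nonneg_right ?_ hw
    calc ‖τ‖ = ‖(τ - zet) + zet‖ := by congr 1; ring
      _ ≤ ‖τ - zet‖ + ‖zet‖ := norm_add_le _ _
      _ ≤ 11 / 10 := by rw [TriAlg_norm_zet]; linarith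
  have hn4 : ‖-(zet * w)‖ ≤ 1 * ‖w‖ := by rw [norm_neg, norm_mul, TriAlg_norm_zet]
  have hd1 : ‖(τ - 1) * w - (zet - 1) * w‖ ≤ ‖τ - zet‖ * ‖w‖ := by
    rw [← norm_mul]
    refine le_of_eq ?_
    congr 1
    ring
  have hd2 : ‖-(τ * w) - -(zet * w)‖ ≤ ‖τ - zet‖ * ‖w‖ := by
    rw [← norm_mul, ← norm_neg]
    refine le_of_eq ?_
    congr 1
    ring
  have hq1 := TriAlg_diff (X := X) he hn1 hn2 hd1
  have hq2 := TriAlg_diff (X := X) he hn3 hn4 hd2
  have hq3 : |(crs w (τ * w) - crs w (zet * w)) * crs e X| ≤ ‖w‖ * (‖τ - zet‖ * ‖w‖) * ‖X‖ := by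
    have h1 : crs w (τ * w) - crs w (zet * w) = crs w ((τ - zet) * w) := by
      simp only [crs, Complex.mul_re, Complex.mul_im, Complex.sub_re, Complex.sub_im]
      ring
    rw [h1, abs_mul]
    have h2 := TriAlg_crs_le w ((τ - zet) * w)
    rw [norm_mul] at h2
    have h3 : |crs e X| ≤ ‖X‖ := (TriAlg_crs_le e X).trans (by
      calc ‖e‖ * ‖X‖ ≤ 1 * ‖X‖ := mul_le_mul_of_nonneg_right he hX
        _ = ‖X‖ := one_mul _)
    exact mul_le_mul h2 h3 (abs_nonneg _) (mul_nonneg hw (mul_nonneg hδ hw))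
  have hs3 : Real.sqrt 3 ≤ 2 := by
    rw [Real.sqrt_le_left (by norm_num)]
    norm_num
  have hs0 := Real.sqrt_nonneg 3
  set Q1 := (X.re * ((τ - 1) * w).re + X.im * ((τ - 1) * w).im) * crs e ((τ - 1) * w)
  set Q1' := (X.re * ((zet - 1) * w).re + X.im * ((zet - 1) * w).im) * crs e ((zet - 1) * w)
  set Q2 := (X.re * (-(τ * w)).re + X.im * (-(τ * w)).im) * crs e (-(τ * w))
  set Q2' := (X.re * (-(zet * w)).re + X.im * (-(zet * w)).im) * crs e (-(zet * w))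
  set Q0 := (X.re * w.re + X.im * w.im) * crs e w
  set c := crs w (τ * w)
  set c' := crs w (zet * w)
  set x := crs e X
  have hid : 1 / 2 * (Q0 + Q1 + Q2) - Real.sqrt 3 * (c / 2) * x =
      1 / 2 * (Q1 - Q1') + 1 / 2 * (Q2 - Q2') - Real.sqrt 3 / 2 * ((c - c') * x) := by
    have h0 : 1 / 2 * (Q0 + Q1' + Q2') - Real.sqrt 3 * (c' / 2) * x = 0 := hreg
    linarith
  rw [hid]
  have hP : 0 ≤ ‖X‖ * ‖w‖ ^ 2 * ‖τ - zet‖ := by positivity
  have e1 : ‖X‖ * (‖τ - zet‖ * ‖w‖) * (11 / 10 * ‖w‖ + 1 * ‖w‖) =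
      21 / 10 * (‖X‖ * ‖w‖ ^ 2 * ‖τ - zet‖) := by ring
  have e2 : ‖w‖ * (‖τ - zet‖ * ‖w‖) * ‖X‖ = ‖X‖ * ‖w‖ ^ 2 * ‖τ - zet‖ := by ring
  rw [e1] at hq1 hq2
  rw [e2] at hq3
  have h4 : |Real.sqrt 3 / 2 * ((c - c') * x)| ≤ ‖X‖ * ‖w‖ ^ 2 * ‖τ - zet‖ := by
    rw [abs_mul, abs_of_nonneg (by positivity)]
    calc Real.sqrt 3 / 2 * |(c - c') * x| ≤ 1 * |(c - c') * x| :=
          mul_le_mul_of_nonneg_right (by linarith) (abs_nonneg _)
      _ ≤ _ := by rw [one_mul]; exact hq3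
  have h5 := abs_le.mp hq1
  have h6 := abs_le.mp hq2
  have h7 := abs_le.mp h4
  rw [abs_le]
  constructor <;> nlinarith [h5.1, h5.2, h6.1, h6.2, h7.1, h7.2]

end Pool.Agent.CAPS
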