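import Pool.Agent.Lib.MP_488b8a_co.Flx
import Pool.Agent.Lib.MP_488b8a_co.Shape
import Pool.Agent.Lib.MP_488b8a_co.Green
import Pool.Agent.Lib.MP_488b8a_co.LgT
import Pool.Agent.Lib.MP_488b8a_co.TriAlg
import Pool.Agent.Lib.MP_488b8a_co.NearR

/-! Project CAPS (MP_488b8a_co), module Lam. -/

namespace Pool.Agent.CAPS

open Complex MeasureTheory

private theorem crs_le (a b : ℂ) : |crs a b| ≤ ‖a‖ * ‖b‖ := by
  have h : crs a b = ((starRingEnd ℂ) a * b).im := by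
    simp [crs, Complex.mul_im]
    ring
  rw [h]
  refine (Complex.abs_im_le_norm _).trans ?_
  rw [norm_mul, Complex.norm_conj]

private theorem dot_le (a b : ℂ) : |a.re * b.re + a.im * b.im| ≤ ‖a‖ * ‖b‖ := by
  have h : a.re * b.re + a.im * b.im = ((starRingEnd ℂ) a * b).re := by
    simp [Complex.mul_re]
  rw [h]
  refine (Complex.abs_re_le_norm _).trans ?_
  rw [norm_mul, Complex.norm_conj]

/-- the vector `X` -/
private noncomputable def vX (p : ℂ) : ℂ := ((-(2 / (1 + ‖p‖ ^ 2)) : ℝ) : ℂ) * p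

private theorem vX_re (p : ℂ) : (vX p).re = -(2 / (1 + ‖p‖ ^ 2)) * p.re := by
  rw [vX, Complex.re_ofReal_mul]

private theorem vX_im (p : ℂ) : (vX p).im = -(2 / (1 + ‖p‖ ^ 2)) * p.im := by
  rw [vX, Complex.im_ofReal_mul]

private theorem vX_norm (p : ℂ) : ‖vX p‖ ≤ 1 := by
  rw [vX, norm_mul, Complex.norm_real, Real.norm_eq_abs, abs_neg,
    abs_of_nonneg (by positivity : (0 : ℝ) ≤ 2 / (1 + ‖p‖ ^ 2)), div_mul_eq_mul_div,
    div_le_one (by positivity)]
  nlinarith [sq_nonneg (‖p‖ - 1)]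

private theorem crs_vX (e p : ℂ) : crs e (vX p) = AA e p := by
  rw [crs, vX_re, vX_im, AA, crs]
  ring

/-- one side -/
private theorem side {f : ℂ → ℂ} (hf : ContDiff ℝ 1 f) {e : ℂ} (he : ‖e‖ = 1) {B B' : ℝ}
    (hB : ∀ x, ‖f x‖ ≤ B) (hB' : ∀ x, ‖fderiv ℝ f x‖ ≤ B') {r : ℝ} (hr : 0 < r) {p u v d : ℂ}
    (hu : ‖u - p‖ ≤ 2 * r) (hv : ‖v - p‖ ≤ 2 * r) (hd : v - u = d) (huv : ‖d‖ ≤ 2 * r) :
    ‖((lg u - lg v : ℝ) : ℂ) * flx f e u v -
      f p * ((((vX p).re * d.re + (vX p).im * d.im) * crs e d : ℝ) : ℂ)‖ ≤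
      80 * r ^ 3 * B + 8 * r ^ 3 * B' := by
  subst hd
  have hB0 : 0 ≤ B := (norm_nonneg _).trans (hB 0)
  have hB'0 : 0 ≤ B' := (norm_nonneg _).trans (hB' 0)
  set D : ℝ := (vX p).re * (v - u).re + (vX p).im * (v - u).im with hD
  have h1 : |(lg u - lg v) - D| ≤ 40 * r ^ 2 := by
    have h := lg_taylor hu hv
    have h2 : 2 * (p.re * (u - v).re + p.im * (u - v).im) / (1 + ‖p‖ ^ 2) = D := by
      rw [hD, vX_re, vX_im, Complex.sub_re, Complex.sub_im, Complex.sub_re, Complex.sub_im]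
      ring
    rw [h2] at h
    refine h.trans ?_
    rw [norm_sub_rev]
    nlinarith
  have h2 : |D| ≤ 2 * r := by
    refine (dot_le _ _).trans ?_
    calc ‖vX p‖ * ‖v - u‖ ≤ 1 * (2 * r) := by
          apply mul_le_mul (vX_norm p) huv (norm_nonneg _) zero_le_one
      _ = 2 * r := one_mul _
  have h3 : ‖flx f e u v‖ ≤ 2 * r * B := by
    refine (flx_norm he hB u v).trans ?_
    nlinarith
  have h4 : ‖flx f e u v - f p * (crs e (v - u) : ℂ)‖ ≤ 4 * r ^ 2 * B' := by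
    refine (flx_est hf he hB' hu hv).trans ?_
    have : B' * (2 * r) * ‖v - u‖ ≤ B' * (2 * r) * (2 * r) :=
      mul_le_mul_of_nonneg_left huv (by positivity)
    nlinarith
  have h5 : ((lg u - lg v : ℝ) : ℂ) * flx f e u v - f p * ((D * crs e (v - u) : ℝ) : ℂ) =
      (((lg u - lg v) - D : ℝ) : ℂ) * flx f e u v +
        (D : ℂ) * (flx f e u v - f p * (crs e (v - u) : ℂ)) := by
    push_cast
    ring
  rw [h5]
  refine (norm_add_le _ _).trans ?_
  rw [norm_mul, norm_mul, Complex.norm_real, Complex.norm_real, Real.norm_eq_abs,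
    Real.norm_eq_abs]
  have h6 : |(lg u - lg v) - D| * ‖flx f e u v‖ ≤ 40 * r ^ 2 * (2 * r * B) :=
    mul_le_mul h1 h3 (norm_nonneg _) (by positivity)
  have h7 : |D| * ‖flx f e u v - f p * (crs e (v - u) : ℂ)‖ ≤ 2 * r * (4 * r ^ 2 * B') :=
    mul_le_mul h2 h4 (norm_nonneg _) (by positivity)
  calc |(lg u - lg v) - D| * ‖flx f e u v‖ + |D| * ‖flx f e u v - f p * (crs e (v - u) : ℂ)‖
      ≤ 40 * r ^ 2 * (2 * r * B) + 2 * r * (4 * r ^ 2 * B') := add_le_add h6 h7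
    _ = 80 * r ^ 3 * B + 8 * r ^ 3 * B' := by ring

private theorem triS_dist {p q w x : ℂ} {δ : ℝ} (h : 0 < crs (q - p) (w - p))
    (hq : ‖q - p‖ ≤ δ) (hw : ‖w - p‖ ≤ δ) (hx : x ∈ triS p q w) : ‖x - p‖ ≤ δ := by
  obtain ⟨h1, h2, h3⟩ := hx
  set c := crs (q - p) (w - p) with hc
  have hδ : 0 ≤ δ := (norm_nonneg _).trans hq
  have e1 : crs (p - w) (x - w) = crs (x - p) (w - p) := by
    simp only [crs, Complex.sub_re, Complex.sub_im]
    ring
  have e2 : crs (w - q) (x - q) = c - crs (x - p) (w - p) - crs (q - p) (x - p) := by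
    rw [hc]
    simp only [crs, Complex.sub_re, Complex.sub_im]
    ring
  have e3 : (c : ℂ) * (x - p) = (crs (x - p) (w - p) : ℂ) * (q - p) +
      (crs (q - p) (x - p) : ℂ) * (w - p) := by
    rw [hc]
    apply Complex.ext
    · simp only [crs, Complex.sub_re, Complex.sub_im, Complex.mul_re, Complex.add_re,
        Complex.ofReal_re, Complex.ofReal_im]
      ring
    · simp only [crs, Complex.sub_re, Complex.sub_im, Complex.mul_im, Complex.add_im,
        Complex.ofReal_re, Complex.ofReal_im]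
      ring
  rw [e1] at h3
  rw [e2] at h2
  have e4 : c * ‖x - p‖ ≤ crs (x - p) (w - p) * ‖q - p‖ + crs (q - p) (x - p) * ‖w - p‖ := by
    have := congrArg norm e3
    rw [norm_mul, Complex.norm_real, Real.norm_eq_abs, abs_of_pos h] at this
    rw [this]
    refine (norm_add_le _ _).trans ?_
    rw [norm_mul, norm_mul, Complex.norm_real, Complex.norm_real, Real.norm_eq_abs,
      Real.norm_eq_abs, abs_of_pos h3, abs_of_pos h1]
  have e5 : c * ‖x - p‖ ≤ c * δ := by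
    calc c * ‖x - p‖ ≤ crs (x - p) (w - p) * ‖q - p‖ + crs (q - p) (x - p) * ‖w - p‖ := e4
      _ ≤ crs (x - p) (w - p) * δ + crs (q - p) (x - p) * δ :=
          add_le_add (mul_le_mul_of_nonneg_left hq h3.le) (mul_le_mul_of_nonneg_left hw h1.le)
      _ = (crs (x - p) (w - p) + crs (q - p) (x - p)) * δ := by ring
      _ ≤ c * δ := mul_le_mul_of_nonneg_right (by linarith) hδ
  exact le_of_mul_le_mul_left e5 h

private theorem AA_cont (e : ℂ) : Continuous (fun x : ℂ => (AA e x : ℂ)) := by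
  unfold AA crs
  apply Complex.continuous_ofReal.comp
  apply Continuous.div
  · fun_prop
  · fun_prop
  · intro x
    positivity

/-- the integral over the triangle -/
private theorem integ {f : ℂ → ℂ} (hf : ContDiff ℝ 1 f) {e : ℂ} (he : ‖e‖ = 1) {B B' : ℝ}
    (hB : ∀ x, ‖f x‖ ≤ B) (hB' : ∀ x, ‖fderiv ℝ f x‖ ≤ B') {r : ℝ} (hr : 0 < r) {p q w : ℂ}
    (h : 0 < crs (q - p) (w - p)) (hq : ‖q - p‖ ≤ 2 * r) (hw : ‖w - p‖ ≤ 2 * r) :
    ‖(∫ x in triS p q w, (AA e x : ℂ) * f x) -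
      ((crs (q - p) (w - p) / 2 : ℝ) : ℂ) * ((AA e p : ℂ) * f p)‖ ≤
      40 * r ^ 3 * B + 4 * r ^ 3 * B' := by
  have hB0 : 0 ≤ B := (norm_nonneg _).trans (hB 0)
  have hB'0 : 0 ≤ B' := (norm_nonneg _).trans (hB' 0)
  have hvol := area_triS h
  have hvr : (volume.real (triS p q w)) = crs (q - p) (w - p) / 2 := by
    rw [Measure.real, hvol, ENNReal.toReal_ofReal (by positivity)]
  have hfin : volume (triS p q w) < ⊤ := by
    rw [hvol]
    exact ENNReal.ofReal_lt_top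
  have hfc : Continuous f := hf.continuous
  have hcont : Continuous (fun x : ℂ => (AA e x : ℂ) * f x) := (AA_cont e).mul hfc
  have hsub : triS p q w ⊆ Metric.closedBall p (2 * r) := by
    intro x hx
    rw [Metric.mem_closedBall, dist_eq_norm]
    exact triS_dist h hq hw hx
  have hint : IntegrableOn (fun x : ℂ => (AA e x : ℂ) * f x) (triS p q w) volume :=
    (hcont.continuousOn.integrableOn_compact (isCompact_closedBall p (2 * r))).mono_set hsub
  have hconst : IntegrableOn (fun _ : ℂ => (AA e p : ℂ) * f p) (triS p q w) volume :=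
    integrableOn_const hfin.ne
  have e1 : (∫ x in triS p q w, (AA e x : ℂ) * f x) -
      ((crs (q - p) (w - p) / 2 : ℝ) : ℂ) * ((AA e p : ℂ) * f p) =
      ∫ x in triS p q w, ((AA e x : ℂ) * f x - (AA e p : ℂ) * f p) := by
    rw [integral_sub hint hconst, setIntegral_const, hvr, Complex.real_smul]
  rw [e1]
  have hpt : ∀ x ∈ triS p q w, ‖(AA e x : ℂ) * f x - (AA e p : ℂ) * f p‖ ≤
      20 * r * B + 2 * r * B' := by
    intro x hx
    have hxp := triS_dist h hq hw hx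
    have a1 : |AA e x - AA e p| ≤ 20 * r := by
      refine (AA_lip he.le x p).trans ?_
      linarith
    have a2 : |AA e p| ≤ 1 := AA_le he.le p
    have a3 : ‖f x - f p‖ ≤ B' * (2 * r) := by
      refine (Convex.norm_image_sub_le_of_norm_fderiv_le (𝕜 := ℝ) (s := Set.univ)
        (fun y _ => (hf.differentiable one_ne_zero).differentiableAt) (fun y _ => hB' y) convex_univ
        (Set.mem_univ p) (Set.mem_univ x)).trans ?_
      exact mul_le_mul_of_nonneg_left hxp hB'0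
    have a4 : (AA e x : ℂ) * f x - (AA e p : ℂ) * f p =
        ((AA e x - AA e p : ℝ) : ℂ) * f x + (AA e p : ℂ) * (f x - f p) := by
      push_cast
      ring
    rw [a4]
    refine (norm_add_le _ _).trans ?_
    rw [norm_mul, norm_mul, Complex.norm_real, Complex.norm_real, Real.norm_eq_abs,
      Real.norm_eq_abs]
    have a5 : |AA e x - AA e p| * ‖f x‖ ≤ 20 * r * B :=
      mul_le_mul a1 (hB x) (norm_nonneg _) (by positivity)
    have a6 : |AA e p| * ‖f x - f p‖ ≤ 1 * (B' * (2 * r)) :=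
      mul_le_mul a2 a3 (norm_nonneg _) zero_le_one
    linarith
  have hmain := norm_setIntegral_le_of_norm_le_const (μ := volume) hfin hpt
  refine hmain.trans ?_
  rw [hvr]
  have harea : crs (q - p) (w - p) ≤ 4 * r ^ 2 := by
    refine (le_abs_self _).trans ((crs_le _ _).trans ?_)
    have := mul_le_mul hq hw (norm_nonneg _) (by positivity : (0 : ℝ) ≤ 2 * r)
    nlinarith
  have hK : 0 ≤ 20 * r * B + 2 * r * B' := by positivity
  calc (20 * r * B + 2 * r * B') * (crs (q - p) (w - p) / 2)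
      ≤ (20 * r * B + 2 * r * B') * (2 * r ^ 2) :=
        mul_le_mul_of_nonneg_left (by linarith) hK
    _ = 40 * r ^ 3 * B + 4 * r ^ 3 * B' := by ring

theorem lam_est : ∃ C : ℝ, 0 < C ∧ ∀ (n : ℕ) (z : Fin n → ℂ) (r : ℝ) (h : HE n), Cov z r → 0 < r →
    r ≤ 1 / 1000 → Good r z h → ∀ e : ℂ, (e = 1 ∨ e = I) → ∀ f : ℂ → ℂ, ContDiff ℝ 1 f →
    ∀ B B' : ℝ, (∀ x, ‖f x‖ ≤ B) → (∀ x, ‖fderiv ℝ f x‖ ≤ B') →
    ‖(1 / 2 : ℂ) * (((lg (z h.1) - lg (z h.2.1) : ℝ) : ℂ) * flx f e (z h.1) (z h.2.1) +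
        ((lg (z h.2.1) - lg (z h.2.2) : ℝ) : ℂ) * flx f e (z h.2.1) (z h.2.2) +
        ((lg (z h.2.2) - lg (z h.1) : ℝ) : ℂ) * flx f e (z h.2.2) (z h.1)) -
      (Real.sqrt 3 : ℂ) * ∫ x in tri z h, (AA e x : ℂ) * f x‖ ≤
      C * r ^ 2 * (eps r z h * B + r * (B + B')) := by
  refine ⟨10 ^ 4, by norm_num, ?_⟩
  intro n z r h hC hr hr1 hg e he f hf B B' hB hB'
  have hB0 : 0 ≤ B := (norm_nonneg _).trans (hB 0)
  have hB'0 : 0 ≤ B' := (norm_nonneg _).trans (hB' 0)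
  have he1 : ‖e‖ = 1 := by
    rcases he with rfl | rfl
    · exact norm_one
    · exact Complex.norm_I
  have hN : Near z h := ⟨hg.1, hg.2.1, hg.2.2.1, hg.2.2.2.1⟩
  obtain ⟨l1, l2, l3⟩ := near_len hC hr (by linarith) hN
  obtain ⟨s1, s2⟩ := shape hC hr hr1 hg
  have hcr : 0 < crs (z h.2.1 - z h.1) (z h.2.2 - z h.1) := hg.1.1
  set p := z h.1 with hp
  set q := z h.2.1 with hq
  set w' := z h.2.2 with hw'
  set w : ℂ := q - p with hw
  set τ : ℂ := tau z h with hτ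
  have hw0 : w ≠ 0 := by
    intro h0
    rw [h0] at hcr
    simp [crs] at hcr
  have hτw : τ * w = w' - p := by
    rw [hτ, tau, ← hp, ← hq, ← hw', ← hw]
    exact div_mul_cancel₀ _ hw0
  have hd2 : w' - q = (τ - 1) * w := by
    rw [sub_mul, hτw, one_mul, hw]
    ring
  have hd3 : p - w' = -(τ * w) := by
    rw [hτw]
    ring
  have hqp : ‖q - p‖ ≤ 2 * r := by
    rw [norm_sub_rev]
    exact l1
  have hwp : ‖w' - p‖ ≤ 2 * r := l3
  have hww : ‖w‖ ≤ 2 * r := by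
    rw [hw]
    exact hqp
  have hpp : ‖p - p‖ ≤ 2 * r := by
    rw [sub_self, norm_zero]
    positivity
  have S1 := side hf he1 hB hB' hr (p := p) (u := p) (v := q) (d := w) hpp hqp hw.symm hww
  have S2 := side hf he1 hB hB' hr (p := p) (u := q) (v := w') (d := (τ - 1) * w) hqp hwp hd2
    (by rw [← hd2, norm_sub_rev]; exact l2)
  have S3 := side hf he1 hB hB' hr (p := p) (u := w') (v := p) (d := -(τ * w)) hwp hpp hd3
    (by rw [← hd3, norm_sub_rev]; exact l3)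
  have A := tri_alg (X := vX p) (e := e) (w := w) (τ := τ) he1.le s2
  have J := integ hf he1 hB hB' hr hcr hqp hwp
  have hs3 : Real.sqrt 3 ≤ 2 := by
    rw [Real.sqrt_le_left (by norm_num)]
    norm_num
  have hs30 : 0 ≤ Real.sqrt 3 := Real.sqrt_nonneg 3
  -- notation
  set D1 : ℝ := ((vX p).re * w.re + (vX p).im * w.im) * crs e w with hD1
  set D2 : ℝ := ((vX p).re * ((τ - 1) * w).re + (vX p).im * ((τ - 1) * w).im) *
    crs e ((τ - 1) * w) with hD2
  set D3 : ℝ := ((vX p).re * (-(τ * w)).re + (vX p).im * (-(τ * w)).im) *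
    crs e (-(τ * w)) with hD3
  set T1 : ℂ := ((lg p - lg q : ℝ) : ℂ) * flx f e p q with hT1
  set T2 : ℂ := ((lg q - lg w' : ℝ) : ℂ) * flx f e q w' with hT2
  set T3 : ℂ := ((lg w' - lg p : ℝ) : ℂ) * flx f e w' p with hT3
  have htri : tri z h = triS p q w' := rfl
  rw [htri]
  set Jn : ℂ := ∫ x in triS p q w', (AA e x : ℂ) * f x with hJn
  rw [crs_vX, hτw] at A
  have hsplit : (1 / 2 : ℂ) * (T1 + T2 + T3) - (Real.sqrt 3 : ℂ) * Jn =
      (1 / 2 : ℂ) * ((T1 - f p * (D1 : ℂ)) + (T2 - f p * (D2 : ℂ)) + (T3 - f p * (D3 : ℂ))) +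
      f p * ((1 / 2 * (D1 + D2 + D3) - Real.sqrt 3 * (crs w (w' - p) / 2) * AA e p : ℝ) : ℂ) -
      (Real.sqrt 3 : ℂ) * (Jn - ((crs w (w' - p) / 2 : ℝ) : ℂ) * ((AA e p : ℂ) * f p)) := by
    push_cast
    ring
  rw [hsplit]
  have n1 : ‖(1 / 2 : ℂ) * ((T1 - f p * (D1 : ℂ)) + (T2 - f p * (D2 : ℂ)) +
      (T3 - f p * (D3 : ℂ)))‖ ≤ 1 / 2 * (3 * (80 * r ^ 3 * B + 8 * r ^ 3 * B')) := by
    rw [norm_mul]
    have : ‖(1 / 2 : ℂ)‖ = 1 / 2 := by norm_num
    rw [this]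
    refine mul_le_mul_of_nonneg_left ?_ (by norm_num)
    refine (norm_add₃_le).trans ?_
    linarith
  have n2 : ‖f p * ((1 / 2 * (D1 + D2 + D3) - Real.sqrt 3 * (crs w (w' - p) / 2) * AA e p : ℝ) :
      ℂ)‖ ≤ B * (2000 * r ^ 2 * eps r z h) := by
    rw [norm_mul, Complex.norm_real, Real.norm_eq_abs]
    refine mul_le_mul (hB p) ?_ (abs_nonneg _) hB0
    refine A.trans ?_
    have b1 : ‖vX p‖ * ‖w‖ ^ 2 ≤ 1 * (2 * r) ^ 2 :=
      mul_le_mul (vX_norm p) (pow_le_pow_left₀ (norm_nonneg _) hww 2) (by positivity) zero_le_one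
    have b2 : (‖vX p‖ * ‖w‖ ^ 2) * ‖τ - zet‖ ≤ (1 * (2 * r) ^ 2) * (50 * eps r z h) :=
      mul_le_mul b1 s1 (norm_nonneg _) (by positivity)
    nlinarith
  have n3 : ‖(Real.sqrt 3 : ℂ) * (Jn - ((crs w (w' - p) / 2 : ℝ) : ℂ) * ((AA e p : ℂ) * f p))‖ ≤
      2 * (40 * r ^ 3 * B + 4 * r ^ 3 * B') := by
    rw [norm_mul, Complex.norm_real, Real.norm_eq_abs, abs_of_nonneg hs30]
    exact mul_le_mul hs3 J (norm_nonneg _) (by norm_num)
  have heps : 0 ≤ eps r z h := by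
    unfold eps
    positivity
  have c1 : 0 ≤ r ^ 2 * eps r z h * B := by positivity
  have c2 : 0 ≤ r ^ 3 * B := by positivity
  have c3 : 0 ≤ r ^ 3 * B' := by positivity
  refine (norm_sub_le _ _).trans ?_
  refine (add_le_add ((norm_add_le _ _).trans (add_le_add n1 n2)) n3).trans ?_
  have hfinal : (10 : ℝ) ^ 4 * r ^ 2 * (eps r z h * B + r * (B + B')) =
      10 ^ 4 * (r ^ 2 * eps r z h * B) + 10 ^ 4 * (r ^ 3 * B) + 10 ^ 4 * (r ^ 3 * B') := by ring
  rw [hfinal]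
  have hleft : 1 / 2 * (3 * (80 * r ^ 3 * B + 8 * r ^ 3 * B')) + B * (2000 * r ^ 2 * eps r z h) +
      2 * (40 * r ^ 3 * B + 4 * r ^ 3 * B') =
      2000 * (r ^ 2 * eps r z h * B) + 200 * (r ^ 3 * B) + 20 * (r ^ 3 * B') := by ring
  rw [hleft]
  linarith

end Pool.Agent.CAPS
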