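import Pool.Agent.Lib.MP_488b8a_co.TwinU
import Pool.Agent.Lib.MP_488b8a_co.Rot

/-! Project CAPS (MP_488b8a_co), module Pair. -/

namespace Pool.Agent.CAPS

open Complex MeasureTheory

/-- the twin half-edge (itself if there is none) -/
noncomputable def tw {n : ℕ} (z : Fin n → ℂ) (h : HE n) : HE n := by
  classical exact
    if H : ∃ k', Del z (h.2.1, h.1, k') then (h.2.1, h.1, H.choose) else h

variable {n : ℕ} {z : Fin n → ℂ}

theorem tw_of_exists {h : HE n} (H : ∃ k', Del z (h.2.1, h.1, k')) :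
    ∃ k', tw z h = (h.2.1, h.1, k') ∧ Del z (tw z h) := by
  have h1 : tw z h = (h.2.1, h.1, H.choose) := by
    unfold tw
    exact dif_pos H
  refine ⟨H.choose, h1, ?_⟩
  rw [h1]
  exact H.choose_spec

theorem tw_of_not {h : HE n} (H : ¬ ∃ k', Del z (h.2.1, h.1, k')) : tw z h = h := by
  unfold tw
  exact dif_neg H

theorem tw_mem {h : HE n} (hD : h ∈ Dset z) : tw z h ∈ Dset z := by
  by_cases H : ∃ k', Del z (h.2.1, h.1, k')
  · obtain ⟨k', -, h2⟩ := tw_of_exists H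
    exact mem_Dset.mpr h2
  · rw [tw_of_not H]
    exact hD

theorem tw_tw (hz : Function.Injective z) {h : HE n} (hD : h ∈ Dset z) : tw z (tw z h) = h := by
  by_cases H : ∃ k', Del z (h.2.1, h.1, k')
  · obtain ⟨k', h1, h2⟩ := tw_of_exists H
    have hDel : Del z h := mem_Dset.mp hD
    have H' : ∃ k'', Del z ((tw z h).2.1, (tw z h).1, k'') := by
      rw [h1]
      exact ⟨h.2.2, hDel⟩
    obtain ⟨k'', h3, h4⟩ := tw_of_exists H'
    rw [h3] at h4 ⊢
    rw [h1] at h4 ⊢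
    have h5 : k'' = h.2.2 := twin_unique hz h4 hDel
    rw [h5]
  · rw [tw_of_not H, tw_of_not H]

theorem sum_tw {M : Type*} [AddCommMonoid M] (hz : Function.Injective z) (Φ : HE n → M) :
    ∑ h ∈ Dset z, Φ (tw z h) = ∑ h ∈ Dset z, Φ h :=
  Finset.sum_nbij' (tw z) (tw z) (fun _ hh => tw_mem hh) (fun _ hh => tw_mem hh)
    (fun _ hh => tw_tw hz hh) (fun _ hh => tw_tw hz hh) (fun _ _ => rfl)

end Pool.Agent.CAPS
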