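import Pool.Agent.Lib.MP_488b8a_co.KerB
import Pool.Agent.Lib.MP_488b8a_co.Conv

/-! Project CAPS (MP_488b8a_co), module RF. -/

namespace Pool.Agent.CAPS

open Complex MeasureTheory

private lemma RF_dir {G : ℂ → ℝ} (hG : ContDiff ℝ 3 G) (e : ℂ) :
    ContDiff ℝ 2 (fun y => fderiv ℝ G y e) := by
  have h1 : ContDiff ℝ 2 (fderiv ℝ G) := hG.fderiv_right (by norm_num)
  exact h1.clm_apply contDiff_const

private lemma RF_scale {G : ℂ → ℝ} (hG : ContDiff ℝ 3 G) {C : ℝ}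
    (hC : ∀ x, ∀ e : ℂ, ‖e‖ ≤ 1 → ‖fderiv ℝ (fun y => fderiv ℝ G y e) x‖ ≤ C) (e x : ℂ) :
    ‖fderiv ℝ (fun y => fderiv ℝ G y e) x‖ ≤ C * ‖e‖ := by
  rcases eq_or_ne e 0 with he | he
  · subst he
    simp
  · have hn : 0 < ‖e‖ := norm_pos_iff.mpr he
    have hu : ‖(‖e‖⁻¹ : ℝ) • e‖ ≤ 1 := by
      rw [norm_smul, norm_inv, norm_norm, inv_mul_cancel₀ hn.ne']
    have h1 := hC x ((‖e‖⁻¹ : ℝ) • e) hu
    have h2 : (fun y => fderiv ℝ G y e) =
        fun y => ‖e‖ • (fderiv ℝ G y ((‖e‖⁻¹ : ℝ) • e)) := by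
      funext y
      rw [(fderiv ℝ G y).map_smul, smul_smul, mul_inv_cancel₀ hn.ne', one_smul]
    have hd : DifferentiableAt ℝ (fun y => fderiv ℝ G y ((‖e‖⁻¹ : ℝ) • e)) x :=
      (RF_dir hG _).differentiable (by norm_num) x
    rw [h2, fderiv_fun_const_smul hd, norm_smul, norm_norm, mul_comm]
    exact mul_le_mul_of_nonneg_right h1 (norm_nonneg _)

/-- smoothness of the smeared function -/
theorem R_facts (T : ℝ) (hT : 0 < T) : ∃ C : ℝ, 0 < C ∧ ∀ h : ℂ → ℂ, Hh h →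
    ContDiff ℝ 2 (cv (rho T) h) ∧ ∀ x, ‖cv (rho T) h x‖ ≤ C ∧ ‖fderiv ℝ (cv (rho T) h) x‖ ≤ C ∧
      ∀ e : ℂ, ‖e‖ ≤ 1 → ‖fderiv ℝ (fun y => fderiv ℝ (cv (rho T) h) y e) x‖ ≤ C := by
  obtain ⟨C, hC⟩ := rho_bdd hT
  have hG : ContDiff ℝ 3 (rho T) := rho_smooth hT
  have hC0 : 0 ≤ C := (abs_nonneg _).trans (hC 0).1
  have hsc := RF_scale hG (fun x e he => (hC x).2.2 e he)
  have hdir : ∀ e x, |fderiv ℝ (rho T) x e| ≤ C * ‖e‖ := fun e x =>
    ((fderiv ℝ (rho T) x).le_opNorm e).trans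
      (mul_le_mul_of_nonneg_right (hC x).2.1 (norm_nonneg _))
  refine ⟨C + 1, by linarith, fun h hh => ?_⟩
  have h1 := cv_C1 (hG.of_le (by norm_num)) ⟨C, fun x => ⟨(hC x).1, (hC x).2.1⟩⟩ hh
  have h2 : ∀ e : ℂ, ContDiff ℝ 1 (cv (fun y => fderiv ℝ (rho T) y e) h) ∧
      ∀ x v, fderiv ℝ (cv (fun y => fderiv ℝ (rho T) y e) h) x v =
        cv (fun y => fderiv ℝ (fun w => fderiv ℝ (rho T) w e) y v) h x := fun e =>
    cv_C1 ((RF_dir hG e).of_le (by norm_num)) ⟨C * ‖e‖, fun x => ⟨hdir e x, hsc e x⟩⟩ hh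
  have h3 : ∀ e : ℂ, (fun y => fderiv ℝ (cv (rho T) h) y e) =
      cv (fun y => fderiv ℝ (rho T) y e) h := fun e => funext fun y => h1.2 y e
  refine ⟨?_, fun x => ⟨?_, ?_, fun e he => ?_⟩⟩
  · have h4 : ContDiff ℝ 1 (fderiv ℝ (cv (rho T) h)) := by
      rw [contDiff_clm_apply_iff]
      intro e
      rw [h3 e]
      exact (h2 e).1
    have h5 : ContDiff ℝ (1 + 1) (cv (rho T) h) := by
      rw [contDiff_succ_iff_fderiv]
      exact ⟨h1.1.differentiable (by norm_num), fun h => by simp at h, h4⟩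
    exact h5
  · exact (cv_bound' hG.continuous hh (fun x => (hC x).1) x).trans (by linarith)
  · refine (ContinuousLinearMap.opNorm_le_bound _ hC0 fun v => ?_).trans (by linarith : C ≤ C + 1)
    rw [h1.2 x v]
    exact cv_bound' (RF_dir hG v).continuous hh (fun y => hdir v y) x
  · refine (ContinuousLinearMap.opNorm_le_bound _ hC0 fun v => ?_).trans (by linarith : C ≤ C + 1)
    rw [h3 e, (h2 e).2 x v]
    have h6 : Continuous (fun y => fderiv ℝ (fun w => fderiv ℝ (rho T) w e) y v) := by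
      have := (RF_dir hG e).continuous_fderiv (by norm_num)
      exact this.clm_apply continuous_const
    refine cv_bound' h6 hh (fun y => ?_) x
    refine ((fderiv ℝ (fun w => fderiv ℝ (rho T) w e) y).le_opNorm v).trans
      (mul_le_mul_of_nonneg_right ?_ (norm_nonneg _))
    exact (hC y).2.2 e he

end Pool.Agent.CAPS
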