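import Pool.Agent.Lib.MP_488b8a_co.Defs

/-! Project CAPS (MP_488b8a_co), module RhoInt. -/

namespace Pool.Agent.CAPS

open Complex MeasureTheory

private theorem RhoInt_deriv (y : ℝ) :
    HasDerivAt (fun y : ℝ => -(1 / (2 * Real.pi)) * (y ^ 2 + 1)⁻¹)
      (y ^ (2 - 1) • (1 / (Real.pi * (y ^ 2 + 1) ^ 2))) y := by
  have hpos : (y ^ 2 + 1) ≠ 0 := by positivity
  have h1 : HasDerivAt (fun y : ℝ => y ^ 2 + 1) (2 * y) y := by
    simpa using (hasDerivAt_pow 2 y).add_const (1 : ℝ)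
  have h2 := (h1.inv hpos).const_mul (-(1 / (2 * Real.pi)))
  have h3 := Real.pi_pos.ne'
  have h4 : y ^ (2 - 1) • (1 / (Real.pi * (y ^ 2 + 1) ^ 2)) =
      -(1 / (2 * Real.pi)) * (-(2 * y) / (y ^ 2 + 1) ^ 2) := by
    simp only [smul_eq_mul]
    field_simp
    ring
  rw [h4]
  exact h2

private theorem RhoInt_tendsto :
    Filter.Tendsto (fun y : ℝ => -(1 / (2 * Real.pi)) * (y ^ 2 + 1)⁻¹) Filter.atTop
      (nhds 0) := by
  have h1 : Filter.Tendsto (fun y : ℝ => (y ^ 2 + 1)⁻¹) Filter.atTop (nhds 0) :=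
    (Filter.tendsto_atTop_add_const_right _ _ (Filter.tendsto_pow_atTop two_ne_zero)).inv_tendsto_atTop
  simpa using h1.const_mul (-(1 / (2 * Real.pi)))

theorem int_rho : Integrable (rho 1) ∧ ∫ x, rho 1 x = 1 := by
  have hf : (rho 1) = fun x : ℂ => (fun y : ℝ => 1 / (Real.pi * (y ^ 2 + 1) ^ 2)) ‖x‖ := by
    funext x
    rfl
  have hpos : ∀ y ∈ Set.Ioi (0 : ℝ), 0 ≤ y ^ (2 - 1) • (1 / (Real.pi * (y ^ 2 + 1) ^ 2)) := by
    intro y hy
    have : (0 : ℝ) < y := hy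
    have := Real.pi_pos
    simp only [smul_eq_mul]
    positivity
  have hi := integrableOn_Ioi_deriv_of_nonneg' (a := (0 : ℝ)) (fun x _ => RhoInt_deriv x) hpos
    RhoInt_tendsto
  have hv := integral_Ioi_of_hasDerivAt_of_nonneg' (a := (0 : ℝ)) (fun x _ => RhoInt_deriv x) hpos
    RhoInt_tendsto
  constructor
  · rw [hf]
    refine (integrable_fun_norm_addHaar (E := ℂ) volume
      (f := fun y : ℝ => 1 / (Real.pi * (y ^ 2 + 1) ^ 2))).2 ?_
    rw [Complex.finrank_real_complex]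
    exact hi
  · rw [hf]
    have h0 := integral_fun_norm_addHaar (E := ℂ) volume
      (fun y : ℝ => 1 / (Real.pi * (y ^ 2 + 1) ^ 2))
    rw [Complex.finrank_real_complex, hv] at h0
    rw [h0]
    have hvol : volume.real (Metric.ball (0 : ℂ) 1) = Real.pi := by
      rw [Measure.real, Complex.volume_ball]
      simp
    rw [hvol]
    simp only [smul_eq_mul, nsmul_eq_mul]
    have := Real.pi_pos.ne'
    field_simp
    norm_num

end Pool.Agent.CAPS
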