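import Pool.Agent.Lib.MP_488b8a_co.Geo
import Pool.Agent.Lib.MP_488b8a_co.AN

/-! Project CAPS (MP_488b8a_co), module Rigid. -/

namespace Pool.Agent.CAPS

open Complex MeasureTheory

private lemma H1_mono {ψ : ℂ → ℂ} {M M' : ℝ} (h : H1 ψ M) (hM : M ≤ M') : H1 ψ M' := by
  intro e he f hf hs B hB
  refine (h e he f hf hs B hB).trans ?_
  have hB0 : 0 ≤ B := (norm_nonneg _).trans (hB 0)
  exact mul_le_mul_of_nonneg_right hM hB0

theorem rigid : ∃ κ r₀ : ℝ, 0 < κ ∧ 0 < r₀ ∧ ∀ (n : ℕ) (z : Fin n → ℂ) (r : ℝ), GP z → Cov z r →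
    0 < r → r ≤ r₀ → (n : ℝ) * r ^ 2 ≤ 10 → κ / r ≤ EE r z := by
  obtain ⟨C, r₁, hC, hr₁, hgeo⟩ := geo
  obtain ⟨η, hη, han⟩ := an
  -- constants
  set K : ℝ := 3 * C with hK
  have hK0 : 0 < K := by positivity
  obtain ⟨κ, hκ, hκ1, hκC⟩ : ∃ κ : ℝ, 0 < κ ∧ κ ≤ 1 ∧ C * κ ≤ η / 2 := by
    refine ⟨min 1 (η / (2 * C)), lt_min one_pos (by positivity), min_le_left _ _, ?_⟩
    calc C * min 1 (η / (2 * C)) ≤ C * (η / (2 * C)) :=
          mul_le_mul_of_nonneg_left (min_le_right _ _) hC.le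
      _ = η / 2 := by field_simp
  obtain ⟨w₀, hw₀, hw₁, hwK, hwC, hwC2⟩ : ∃ w₀ : ℝ, 0 < w₀ ∧ w₀ ≤ 1 ∧ w₀ ≤ K * η ∧
      C * w₀ ≤ η / 2 ∧ 2 * C * (1 + 2 * Real.sqrt K) * w₀ ≤ η := by
    refine ⟨min (min 1 (K * η)) (min (η / (2 * C)) (η / (2 * C * (1 + 2 * Real.sqrt K)))), ?_,
      ?_, ?_, ?_, ?_⟩
    · exact lt_min (lt_min one_pos (by positivity)) (lt_min (by positivity) (by positivity))
    · exact (min_le_left _ _).trans (min_le_left _ _)
    · exact (min_le_left _ _).trans (min_le_right _ _)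
    · calc _ ≤ C * (η / (2 * C)) :=
            mul_le_mul_of_nonneg_left ((min_le_right _ _).trans (min_le_left _ _)) hC.le
        _ = η / 2 := by field_simp
    · calc _ ≤ 2 * C * (1 + 2 * Real.sqrt K) * (η / (2 * C * (1 + 2 * Real.sqrt K))) :=
            mul_le_mul_of_nonneg_left ((min_le_right _ _).trans (min_le_right _ _)) (by positivity)
        _ = η := by field_simp
  refine ⟨κ, min r₁ (w₀ ^ 4), hκ, lt_min hr₁ (by positivity), ?_⟩
  intro n z r hG hCov hr hr0 hn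
  by_contra hlt
  push Not at hlt
  obtain ⟨hE, ψ, hψ, hH1, hH2⟩ := hgeo n z r hG hCov hr (hr0.trans (min_le_left _ _)) hn
  set E := EE r z with hEdef
  set w : ℝ := Real.sqrt (Real.sqrt r) with hw
  have hw0 : 0 < w := Real.sqrt_pos.2 (Real.sqrt_pos.2 hr)
  have hw2 : w ^ 2 = Real.sqrt r := Real.sq_sqrt (Real.sqrt_nonneg _)
  have hw4 : w ^ 4 = r := by
    rw [show w ^ 4 = (w ^ 2) ^ 2 by ring, hw2, Real.sq_sqrt hr.le]
  have hww : w ≤ w₀ := by
    have : w ^ 4 ≤ w₀ ^ 4 := by rw [hw4]; exact hr0.trans (min_le_right _ _)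
    exact (pow_le_pow_iff_left₀ hw0.le hw₀.le (by norm_num)).1 this
  have hw1 : w ≤ 1 := hww.trans hw₁
  have hw2pos : 0 < w ^ 2 := by positivity
  have hw21 : w ^ 2 ≤ w := by nlinarith
  have hr1 : r ≤ w := by
    rw [← hw4]
    calc w ^ 4 ≤ w ^ 1 := pow_le_pow_of_le_one hw0.le hw1 (by norm_num)
      _ = w := pow_one w
  -- E estimates
  have hrE : r * E ≤ κ := by
    rw [lt_div_iff₀ hr] at hlt
    linarith
  have hsE : Real.sqrt E ≤ 1 / w ^ 2 := by
    rw [Real.sqrt_le_left (by positivity)]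
    have : (1 / w ^ 2) ^ 2 = 1 / r := by
      rw [← hw4]; field_simp
    rw [this]
    exact hlt.le.trans (by gcongr)
  have hM1 : C * (Real.sqrt E + 1 + r * E) ≤ K / w ^ 2 := by
    have h1 : (1 : ℝ) ≤ 1 / w ^ 2 := by
      rw [le_div_iff₀ hw2pos]; nlinarith
    calc C * (Real.sqrt E + 1 + r * E) ≤ C * (1 / w ^ 2 + 1 / w ^ 2 + 1 / w ^ 2) :=
          mul_le_mul_of_nonneg_left (by linarith) hC.le
      _ = K / w ^ 2 := by rw [hK]; ring
  have hM2 : 1 / η ≤ K / w ^ 2 := by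
    rw [div_le_div_iff₀ hη hw2pos]
    nlinarith
  have hη₁ : C * r * (E + 1) ≤ η := by
    have h1 : C * (r * E) ≤ C * κ := mul_le_mul_of_nonneg_left hrE hC.le
    have h2 : C * r ≤ C * w₀ := mul_le_mul_of_nonneg_left (hr1.trans hww) hC.le
    nlinarith
  have hη₁' : 0 ≤ C * r * (E + 1) := by positivity
  have hη₂' : 0 ≤ C * r * (Real.sqrt E + 1) := by positivity
  have hη₂ : C * r * (Real.sqrt E + 1) ≤ 2 * C * w ^ 2 := by
    have h1 : r * Real.sqrt E ≤ w ^ 2 := by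
      calc r * Real.sqrt E ≤ r * (1 / w ^ 2) := mul_le_mul_of_nonneg_left hsE hr.le
        _ = w ^ 2 := by
            rw [← hw4]; field_simp
    have h2 : r ≤ w ^ 2 := by
      rw [← hw4]
      exact pow_le_pow_of_le_one hw0.le hw1 (by norm_num)
    calc C * r * (Real.sqrt E + 1) = C * (r * Real.sqrt E + r) := by ring
      _ ≤ C * (w ^ 2 + w ^ 2) := mul_le_mul_of_nonneg_left (by linarith) hC.le
      _ = 2 * C * w ^ 2 := by ring
  have hKw : 0 < K / w ^ 2 := by positivity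
  have hlog : Real.log (K / w ^ 2) ≤ 2 * (Real.sqrt K / w) := by
    have h1 : Real.sqrt (K / w ^ 2) = Real.sqrt K / w := by
      rw [Real.sqrt_div hK0.le, Real.sqrt_sq hw0.le]
    have h2 : K / w ^ 2 = (Real.sqrt (K / w ^ 2)) ^ 2 := (Real.sq_sqrt hKw.le).symm
    rw [h2, Real.log_pow, h1]
    have h3 := Real.log_le_sub_one_of_pos (show 0 < Real.sqrt K / w by positivity)
    push_cast
    linarith
  have hfin : C * r * (Real.sqrt E + 1) * (1 + Real.log (K / w ^ 2)) ≤ η := by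
    have h0 : 0 ≤ 1 + 2 * (Real.sqrt K / w) := by positivity
    calc C * r * (Real.sqrt E + 1) * (1 + Real.log (K / w ^ 2))
        ≤ C * r * (Real.sqrt E + 1) * (1 + 2 * (Real.sqrt K / w)) :=
          mul_le_mul_of_nonneg_left (by linarith) hη₂'
      _ ≤ 2 * C * w ^ 2 * (1 + 2 * (Real.sqrt K / w)) := mul_le_mul_of_nonneg_right hη₂ h0
      _ = 2 * C * (w ^ 2 + 2 * Real.sqrt K * w) := by field_simp
      _ ≤ 2 * C * (w + 2 * Real.sqrt K * w) := by
          apply mul_le_mul_of_nonneg_left _ (by positivity)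
          linarith
      _ = 2 * C * (1 + 2 * Real.sqrt K) * w := by ring
      _ ≤ 2 * C * (1 + 2 * Real.sqrt K) * w₀ := mul_le_mul_of_nonneg_left hww (by positivity)
      _ ≤ η := hwC2
  exact han ψ (K / w ^ 2) _ _ hψ hM2 hη₁' hη₁ hη₂' hfin (H1_mono hH1 hM1) hH2

end Pool.Agent.CAPS
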