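import Pool.Agent.Lib.MP_488b8a_co.WF

/-! Project CAPS (MP_488b8a_co), module Step1. -/

namespace Pool.Agent.CAPS

open Complex MeasureTheory

namespace Step1

/-- the complex cutoff function -/
private noncomputable def c2 (x : ℂ) : ℂ := (cut2 x : ℂ)

private theorem c2_smooth : ContDiff ℝ 1 c2 := by
  have h1 : ContDiff ℝ 1 (fun x : ℂ => (bump2 x : ℝ)) := bump2.contDiff
  exact Complex.ofRealCLM.contDiff.comp h1

private theorem c2_norm (x : ℂ) : ‖c2 x‖ ≤ 1 := by
  have h1 : ‖c2 x‖ = |bump2 x| := by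
    rw [← Real.norm_eq_abs]
    exact Complex.norm_real _
  rw [h1, abs_of_nonneg bump2.nonneg]
  exact bump2.le_one

private theorem c2_tsupport : tsupport c2 ⊆ Metric.closedBall 0 (3 / 8) := by
  have h1 : Function.support c2 ⊆ Metric.closedBall 0 (3 / 8) := by
    intro x hx
    have h2 : x ∈ Function.support (bump2 : ℂ → ℝ) := by
      intro h3
      apply hx
      show ((bump2 x : ℝ) : ℂ) = 0
      rw [h3, Complex.ofReal_zero]
    rw [bump2.support_eq] at h2
    exact Metric.ball_subset_closedBall h2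
  exact closure_minimal h1 Metric.isClosed_closedBall

private theorem c2_compact : HasCompactSupport c2 :=
  (isCompact_closedBall (0 : ℂ) (3 / 8)).of_isClosed_subset (isClosed_tsupport _) c2_tsupport

private theorem c2_deriv_zero {x : ℂ} (hx : 1 / 2 < ‖x‖) (e : ℂ) : fderiv ℝ c2 x e = 0 := by
  have h1 : x ∉ tsupport c2 := by
    intro h2
    have h3 := c2_tsupport h2
    rw [mem_closedBall_zero_iff] at h3
    linarith
  have h2 : fderiv ℝ c2 x = 0 := by
    by_contra h3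
    exact h1 (support_fderiv_subset ℝ h3)
  rw [h2]
  rfl

private theorem c2_zero {x : ℂ} (hx : 1 / 2 < ‖x‖) : c2 x = 0 := by
  refine image_eq_zero_of_notMem_tsupport fun h2 => ?_
  have h3 := c2_tsupport h2
  rw [mem_closedBall_zero_iff] at h3
  linarith

private theorem integ {ψ g : ℂ → ℂ} (hψ : Nice ψ) (hg : Continuous g) (hc : HasCompactSupport g) :
    Integrable (fun x => ψ x * g x) :=
  (hg.integrable_of_hasCompactSupport hc).bdd_mul (c := 1) hψ.1.aestronglyMeasurable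
    (ae_of_all _ hψ.2.1)

/-- the mass of the derivative of the cutoff function -/
private noncomputable def K (e : ℂ) : ℝ := ∫ x, ‖fderiv ℝ c2 x e‖

private theorem part {e : ℂ} (he : e = 1 ∨ e = I) {D : ℂ → ℂ} (hD : ContDiff ℝ 1 D) {ψ : ℂ → ℂ}
    {M : ℝ} (hψ : Nice ψ) (hH : H1 ψ M) {B : ℝ} (hB : ∀ x, ‖x‖ ≤ 1 / 2 → ‖D x‖ ≤ B) :
    Integrable (fun x => ψ x * (c2 x * fderiv ℝ D x e)) ∧
      ‖∫ x, ψ x * (c2 x * fderiv ℝ D x e)‖ ≤ (M + K e) * B := by
  have hB0 : 0 ≤ B := (norm_nonneg _).trans (hB 0 (by simp))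
  have hf : ContDiff ℝ 1 (fun x => c2 x * D x) := c2_smooth.mul hD
  have hdc : Continuous (fun x => fderiv ℝ c2 x e) :=
    (c2_smooth.continuous_fderiv (by norm_num)).clm_apply continuous_const
  have hdD : Continuous (fun x => fderiv ℝ D x e) :=
    (hD.continuous_fderiv (by norm_num)).clm_apply continuous_const
  have hdf : Continuous (fun x => fderiv ℝ (fun x => c2 x * D x) x e) :=
    (hf.continuous_fderiv (by norm_num)).clm_apply continuous_const
  have hsub : tsupport (fun x => c2 x * D x) ⊆ tsupport c2 := tsupport_mul_subset_left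
  have hts : tsupport (fun x => c2 x * D x) ⊆ Metric.ball 0 (1 / 2) :=
    (hsub.trans c2_tsupport).trans (Metric.closedBall_subset_ball (by norm_num))
  have hcc : HasCompactSupport (fun x => fderiv ℝ c2 x e) :=
    c2_compact.fderiv_apply (𝕜 := ℝ) e
  have hform : ∀ x, fderiv ℝ (fun x => c2 x * D x) x e =
      c2 x * fderiv ℝ D x e + D x * fderiv ℝ c2 x e := by
    intro x
    rw [fderiv_fun_mul (c2_smooth.differentiable (by norm_num) x)
      (hD.differentiable (by norm_num) x)]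
    rfl
  have i1 : Integrable (fun x => ψ x * (c2 x * fderiv ℝ D x e)) :=
    integ hψ (c2_smooth.continuous.mul hdD) (c2_compact.mul_right)
  have i2 : Integrable (fun x => ψ x * (D x * fderiv ℝ c2 x e)) :=
    integ hψ (hD.continuous.mul hdc) (hcc.mul_left)
  have hsplit : ∫ x, ψ x * fderiv ℝ (fun x => c2 x * D x) x e =
      (∫ x, ψ x * (c2 x * fderiv ℝ D x e)) + ∫ x, ψ x * (D x * fderiv ℝ c2 x e) := by
    rw [← integral_add i1 i2]
    congr 1
    funext x
    rw [hform, mul_add]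
  refine ⟨i1, ?_⟩
  have h1 : ‖∫ x, ψ x * fderiv ℝ (fun x => c2 x * D x) x e‖ ≤ M * B := by
    refine hH e he _ hf hts B fun x => ?_
    by_cases hx : ‖x‖ ≤ 1 / 2
    · rw [norm_mul]
      calc ‖c2 x‖ * ‖D x‖ ≤ 1 * B := mul_le_mul (c2_norm x) (hB x hx) (norm_nonneg _) zero_le_one
        _ = B := one_mul B
    · rw [c2_zero (not_le.mp hx), zero_mul, norm_zero]
      exact hB0
  have h2 : ‖∫ x, ψ x * (D x * fderiv ℝ c2 x e)‖ ≤ K e * B := by
    refine (norm_integral_le_integral_norm _).trans ?_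
    unfold K
    rw [← integral_mul_const]
    refine integral_mono i2.norm ((hdc.integrable_of_hasCompactSupport hcc).norm.mul_const B)
      fun x => ?_
    show ‖ψ x * (D x * fderiv ℝ c2 x e)‖ ≤ ‖fderiv ℝ c2 x e‖ * B
    rw [norm_mul, norm_mul]
    by_cases hx : ‖x‖ ≤ 1 / 2
    · have h3 : ‖ψ x‖ * (‖D x‖ * ‖fderiv ℝ c2 x e‖) ≤ 1 * (B * ‖fderiv ℝ c2 x e‖) := by
        refine mul_le_mul (hψ.2.1 x) ?_ (by positivity) zero_le_one
        exact mul_le_mul_of_nonneg_right (hB x hx) (norm_nonneg _)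
      rw [one_mul, mul_comm B] at h3
      exact h3
    · rw [c2_deriv_zero (not_le.mp hx), norm_zero, mul_zero, mul_zero, zero_mul]
  have h3 : ∫ x, ψ x * (c2 x * fderiv ℝ D x e) =
      (∫ x, ψ x * fderiv ℝ (fun x => c2 x * D x) x e) -
        ∫ x, ψ x * (D x * fderiv ℝ c2 x e) := by
    rw [hsplit]
    ring
  rw [h3]
  refine (norm_sub_le _ _).trans ?_
  linarith

end Step1

open Step1 in
theorem step1 : ∃ C : ℝ, 0 < C ∧ ∀ (ψ h : ℂ → ℂ) (M s' s : ℝ), Nice ψ → Hh h → 0 ≤ M → H1 ψ M →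
    0 < s' → s' ≤ s → s ≤ 1 → ‖GG ψ h s' - GG ψ h s‖ ≤ C * (M + 1) * Real.sqrt s := by
  obtain ⟨C₀, hC₀, hW⟩ := W_facts
  have hK : ∀ e, 0 ≤ K e := fun e => integral_nonneg fun x => norm_nonneg _
  refine ⟨(2 + K 1 + K I) * C₀, mul_pos (by linarith [hK 1, hK I]) hC₀,
    fun ψ h M s' s hψ hh hM hH hs' hss hs1 => ?_⟩
  have hs : 0 < s := lt_of_lt_of_le hs' hss
  obtain ⟨hD, hB, hL⟩ := hW s' s h hs' hss hs1 hh
  have hrho : ∀ a : ℝ, 0 < a → ContDiff ℝ 1 (cv (rho a) h) := by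
    intro a ha
    obtain ⟨C, hC⟩ := rho_bdd ha
    exact (cv_C1 ((rho_smooth ha).of_le (by norm_num)) ⟨C, fun x => ⟨(hC x).1, (hC x).2.1⟩⟩ hh).1
  have hGi : ∀ a : ℝ, 0 < a → Integrable (fun x => ψ x * (c2 x * cv (rho a) h x)) := fun a ha =>
    integ hψ (c2_smooth.continuous.mul (hrho a ha).continuous) (c2_compact.mul_right)
  have hGe : ∀ a : ℝ, GG ψ h a = ∫ x, ψ x * (c2 x * cv (rho a) h x) := by
    intro a
    unfold GG
    congr 1
    funext x
    rw [mul_assoc]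
    rfl
  obtain ⟨p1, q1⟩ := part (Or.inl rfl) (hD 1) hψ hH
    (fun x hx => (hB x 1 hx (by simp)).1)
  obtain ⟨p2, q2⟩ := part (Or.inr rfl) (hD I) hψ hH
    (fun x hx => (hB x I hx (by simp)).1)
  have hdiff : GG ψ h s' - GG ψ h s =
      -((∫ x, ψ x * (c2 x * fderiv ℝ (fun y => fderiv ℝ (cv (KK s' s) h) y 1) x 1)) +
        ∫ x, ψ x * (c2 x * fderiv ℝ (fun y => fderiv ℝ (cv (KK s' s) h) y I) x I)) := by
    rw [hGe, hGe, ← integral_sub (hGi s' hs') (hGi s hs), ← integral_add p1 p2, ← integral_neg]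
    congr 1
    funext x
    have h1 := hL x
    have h2 : cv (rho s') h x = cv (rho s) h x -
        (fderiv ℝ (fun y => fderiv ℝ (cv (KK s' s) h) y 1) x 1 +
          fderiv ℝ (fun y => fderiv ℝ (cv (KK s' s) h) y I) x I) := by
      rw [h1]
      ring
    rw [h2]
    ring
  rw [hdiff, norm_neg]
  refine (norm_add_le _ _).trans ((add_le_add q1 q2).trans ?_)
  have hsq : 0 ≤ C₀ * Real.sqrt s := mul_nonneg hC₀.le (Real.sqrt_nonneg s)
  have h1 : (M + K 1) * (C₀ * Real.sqrt s) + (M + K I) * (C₀ * Real.sqrt s) =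
      (2 * M + K 1 + K I) * (C₀ * Real.sqrt s) := by ring
  rw [h1]
  have h2 : (2 + K 1 + K I) * C₀ * (M + 1) * Real.sqrt s =
      ((2 + K 1 + K I) * (M + 1)) * (C₀ * Real.sqrt s) := by ring
  rw [h2]
  refine mul_le_mul_of_nonneg_right ?_ hsq
  nlinarith [hK 1, hK I, mul_nonneg (hK 1) hM, mul_nonneg (hK I) hM]

end Pool.Agent.CAPS
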