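import Pool.Agent.Lib.MP_488b8a_co.Defs

/-! Project CAPS (MP_488b8a_co), module TwinU. -/

namespace Pool.Agent.CAPS

open Complex MeasureTheory

private lemma twinU_normSq (w : ℂ) : ‖w‖ ^ 2 = w.re ^ 2 + w.im ^ 2 := by
  rw [← Complex.normSq_eq_norm_sq, Complex.normSq_apply]; ring

private lemma twinU_real {p1 p2 q1 q2 r1 r2 s1 s2 c1 c2 d1 d2 q q' : ℝ}
    (h1 : 0 < (q1 - p1) * (r2 - p2) - (q2 - p2) * (r1 - p1))
    (h2 : 0 < (q1 - p1) * (s2 - p2) - (q2 - p2) * (s1 - p1))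
    (a1 : (p1 - c1) ^ 2 + (p2 - c2) ^ 2 = q) (a2 : (q1 - c1) ^ 2 + (q2 - c2) ^ 2 = q)
    (a3 : (r1 - c1) ^ 2 + (r2 - c2) ^ 2 = q) (a4 : q < (s1 - c1) ^ 2 + (s2 - c2) ^ 2)
    (b1 : (p1 - d1) ^ 2 + (p2 - d2) ^ 2 = q') (b2 : (q1 - d1) ^ 2 + (q2 - d2) ^ 2 = q')
    (b3 : (s1 - d1) ^ 2 + (s2 - d2) ^ 2 = q') (b4 : q' < (r1 - d1) ^ 2 + (r2 - d2) ^ 2) :
    False := by
  have e0 : (q1 - p1) * (d1 - c1) + (q2 - p2) * (d2 - c2) = 0 := by
    linear_combination (a2 - a1 - b2 + b1) / 2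
  have e1 : (r1 - p1) * (d1 - c1) + (r2 - p2) * (d2 - c2) < 0 := by
    have h : (r1 - p1) * (d1 - c1) + (r2 - p2) * (d2 - c2) =
        (q' - ((r1 - d1) ^ 2 + (r2 - d2) ^ 2)) / 2 := by
      linear_combination (a3 - a1 + b1) / 2
    rw [h]
    exact div_neg_of_neg_of_pos (sub_neg.2 b4) two_pos
  have e2 : 0 < (s1 - p1) * (d1 - c1) + (s2 - p2) * (d2 - c2) := by
    have h : (s1 - p1) * (d1 - c1) + (s2 - p2) * (d2 - c2) =
        ((s1 - c1) ^ 2 + (s2 - c2) ^ 2 - q) / 2 := by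
      linear_combination (b1 - b3 - a1) / 2
    rw [h]
    exact div_pos (sub_pos.2 a4) two_pos
  set K : ℝ := (q1 - p1) * (d2 - c2) - (q2 - p2) * (d1 - c1) with hK
  have i1 : ((q1 - p1) ^ 2 + (q2 - p2) ^ 2) * ((r1 - p1) * (d1 - c1) + (r2 - p2) * (d2 - c2)) =
      ((q1 - p1) * (r2 - p2) - (q2 - p2) * (r1 - p1)) * K +
      ((q1 - p1) * (r1 - p1) + (q2 - p2) * (r2 - p2)) *
        ((q1 - p1) * (d1 - c1) + (q2 - p2) * (d2 - c2)) := by rw [hK]; ring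
  have i2 : ((q1 - p1) ^ 2 + (q2 - p2) ^ 2) * ((s1 - p1) * (d1 - c1) + (s2 - p2) * (d2 - c2)) =
      ((q1 - p1) * (s2 - p2) - (q2 - p2) * (s1 - p1)) * K +
      ((q1 - p1) * (s1 - p1) + (q2 - p2) * (s2 - p2)) *
        ((q1 - p1) * (d1 - c1) + (q2 - p2) * (d2 - c2)) := by rw [hK]; ring
  rw [e0, mul_zero, add_zero] at i1 i2
  have hN : 0 ≤ (q1 - p1) ^ 2 + (q2 - p2) ^ 2 := by positivity
  have k1 : K ≤ 0 := by
    by_contra hc
    push Not at hc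
    have := mul_pos h1 hc
    rw [← i1] at this
    exact absurd this (not_lt.2 (mul_nonpos_of_nonneg_of_nonpos hN e1.le))
  have k2 : 0 ≤ K := by
    by_contra hc
    push Not at hc
    have := mul_neg_of_pos_of_neg h2 hc
    rw [← i2] at this
    exact absurd this (not_lt.2 (mul_nonneg hN e2.le))
  have k0 : K = 0 := le_antisymm k1 k2
  rw [k0, mul_zero] at i1
  rcases mul_eq_zero.1 i1 with hz | hz
  · have y1 := sq_nonneg (q1 - p1)
    have y2 := sq_nonneg (q2 - p2)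
    have z1 : q1 - p1 = 0 :=
      (pow_eq_zero_iff two_ne_zero).1 (le_antisymm (by linarith only [hz, y2]) y1)
    have z2 : q2 - p2 = 0 :=
      (pow_eq_zero_iff two_ne_zero).1 (le_antisymm (by linarith only [hz, y1]) y2)
    rw [z1, z2] at h1
    simp at h1
  · exact absurd hz e1.ne

theorem twin_unique {n : ℕ} {z : Fin n → ℂ} (hz : Function.Injective z) {i j k k' : Fin n}
    (h : Del z (i, j, k)) (h' : Del z (i, j, k')) : k = k' := by
  by_contra hne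
  obtain ⟨h1, c, q, a1, a2, a3, a4⟩ := h
  obtain ⟨h2, d, q', b1, b2, b3, b4⟩ := h'
  simp only [crs, Complex.sub_re, Complex.sub_im] at h1 h2 a1 a2 a3 a4 b1 b2 b3 b4
  have hki : k ≠ i := by
    rintro rfl; simp at h1
  have hkj : k ≠ j := by
    rintro rfl; exact absurd h1 (by rw [mul_comm]; simp)
  have hki' : k' ≠ i := by
    rintro rfl; simp at h2
  have hkj' : k' ≠ j := by
    rintro rfl; exact absurd h2 (by rw [mul_comm]; simp)
  have a5 := a4 k' hki' hkj' (Ne.symm hne)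
  have b5 := b4 k hki hkj hne
  simp only [twinU_normSq, Complex.sub_re, Complex.sub_im] at a1 a2 a3 a5 b1 b2 b3 b5
  exact twinU_real h1 h2 a1 a2 a3 a5 b1 b2 b3 b5

end Pool.Agent.CAPS
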