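import Pool.Agent.Lib.MP_488b8a_co.Ker
import Pool.Agent.Lib.MP_488b8a_co.KerB
import Pool.Agent.Lib.MP_488b8a_co.KerInt
import Pool.Agent.Lib.MP_488b8a_co.Conv

/-! Project CAPS (MP_488b8a_co), module WF. -/

namespace Pool.Agent.CAPS

open Complex MeasureTheory

namespace WF

private theorem h_int {h : ℂ → ℂ} (hh : Hh h) : Integrable h := by
  have h1 : IntegrableOn h (Metric.ball 0 (1 / 4)) :=
    Measure.integrableOn_of_bounded (M := 1) measure_ball_lt_top.ne hh.1.aestronglyMeasurable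
      (ae_of_all _ hh.2.1)
  rwa [integrableOn_iff_integrable_of_support_subset] at h1
  intro x hx
  by_contra hc
  refine hx (hh.2.2 x ?_)
  simpa using hc

private theorem cv_int {G : ℂ → ℝ} (hG : Continuous G) {C : ℝ} (hC : ∀ x, |G x| ≤ C) {h : ℂ → ℂ}
    (hh : Hh h) (x : ℂ) : Integrable (fun y => (G (x - y) : ℂ) * h y) := by
  refine (h_int hh).bdd_mul (c := C) ?_ (ae_of_all _ fun y => ?_)
  · refine Continuous.aestronglyMeasurable ?_
    fun_prop
  · rw [Complex.norm_real, Real.norm_eq_abs]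
    exact hC _

/-- the directional derivative of the kernel -/
private noncomputable def dG (s T : ℝ) (e : ℂ) : ℂ → ℝ := fun y => fderiv ℝ (KK s T) y e

private theorem dG_smooth {s T : ℝ} (hs : 0 < s) (hT : 0 < T) (e : ℂ) :
    ContDiff ℝ 2 (dG s T e) := by
  have h1 : ContDiff ℝ 2 (fderiv ℝ (KK s T)) := (KK_smooth hs hT).fderiv_right (by norm_num)
  exact h1.clm_apply contDiff_const

/-- the second directional derivative of the kernel -/
private noncomputable def ddG (s T : ℝ) (e v : ℂ) : ℂ → ℝ := fun y => fderiv ℝ (dG s T e) y v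

private theorem ddG_cont {s T : ℝ} (hs : 0 < s) (hT : 0 < T) (e v : ℂ) :
    Continuous (ddG s T e v) := by
  have h1 : ContDiff ℝ 1 (fderiv ℝ (dG s T e)) := (dG_smooth hs hT e).fderiv_right (by norm_num)
  exact (h1.clm_apply contDiff_const).continuous

private theorem dG_scale {s T : ℝ} (c : ℝ) (e : ℂ) : dG s T (c • e) = fun y => c * dG s T e y := by
  funext y
  show fderiv ℝ (KK s T) y (c • e) = c * fderiv ℝ (KK s T) y e
  rw [map_smul, smul_eq_mul]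

private theorem dG_bdd {s T : ℝ} (hs : 0 < s) (hT : 0 < T) (e : ℂ) :
    ∃ C : ℝ, ∀ x, |dG s T e x| ≤ C ∧ ‖fderiv ℝ (dG s T e) x‖ ≤ C := by
  obtain ⟨C, hC⟩ := KK_bdd hs hT
  set c : ℝ := ‖e‖ + 1 with hc
  have hc0 : 0 < c := by positivity
  have he : e = c • (c⁻¹ • e) := by
    rw [smul_smul, mul_inv_cancel₀ hc0.ne', one_smul]
  have he1 : ‖c⁻¹ • e‖ ≤ 1 := by
    rw [norm_smul, Real.norm_eq_abs, abs_of_pos (inv_pos.2 hc0), ← div_eq_inv_mul,
      div_le_one hc0]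
    linarith
  have hC0 : 0 ≤ C := (abs_nonneg _).trans (hC 0).1
  refine ⟨c * C, fun x => ⟨?_, ?_⟩⟩
  · have h1 : |dG s T e x| ≤ ‖fderiv ℝ (KK s T) x‖ * ‖e‖ := by
      rw [← Real.norm_eq_abs]
      exact (fderiv ℝ (KK s T) x).le_opNorm e
    refine h1.trans ?_
    rw [mul_comm c]
    exact mul_le_mul (hC x).2.1 (by linarith) (norm_nonneg _) hC0
  · rw [he, dG_scale]
    have hd : DifferentiableAt ℝ (dG s T (c⁻¹ • e)) x :=
      ((dG_smooth hs hT _).differentiable (by norm_num)).differentiableAt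
    rw [fderiv_const_mul hd, norm_smul, Real.norm_eq_abs, abs_of_pos hc0]
    exact mul_le_mul_of_nonneg_left ((hC x).2.2 _ he1) hc0.le

end WF

open WF in
/-- the potential `W = KK s T * h` -/
theorem W_facts : ∃ C : ℝ, 0 < C ∧ ∀ (s T : ℝ) (h : ℂ → ℂ), 0 < s → s ≤ T → T ≤ 1 → Hh h →
    (∀ e : ℂ, ContDiff ℝ 1 (fun x => fderiv ℝ (cv (KK s T) h) x e)) ∧
    (∀ x e : ℂ, ‖x‖ ≤ 1 / 2 → ‖e‖ ≤ 1 →
      ‖fderiv ℝ (cv (KK s T) h) x e‖ ≤ C * Real.sqrt T ∧
      ‖fderiv ℝ (fun y => fderiv ℝ (cv (KK s T) h) y e) x‖ ≤ C * (1 + Real.log (1 / s))) ∧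
    ∀ x : ℂ, fderiv ℝ (fun y => fderiv ℝ (cv (KK s T) h) y 1) x 1 +
      fderiv ℝ (fun y => fderiv ℝ (cv (KK s T) h) y I) x I = cv (rho T) h x - cv (rho s) h x := by
  refine ⟨20, by norm_num, fun s T h hs hsT hT1 hh => ?_⟩
  have hT : 0 < T := lt_of_lt_of_le hs hsT
  have hs1 : s ≤ 1 := hsT.trans hT1
  have hG1 : ContDiff ℝ 1 (KK s T) := (KK_smooth hs hT).of_le (by norm_num)
  have hGb : ∃ C : ℝ, ∀ x, |KK s T x| ≤ C ∧ ‖fderiv ℝ (KK s T) x‖ ≤ C := by
    obtain ⟨C, hC⟩ := KK_bdd hs hT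
    exact ⟨C, fun x => ⟨(hC x).1, (hC x).2.1⟩⟩
  have hD : ∀ e : ℂ, (fun x => fderiv ℝ (cv (KK s T) h) x e) = cv (dG s T e) h := by
    intro e
    funext x
    exact (cv_C1 hG1 hGb hh).2 x e
  have hdC1 : ∀ e : ℂ, ContDiff ℝ 1 (dG s T e) := fun e => (dG_smooth hs hT e).of_le (by norm_num)
  have hDD : ∀ e x v : ℂ, fderiv ℝ (fun y => fderiv ℝ (cv (KK s T) h) y e) x v =
      cv (ddG s T e v) h x := by
    intro e x v
    rw [hD e]
    exact (cv_C1 (hdC1 e) (dG_bdd hs hT e) hh).2 x v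
  refine ⟨fun e => ?_, fun x e hx he => ⟨?_, ?_⟩, fun x => ?_⟩
  · rw [hD e]
    exact (cv_C1 (hdC1 e) (dG_bdd hs hT e) hh).1
  · rw [(cv_C1 hG1 hGb hh).2 x e]
    obtain ⟨h1, h2⟩ := int_d1 hT hT1
    refine le_trans (cv_bound (hdC1 e).continuous hh h1 ?_ (by linarith)) h2
    intro y hy
    exact KK_d1 hs hsT hy he
  · obtain ⟨h1, h2⟩ := int_d2 hs hs1
    have h3 : 0 ≤ Real.log (1 / s) := Real.log_nonneg (by
      rw [le_div_iff₀ hs]
      linarith)
    refine ContinuousLinearMap.opNorm_le_bound _ (by positivity) fun v => ?_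
    rw [hDD e x v]
    have h4 := cv_bound (g := fun y => ‖v‖ * (2 / (‖y‖ ^ 2 + s))) (ddG_cont hs hT e v) hh
      (h1.const_mul ‖v‖) (fun y _ => ?_) (show ‖x‖ ≤ 3 / 4 by linarith)
    · refine h4.trans ?_
      rw [integral_const_mul, mul_comm]
      exact mul_le_mul_of_nonneg_right h2 (norm_nonneg _)
    · have h5 : |ddG s T e v y| ≤ ‖fderiv ℝ (dG s T e) y‖ * ‖v‖ := by
        rw [← Real.norm_eq_abs]
        exact (fderiv ℝ (dG s T e) y).le_opNorm v
      refine h5.trans ?_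
      rw [mul_comm]
      exact mul_le_mul_of_nonneg_left (KK_d2 hs hsT y he) (norm_nonneg _)
  · rw [hDD 1 x 1, hDD I x I]
    have hb : ∀ e v : ℂ, ∃ C : ℝ, ∀ y, |ddG s T e v y| ≤ C := by
      intro e v
      obtain ⟨C, hC⟩ := dG_bdd hs hT e
      refine ⟨C * ‖v‖, fun y => ?_⟩
      have h5 : |ddG s T e v y| ≤ ‖fderiv ℝ (dG s T e) y‖ * ‖v‖ := by
        rw [← Real.norm_eq_abs]
        exact (fderiv ℝ (dG s T e) y).le_opNorm v
      exact h5.trans (mul_le_mul_of_nonneg_right (hC y).2 (norm_nonneg _))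
    obtain ⟨C1, hC1⟩ := hb 1 1
    obtain ⟨C2, hC2⟩ := hb I I
    obtain ⟨C3, hC3⟩ := rho_bdd hT
    obtain ⟨C4, hC4⟩ := rho_bdd hs
    unfold cv
    rw [← integral_add (cv_int (ddG_cont hs hT 1 1) hC1 hh x)
      (cv_int (ddG_cont hs hT I I) hC2 hh x),
      ← integral_sub (cv_int (rho_smooth hT).continuous (fun y => (hC3 y).1) hh x)
      (cv_int (rho_smooth hs).continuous (fun y => (hC4 y).1) hh x)]
    congr 1
    funext y
    have h6 : ddG s T 1 1 (x - y) + ddG s T I I (x - y) = rho T (x - y) - rho s (x - y) :=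
      KK_lap hs hT (x - y)
    have h7 : ((ddG s T 1 1 (x - y) : ℝ) : ℂ) + ((ddG s T I I (x - y) : ℝ) : ℂ) =
        ((rho T (x - y) : ℝ) : ℂ) - ((rho s (x - y) : ℝ) : ℂ) := by
      rw [← Complex.ofReal_add, h6, Complex.ofReal_sub]
    rw [← add_mul, h7, sub_mul]

end Pool.Agent.CAPS
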